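import Pool.Agent.helper98.NIG.Defs

/-!
# NIG-P3-G3 (helper97): kernels of actions with bounded orbits

author of the Lean proofs: helper29

PROOFS.
* `ker_finiteIndex`: let `Γ` be f.g. and let all orbits of `Γ` on `X` have at most `m` elements.
  For `x : X` the orbit of `x` is finite with `≤ m` elements, so the action on it gives a homomorphism
  `ψ_x : Γ →* Equiv.Perm (Fin m)` (compose `MulAction.toPermHom Γ (MulAction.orbit Γ x)` with
  `Equiv.Perm.viaEmbeddingHom` of an embedding of the orbit into `Fin m`, which is injective: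
  `Equiv.Perm.viaEmbeddingHom_injective`), and `g ∈ ker ψ_x` implies `g • y = y` for all `y` in the
  orbit. There are only finitely many homomorphisms `Γ →* Equiv.Perm (Fin m)` because `Γ` is f.g.
  (a homomorphism is determined by its values on a finite generating set, `MonoidHom.eq_of_eqOn_dense`),
  so `J := ⨅ ψ : Γ →* Equiv.Perm (Fin m), ψ.ker` has finite index (`Subgroup.finiteIndex_iInf`) and is
  contained in the kernel of the action.
* `finite_of_bounded_orbits`: if the action is faithful then the kernel is trivial of finite index,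
  so `Γ` is finite.
-/

namespace Pool.Agent.helper98.NIG

theorem ker_finiteIndex {Γ X : Type} [Group Γ] [MulAction Γ X] (hfg : Group.FG Γ) (m : ℕ)
    (h : ∀ x : X, (MulAction.orbit Γ x).Finite ∧ (MulAction.orbit Γ x).ncard ≤ m) :
    (MulAction.toPermHom Γ X).ker.FiniteIndex := by
  classical
  obtain ⟨S, hS⟩ := Group.fg_def.1 hfg
  have hfin : Finite (Γ →* Equiv.Perm (Fin m)) := by
    refine Finite.of_injective
      (fun (f : Γ →* Equiv.Perm (Fin m)) (s : S) => f s.1) ?_
    intro f g hfg'
    refine MonoidHom.eq_of_eqOn_dense hS ?_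
    intro s hs
    exact congrFun hfg' ⟨s, hs⟩
  have hJ : (⨅ ψ : Γ →* Equiv.Perm (Fin m), ψ.ker).FiniteIndex :=
    Subgroup.finiteIndex_iInf fun ψ => inferInstance
  refine Subgroup.finiteIndex_of_le (H := ⨅ ψ : Γ →* Equiv.Perm (Fin m), ψ.ker) ?_
  intro g hg
  rw [MonoidHom.mem_ker]
  ext x
  obtain ⟨hx, hm⟩ := h x
  haveI : Finite (MulAction.orbit Γ x) := hx
  haveI : Fintype (MulAction.orbit Γ x) := Fintype.ofFinite _
  have hcard : Fintype.card (MulAction.orbit Γ x) ≤ Fintype.card (Fin m) := by
    rw [Fintype.card_fin, ← Nat.card_eq_fintype_card]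
    exact hm
  obtain ⟨e⟩ := Function.Embedding.nonempty_of_card_le hcard
  have h1 : g ∈ ((Equiv.Perm.viaEmbeddingHom e).comp
      (MulAction.toPermHom Γ (MulAction.orbit Γ x))).ker := (Subgroup.mem_iInf.1 hg) _
  rw [MonoidHom.mem_ker, MonoidHom.comp_apply] at h1
  have h2 : MulAction.toPermHom Γ (MulAction.orbit Γ x) g = 1 :=
    Equiv.Perm.viaEmbeddingHom_injective e (h1.trans (map_one _).symm)
  have h3 := congrArg (fun (p : Equiv.Perm (MulAction.orbit Γ x)) =>
    ((p ⟨x, MulAction.mem_orbit_self x⟩ : MulAction.orbit Γ x) : X)) h2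
  exact h3

theorem finite_of_bounded_orbits {Γ X : Type} [Group Γ] [MulAction Γ X] [FaithfulSMul Γ X]
    (hfg : Group.FG Γ) (m : ℕ)
    (h : ∀ x : X, (MulAction.orbit Γ x).Finite ∧ (MulAction.orbit Γ x).ncard ≤ m) :
    Finite Γ := by
  have h1 := ker_finiteIndex hfg m h
  have h2 : (MulAction.toPermHom Γ X).ker = ⊥ :=
    (MonoidHom.ker_eq_bot_iff _).2 MulAction.toPerm_injective
  rw [h2] at h1
  exact Subgroup.finite_iff_finite_and_finiteIndex (H := (⊥ : Subgroup Γ)) |>.2
    ⟨inferInstance, h1⟩

end Pool.Agent.helper98.NIG
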