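import Pool.Agent.helper98.NIG.Defs

/-!
# NIG-P3-G1 (helper97): growth, transfer to subgroups and quotients

author: helper83

PROOFS.
* `ExpGrowth.of_injective`: `T' = T.image φ`; `φ` maps `Ball T n` injectively into `Ball T' n`
  (which is finite: `ball_finite`), so `ncard` does not decrease (`Set.ncard_le_ncard_of_injOn`).
* `ExpGrowth.of_surjective`: choose preimages of the elements of `T` (`T' = T.image σ`,
  `σ` a section of `φ`); `Ball T n ⊆ φ '' (Ball T' n)`, so
  `ncard (Ball T n) ≤ ncard (φ '' Ball T' n) ≤ ncard (Ball T' n)`.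
* `ball_finite`: the image of the finite set of lists of length `≤ n` over the finite type
  `T ∪ T⁻¹` (`List.finite_length_le`).
-/

namespace Pool.Agent.helper98.NIG

theorem ball_finite {Γ : Type} [Group Γ] (T : Finset Γ) (n : ℕ) : (Ball (T : Set Γ) n).Finite := by
  classical
  set S : Set Γ := (T : Set Γ) ∪ (T : Set Γ)⁻¹ with hS
  have hSf : S.Finite := T.finite_toSet.union T.finite_toSet.inv
  have : Finite S := hSf
  have h1 : {l : List S | l.length ≤ n}.Finite := List.finite_length_le S n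
  refine (h1.image fun l => (l.map Subtype.val).prod).subset ?_
  rintro g ⟨l, hl, hlS, rfl⟩
  have hmem : ∀ s ∈ l, s ∈ S := by
    intro s hs
    rcases hlS s hs with h | h
    · exact Or.inl h
    · exact Or.inr h
  refine ⟨l.attach.map fun s => ⟨s.1, hmem s.1 s.2⟩, ?_, ?_⟩
  · simpa using hl
  · simp only [List.map_map]
    congr 1
    exact List.attach_map_subtype_val l

private theorem Growth_ball_map {Γ Γ' : Type} [Group Γ] [Group Γ'] (φ : Γ →* Γ')
    {T : Set Γ} {T' : Set Γ'} (hT : ∀ s ∈ T, φ s ∈ T') {n : ℕ} {g : Γ} (hg : g ∈ Ball T n) :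
    φ g ∈ Ball T' n := by
  obtain ⟨l, hl, hlS, rfl⟩ := hg
  refine ⟨l.map φ, by simpa using hl, ?_, by rw [map_list_prod]⟩
  intro s hs
  obtain ⟨t, ht, rfl⟩ := List.mem_map.1 hs
  rcases hlS t ht with h | h
  · exact Or.inl (hT t h)
  · right
    rw [← map_inv]
    exact hT _ h

theorem ExpGrowth.of_injective {Γ Γ' : Type} [Group Γ] [Group Γ'] (φ : Γ →* Γ')
    (hφ : Function.Injective φ) (h : ExpGrowth Γ) : ExpGrowth Γ' := by
  classical
  obtain ⟨T, c, hc, h⟩ := h
  refine ⟨T.image φ, c, hc, fun n => (h n).trans ?_⟩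
  have h1 : (Ball (T : Set Γ) n).ncard ≤ (Ball ((T.image φ : Finset Γ') : Set Γ') n).ncard := by
    refine Set.ncard_le_ncard_of_injOn φ ?_ hφ.injOn (ball_finite _ n)
    intro g hg
    exact Growth_ball_map φ (fun s hs => by simpa using ⟨s, hs, rfl⟩) hg
  exact_mod_cast h1

theorem ExpGrowth.of_surjective {Γ Γ' : Type} [Group Γ] [Group Γ'] (φ : Γ →* Γ')
    (hφ : Function.Surjective φ) (h : ExpGrowth Γ') : ExpGrowth Γ := by
  classical
  obtain ⟨T, c, hc, h⟩ := h
  choose σ hσ using hφ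
  refine ⟨T.image σ, c, hc, fun n => (h n).trans ?_⟩
  have h0 : Ball (T : Set Γ') n ⊆ φ '' Ball ((T.image σ : Finset Γ) : Set Γ) n := by
    rintro g ⟨l, hl, hlS, rfl⟩
    -- a lift of each letter
    have hlift : ∀ s ∈ l, ∃ t : Γ, (t ∈ ((T.image σ : Finset Γ) : Set Γ) ∨
        t⁻¹ ∈ ((T.image σ : Finset Γ) : Set Γ)) ∧ φ t = s := by
      intro s hs
      rcases hlS s hs with h | h
      · refine ⟨σ s, Or.inl ?_, hσ s⟩
        simpa using ⟨s, h, rfl⟩
      · refine ⟨(σ s⁻¹)⁻¹, Or.inr ?_, by rw [map_inv, hσ, inv_inv]⟩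
        rw [inv_inv]
        simpa using ⟨s⁻¹, h, rfl⟩
    choose! τ hτ1 hτ2 using hlift
    refine ⟨(l.map τ).prod, ⟨l.map τ, by simpa using hl, ?_, rfl⟩, ?_⟩
    · intro s hs
      obtain ⟨t, ht, rfl⟩ := List.mem_map.1 hs
      exact hτ1 t ht
    · rw [map_list_prod, List.map_map]
      congr 1
      conv_rhs => rw [← List.map_id l]
      exact List.map_congr_left fun s hs => hτ2 s hs
  have h1 : (Ball (T : Set Γ') n).ncard ≤ (Ball ((T.image σ : Finset Γ) : Set Γ) n).ncard :=
    (Set.ncard_le_ncard h0 ((ball_finite _ n).image _)).trans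
      (Set.ncard_image_le (ball_finite _ n))
  exact_mod_cast h1

end Pool.Agent.helper98.NIG
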