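import Pool.Agent.helper97.NIG.Growth

/-!
# NIG-P3-G2 (helper97): Milnor's lemma

author: helper6

`milnor_ker_fg`: if a finitely generated group has no exponential growth then the kernel of every
homomorphism to `ℤ` is finitely generated.

PROOF.
(1) `milnor_collision`: let `t a : Γ`, `¬ ExpGrowth Γ`. Put `c i = t^i * a * t^(-i)` (`i : ℤ`).
Then there is `n : ℕ` such that `c k ∈ closure {c j | 0 ≤ j < n}` for ALL `k : ℤ`.
For `ε : Fin n → Bool` (or `List Bool` of length `n`) let `w ε = a^{ε_0} t a^{ε_1} t ... a^{ε_{n-1}} t`,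
an element of `Ball {t, a} (2 n)`. If for every `n` all the `2^n` elements `w ε` were distinct then
`2^n ≤ ncard (Ball {t,a} (2n))` for all `n`, hence with `c = 2^(1/4)`: `c^n ≤ ncard (Ball {t,a} n)`
for all `n` (`n = 0`: the ball contains `1`; `n = 1`: `1` and `t` are different, otherwise there are
collisions already... simply use `ncard ≥ 2` for `n ≥ 2` and for `n = 1` that `t ≠ 1` or `a ≠ 1` because
`w` is injective for `n = 1`), so `ExpGrowth Γ`. (Any `c > 1` will do, e.g. `c = 2^(1/8)`, choose what is
convenient.)  Hence there are `n` and `ε ≠ ε'` with `w ε = w ε'`. As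
`w ε = c_0^{ε_0} c_1^{ε_1} ... c_{n-1}^{ε_{n-1}} t^n` we get `∏ c_i^{ε_i} = ∏ c_i^{ε'_i}`.
Let `p` be the LARGEST index with `ε_p ≠ ε'_p`: cancelling the common right factors gives
`c_p ∈ closure {c_0, .., c_{p-1}}`. Conjugating with `t^k` (`k ≥ 0`) and induction:
`c_k ∈ closure {c_0..c_{p-1}}` for all `k ≥ 0` (`c_{p+k} ∈ closure {c_k .. c_{p+k-1}}`).
Let `q` be the SMALLEST index with `ε_q ≠ ε'_q`: `c_q ∈ closure {c_{q+1}, .., c_{n-1}}`; conjugating with
`t^{-k}` and induction: `c_{-k} ∈ closure {c_0 .. c_{n-1}}` for all `k ≥ 0`.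
(It may be easier to get the second statement from the first one applied to `t⁻¹` in place of `t`,
which gives another `n'`: `c_{-k} ∈ closure {c_0, c_{-1}, .., c_{-(p'-1)}}` for all `k ≥ 0`; then simply
state the lemma with the finite set `{c_j | |j| < n}`; this is what is asked for.)
(2) `milnor_ker_fg`. If `φ` is trivial, `ker φ = ⊤` is f.g. Otherwise the range of `φ` (a subgroup of
`ℤ`, `Multiplicative ℤ` is cyclic, every subgroup of a cyclic group is cyclic) is generated by `φ t`,
`φ t ≠ 1`. Let `S` be a finite generating set. For `s ∈ S` let `φ s = (φ t)^(e s)`, `a s = s * t^(-e s)`,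
which is in the kernel. Let `N` be the closure of all `t^j * a s * t^(-j)`, `j : ℤ`, `s ∈ S`; by (1) `N` is the
closure of a finite set. `N ≤ ker φ`. Every element of `Γ` is of the form `ν * t^k` with `ν ∈ N`: these
elements form a subgroup containing `t` and all `s = a s * t^(e s)` (`N` is normalised by `t`).
If `ν * t^k ∈ ker φ` then `(φ t)^k = 1`, so `k = 0` (`Multiplicative ℤ` is torsion free). So
`ker φ = N` is f.g.
-/

namespace Pool.Agent.helper98.NIG

/-- the conjugates -/
private def cj {Γ : Type} [Group Γ] (t a : Γ) (k : ℕ) : Γ := t ^ k * a * (t ^ k)⁻¹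

/-- the words -/
private def wd {Γ : Type} [Group Γ] (t a : Γ) (l : List Bool) : Γ :=
  (l.map fun b => if b then a * t else t).prod

/-- the ordered products of conjugates -/
private def pr {Γ : Type} [Group Γ] (t a : Γ) : List Bool → ℕ → Γ
  | [], _ => 1
  | b :: l, k => (if b then cj t a k else 1) * pr t a l (k + 1)

private lemma wd_eq {Γ : Type} [Group Γ] (t a : Γ) (l : List Bool) (k : ℕ) :
    t ^ k * wd t a l = pr t a l k * t ^ (k + l.length) := by
  induction l generalizing k with
  | nil => simp [wd, pr]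
  | cons b l ih =>
    have h := ih (k + 1)
    have e : wd t a (b :: l) = (if b then a * t else t) * wd t a l := by simp [wd]
    have e2 : pr t a (b :: l) k = (if b then cj t a k else 1) * pr t a l (k + 1) := rfl
    have e3 : k + (b :: l).length = k + 1 + l.length := by simp; ring
    rw [e, e2, e3, mul_assoc, ← h]
    cases b
    · simp only [Bool.false_eq_true, if_false, one_mul]
      rw [pow_succ]; group
    · simp only [if_true, cj]
      rw [pow_succ]; group

private lemma pr_rel {Γ : Type} [Group Γ] (t a : Γ) (l : List Bool) :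
    ∀ (l' : List Bool) (k : ℕ) (g : Γ), l.length = l'.length → l ≠ l' →
      g ∈ Subgroup.closure {z : Γ | ∃ j : ℕ, j < k ∧ z = cj t a j} →
      pr t a l k = g * pr t a l' k →
      ∃ p : ℕ, cj t a p ∈ Subgroup.closure {z : Γ | ∃ j : ℕ, j < p ∧ z = cj t a j} := by
  induction l with
  | nil =>
    intro l' k g hlen hne
    cases l' with
    | nil => exact absurd rfl hne
    | cons b l' => simp at hlen
  | cons b m ih =>
    intro l' k g hlen hne hg h
    cases l' with
    | nil => simp at hlen
    | cons b' m' =>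
      have hlen' : m.length = m'.length := by simpa using hlen
      have hmono : Subgroup.closure {z : Γ | ∃ j : ℕ, j < k ∧ z = cj t a j} ≤
          Subgroup.closure {z : Γ | ∃ j : ℕ, j < k + 1 ∧ z = cj t a j} := by
        apply Subgroup.closure_mono
        rintro z ⟨j, hj, rfl⟩
        exact ⟨j, by omega, rfl⟩
      have hck : ∀ b : Bool, (if b then cj t a k else 1) ∈
          Subgroup.closure {z : Γ | ∃ j : ℕ, j < k + 1 ∧ z = cj t a j} := by
        intro b
        cases b
        · simp only [Bool.false_eq_true, if_false]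
          exact one_mem _
        · simp only [if_true]
          exact Subgroup.subset_closure ⟨k, by omega, rfl⟩
      have h' : pr t a m (k + 1) =
          ((if b then cj t a k else 1)⁻¹ * g * (if b' then cj t a k else 1)) *
            pr t a m' (k + 1) := by
        have h2 : (if b then cj t a k else 1) * pr t a m (k + 1) =
            g * ((if b' then cj t a k else 1) * pr t a m' (k + 1)) := h
        rw [mul_assoc, mul_assoc, ← h2, inv_mul_cancel_left]
      by_cases hm : m = m'
      · subst hm
        have hb : b ≠ b' := fun hb => hne (by rw [hb])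
        have h3 : (if b then cj t a k else 1)⁻¹ * g * (if b' then cj t a k else 1) = 1 := by
          have := h'.symm
          rwa [mul_eq_right] at this
        refine ⟨k, ?_⟩
        cases b <;> cases b'
        · exact absurd rfl hb
        · simp only [Bool.false_eq_true, if_false, if_true, inv_one, one_mul] at h3
          rw [← inv_eq_of_mul_eq_one_right h3]
          exact inv_mem hg
        · simp only [Bool.false_eq_true, if_false, if_true, mul_one] at h3
          rw [inv_mul_eq_one] at h3
          rw [h3]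
          exact hg
        · exact absurd rfl hb
      · exact ih m' (k + 1) _ hlen' hm
          (mul_mem (mul_mem (inv_mem (hck b)) (hmono hg)) (hck b')) h'

private lemma exists_coll {Γ : Type} [Group Γ] (h : ¬ ExpGrowth Γ) (t a : Γ) :
    ∃ l l' : List Bool, l.length = l'.length ∧ l ≠ l' ∧ wd t a l = wd t a l' := by
  classical
  by_contra hcon
  push Not at hcon
  apply h
  refine ⟨{t, a * t}, 2, by norm_num, fun n => ?_⟩
  have hfin : (Ball (({t, a * t} : Finset Γ) : Set Γ) n).Finite := ball_finite _ n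
  have h1 : (Set.univ : Set (Fin n → Bool)).ncard ≤
      (Ball (({t, a * t} : Finset Γ) : Set Γ) n).ncard := by
    refine Set.ncard_le_ncard_of_injOn (fun f => wd t a (List.ofFn f)) ?_ ?_ hfin
    · intro f _
      refine ⟨(List.ofFn f).map fun b => if b then a * t else t, by simp, ?_, rfl⟩
      intro s hs
      obtain ⟨b, -, rfl⟩ := List.mem_map.1 hs
      left
      cases b <;> simp
    · intro f _ g _ hfg
      by_contra hne
      exact hcon (List.ofFn f) (List.ofFn g) (by simp)
        (fun h => hne (List.ofFn_injective h)) hfg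
  rw [Set.ncard_univ, Nat.card_eq_fintype_card, Fintype.card_fun, Fintype.card_bool,
    Fintype.card_fin] at h1
  exact_mod_cast h1

private lemma coll_nat {Γ : Type} [Group Γ] (h : ¬ ExpGrowth Γ) (t a : Γ) :
    ∃ p : ℕ, ∀ k : ℕ, cj t a k ∈
      Subgroup.closure {z : Γ | ∃ j : ℕ, j < p ∧ z = cj t a j} := by
  obtain ⟨l, l', hlen, hne, hw⟩ := exists_coll h t a
  have h1 := wd_eq t a l 0
  have h2 := wd_eq t a l' 0
  rw [hw, h2, hlen] at h1
  have h3 := mul_right_cancel h1
  obtain ⟨p, hp⟩ := pr_rel t a l l' 0 1 hlen hne (one_mem _) (by rw [one_mul, h3])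
  refine ⟨p, fun k => ?_⟩
  induction k using Nat.strong_induction_on with
  | _ k ih =>
    rcases Nat.lt_or_ge k p with hk | hk
    · exact Subgroup.subset_closure ⟨k, hk, rfl⟩
    · obtain ⟨i, rfl⟩ := Nat.exists_eq_add_of_le hk
      have h4 : cj t a (p + i) = t ^ i * cj t a p * (t ^ i)⁻¹ := by
        simp only [cj]
        rw [add_comm p i, pow_add]; group
      rw [h4]
      have h5 : Subgroup.closure {z : Γ | ∃ j : ℕ, j < p ∧ z = cj t a j} ≤
          (Subgroup.closure {z : Γ | ∃ j : ℕ, j < p ∧ z = cj t a j}).comap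
            (MulAut.conj (t ^ i)).toMonoidHom := by
        rw [Subgroup.closure_le]
        rintro z ⟨j, hj, rfl⟩
        change t ^ i * cj t a j * (t ^ i)⁻¹ ∈
          Subgroup.closure {z : Γ | ∃ j : ℕ, j < p ∧ z = cj t a j}
        have h6 : t ^ i * cj t a j * (t ^ i)⁻¹ = cj t a (j + i) := by
          simp only [cj]
          rw [add_comm j i, pow_add]; group
        rw [h6]
        exact ih (j + i) (by omega)
      exact h5 hp

theorem milnor_collision {Γ : Type} [Group Γ] (h : ¬ ExpGrowth Γ) (t a : Γ) :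
    ∃ n : ℕ, ∀ k : ℤ, t ^ k * a * t ^ (-k) ∈
      Subgroup.closure {z : Γ | ∃ j : ℤ, |j| < n ∧ z = t ^ j * a * t ^ (-j)} := by
  obtain ⟨p, hp⟩ := coll_nat h t a
  obtain ⟨q, hq⟩ := coll_nat h t⁻¹ a
  refine ⟨max p q, fun k => ?_⟩
  obtain ⟨m, rfl | rfl⟩ := Int.eq_nat_or_neg k
  · have h1 : t ^ (m : ℤ) * a * t ^ (-(m : ℤ)) = cj t a m := by
      simp only [cj, zpow_neg, zpow_natCast]
    rw [h1]
    refine (Subgroup.closure_mono ?_) (hp m)
    rintro z ⟨j, hj, rfl⟩
    refine ⟨(j : ℤ), ?_, ?_⟩
    · rw [Nat.abs_cast]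
      exact_mod_cast lt_of_lt_of_le hj (le_max_left p q)
    · simp only [cj, zpow_neg, zpow_natCast]
  · have h1 : t ^ (-(m : ℤ)) * a * t ^ (-(-(m : ℤ))) = cj t⁻¹ a m := by
      simp only [cj, zpow_neg, zpow_natCast, inv_pow, inv_inv]
    rw [h1]
    refine (Subgroup.closure_mono ?_) (hq m)
    rintro z ⟨j, hj, rfl⟩
    refine ⟨-(j : ℤ), ?_, ?_⟩
    · rw [abs_neg, Nat.abs_cast]
      exact_mod_cast lt_of_lt_of_le hj (le_max_right p q)
    · simp only [cj, zpow_neg, zpow_natCast, inv_pow, inv_inv]

theorem milnor_ker_fg {Γ : Type} [Group Γ] (hfg : Group.FG Γ) (h : ¬ ExpGrowth Γ)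
    (φ : Γ →* Multiplicative ℤ) : φ.ker.FG := by
  classical
  obtain ⟨⟨g, hg⟩, hgen⟩ := (inferInstance : IsCyclic φ.range).exists_generator
  obtain ⟨t, rfl⟩ := hg
  have he : ∀ s : Γ, ∃ e : ℤ, φ s = φ t ^ e := by
    intro s
    obtain ⟨e, he⟩ := hgen ⟨φ s, s, rfl⟩
    exact ⟨e, by simpa using (congrArg Subtype.val he).symm⟩
  choose e he using he
  by_cases ht : φ t = 1
  · have h1 : φ.ker = ⊤ := by
      rw [eq_top_iff]
      intro s _
      rw [MonoidHom.mem_ker, he s, ht, one_zpow]
    rw [h1]
    exact Group.fg_def.1 hfg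
  · obtain ⟨S, hS⟩ := Group.fg_def.1 hfg
    choose n hn using fun s : Γ => milnor_collision h t (s * t ^ (-(e s)))
    set F : Set Γ := ⋃ s ∈ S, {z : Γ | ∃ j : ℤ, |j| < n s ∧
      z = t ^ j * (s * t ^ (-(e s))) * t ^ (-j)} with hF
    have hFfin : F.Finite := by
      apply Set.Finite.biUnion S.finite_toSet
      intro s _
      refine ((Set.finite_Icc (-(n s : ℤ)) (n s)).image
        fun j : ℤ => t ^ j * (s * t ^ (-(e s))) * t ^ (-j)).subset ?_
      rintro z ⟨j, hj, rfl⟩
      exact ⟨j, ⟨(abs_lt.1 hj).1.le, (abs_lt.1 hj).2.le⟩, rfl⟩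
    have hcj : ∀ s ∈ S, ∀ k : ℤ, t ^ k * (s * t ^ (-(e s))) * t ^ (-k) ∈ Subgroup.closure F := by
      intro s hs k
      refine (Subgroup.closure_mono ?_) (hn s k)
      intro z hz
      exact Set.mem_biUnion (show s ∈ (S : Set Γ) from hs) hz
    have hnorm : ∀ (x : Γ) (k : ℤ), x ∈ Subgroup.closure F →
        t ^ k * x * t ^ (-k) ∈ Subgroup.closure F := by
      intro x k hx
      have h5 : Subgroup.closure F ≤
          (Subgroup.closure F).comap (MulAut.conj (t ^ k)).toMonoidHom := by
        rw [Subgroup.closure_le]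
        intro z hz
        obtain ⟨s, hs, j, -, rfl⟩ := Set.mem_iUnion₂.1 hz
        change t ^ k * (t ^ j * (s * t ^ (-(e s))) * t ^ (-j)) * (t ^ k)⁻¹ ∈ Subgroup.closure F
        have h6 : t ^ k * (t ^ j * (s * t ^ (-(e s))) * t ^ (-j)) * (t ^ k)⁻¹ =
            t ^ (k + j) * (s * t ^ (-(e s))) * t ^ (-(k + j)) := by
          rw [zpow_add, neg_add_rev, zpow_add t (-j)]; group
        rw [h6]
        exact hcj s hs (k + j)
      have h6 := h5 hx
      have h7 : (MulAut.conj (t ^ k)).toMonoidHom x = t ^ k * x * t ^ (-k) := by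
        rw [zpow_neg]; rfl
      rw [← h7]
      exact h6
    have hall : ∀ g : Γ, ∃ ν ∈ Subgroup.closure F, ∃ k : ℤ, g = ν * t ^ k := by
      intro g
      have hg : g ∈ Subgroup.closure (S : Set Γ) := by rw [hS]; trivial
      induction hg using Subgroup.closure_induction with
      | mem s hs =>
        refine ⟨s * t ^ (-(e s)), ?_, e s, by group⟩
        simpa using hcj s hs 0
      | one => exact ⟨1, one_mem _, 0, by simp⟩
      | mul x y _ _ hx hy =>
        obtain ⟨ν, hν, k, rfl⟩ := hx
        obtain ⟨μ, hμ, m, rfl⟩ := hy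
        refine ⟨ν * (t ^ k * μ * t ^ (-k)), mul_mem hν (hnorm μ k hμ), k + m, ?_⟩
        rw [zpow_add]; group
      | inv x _ hx =>
        obtain ⟨ν, hν, k, rfl⟩ := hx
        refine ⟨t ^ (-k) * ν⁻¹ * t ^ (-(-k)), hnorm _ (-k) (inv_mem hν), -k, ?_⟩
        group
    rw [Subgroup.fg_iff]
    refine ⟨F, le_antisymm ?_ ?_, hFfin⟩
    · rw [Subgroup.closure_le]
      intro z hz
      obtain ⟨s, hs, j, -, rfl⟩ := Set.mem_iUnion₂.1 hz
      show _ ∈ φ.ker
      rw [MonoidHom.mem_ker]
      simp only [map_mul, map_zpow, he s]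
      group
    · intro g hg
      obtain ⟨ν, hν, k, rfl⟩ := hall g
      have hνk : ν ∈ φ.ker := by
        have hle : Subgroup.closure F ≤ φ.ker := by
          rw [Subgroup.closure_le]
          intro z hz
          obtain ⟨s, hs, j, -, rfl⟩ := Set.mem_iUnion₂.1 hz
          show _ ∈ φ.ker
          rw [MonoidHom.mem_ker]
          simp only [map_mul, map_zpow, he s]
          group
        exact hle hν
      rw [MonoidHom.mem_ker, map_mul, MonoidHom.mem_ker.1 hνk, one_mul, map_zpow] at hg
      have hk : k = 0 := by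
        by_contra hk
        apply ht
        have h8 : k * Multiplicative.toAdd (φ t) = 0 := by
          have := congrArg Multiplicative.toAdd hg
          simpa [toAdd_zpow] using this
        rcases mul_eq_zero.1 h8 with h9 | h9
        · exact absurd h9 hk
        · exact Multiplicative.toAdd.injective (by simpa using h9)
      rw [hk, zpow_zero, mul_one]
      exact hν

end Pool.Agent.helper98.NIG
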