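import Pool.Agent.helper97.NIG.Growth

/-!
# NIG-P3-G4 (helper97): polynomial growth from homomorphisms to ℤ with finite common kernel

author: helper74

PROOF of `poly_of_homs`. Let `T` be the generating set, `B n = Ball T n`. Choose a finite set of
representatives `R` with `Γ = ⋃ K r`, `r ∈ R` (`K.FiniteIndex`), and `c0` with `R ⊆ B c0` (every
element is in some ball, because `T` generates `Γ`). If `g ∈ B n`, `g = k r` then `k = g r⁻¹ ∈ B (n + c0)`
(balls are symmetric and `B n * B m ⊆ B (n+m)`). So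
`ncard (B n) ≤ card R * ncard {k ∈ K | k ∈ B (n + c0)}`. The map `k ↦ (j ↦ φ j k)` from
`{k ∈ K | k ∈ B (n+c0)}` to `Fin m → Finset.Icc (-(C (n+c0))) (C (n+c0))` has fibres of size at most
`ncard L`, `L = {k | ∀ j, φ j k = 1}` (two elements of a fibre differ by an element of `L`). So
`ncard {k ∈ K | k ∈ B (n + c0)} ≤ ncard L * (2 C (n+c0) + 1)^m ≤ const * (n+1)^m`.
-/

namespace Pool.Agent.helper98.NIG

private theorem PolyHom_mul {Γ : Type} [Group Γ] {T : Set Γ} {n m : ℕ} {g h : Γ}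
    (hg : g ∈ Ball T n) (hh : h ∈ Ball T m) : g * h ∈ Ball T (n + m) := by
  obtain ⟨l, hl, hlS, rfl⟩ := hg
  obtain ⟨l', hl', hlS', rfl⟩ := hh
  refine ⟨l ++ l', by rw [List.length_append]; omega, ?_, List.prod_append⟩
  intro s hs
  rcases List.mem_append.1 hs with h | h
  · exact hlS s h
  · exact hlS' s h

private theorem PolyHom_inv {Γ : Type} [Group Γ] {T : Set Γ} {n : ℕ} {g : Γ}
    (hg : g ∈ Ball T n) : g⁻¹ ∈ Ball T n := by
  obtain ⟨l, hl, hlS, rfl⟩ := hg
  refine ⟨(l.map (fun x => x⁻¹)).reverse, by simpa using hl, ?_, ?_⟩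
  · intro s hs
    rw [List.mem_reverse, List.mem_map] at hs
    obtain ⟨t, ht, rfl⟩ := hs
    rcases hlS t ht with h | h
    · right
      simpa using h
    · exact Or.inl h
  · rw [List.prod_inv_reverse]

private theorem PolyHom_mono {Γ : Type} [Group Γ] {T : Set Γ} {n m : ℕ} (h : n ≤ m) {g : Γ}
    (hg : g ∈ Ball T n) : g ∈ Ball T m := by
  obtain ⟨l, hl, hlS, rfl⟩ := hg
  exact ⟨l, hl.trans h, hlS, rfl⟩

private theorem PolyHom_exists {Γ : Type} [Group Γ] {T : Set Γ}
    (hT : Subgroup.closure T = ⊤) (g : Γ) : ∃ n, g ∈ Ball T n := by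
  have hg : g ∈ Subgroup.closure T := by rw [hT]; trivial
  rw [← Subgroup.mem_toSubmonoid, Subgroup.closure_toSubmonoid] at hg
  obtain ⟨l, hl, rfl⟩ := Submonoid.exists_list_of_mem_closure hg
  refine ⟨l.length, l, le_rfl, fun s hs => ?_, rfl⟩
  rcases hl s hs with h | h
  · exact Or.inl h
  · exact Or.inr h

theorem poly_of_homs {Γ : Type} [Group Γ] (T : Finset Γ)
    (hT : Subgroup.closure (T : Set Γ) = ⊤) (K : Subgroup Γ) [K.FiniteIndex] (m : ℕ)
    (φ : Fin m → (K →* Multiplicative ℤ)) (C : ℕ)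
    (hφ : ∀ (j : Fin m) (n : ℕ) (k : K), (k : Γ) ∈ Ball (T : Set Γ) n →
      |(Multiplicative.toAdd (φ j k) : ℤ)| ≤ C * n)
    (hL : {k : K | ∀ j, φ j k = 1}.Finite) : PolyGrowth Γ := by
  classical
  have : Fintype (Γ ⧸ K) := Subgroup.fintypeQuotientOfFiniteIndex
  -- radius of the representatives
  choose ν hν using PolyHom_exists (T := (T : Set Γ)) hT
  set c0 : ℕ := Finset.univ.sup (fun q : Γ ⧸ K => ν q.out) with hc0
  have hout : ∀ q : Γ ⧸ K, (q.out : Γ) ∈ Ball (T : Set Γ) c0 := fun q =>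
    PolyHom_mono (Finset.le_sup (f := fun q : Γ ⧸ K => ν q.out) (Finset.mem_univ q)) (hν _)
  have hk : ∀ g : Γ, ((g : Γ ⧸ K).out)⁻¹ * g ∈ K := fun g =>
    QuotientGroup.eq.1 (QuotientGroup.out_eq' (g : Γ ⧸ K))
  set κ : Γ → K := fun g => ⟨((g : Γ ⧸ K).out)⁻¹ * g, hk g⟩ with hκ
  set f : Γ → (Γ ⧸ K) × (Fin m → ℤ) :=
    fun g => ((g : Γ ⧸ K), fun j => Multiplicative.toAdd (φ j (κ g))) with hf
  set I : Finset K := hL.toFinset with hI
  refine ⟨T, m, I.card * (Fintype.card (Γ ⧸ K) * (2 * C * (c0 + 1) + 1) ^ m), hT, fun n => ?_⟩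
  set B : Finset Γ := (ball_finite T n).toFinset with hB
  have hBc : (Ball (T : Set Γ) n).ncard = B.card := Set.ncard_eq_toFinset_card _ _
  rw [hBc]
  have hmemB : ∀ g, g ∈ B ↔ g ∈ Ball (T : Set Γ) n := fun g => by rw [hB, Set.Finite.mem_toFinset]
  -- fibres
  have h1 : ∀ a ∈ B.image f, (B.filter (fun x => f x = a)).card ≤ I.card := by
    intro a ha
    obtain ⟨g0, hg0, rfl⟩ := Finset.mem_image.1 ha
    have hq : ∀ g ∈ B.filter (fun x => f x = f g0), g0⁻¹ * g ∈ K := by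
      intro g hg
      have h2 : ((g : Γ) : Γ ⧸ K) = (g0 : Γ ⧸ K) := congrArg Prod.fst (Finset.mem_filter.1 hg).2
      exact QuotientGroup.eq.1 h2.symm
    refine Finset.card_le_card_of_injOn
      (fun g => if h : g0⁻¹ * g ∈ K then (⟨g0⁻¹ * g, h⟩ : K) else 1) ?_ ?_
    · intro g hg
      have hg' : g ∈ B.filter (fun x => f x = f g0) := hg
      have h3 := hq g hg'
      simp only [h3, dif_pos]
      have h2 : ((g : Γ) : Γ ⧸ K) = (g0 : Γ ⧸ K) := congrArg Prod.fst (Finset.mem_filter.1 hg').2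
      have h4 : (⟨g0⁻¹ * g, h3⟩ : K) = (κ g0)⁻¹ * κ g := by
        ext
        simp only [hκ, Subgroup.coe_mul, Subgroup.coe_inv, h2]
        group
      show _ ∈ I
      rw [h4, hI, Set.Finite.mem_toFinset]
      intro j
      have h5 : Multiplicative.toAdd (φ j (κ g)) = Multiplicative.toAdd (φ j (κ g0)) :=
        congrFun (congrArg Prod.snd (Finset.mem_filter.1 hg').2) j
      have h6 : φ j (κ g) = φ j (κ g0) := Multiplicative.toAdd.injective h5
      rw [map_mul, map_inv, h6, inv_mul_cancel]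
    · intro g hg g' hg' h
      have hg1 := hq g hg
      have hg2 := hq g' hg'
      simp only [hg1, hg2, dif_pos] at h
      have h3 := congrArg (Subtype.val) h
      exact mul_left_cancel h3
  have h2 := Finset.card_le_mul_card_image B I.card h1
  have h3 : (B.image f).card ≤ Fintype.card (Γ ⧸ K) * (2 * (C * (n + c0)) + 1) ^ m := by
    have h4 : B.image f ⊆ (Finset.univ : Finset (Γ ⧸ K)) ×ˢ
        Fintype.piFinset (fun _ : Fin m =>
          Finset.Icc (-((C * (n + c0) : ℕ) : ℤ)) ((C * (n + c0) : ℕ) : ℤ)) := by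
      intro a ha
      obtain ⟨g, hg, rfl⟩ := Finset.mem_image.1 ha
      rw [Finset.mem_product]
      refine ⟨Finset.mem_univ _, ?_⟩
      rw [Fintype.mem_piFinset]
      intro j
      have h5 : ((κ g : K) : Γ) ∈ Ball (T : Set Γ) (n + c0) := by
        rw [add_comm]
        exact PolyHom_mul (PolyHom_inv (hout _)) ((hmemB g).1 hg)
      have h6 := hφ j (n + c0) (κ g) h5
      rw [Finset.mem_Icc, ← abs_le]
      push_cast at h6 ⊢
      exact h6
    refine (Finset.card_le_card h4).trans ?_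
    rw [Finset.card_product, Finset.card_univ, Fintype.card_piFinset]
    refine Nat.mul_le_mul le_rfl ?_
    simp only [Int.card_Icc, Finset.prod_const, Finset.card_univ, Fintype.card_fin]
    refine Nat.pow_le_pow_left ?_ m
    omega
  have h7 : (2 * (C * (n + c0)) + 1) ^ m ≤ (2 * C * (c0 + 1) + 1) ^ m * (n + 1) ^ m := by
    rw [← Nat.mul_pow]
    refine Nat.pow_le_pow_left ?_ m
    nlinarith [Nat.zero_le (C * n * c0), Nat.zero_le (C * c0), Nat.zero_le C, Nat.zero_le n,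
      Nat.zero_le (C * n)]
  calc B.card ≤ I.card * (B.image f).card := h2
    _ ≤ I.card * (Fintype.card (Γ ⧸ K) * (2 * (C * (n + c0)) + 1) ^ m) :=
        Nat.mul_le_mul le_rfl h3
    _ ≤ I.card * (Fintype.card (Γ ⧸ K) * ((2 * C * (c0 + 1) + 1) ^ m * (n + 1) ^ m)) :=
        Nat.mul_le_mul le_rfl (Nat.mul_le_mul le_rfl h7)
    _ = I.card * (Fintype.card (Γ ⧸ K) * (2 * C * (c0 + 1) + 1) ^ m) * (n + 1) ^ m := by ring

end Pool.Agent.helper98.NIG
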