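import Pool.Agent.helper97.NIG.PLim
import Pool.Agent.helper97.NIG.Growth
import Pool.Agent.helper97.NIG.Milnor
import Pool.Agent.helper97.NIG.FinInd
import Pool.Agent.helper97.NIG.PolyHom

/-!
# NIG / P3c : the case of a translation pair (helper97)
-/

open scoped BigOperators
open Set Function

set_option linter.unusedSectionVars false
set_option linter.deprecated false

namespace Pool.Agent.helper98.NIG

open _root_.NIG.Strand

variable {b : Base} {F : Type} [Fintype F]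

namespace Sys

variable {A : Sys b F}

theorem mem_D_of_orb {x y : Pt b F} (hx : x ∈ A.D) (hy : y ∈ A.orb x) : y ∈ A.D := by
  obtain ⟨g, hg, rfl⟩ := hy
  exact A.map_mem hg hx

theorem Uset_eq {N : ℕ} (hN : A.BCN N) {x x' : Pt b F} (hx : x ∈ A.D) (hx' : x' ∈ A.D) :
    A.Uset x = A.Uset x' := Subset.antisymm (Uset_sub hN hx hx') (Uset_sub hN hx' hx)

theorem Uset_add {N : ℕ} (hN : A.BCN N) {x : Pt b F} (hx : x ∈ A.D) {t t' : ℝ}
    (ht : t ∈ A.Uset x) (ht' : t' ∈ A.Uset x) : t + t' ∈ A.Uset x := by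
  obtain ⟨y, hy, hxy, rfl⟩ := ht
  have hyD := mem_D_of_orb hx hy
  rw [Uset_eq hN hx hyD] at ht'
  obtain ⟨z, hz, hyz, rfl⟩ := ht'
  rw [A.orb_eq hy] at hz
  exact ⟨z, hz, hxy.trans hyz, dh_add hy⟩

theorem Uset_neg {N : ℕ} (hN : A.BCN N) {x : Pt b F} (hx : x ∈ A.D) {t : ℝ}
    (ht : t ∈ A.Uset x) : -t ∈ A.Uset x := by
  obtain ⟨y, hy, hxy, rfl⟩ := ht
  have hyD := mem_D_of_orb hx hy
  rw [Uset_eq hN hx hyD]
  exact ⟨x, by rw [A.orb_eq hy]; exact A.orb_self x, hxy.symm, dh_symm hy⟩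

theorem Uset_zero {x : Pt b F} : (0 : ℝ) ∈ A.Uset x :=
  ⟨x, A.orb_self x, PRel.refl A x, dh_self x⟩

theorem Uset_fin {N : ℕ} (hN : A.BCN N) {x : Pt b F} (hx : x ∈ A.D) (B : ℝ) :
    {t | t ∈ A.Uset x ∧ |t| ≤ B}.Finite := by
  obtain ⟨K, hK⟩ := pos_bound hN
  obtain ⟨C, hC⟩ := exists_nat_ge (K * (B + 1) : ℝ)
  have hf : ((Icc (-(C : ℤ)) C ×ˢ (univ : Set F))).Finite := (finite_Icc _ _).prod finite_univ
  refine (hf.image (fun q => A.dh x (sh q.1 x.1, q.2))).subset ?_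
  rintro t ⟨⟨y, hy, hxy, rfl⟩, ht⟩
  refine ⟨(pos x y, y.2), ⟨?_, mem_univ _⟩, ?_⟩
  · have h1 := hK x hx y hy
    have h2 : (K : ℝ) * (|A.dh x y| + 1) ≤ K * (B + 1) :=
      mul_le_mul_of_nonneg_left (by linarith) (Nat.cast_nonneg _)
    have h3 : |(pos x y : ℝ)| ≤ C := h1.trans (h2.trans hC)
    have h4 : |pos x y| ≤ (C : ℤ) := by exact_mod_cast h3
    exact abs_le.1 h4
  · show A.dh x (sh (pos x y) x.1, y.2) = A.dh x y
    rw [← eq_of_pos (A.sameLine_orb hy)]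

/-- the group of periods is cyclic -/
theorem exists_period {N : ℕ} (hN : A.BCN N) (h : ∃ x ∈ A.D, ∃ t ∈ A.Uset x, t ≠ 0) :
    ∃ u0 : ℝ, 0 < u0 ∧ ∀ x ∈ A.D, ∀ t, t ∈ A.Uset x ↔ ∃ n : ℤ, t = n * u0 := by
  obtain ⟨x0, hx0, t0, ht0, hne⟩ := h
  set UG : AddSubgroup ℝ :=
    { carrier := A.Uset x0
      add_mem' := fun ha hb => Uset_add hN hx0 ha hb
      zero_mem' := Uset_zero
      neg_mem' := fun ha => Uset_neg hN hx0 ha } with hUG
  have hmem : ∀ t, t ∈ UG ↔ t ∈ A.Uset x0 := fun t => Iff.rfl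
  -- a positive element
  obtain ⟨t1, ht1, ht1p⟩ : ∃ t1 ∈ A.Uset x0, 0 < t1 := by
    rcases lt_or_gt_of_ne hne with h | h
    · exact ⟨-t0, Uset_neg hN hx0 ht0, by linarith⟩
    · exact ⟨t0, ht0, h⟩
  set W : Set ℝ := {t | t ∈ A.Uset x0 ∧ |t| ≤ t1} ∩ {t | 0 < t} with hW
  have hWf : W.Finite := (Uset_fin hN hx0 t1).subset inter_subset_left
  have hWn : W.Nonempty := ⟨t1, ⟨ht1, by rw [abs_of_pos ht1p]⟩, ht1p⟩
  obtain ⟨u0, hu0, hmin⟩ := Set.exists_min_image W id hWf hWn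
  have hleast : IsLeast {g : ℝ | g ∈ UG ∧ 0 < g} u0 := by
    refine ⟨⟨hu0.1.1, hu0.2⟩, ?_⟩
    rintro g ⟨hg1, hg2⟩
    rcases le_total g t1 with hle | hle
    · exact hmin g ⟨⟨hg1, by rw [abs_of_pos hg2]; exact hle⟩, hg2⟩
    · exact (hmin t1 ⟨⟨ht1, by rw [abs_of_pos ht1p]⟩, ht1p⟩).trans hle
  have hcyc := AddSubgroup.cyclic_of_min hleast
  refine ⟨u0, hu0.2, fun x hx t => ?_⟩
  rw [Uset_eq hN hx hx0, ← hmem, hcyc, AddSubgroup.mem_closure_singleton]
  constructor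
  · rintro ⟨n, rfl⟩
    exact ⟨n, by simp⟩
  · rintro ⟨n, rfl⟩
    exact ⟨n, by simp⟩

/-- the setoid of `PRel` on `D` -/
def PSet (A : Sys b F) : Setoid A.D where
  r x y := A.PRel x.1 y.1
  iseqv := ⟨fun x => PRel.refl A x.1, fun h => h.symm, fun h h' => h.trans h'⟩

/-- the action on `D` modulo `PRel` -/
@[reducible] def actQ (A : Sys b F) : MulAction A.G (Quotient A.PSet) where
  smul g := Quotient.map' (s₁ := A.PSet) (s₂ := A.PSet)
    (fun x => (⟨g.1 x.1, A.map_mem g.2 x.2⟩ : A.D)) (fun _ _ h => PRel.map h g.2)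
  one_smul q := by
    induction q using Quotient.inductionOn with
    | _ x => rfl
  mul_smul g h q := by
    induction q using Quotient.inductionOn with
    | _ x => rfl

theorem actQ_mk (g : A.G) (x : A.D) :
    (A.actQ).smul g (Quotient.mk A.PSet x) = Quotient.mk A.PSet ⟨g.1 x.1, A.map_mem g.2 x.2⟩ := rfl

theorem orbit_bound {N : ℕ} (hN : A.BCN N) {u0 : ℝ} (hu0 : 0 < u0)
    (hU : ∀ x ∈ A.D, ∀ t, t ∈ A.Uset x ↔ ∃ n : ℤ, t = n * u0) :
    ∃ m : ℕ, ∀ q : Quotient A.PSet,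
      (@MulAction.orbit A.G (Quotient A.PSet) A.actQ.toSMul q).Finite ∧
      (@MulAction.orbit A.G (Quotient A.PSet) A.actQ.toSMul q).ncard ≤ m := by
  classical
  let _ := A.actQ
  obtain ⟨K, hK⟩ := pos_bound hN
  obtain ⟨C, hC⟩ := exists_nat_ge (K * (u0 + 1) : ℝ)
  refine ⟨(Icc (-(C : ℤ)) C ×ˢ (univ : Set F)).ncard, fun q => ?_⟩
  induction q using Quotient.inductionOn with
  | _ x =>
    have hf : ((Icc (-(C : ℤ)) C ×ˢ (univ : Set F))).Finite := (finite_Icc _ _).prod finite_univ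
    set fn : ℤ × F → Quotient A.PSet := fun q =>
      if h : (sh q.1 x.1.1, q.2) ∈ A.D then Quotient.mk A.PSet ⟨_, h⟩ else Quotient.mk A.PSet x
      with hfn
    have hsub : MulAction.orbit A.G (Quotient.mk A.PSet x) ⊆
        fn '' (Icc (-(C : ℤ)) C ×ˢ (univ : Set F)) := by
      rintro _ ⟨g, rfl⟩
      show (A.actQ).smul g (Quotient.mk A.PSet x) ∈ _
      rw [actQ_mk]
      set z : Pt b F := g.1 x.1 with hz
      have hzo : z ∈ A.orb x.1 := ⟨g.1, g.2, rfl⟩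
      have hzD : z ∈ A.D := A.map_mem g.2 x.2
      set n : ℤ := -⌊A.dh x.1 z / u0⌋ with hn
      obtain ⟨z', hz'o, hzz', hz'⟩ := (hU z hzD (n * u0)).2 ⟨n, rfl⟩
      have hz'o' : z' ∈ A.orb x.1 := by rw [← A.orb_eq hzo]; exact hz'o
      have hz'D : z' ∈ A.D := mem_D_of_orb x.2 hz'o'
      have h1 : A.dh x.1 z' = A.dh x.1 z + n * u0 := by rw [dh_add hzo, hz']
      have h2 : (⌊A.dh x.1 z / u0⌋ : ℝ) * u0 ≤ A.dh x.1 z := by
        rw [← le_div_iff₀ hu0]; exact Int.floor_le _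
      have h3 : A.dh x.1 z < (⌊A.dh x.1 z / u0⌋ + 1 : ℝ) * u0 := by
        rw [← div_lt_iff₀ hu0]; exact Int.lt_floor_add_one _
      have h4 : (n : ℝ) = - (⌊A.dh x.1 z / u0⌋ : ℝ) := by rw [hn]; push_cast; ring
      have h5 : |A.dh x.1 z'| ≤ u0 := by
        rw [h1, h4, abs_le]
        constructor <;> linarith
      have h6 := hK x.1 x.2 z' hz'o'
      have h7 : (K : ℝ) * (|A.dh x.1 z'| + 1) ≤ K * (u0 + 1) :=
        mul_le_mul_of_nonneg_left (by linarith) (Nat.cast_nonneg _)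
      have h8 : |(pos x.1 z' : ℝ)| ≤ C := h6.trans (h7.trans hC)
      have h9 : |pos x.1 z'| ≤ (C : ℤ) := by exact_mod_cast h8
      refine ⟨(pos x.1 z', z'.2), ⟨abs_le.1 h9, mem_univ _⟩, ?_⟩
      have h10 : z' = (sh (pos x.1 z') x.1.1, z'.2) := eq_of_pos (A.sameLine_orb hz'o')
      simp only [hfn]
      rw [dif_pos (by rw [← h10]; exact hz'D)]
      apply Quotient.sound
      show A.PRel (sh (pos x.1 z') x.1.1, z'.2) z
      rw [← h10]
      exact hzz'.symm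
    refine ⟨(hf.image fn).subset hsub, ?_⟩
    exact (Set.ncard_le_ncard hsub (hf.image fn)).trans (Set.ncard_image_le hf)

/-- the group of elements which move every point inside of its class -/
def KG (A : Sys b F) : Subgroup A.G := (@MulAction.toPermHom A.G (Quotient A.PSet) _ A.actQ).ker

theorem KG_prel {k : A.G} (hk : k ∈ A.KG) {x : Pt b F} (hx : x ∈ A.D) : A.PRel x (k.1 x) := by
  let _ := A.actQ
  have h1 := (MonoidHom.mem_ker).1 hk
  have h2 := Equiv.congr_fun h1 (Quotient.mk A.PSet ⟨x, hx⟩)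
  rw [MulAction.toPermHom_apply, MulAction.toPerm_apply, Equiv.Perm.one_apply] at h2
  have h3 : Quotient.mk A.PSet ⟨k.1 x, A.map_mem k.2 hx⟩ = Quotient.mk A.PSet ⟨x, hx⟩ := h2
  exact (Quotient.exact h3 : A.PRel _ _).symm

theorem group_fg (A : Sys b F) : Group.FG A.G := by
  rw [Group.fg_iff_subgroup_fg]
  exact ⟨A.S, rfl⟩

theorem KG_finiteIndex {N : ℕ} (hN : A.BCN N) {u0 : ℝ} (hu0 : 0 < u0)
    (hU : ∀ x ∈ A.D, ∀ t, t ∈ A.Uset x ↔ ∃ n : ℤ, t = n * u0) : A.KG.FiniteIndex := by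
  obtain ⟨m, hm⟩ := orbit_bound hN hu0 hU
  let _ := A.actQ
  exact ker_finiteIndex A.group_fg m hm

/-- the homomorphisms to `ℤ` -/
theorem exists_hom {N : ℕ} (hN : A.BCN N) {u0 : ℝ} (hu0 : 0 < u0)
    (hU : ∀ x ∈ A.D, ∀ t, t ∈ A.Uset x ↔ ∃ n : ℤ, t = n * u0) (x : A.D) :
    ∃ φ : A.KG →* Multiplicative ℤ, ∀ k : A.KG,
      A.dh x.1 (k.1.1 x.1) = (Multiplicative.toAdd (φ k) : ℤ) * u0 := by
  have h1 : ∀ k : A.KG, ∃ n : ℤ, A.dh x.1 (k.1.1 x.1) = n * u0 := by
    intro k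
    apply (hU x.1 x.2 _).1
    exact ⟨_, A.orb_map k.1.2 (A.orb_self _), KG_prel k.2 x.2, rfl⟩
  choose ν hν using h1
  refine ⟨MonoidHom.mk' (fun k => Multiplicative.ofAdd (ν k)) ?_, fun k => hν k⟩
  intro k k'
  rw [← ofAdd_add]
  congr 1
  have h2 : ((ν (k * k') : ℤ) : ℝ) * u0 = ((ν k + ν k' : ℤ) : ℝ) * u0 := by
    rw [← hν]
    push_cast
    rw [add_mul, ← hν, ← hν]
    show A.dh x.1 (k.1.1 (k'.1.1 x.1)) = _
    rw [dh_add (A.orb_map k.1.2 (A.orb_self x.1)),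
      dh_const hN x.2 (A.orb_map k'.1.2 (A.orb_self x.1)) (KG_prel k'.2 x.2) k.1.2]
  have h4 := mul_right_cancel₀ hu0.ne' h2
  exact_mod_cast h4

end Sys

theorem iInf_ker_fg {Γ : Type} [Group Γ] (hfg : Group.FG Γ) (h : ¬ ExpGrowth Γ) {m : ℕ}
    (ψ : Fin m → (Γ →* Multiplicative ℤ)) : (⨅ j, (ψ j).ker).FG := by
  classical
  have key : ∀ s : Finset (Fin m), (⨅ j ∈ s, (ψ j).ker).FG := by
    intro s
    induction s using Finset.induction_on with
    | empty =>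
      simp only [Finset.notMem_empty, iInf_false, iInf_top]
      exact (Group.fg_def).1 hfg
    | insert a s _ ih =>
      rw [Finset.iInf_insert]
      set H : Subgroup Γ := ⨅ j ∈ s, (ψ j).ker with hH
      have h1 : Group.FG H := (Group.fg_iff_subgroup_fg H).2 ih
      have h2 : ¬ ExpGrowth H := fun hc => h (ExpGrowth.of_injective H.subtype
        H.subtype_injective hc)
      have h3 := milnor_ker_fg h1 h2 ((ψ a).comp H.subtype)
      have h4 : (ψ a).ker ⊓ H = ((ψ a).comp H.subtype).ker.map H.subtype := by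
        ext z
        rw [Subgroup.mem_inf, Subgroup.mem_map]
        constructor
        · rintro ⟨h5, h6⟩
          exact ⟨⟨z, h6⟩, h5, rfl⟩
        · rintro ⟨w, h5, rfl⟩
          exact ⟨h5, w.2⟩
      rw [h4]
      obtain ⟨S, hS⟩ := h3
      refine ⟨S.image H.subtype, ?_⟩
      rw [Finset.coe_image, ← MonoidHom.map_closure, hS]
  have := key Finset.univ
  simpa using this

namespace Sys

variable {A : Sys b F}

/-- the generating set as a finite subset of the group -/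
theorem exists_gen (A : Sys b F) : ∃ T : Finset A.G, Subgroup.closure (T : Set A.G) = ⊤ ∧
    ∀ s ∈ T, s.1 ∈ A.S := by
  classical
  refine ⟨A.S.attach.image (fun s => ⟨s.1, A.mem_G_of_mem_S s.2⟩), ?_, ?_⟩
  · have h1 : ((A.S.attach.image (fun s => (⟨s.1, A.mem_G_of_mem_S s.2⟩ : A.G)) : Finset A.G)
        : Set A.G) = ((↑) : A.G → Equiv.Perm (Pt b F)) ⁻¹' (A.S : Set (Equiv.Perm (Pt b F))) := by
      ext z
      rw [Finset.mem_coe, Finset.mem_image, mem_preimage, Finset.mem_coe]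
      constructor
      · rintro ⟨s, _, rfl⟩
        exact s.2
      · intro hz
        exact ⟨⟨z.1, hz⟩, Finset.mem_attach _ _, rfl⟩
    rw [h1]
    exact Subgroup.closure_closure_coe_preimage
  · intro s hs
    rw [Finset.mem_image] at hs
    obtain ⟨t, -, rfl⟩ := hs
    exact t.2

theorem hδ_ball {N : ℕ} (hN : A.BCN N) {T : Finset A.G} (hT : ∀ s ∈ T, s.1 ∈ A.S) {n : ℕ}
    {g : A.G} (hg : g ∈ Ball (T : Set A.G) n) {x : Pt b F} (hx : x ∈ A.D) :
    |A.hδ g.1 x| ≤ n := by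
  obtain ⟨l, hl, hlT, rfl⟩ := hg
  have key : ∀ l : List A.G, (∀ s ∈ l, s ∈ (T : Set A.G) ∨ s⁻¹ ∈ (T : Set A.G)) →
      |A.hδ l.prod.1 x| ≤ l.length := by
    intro l
    induction l with
    | nil =>
      intro _
      simp only [List.prod_nil, List.length_nil]
      have : A.hδ ((1 : A.G) : Equiv.Perm (Pt b F)) x = 0 := by
        unfold hδ
        show A.Hc (A.orb x) x - A.Hc (A.orb x) x = 0
        rw [sub_self]
      rw [this]; simp
    | cons s l ih =>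
      intro h
      have h1 := ih (fun t ht => h t (List.mem_cons_of_mem _ ht))
      have hs : s.1 ∈ A.S := by
        rcases h s List.mem_cons_self with h2 | h2
        · exact hT _ h2
        · have h3 := A.inv_mem _ (hT _ h2)
          have h4 : (s⁻¹.1 : Equiv.Perm (Pt b F))⁻¹ = s.1 := by
            show ((s.1)⁻¹)⁻¹ = s.1
            rw [inv_inv]
          rwa [h4] at h3
      have h2 : ((s :: l).prod).1 = s.1 * l.prod.1 := by rw [List.prod_cons]; rfl
      rw [h2, hδ_mul l.prod.2]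
      have h3 := hδ_lip hN (A.map_mem l.prod.2 hx) hs
      rw [List.length_cons, Nat.cast_add, Nat.cast_one]
      exact (abs_add_le _ _).trans (by linarith)
  exact (key l hlT).trans (by exact_mod_cast hl)

/-- **Case T**: if there is a translation pair, then the growth is polynomial or exponential. -/
theorem caseT {N : ℕ} (hN : A.BCN N) (h : ∃ x ∈ A.D, ∃ t ∈ A.Uset x, t ≠ 0)
    (hexp : ¬ ExpGrowth A.G) : PolyGrowth A.G := by
  classical
  obtain ⟨u0, hu0, hU⟩ := exists_period hN h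
  have hFI : A.KG.FiniteIndex := KG_finiteIndex hN hu0 hU
  have hGfg : Group.FG A.G := A.group_fg
  have hKfg : Group.FG A.KG := Subgroup.fg_of_index_ne_zero A.KG
  have hKexp : ¬ ExpGrowth A.KG := fun hc => hexp (ExpGrowth.of_injective A.KG.subtype
    A.KG.subtype_injective hc)
  choose φ hφ using fun x : A.D => exists_hom hN hu0 hU x
  -- finitely many homomorphisms
  obtain ⟨TK, hTK⟩ := (Group.fg_def.1 hKfg)
  have hbk : ∀ k : A.KG, ∃ M : ℤ, ∀ x : A.D, |(Multiplicative.toAdd (φ x k) : ℤ)| ≤ M := by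
    intro k
    obtain ⟨B, hB⟩ := hδ_bdd hN k.1.2
    refine ⟨⌈B / u0⌉, fun x => ?_⟩
    have h1 := hB x.1 x.2
    rw [← dh_map, hφ x k, abs_mul, abs_of_pos hu0, ← le_div_iff₀ hu0] at h1
    have h2 := h1.trans (Int.le_ceil (B / u0))
    exact_mod_cast h2
  choose M hM using hbk
  have hrange : (range φ).Finite := by
    set ev : (A.KG →* Multiplicative ℤ) → (TK → ℤ) := fun f k => Multiplicative.toAdd (f k.1)
      with hev
    have hinj : InjOn ev (range φ) := by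
      intro f _ f' _ hff
      apply MonoidHom.eq_of_eqOn_dense hTK
      intro k hk
      have := congrFun hff ⟨k, hk⟩
      exact Multiplicative.toAdd.injective this
    apply Set.Finite.of_finite_image _ hinj
    have hpi : (Set.pi univ (fun k : TK => Icc (-(M k.1)) (M k.1))).Finite :=
      Set.Finite.pi (fun k => finite_Icc _ _)
    refine hpi.subset ?_
    rintro _ ⟨_, ⟨x, rfl⟩, rfl⟩
    intro k _
    exact abs_le.1 (hM k.1 x)
  obtain ⟨m, e⟩ : ∃ m : ℕ, Nonempty (Fin m ≃ range φ) := by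
    have : Finite (range φ) := hrange
    obtain ⟨m, ⟨e⟩⟩ := Finite.exists_equiv_fin (range φ)
    exact ⟨m, ⟨e.symm⟩⟩
  obtain ⟨e⟩ := e
  set ψ : Fin m → (A.KG →* Multiplicative ℤ) := fun j => (e j).1 with hψ
  have hψx : ∀ x : A.D, ∃ j, ψ j = φ x := by
    intro x
    exact ⟨e.symm ⟨φ x, x, rfl⟩, by simp [hψ]⟩
  have hψr : ∀ j, ∃ x : A.D, ψ j = φ x := by
    intro j
    obtain ⟨x, hx⟩ := (e j).2
    exact ⟨x, hx.symm⟩
  -- the common kernel
  set L : Subgroup A.KG := ⨅ j, (ψ j).ker with hL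
  have hLfg : Group.FG L := (Group.fg_iff_subgroup_fg L).2 (iInf_ker_fg hKfg hKexp ψ)
  have hLdh : ∀ k ∈ L, ∀ x ∈ A.D, A.dh x (k.1.1 x) = 0 := by
    intro k hk x hx
    obtain ⟨j, hj⟩ := hψx ⟨x, hx⟩
    have h1 : k ∈ (ψ j).ker := (Subgroup.mem_iInf.1 hk) j
    rw [MonoidHom.mem_ker, hj] at h1
    have h2 := hφ ⟨x, hx⟩ k
    rw [h1] at h2
    simpa using h2
  have hLfin : Finite L := by
    obtain ⟨K, hK⟩ := pos_bound hN
    let _ : MulAction L (Pt b F) :=
      MulAction.compHom (Pt b F) (A.G.subtype.comp (A.KG.subtype.comp L.subtype))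
    have hsm : ∀ (k : L) (z : Pt b F), k • z = k.1.1.1 z := fun _ _ => rfl
    have : FaithfulSMul L (Pt b F) := by
      constructor
      intro k k' hkk
      apply Subtype.ext
      apply Subtype.ext
      apply Subtype.ext
      apply Equiv.ext
      intro z
      rw [← hsm, ← hsm]
      exact hkk z
    apply finite_of_bounded_orbits (X := Pt b F) hLfg
      ((Icc (-(K : ℤ)) K ×ˢ (univ : Set F)).ncard)
    intro z
    have hf : ((Icc (-(K : ℤ)) K ×ˢ (univ : Set F))).Finite := (finite_Icc _ _).prod finite_univ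
    have hsub : MulAction.orbit L z ⊆
        (fun q : ℤ × F => ((sh q.1 z.1, q.2) : Pt b F)) '' (Icc (-(K : ℤ)) K ×ˢ (univ : Set F)) := by
      rintro _ ⟨k, rfl⟩
      show k • z ∈ _
      rw [hsm]
      by_cases hz : z ∈ A.D
      · have ho : k.1.1.1 z ∈ A.orb z := ⟨_, k.1.1.2, rfl⟩
        have h1 := hK z hz _ ho
        rw [hLdh k.1 k.2 z hz] at h1
        simp only [abs_zero, zero_add, mul_one] at h1
        have h2 : |pos z (k.1.1.1 z)| ≤ (K : ℤ) := by exact_mod_cast h1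
        exact ⟨(pos z (k.1.1.1 z), (k.1.1.1 z).2), ⟨abs_le.1 h2, mem_univ _⟩,
          (eq_of_pos (A.sameLine_orb ho)).symm⟩
      · rw [A.map_of_not_mem k.1.1.2 hz]
        refine ⟨(0, z.2), ⟨⟨by omega, by omega⟩, mem_univ _⟩, ?_⟩
        simp
    exact ⟨(hf.image _).subset hsub,
      (Set.ncard_le_ncard hsub (hf.image _)).trans (Set.ncard_image_le hf)⟩
  obtain ⟨T, hT, hTS⟩ := A.exists_gen
  obtain ⟨C, hC⟩ := exists_nat_ge (1 / u0)
  refine poly_of_homs T hT A.KG m ψ C ?_ ?_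
  · intro j n k hk
    obtain ⟨x, hx⟩ := hψr j
    rw [hx]
    have h1 := hδ_ball hN hTS hk x.2
    rw [← dh_map, hφ x k, abs_mul, abs_of_pos hu0, ← le_div_iff₀ hu0] at h1
    have h2 : (n : ℝ) / u0 ≤ C * n := by
      rw [div_eq_mul_one_div, mul_comm]
      exact mul_le_mul_of_nonneg_right hC (Nat.cast_nonneg _)
    have h3 := h1.trans h2
    exact_mod_cast h3
  · have h1 : {k : A.KG | ∀ j, ψ j k = 1} = (L : Set A.KG) := by
      ext k
      rw [SetLike.mem_coe, hL, Subgroup.mem_iInf]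
      rfl
    rw [h1]
    exact Set.toFinite _

end Sys

end Pool.Agent.helper98.NIG
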