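import Pool.Agent.helper97.NIG.CaseN
import Pool.Agent.helper97.NIG.CaseT

/-!
# NIG / P3e : the reduced quotient (helper97)
-/

open scoped BigOperators
open Set Function

set_option linter.unusedSectionVars false
set_option linter.deprecated false

namespace Pool.Agent.helper98.NIG

open _root_.NIG.Strand

variable {b : Base} {F : Type} [Fintype F]

/-- a numbering of the floors -/
noncomputable def fe (φ : F) : ℕ := (Fintype.equivFin F φ).val

theorem fe_lt (φ : F) : fe φ < Fintype.card F := (Fintype.equivFin F φ).2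

theorem fe_inj {φ ψ : F} (h : fe φ = fe ψ) : φ = ψ :=
  (Fintype.equivFin F).injective (Fin.ext h)

namespace Sys

variable {A : Sys b F}

/-- `z` is the first point of its class -/
def First (A : Sys b F) (z : Pt b F) : Prop :=
  ∀ w ∈ A.D, A.PRel z w → (fe z.2 : ℤ) ≤ pos z w * Fintype.card F + fe w.2

theorem First.unique {z z' : Pt b F} (hz : A.First z) (hz' : A.First z') (hzD : z ∈ A.D)
    (hzD' : z' ∈ A.D) (h : A.PRel z z') : z = z' := by
  have h1 := hz z' hzD' h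
  have h2 := hz' z hzD h.symm
  rw [pos_neg h.1] at h2
  have h3 : (fe z.2 : ℤ) < Fintype.card F := by exact_mod_cast fe_lt z.2
  have h4 : (fe z'.2 : ℤ) < Fintype.card F := by exact_mod_cast fe_lt z'.2
  have h5 : (0 : ℤ) ≤ fe z.2 := by positivity
  have h6 : (0 : ℤ) ≤ fe z'.2 := by positivity
  have h7 : pos z z' = 0 := by
    rcases lt_trichotomy (pos z z') 0 with h | h | h
    · exfalso
      have : pos z z' * (Fintype.card F : ℤ) ≤ -1 * Fintype.card F :=
        mul_le_mul_of_nonneg_right (by omega) (by positivity)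
      linarith
    · exact h
    · exfalso
      have : (1 : ℤ) * (Fintype.card F : ℤ) ≤ pos z z' * Fintype.card F :=
        mul_le_mul_of_nonneg_right (by omega) (by positivity)
      linarith
  rw [h7] at h1 h2
  have h8 : fe z.2 = fe z'.2 := by
    have : (fe z.2 : ℤ) = fe z'.2 := by linarith
    exact_mod_cast this
  rw [eq_of_pos h.1, h7, sh_zero, ← fe_inj h8]

/-- hypotheses of the construction -/
structure QH (A : Sys b F) (B0 R : ℕ) : Prop where
  hB : ∀ x ∈ A.D, A.cls x = A.PB B0 x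
  hR : ∀ x ∈ A.D, ∀ x' ∈ A.D, Agree R x x' → A.OB B0 x = A.OB B0 x'

theorem QH.pos_le {B0 R : ℕ} (h : A.QH B0 R) {x y : Pt b F} (hx : x ∈ A.D) (hy : y ∈ A.D)
    (hxy : A.PRel x y) : |pos x y| ≤ B0 := by
  have h1 : y ∈ A.cls x := ⟨hy, hxy⟩
  rw [h.hB x hx] at h1
  exact h1.2.2 1 A.G.one_mem

theorem QH.exists_first {B0 R : ℕ} (h : A.QH B0 R) {x : Pt b F} (hx : x ∈ A.D) :
    ∃ z, z ∈ A.D ∧ A.PRel x z ∧ A.First z := by
  have hf : (A.cls x).Finite := by rw [h.hB x hx]; exact PB_finite _ _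
  obtain ⟨z, hz, hmin⟩ := Set.exists_min_image (A.cls x)
    (fun w => pos x w * Fintype.card F + (fe w.2 : ℤ)) hf ⟨x, hx, PRel.refl A x⟩
  refine ⟨z, hz.1, hz.2, fun w hw hzw => ?_⟩
  have h1 := hmin w ⟨hw, hz.2.trans hzw⟩
  rw [pos_add hz.2.1 hzw.1] at h1
  linarith

open Classical in
/-- the first point of the class of `x` -/
noncomputable def pr (A : Sys b F) (x : Pt b F) : Pt b F :=
  if h : ∃ z, z ∈ A.D ∧ A.PRel x z ∧ A.First z then h.choose else x

theorem QH.pr_spec {B0 R : ℕ} (h : A.QH B0 R) {x : Pt b F} (hx : x ∈ A.D) :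
    A.pr x ∈ A.D ∧ A.PRel x (A.pr x) ∧ A.First (A.pr x) := by
  have h1 := h.exists_first hx
  unfold pr
  rw [dif_pos h1]
  exact h1.choose_spec

theorem QH.pr_eq {B0 R : ℕ} (h : A.QH B0 R) {x z : Pt b F} (hx : x ∈ A.D) (hz : z ∈ A.D)
    (hxz : A.PRel x z) (hf : A.First z) : A.pr x = z := by
  obtain ⟨h1, h2, h3⟩ := h.pr_spec hx
  exact h3.unique hf h1 hz (h2.symm.trans hxz)

theorem QH.pr_congr {B0 R : ℕ} (h : A.QH B0 R) {x y : Pt b F} (hx : x ∈ A.D) (hy : y ∈ A.D)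
    (hxy : A.PRel x y) : A.pr x = A.pr y := by
  obtain ⟨h1, h2, h3⟩ := h.pr_spec hy
  exact h.pr_eq hx h1 (hxy.trans h2) h3

/-- the first points -/
def Dq (A : Sys b F) : Set (Pt b F) := {x | x ∈ A.D ∧ A.First x}

theorem QH.pr_self {B0 R : ℕ} (h : A.QH B0 R) {x : Pt b F} (hx : x ∈ A.Dq) : A.pr x = x :=
  h.pr_eq hx.1 hx.1 (PRel.refl A x) hx.2

theorem QH.pr_mem {B0 R : ℕ} (h : A.QH B0 R) {x : Pt b F} (hx : x ∈ A.D) : A.pr x ∈ A.Dq :=
  ⟨(h.pr_spec hx).1, (h.pr_spec hx).2.2⟩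

theorem QH.first_local {B0 R : ℕ} (h : A.QH B0 R) {x x' : Pt b F} (hx : x ∈ A.D)
    (hx' : x' ∈ A.D) (hag : Agree R x x') (hf : A.First x) : A.First x' := by
  intro w hw hxw
  have h1 : w ∈ A.cls x' := ⟨hw, hxw⟩
  rw [h.hB x' hx', PB_eq_image] at h1
  obtain ⟨q, hq, rfl⟩ := h1
  rw [Finset.mem_coe, ← h.hR x hx x' hx' hag, mem_OB] at hq
  have h2 := hf _ hq.1 (PB_sub_cls B0 x hq).2
  rw [pos_sh] at h2
  rw [pos_sh, ← hag.1]
  exact h2

theorem Dq_clopen {B0 R : ℕ} (h : A.QH B0 R) {x x' : Pt b F} (hag : Agree (R + A.ρ) x x') :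
    x ∈ A.Dq ↔ x' ∈ A.Dq := by
  have key : ∀ x x' : Pt b F, Agree (R + A.ρ) x x' → x ∈ A.Dq → x' ∈ A.Dq := by
    intro x x' hag hx
    have h1 : x' ∈ A.D := (A.clopen _ _ (hag.mono (by omega))).1 hx.1
    exact ⟨h1, h.first_local hx.1 h1 (hag.mono (by omega)) hx.2⟩
  exact ⟨key x x' hag, key x' x hag.symm⟩

theorem QH.pr_local {B0 R : ℕ} (h : A.QH B0 R) {x x' : Pt b F} (hx : x ∈ A.D)
    (hag : Agree (R + B0 + A.ρ) x x') :
    A.pr x' = (sh (pos x (A.pr x)) x'.1, (A.pr x).2) := by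
  obtain ⟨h1, h2, h3⟩ := h.pr_spec hx
  have hx' : x' ∈ A.D := (A.clopen _ _ (hag.mono (by omega))).1 hx
  have hn := h.pos_le hx h1 h2
  set n := pos x (A.pr x) with hndef
  have hz : A.pr x = (sh n x.1, (A.pr x).2) := eq_of_pos h2.1
  have hag' : Agree (R + A.ρ) (A.pr x) ((sh n x'.1, (A.pr x).2) : Pt b F) := by
    have h4 : Agree (R + A.ρ) ((sh n x.1, (A.pr x).2) : Pt b F) (sh n x'.1, (A.pr x).2) := by
      apply agree_sh hag
      push_cast
      linarith
    rwa [← hz] at h4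
  have hz' := (Dq_clopen h hag').1 ⟨h1, h3⟩
  apply h.pr_eq hx' hz'.1 _ hz'.2
  -- x' is in the class of the new point
  have h5 : x ∈ A.PB B0 (A.pr x) := by
    rw [← h.hB _ h1]
    exact ⟨hx, h2.symm⟩
  have h6 : (pos (A.pr x) x, x.2) ∈ A.OB B0 (A.pr x) := by
    rw [mem_OB]
    have : ((sh (pos (A.pr x) x) (A.pr x).1, x.2) : Pt b F) = x :=
      (eq_of_pos (sameLine_symm h2.1)).symm
    rw [this]; exact h5
  rw [h.hR _ h1 _ hz'.1 (hag'.mono (by omega)), mem_OB] at h6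
  have h7 : ((sh (pos (A.pr x) x) (sh n x'.1), x.2) : Pt b F) = x' := by
    rw [pos_neg h2.1, ← hndef, sh_sh, neg_add_cancel, sh_zero, hag.1]
  have h8 : ((sh (pos (A.pr x) x) (sh n x'.1), x.2) : Pt b F)
      ∈ A.PB B0 (sh n x'.1, (A.pr x).2) := h6
  rw [h7] at h8
  exact (PB_sub_cls _ _ h8).2.symm

open Classical in
/-- the induced map on first points -/
noncomputable def barFun (A : Sys b F) (g : Equiv.Perm (Pt b F)) (x : Pt b F) : Pt b F :=
  if x ∈ A.Dq then A.pr (g x) else x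

theorem barFun_of_mem {g : Equiv.Perm (Pt b F)} {x : Pt b F} (hx : x ∈ A.Dq) :
    A.barFun g x = A.pr (g x) := by
  unfold barFun; rw [if_pos hx]

theorem barFun_of_not_mem {g : Equiv.Perm (Pt b F)} {x : Pt b F} (hx : x ∉ A.Dq) :
    A.barFun g x = x := by
  unfold barFun; rw [if_neg hx]

theorem QH.barFun_mem {B0 R : ℕ} (h : A.QH B0 R) {g : Equiv.Perm (Pt b F)} (hg : g ∈ A.G)
    {x : Pt b F} (hx : x ∈ A.Dq) : A.barFun g x ∈ A.Dq := by
  rw [barFun_of_mem hx]
  exact h.pr_mem (A.map_mem hg hx.1)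

theorem QH.barFun_mul {B0 R : ℕ} (h : A.QH B0 R) {g k : Equiv.Perm (Pt b F)} (hg : g ∈ A.G)
    (hk : k ∈ A.G) (x : Pt b F) : A.barFun (g * k) x = A.barFun g (A.barFun k x) := by
  by_cases hx : x ∈ A.Dq
  · rw [barFun_of_mem (h.barFun_mem hk hx), barFun_of_mem hx, barFun_of_mem hx]
    have hkx := A.map_mem hk hx.1
    obtain ⟨h1, h2, -⟩ := h.pr_spec hkx
    rw [Equiv.Perm.mul_apply]
    exact h.pr_congr (A.map_mem hg hkx) (A.map_mem hg h1) (h2.map hg)
  · rw [barFun_of_not_mem hx, barFun_of_not_mem hx, barFun_of_not_mem hx]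

theorem QH.barFun_one {B0 R : ℕ} (h : A.QH B0 R) (x : Pt b F) :
    A.barFun (1 : Equiv.Perm (Pt b F)) x = x := by
  by_cases hx : x ∈ A.Dq
  · rw [barFun_of_mem hx, Equiv.Perm.one_apply, h.pr_self hx]
  · rw [barFun_of_not_mem hx]

/-- the induced permutations -/
noncomputable def barHom {B0 R : ℕ} (h : A.QH B0 R) : A.G →* Equiv.Perm (Pt b F) where
  toFun g :=
    { toFun := A.barFun g.1
      invFun := A.barFun (g.1)⁻¹
      left_inv := fun x => by
        rw [← h.barFun_mul (A.G.inv_mem g.2) g.2, inv_mul_cancel, h.barFun_one]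
      right_inv := fun x => by
        rw [← h.barFun_mul g.2 (A.G.inv_mem g.2), mul_inv_cancel, h.barFun_one] }
  map_one' := by
    ext x : 1
    exact h.barFun_one x
  map_mul' g k := by
    ext x : 1
    exact h.barFun_mul g.2 k.2 x

theorem barHom_apply {B0 R : ℕ} (h : A.QH B0 R) (g : A.G) (x : Pt b F) :
    barHom h g x = A.barFun g.1 x := rfl

theorem QH.barFun_pw {B0 R : ℕ} (h : A.QH B0 R) {g : Equiv.Perm (Pt b F)} (hg : g ∈ A.G)
    {ρ' : ℕ} (hρ : IsPW ρ' g) : IsPW (ρ' + (R + B0 + A.ρ)) (A.barFun g) := by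
  intro x
  by_cases hx : x ∈ A.Dq
  · obtain ⟨m, hm, H⟩ := hρ x
    have hgx := A.map_mem hg hx.1
    obtain ⟨h1, h2, -⟩ := h.pr_spec hgx
    have hn := h.pos_le hgx h1 h2
    set n := pos (g x) (A.pr (g x)) with hndef
    refine ⟨n + m, ?_, fun x' hag => ?_⟩
    · push_cast
      have hRn : (0 : ℤ) ≤ R := by positivity
      have hAn : (0 : ℤ) ≤ A.ρ := by positivity
      exact (abs_add_le n m).trans (by linarith)
    · have hx' : x' ∈ A.Dq := (Dq_clopen h (hag.mono (by omega))).1 hx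
      have h3 : Agree (R + B0 + A.ρ) (g x) (g x') := agree_map hρ hag
      have h4 := h.pr_local hgx h3
      rw [← hndef] at h4
      have h5 := H x' (hag.mono (by omega))
      rw [barFun_of_mem hx, barFun_of_mem hx', h4]
      refine ⟨?_, rfl⟩
      show sh n (g x').1 = _
      rw [h5.1, sh_sh]
  · refine ⟨0, by simp; positivity, fun x' hag => ?_⟩
    have hx' : x' ∉ A.Dq := fun hc => hx ((Dq_clopen h (hag.mono (by omega))).2 hc)
    rw [barFun_of_not_mem hx, barFun_of_not_mem hx', sh_zero]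
    exact ⟨rfl, hag.1.symm⟩

/-- the generators as elements of the group -/
noncomputable def gens (A : Sys b F) : Finset A.G :=
  open Classical in A.S.attach.image (fun s => ⟨s.1, A.mem_G_of_mem_S s.2⟩)

theorem mem_gens {z : A.G} : z ∈ A.gens ↔ z.1 ∈ A.S := by
  classical
  unfold gens
  rw [Finset.mem_image]
  constructor
  · rintro ⟨s, _, rfl⟩
    exact s.2
  · intro hz
    exact ⟨⟨z.1, hz⟩, Finset.mem_attach _ _, rfl⟩

theorem closure_gens (A : Sys b F) : Subgroup.closure (A.gens : Set A.G) = ⊤ := by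
  have h1 : (A.gens : Set A.G)
      = ((↑) : A.G → Equiv.Perm (Pt b F)) ⁻¹' (A.S : Set (Equiv.Perm (Pt b F))) := by
    ext z
    rw [Finset.mem_coe, mem_gens]
    rfl
  rw [h1]
  exact Subgroup.closure_closure_coe_preimage

/-- the generators of the quotient -/
noncomputable def Sq {B0 R : ℕ} (h : A.QH B0 R) : Finset (Equiv.Perm (Pt b F)) :=
  open Classical in A.gens.image (barHom h)

theorem closure_Sq {B0 R : ℕ} (h : A.QH B0 R) :
    Subgroup.closure (Sq h : Set (Equiv.Perm (Pt b F))) = (barHom h).range := by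
  classical
  unfold Sq
  rw [Finset.coe_image, ← MonoidHom.map_closure, closure_gens, MonoidHom.range_eq_map]

theorem disp_bar {B0 R : ℕ} (h : A.QH B0 R) (g : A.G) {x : Pt b F} (hx : x ∈ A.Dq) :
    |disp (barHom h g) x - disp g.1 x| ≤ B0 := by
  have hgx := A.map_mem g.2 hx.1
  obtain ⟨h1, h2, -⟩ := h.pr_spec hgx
  have hn := h.pos_le hgx h1 h2
  have h3 : disp (barHom h g) x = pos x (A.pr (g.1 x)) := by
    unfold disp
    rw [barHom_apply, barFun_of_mem hx]
  rw [h3, pos_add (sameLine_of_mem_PW (A.G_le_PW g.2) x) h2.1]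
  unfold disp
  rw [add_sub_cancel_left]
  exact hn

/-- the quotient system -/
noncomputable def quot {B0 R : ℕ} (h : A.QH B0 R) : Sys b F where
  S := Sq h
  ρ := A.ρ + (R + B0 + A.ρ)
  D := A.Dq
  pw := by
    classical
    intro s hs
    unfold Sq at hs
    rw [Finset.mem_image] at hs
    obtain ⟨g, hg, rfl⟩ := hs
    have hgS := mem_gens.1 hg
    exact ⟨h.barFun_pw g.2 (A.pw _ hgS).1, h.barFun_pw (A.G.inv_mem g.2) (A.pw _ hgS).2⟩
  one_mem := by
    classical
    unfold Sq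
    rw [Finset.mem_image]
    exact ⟨1, mem_gens.2 A.one_mem, map_one _⟩
  inv_mem := by
    classical
    intro s hs
    unfold Sq at hs ⊢
    rw [Finset.mem_image] at hs ⊢
    obtain ⟨g, hg, rfl⟩ := hs
    exact ⟨g⁻¹, mem_gens.2 (A.inv_mem _ (mem_gens.1 hg)), map_inv _ _⟩
  clopen := fun x x' hag => Dq_clopen h (hag.mono (by omega))
  nonempty := by
    obtain ⟨x, hx⟩ := A.nonempty
    exact ⟨A.pr x, h.pr_mem hx⟩
  maps := by
    classical
    intro s hs x hx
    unfold Sq at hs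
    rw [Finset.mem_image] at hs
    obtain ⟨g, hg, rfl⟩ := hs
    exact h.barFun_mem g.2 hx
  triv := by
    classical
    intro s hs x hx
    unfold Sq at hs
    rw [Finset.mem_image] at hs
    obtain ⟨g, hg, rfl⟩ := hs
    exact barFun_of_not_mem hx
  right := by
    intro x hx M
    obtain ⟨g, hg, hM⟩ := A.right x hx.1 (M + B0)
    refine ⟨barHom h ⟨g, hg⟩, ?_, ?_⟩
    · rw [closure_Sq]; exact ⟨_, rfl⟩
    · have := abs_le.1 (disp_bar h ⟨g, hg⟩ hx)
      have h2 := this.1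
      simp only at h2
      linarith
  left := by
    intro x hx M
    obtain ⟨g, hg, hM⟩ := A.left x hx.1 (M - B0)
    refine ⟨barHom h ⟨g, hg⟩, ?_, ?_⟩
    · rw [closure_Sq]; exact ⟨_, rfl⟩
    · have := abs_le.1 (disp_bar h ⟨g, hg⟩ hx)
      have h2 := this.2
      simp only at h2
      linarith
  minimal := by
    intro x hx z hz N
    obtain ⟨g, hg, hag⟩ := A.minimal x hx.1 z hz.1 (N + (R + A.ρ))
    refine ⟨barHom h ⟨g, hg⟩, ?_, ?_⟩
    · rw [closure_Sq]; exact ⟨_, rfl⟩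
    · have h1 : g x ∈ A.Dq := (Dq_clopen h (hag.mono (by omega))).2 hz
      rw [barHom_apply, barFun_of_mem hx, h.pr_self h1]
      exact hag.mono (by omega)

theorem quot_G {B0 R : ℕ} (h : A.QH B0 R) : (quot h).G = (barHom h).range := closure_Sq h

theorem quot_reduced {B0 R : ℕ} (h : A.QH B0 R) : (quot h).Reduced := by
  rintro x hx x' hx' hl ⟨C, hC⟩
  have hxq : x ∈ A.Dq := hx
  have hxq' : x' ∈ A.Dq := hx'
  have key : A.PRel x x' := by
    refine ⟨hl, C + 2 * B0, fun g hg => ?_⟩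
    have h1 := hC (barHom h ⟨g, hg⟩) (by rw [quot_G]; exact ⟨_, rfl⟩)
    rw [barHom_apply, barHom_apply, barFun_of_mem hxq, barFun_of_mem hxq'] at h1
    have hgx := A.map_mem hg hxq.1
    have hgx' := A.map_mem hg hxq'.1
    obtain ⟨a1, a2, -⟩ := h.pr_spec hgx
    obtain ⟨b1, b2, -⟩ := h.pr_spec hgx'
    have hn := abs_le.1 (h.pos_le hgx a1 a2)
    have hn' := abs_le.1 (h.pos_le hgx' b1 b2)
    have hl' : SameLine (g x) (g x') := sameLine_map hg hl
    have h2 : pos (g x) (A.pr (g x')) = pos (g x) (g x') + pos (g x') (A.pr (g x')) :=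
      pos_add hl' b2.1
    have hl2 : SameLine (A.pr (g x)) (A.pr (g x')) :=
      sameLine_trans (sameLine_symm a2.1) (sameLine_trans hl' b2.1)
    have h3 : pos (g x) (A.pr (g x')) = pos (g x) (A.pr (g x))
        + pos (A.pr (g x)) (A.pr (g x')) := pos_add a2.1 hl2
    have h4 := abs_le.1 h1
    rw [abs_le]
    constructor <;> linarith [h4.1, h4.2, hn.1, hn.2, hn'.1, hn'.2]
  exact hxq.2.unique hxq'.2 hxq.1 hxq'.1 key

/-- **Case N**: without translation pairs there is a reduced quotient. -/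
theorem exists_reduced {N : ℕ} (hN : A.BCN N) (hzero : ∀ x ∈ A.D, ∀ t ∈ A.Uset x, t = 0) :
    ∃ A' : Sys b F, A'.Reduced ∧ ∃ φ : A.G →* A'.G, Function.Surjective φ := by
  obtain ⟨B0, hB⟩ := exists_B0 hN hzero
  obtain ⟨R, hR⟩ := exists_R (A := A) B0
  have h : A.QH B0 R := ⟨hB, hR⟩
  refine ⟨quot h, quot_reduced h, (barHom h).codRestrict _ (fun g => ?_), ?_⟩
  · rw [quot_G]; exact ⟨g, rfl⟩
  · rintro ⟨y, hy⟩
    rw [quot_G] at hy
    obtain ⟨g, rfl⟩ := hy
    exact ⟨g, rfl⟩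

/-- **Result of P3**: if every reduced system has exponential growth, then every system has
polynomial or exponential growth. -/
theorem poly_or_exp {N : ℕ} (hN : A.BCN N)
    (hred : ∀ A' : Sys b F, A'.Reduced → ExpGrowth A'.G) : PolyGrowth A.G ∨ ExpGrowth A.G := by
  by_cases h : ∃ x ∈ A.D, ∃ t ∈ A.Uset x, t ≠ 0
  · by_cases hexp : ExpGrowth A.G
    · exact Or.inr hexp
    · exact Or.inl (caseT hN h hexp)
  · push Not at h
    obtain ⟨A', hA', φ, hφ⟩ := exists_reduced hN h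
    exact Or.inr (ExpGrowth.of_surjective φ hφ (hred A' hA'))

end Sys

end Pool.Agent.helper98.NIG
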