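import Pool.Agent.helper97.NIG.Desc4

/-!
# NIG / P5 : the descent, the new configuration and the conclusion (helper97)
-/

open scoped BigOperators
open Set Function

set_option linter.unusedSectionVars false
set_option linter.deprecated false

namespace Pool.Agent.helper98.NIG

variable {b : Base} {F : Type} [Fintype F]

namespace Sys

variable {A : Sys b F}

/-- the rows without the transported token -/
def Rm (A : Sys b F) (z : Pt b F) (l v : ℤ) (a' τ' : Pt b F) (R : Pt b F → Set (Pt b F))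
    (p : Pt b F) : Set (Pt b F) :=
  {q | q ∈ R p ∧ ∀ k, A.RIn z l v a' k → k a' = p → q ≠ k τ'}

theorem cfg_new {c0 c1 n m M Lg R0 K Y0 : ℕ} {C0 : ℝ} (hc : A.BCc c0) (hSP : A.SP c0 K)
    (hc1 : c0 ≤ c1) (hm : 2 * c0 + c1 + R0 + A.ρ + 1 ≤ m) (hM : m + A.ρ ≤ M)
    (hsgn : ∀ a ∈ A.D, ∀ t, A.Near n 1 a t → A.Near n (-1) a t → False)
    (hCs : 2 * (K * (((R0 + c0 + m + 2 * A.ρ : ℕ) : ℝ) + 1)) ≤ C0)
    (hY0 : 3 * c0 + R0 + 2 * m + A.ρ ≤ Y0)
    {z y : Pt b F} {l x e : ℤ} {R : Pt b F → Set (Pt b F)} {a0 t0 τ0 : Pt b F}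
    (hcfg : A.Cfg c0 n m M Lg C0 z y l x e R a0 t0 τ0) {v1 w : ℤ} (hvw : w ≤ v1 + R0)
    (hv1w : v1 ≤ w) (hew : e + Y0 < v1)
    {a' τ' : Pt b F} (ha' : a' ∈ A.orb z) (q1 : v1 - m - A.ρ ≤ pos z a') (q2 : pos z a' ≤ v1 - m)
    (htop : A.IsTop R a' τ') (hlock : A.LockI z l v1 a' τ')
    (htops : ∀ k, A.RIn z l v1 a' k → l + m ≤ pos z (k a') → pos z (k a') ≤ v1 - m →
        A.IsTop R (k a') (k τ') ∧ A.Near n (-1) (k a') (k τ'))
    {a2 : Pt b F} (ha2 : a2 ∈ A.orb z) (s1 : w + c0 ≤ pos z a2) (s2 : pos z a2 ≤ w + c0 + A.ρ)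
    (hright : ∀ k, A.RIn z e x a0 k → k a0 = a2 → A.IsTop R a2 (k t0))
    (hw : w + 2 * c0 + A.ρ + R0 ≤ x) (hl : l + c0 + m ≤ e)
    (hx : e + (2 * c0 + M + m + A.ρ : ℕ) ≤ x) :
    ∃ (R' : Pt b F → Set (Pt b F)) (a0' t0' τ0' : Pt b F),
      A.Cfg c0 n m M Lg C0 z y l v1 e R' a0' t0' τ0' ∧ (R' a0').ncard < (R a0).ncard := by
  push_cast at hx
  have hc1' : (c0 : ℤ) ≤ c1 := by exact_mod_cast hc1
  have hm' : (2 * c0 + c1 + R0 + A.ρ + 1 : ℤ) ≤ m := by exact_mod_cast hm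
  have hM' : (m + A.ρ : ℤ) ≤ M := by exact_mod_cast hM
  have hY0' : (3 * c0 + R0 + 2 * m + A.ρ : ℤ) ≤ Y0 := by exact_mod_cast hY0
  have hc0 : (0 : ℤ) ≤ c0 := by positivity
  have hR0 : (0 : ℤ) ≤ R0 := by positivity
  have hρ0 : (0 : ℤ) ≤ A.ρ := by positivity
  have hz := hcfg.hz
  have hp1 := hcfg.ha1
  have hp2 := hcfg.ha2
  -- the path from `a0` to `a'`
  obtain ⟨k2, hk2, hk2a⟩ := exists_path hc hz hcfg.ha0 ha2 (l := e) (r := x) (by linarith)
    (by linarith) (by linarith) (by linarith)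
  obtain ⟨k3, hk3, hk3a, hs3⟩ := hSP z hz a2 ha2 a' ha' e x (by linarith) (by linarith)
    (by linarith) (by linarith) (((R0 + c0 + m + 2 * A.ρ : ℕ) : ℝ)) (by
      have e1 : |(pos z a' - pos z a2)| ≤ ((R0 + c0 + m + 2 * A.ρ : ℕ) : ℤ) := by
        push_cast
        rw [abs_le]
        constructor <;> linarith
      exact_mod_cast e1)
  have hh : A.RIn z e x a0 (k3 * k2) := by
    refine hk2.trans hcfg.ha0 ?_
    rw [hk2a]
    exact hk3
  have hha : (k3 * k2) a0 = a' := by rw [Equiv.Perm.mul_apply, hk2a, hk3a]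
  have hhR : A.RIn z l x a0 (k3 * k2) := hh.mono (by linarith) le_rfl
  have hsub0 := hcfg.fam.sub a0 hcfg.ha0 (by linarith) (by linarith)
  have hsub := hcfg.fam.sub a' ha' (by linarith) (by linarith)
  have hsub2 := hcfg.fam.sub a2 ha2 (by linarith) (by linarith)
  have hht : (k3 * k2) t0 ∈ R a' := by
    have := (hcfg.fam.mem hcfg.ha0 (by linarith) (by linarith) hhR (t := t0)
      (by rw [hha]; linarith) (by rw [hha]; linarith)).2 hcfg.t_mem
    rw [hha] at this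
    exact this
  have hn1 := hcfg.t_sgn _ hh (by rw [hha]; linarith) (by rw [hha]; linarith)
  rw [hha] at hn1
  have hn2 := (htops 1 (RIn.one _ _ _ _) (by rw [Equiv.Perm.one_apply]; linarith)
    (by rw [Equiv.Perm.one_apply]; linarith)).2
  rw [Equiv.Perm.one_apply, Equiv.Perm.one_apply] at hn2
  have hne : (k3 * k2) t0 ≠ τ' := by
    intro he
    rw [he] at hn1
    exact hsgn a' (orb_mem_D hz ha') τ' hn1 hn2
  have hlv : l ≤ v1 := by linarith
  have hpa1 : l ≤ pos z a' := by linarith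
  have hpa2 : pos z a' ≤ v1 := by linarith
  refine ⟨A.Rm z l v1 a' τ' R, a', (k3 * k2) t0, τ', ?_, ?_⟩
  · refine { hz := hcfg.hz, hy := hcfg.hy, fam := ?_, ha0 := ha', ha1 := by linarith, ha2 := q2,
             t_mem := ?_, t_lock := ?_, t_sgn := ?_, t_end := ?_, τ_mem := hsub htop.1,
             τ_lock := hlock, τ_sgn := ?_, τ_not := ?_, τ_top := ?_, gap := ?_ }
    · -- the rows
      refine ⟨?_, ?_, ?_, ?_⟩
      · intro a ha e1 e2
        obtain ⟨g, hg, hga⟩ := exists_path hc hz ha' ha (l := l) (r := v1) (by linarith)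
          (by linarith) (by linarith) (by linarith)
        refine ⟨g ((k3 * k2) t0), ?_, ?_⟩
        · have := (hcfg.fam.mem ha' (by linarith) (by linarith)
            (hg.mono le_rfl (by linarith)) (t := (k3 * k2) t0)
            (by rw [hga]; linarith) (by rw [hga]; linarith)).2 hht
          rw [hga] at this
          exact this
        · intro k hk hka he
          have h1 := hlock.eq ha' hpa1 hpa2 hk hg (hka.trans hga.symm)
          rw [h1] at he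
          exact hne (g.injective he)
      · intro a ha e1 e2
        exact (hcfg.fam.fin a ha e1 (by linarith)).subset (fun q hq => hq.1)
      · intro a ha e1 e2 q hq
        exact hcfg.fam.sub a ha e1 (by linarith) hq.1
      · intro a ha e1 e2 h hh' e3 e4
        have hR := hcfg.fam.eqv a ha e1 (by linarith) h (hh'.mono le_rfl (by linarith)) e3
          (by linarith)
        ext q
        constructor
        · rintro ⟨hq, hq2⟩
          rw [hR] at hq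
          obtain ⟨t, ht, rfl⟩ := hq
          refine ⟨t, ⟨ht, ?_⟩, rfl⟩
          intro k hk hka he
          refine hq2 (h * k) ?_ (by rw [Equiv.Perm.mul_apply, hka]) (by
            rw [Equiv.Perm.mul_apply, he])
          refine hk.trans ha' ?_
          rw [hka]
          exact hh'
        · rintro ⟨t, ⟨ht, ht2⟩, rfl⟩
          refine ⟨by rw [hR]; exact ⟨t, ht, rfl⟩, ?_⟩
          intro k hk hka he
          have hinv : A.RIn z l v1 (h a) h⁻¹ := hh'.inv ha (by linarith) (by linarith)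
          refine ht2 (h⁻¹ * k) ?_ (by rw [Equiv.Perm.mul_apply, hka, pinv_apply]) (by
            rw [Equiv.Perm.mul_apply, ← he, pinv_apply])
          refine hk.trans ha' ?_
          rw [hka]
          exact hinv
    · refine ⟨hht, ?_⟩
      intro k hk hka he
      rw [hlock k hk hka] at he
      exact hne he
    · have := hcfg.t_lock.map hcfg.ha0 (by linarith) (by linarith) hh
      rw [hha] at this
      exact this.mono le_rfl (by linarith)
    · intro g hg e1 e2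
      have hgh : A.RIn z e x a0 (g * (k3 * k2)) := by
        refine hh.trans hcfg.ha0 ?_
        rw [hha]
        exact hg.mono le_rfl (by linarith)
      have := hcfg.t_sgn _ hgh (by rw [Equiv.Perm.mul_apply, hha]; exact e1)
        (by rw [Equiv.Perm.mul_apply, hha]; linarith)
      rw [Equiv.Perm.mul_apply, hha] at this
      exact this
    · intro g hg e1 e2
      have hgh : A.RIn z e x a0 (g * (k3 * k2)) := by
        refine hh.trans hcfg.ha0 ?_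
        rw [hha]
        exact hg.mono le_rfl (by linarith)
      have := hcfg.t_end _ hgh (by rw [Equiv.Perm.mul_apply, hha]; exact e1)
        (by rw [Equiv.Perm.mul_apply, hha]; linarith)
      rw [Equiv.Perm.mul_apply, hha] at this
      exact this
    · intro k hk e1 e2
      exact (htops k hk e1 e2).2
    · rintro k hk e1 e2 ⟨-, h2⟩
      exact h2 k hk rfl rfl
    · intro k hk e1 e2 t ht
      exact (htops k hk e1 e2).1.le ht.1
    · -- the gap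
      have htop2 := hright k2 hk2 hk2a
      have hinv : A.RIn z e x a' k3⁻¹ := by
        have := hk3.inv ha2 (by linarith) (by linarith)
        rw [hk3a] at this
        exact this
      have hinv2 : k3⁻¹ a' = a2 := by rw [← hk3a, pinv_apply]
      have hmem : k3⁻¹ τ' ∈ R a2 := by
        have := (hcfg.fam.mem ha' (by linarith) (by linarith)
          (hinv.mono (by linarith) le_rfl) (t := τ')
          (by rw [hinv2]; linarith) (by rw [hinv2]; linarith)).2 htop.1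
        rw [hinv2] at this
        exact this
      have hb1 := htop2.le hmem
      have hb2 := abs_le.1 (hs3.dh_le hk3.mem_G hcfg.hy (hsub2 htop2.1) (hsub2 hmem))
      rw [papply_inv] at hb2
      have hb3 := dh_neg (A := A) (hsub2 htop2.1) (hsub2 hmem)
      rw [Equiv.Perm.mul_apply]
      linarith [hb2.2]
  · have hfin' := hcfg.fam.fin a' ha' (by linarith) (by linarith)
    have h1 : (A.Rm z l v1 a' τ' R a').ncard < (R a').ncard := by
      apply Set.ncard_lt_ncard _ hfin'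
      refine ⟨fun q hq => hq.1, fun hsup => ?_⟩
      have := hsup htop.1
      exact this.2 1 (RIn.one _ _ _ _) rfl rfl
    have h2 : R a' = (k3 * k2) '' R a0 := by
      have := hcfg.fam.eqv a0 hcfg.ha0 (by linarith) (by linarith) _ hhR
        (by rw [hha]; linarith) (by rw [hha]; linarith)
      rw [hha] at this
      exact this
    have h3 : (R a').ncard = (R a0).ncard := by
      rw [h2]
      exact Set.ncard_image_of_injective _ (k3 * k2).injective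
    rw [← h3]
    exact h1

theorem cfg_step {c0 c1 n m M Lg R0 K Lc L1 L2 L3 Y0 Y1 W' W1 Lg1 W2 : ℕ} {C0 CB Cb Kr : ℝ}
    (hc : A.BCc c0) (hSP : A.SP c0 K) (hc1 : c0 ≤ c1)
    (hsgn : ∀ a ∈ A.D, ∀ t, A.Near n 1 a t → A.Near n (-1) a t → False)
    (hTT : ∀ z ∈ A.D, ∀ y ∈ A.D, ∀ (l r : ℤ) (R : Pt b F → Set (Pt b F)), A.Fam z y l r R →
      ∃ v w : ℤ, w ≤ v + R0 ∧
      (∀ a ∈ A.orb z, l + R0 ≤ pos z a → pos z a ≤ v → ∃ t, A.GoodT R n (-1) a t) ∧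
      (∀ a ∈ A.orb z, w ≤ pos z a → pos z a ≤ r - R0 → ∃ t, A.GoodT R n 1 a t))
    (hC1 : A.DCmp c1 n (2 * C0) Lc) (hC2 : A.DCmp c1 n CB L2) (hC3 : A.DCmp c1 n Cb L3)
    (hm : 2 * c0 + c1 + R0 + A.ρ + 1 ≤ m) (hM : m + A.ρ ≤ M) (hLg : 2 * c0 + 2 * A.ρ ≤ Lg)
    (hL1 : Lc + 2 * m + 2 * A.ρ ≤ L1)
    (hCs : 2 * (K * (((c0 + R0 + M + m + 2 * A.ρ : ℕ) : ℝ) + 1)) ≤ C0)
    (hCB : C0 + 2 * (K * (((c0 + 2 * R0 + L1 + M + m + A.ρ : ℕ) : ℝ) + 1)) ≤ CB)
    (hCb : C0 + 2 * (K * (((Y1 + M : ℕ) : ℝ) + 1)) +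
      2 * (K * (((R0 + c0 + m + 2 * A.ρ : ℕ) : ℝ) + 1)) ≤ Cb)
    (hKr : 2 * (K * (((Y0 + R0 + A.ρ : ℕ) : ℝ) + 1)) < Kr)
    (hUR : ∀ z ∈ A.D, ∀ y ∈ A.D,
      (∃ h, A.Reach z (Set.Icc (-((Lg + 1 : ℕ) : ℤ)) (Lg + 1 : ℕ)) h ∧ h z = z ∧ h y ≠ y) →
      ∃ h, A.Reach z (Set.Icc (-(W' : ℤ)) W') h ∧ h z = z ∧ Kr ≤ A.dh y (h y))
    (hY0 : 3 * c0 + c1 + 3 * R0 + L1 + L2 + M + 2 * m + A.ρ + Lg + 2 ≤ Y0)
    (hY1 : W' + Lg ≤ Y1) (hW1 : c0 + R0 ≤ W1)
    (hW2 : L3 + W1 + Lg1 + W' + 3 * m + c0 + c1 + 2 * R0 + 2 * A.ρ + 2 ≤ W2)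
    {z y : Pt b F} {l x e : ℤ} {R : Pt b F → Set (Pt b F)} {a0 t0 τ0 : Pt b F}
    (hGL : A.GoodL c0 W1 Lg1 z l) (he : l + W2 ≤ e) (hx : e + Y0 < x)
    (hcfg : A.Cfg c0 n m M Lg C0 z y l x e R a0 t0 τ0) :
    ∃ (x' : ℤ) (R' : Pt b F → Set (Pt b F)) (a0' t0' τ0' : Pt b F), e + Y0 < x' ∧
      A.Cfg c0 n m M Lg C0 z y l x' e R' a0' t0' τ0' ∧ (R' a0').ncard < (R a0).ncard := by
  have hc1' : (c0 : ℤ) ≤ c1 := by exact_mod_cast hc1
  have hm' : (2 * c0 + c1 + R0 + A.ρ + 1 : ℤ) ≤ m := by exact_mod_cast hm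
  have hM' : (m + A.ρ : ℤ) ≤ M := by exact_mod_cast hM
  have hLg' : (2 * c0 + 2 * A.ρ : ℤ) ≤ Lg := by exact_mod_cast hLg
  have hL1' : (Lc + 2 * m + 2 * A.ρ : ℤ) ≤ L1 := by exact_mod_cast hL1
  have hY0' : (3 * c0 + c1 + 3 * R0 + L1 + L2 + M + 2 * m + A.ρ + Lg + 2 : ℤ) ≤ Y0 := by
    exact_mod_cast hY0
  have hY1' : (W' + Lg : ℤ) ≤ Y1 := by exact_mod_cast hY1
  have hW1' : (c0 + R0 : ℤ) ≤ W1 := by exact_mod_cast hW1
  have hW2' : (L3 + W1 + Lg1 + W' + 3 * m + c0 + c1 + 2 * R0 + 2 * A.ρ + 2 : ℤ) ≤ W2 := by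
    exact_mod_cast hW2
  have hc0 : (0 : ℤ) ≤ c0 := by positivity
  have hR0 : (0 : ℤ) ≤ R0 := by positivity
  have hρ0 : (0 : ℤ) ≤ A.ρ := by positivity
  have hLc0 : (0 : ℤ) ≤ Lc := by positivity
  have hL20 : (0 : ℤ) ≤ L2 := by positivity
  have hL30 : (0 : ℤ) ≤ L3 := by positivity
  have hW10 : (0 : ℤ) ≤ W1 := by positivity
  have hLg10 : (0 : ℤ) ≤ Lg1 := by positivity
  have hW'0 : (0 : ℤ) ≤ W' := by positivity
  have hz := hcfg.hz
  obtain ⟨v, w, hvw, hgm0, hgp0⟩ := hTT z hz y hcfg.hy _ _ R hcfg.fam.fam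
  have hgm : A.GoodOn R n (-1) z (l + c0 + R0) v := hgm0
  have hgp : A.GoodOn R n 1 z w (x - c0 - R0) := hgp0
  have hCs1 : 2 * (K * (((c0 + R0 + M + m + A.ρ : ℕ) : ℝ) + 1)) ≤ C0 := by
    refine le_trans ?_ hCs
    apply mul_le_mul_of_nonneg_left _ (by norm_num)
    apply mul_le_mul_of_nonneg_left _ (Nat.cast_nonneg _)
    have : ((c0 + R0 + M + m + A.ρ : ℕ) : ℝ) ≤ ((c0 + R0 + M + m + 2 * A.ρ : ℕ) : ℝ) := by
      exact_mod_cast (by omega)
    linarith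
  have hCs2 : 2 * (K * (((R0 + c0 + m + 2 * A.ρ : ℕ) : ℝ) + 1)) ≤ C0 := by
    refine le_trans ?_ hCs
    apply mul_le_mul_of_nonneg_left _ (by norm_num)
    apply mul_le_mul_of_nonneg_left _ (Nat.cast_nonneg _)
    have : ((R0 + c0 + m + 2 * A.ρ : ℕ) : ℝ) ≤ ((c0 + R0 + M + m + 2 * A.ρ : ℕ) : ℝ) := by
      exact_mod_cast (by omega)
    linarith
  by_cases hcase : x - c0 - R0 - L1 < w
  · exact (cfg_caseB hSP hc1 hC2 hm hCB hcfg hvw hgm hcase (by linarith)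
      (by push_cast; linarith)).elim
  push Not at hcase
  obtain ⟨hew, hright⟩ := cfg_right hc hSP hc1 hC1 hm hLg hL1 hCs1 hcfg hgp hcase (by linarith)
    (by push_cast; linarith)
  set v1 : ℤ := min v w with hv1
  have hv1v : v1 ≤ v := min_le_left _ _
  have hv1w : v1 ≤ w := min_le_right _ _
  have hwv1 : w ≤ v1 + R0 := by
    have : w - R0 ≤ v1 := le_min (by linarith) (by linarith)
    linarith
  obtain ⟨a', ha', τ', q1, q2, htop, hnear, hlock, htops⟩ := cfg_left hc hm hW1 hz hcfg.hy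
    hcfg.fam hGL (hgm.mono le_rfl hv1v) (by linarith) (by linarith)
  obtain ⟨a2, ha2, s1, s2⟩ := exists_at hz (w + c0)
  have hr2 : ∀ k, A.RIn z e x a0 k → k a0 = a2 → A.IsTop R a2 (k t0) :=
    hright a2 ha2 s1 (by linarith)
  have hA2 := cfg_A2 hSP hc1 hC3 hm hCb hcfg hwv1 hv1w hew ha' q1 q2 htop hnear hlock ha2 s1 s2
    (by linarith) (by linarith) (by push_cast; linarith)
  have hA3 := cfg_A3 hc hSP hc1 hm hLg hKr hUR hcfg hwv1 hew ha2 s1 s2 hr2 (by linarith)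
    (by linarith) (by linarith) (by push_cast; linarith)
  obtain ⟨R', a0', t0', τ0', h1, h2⟩ := cfg_new hc hSP hc1 hm hM hsgn hCs2 (Y0 := Y0) (by omega)
    hcfg hwv1 hv1w hA3 ha' q1 q2 htop hlock htops ha2 s1 s2 hr2 (by linarith) (by linarith)
    (by push_cast; linarith)
  exact ⟨v1, R', a0', t0', τ0', hA3, h1, h2⟩

/-- The descent: there is no configuration. -/
theorem no_cfg' (A : Sys b F) {N c0 : ℕ} (hN : A.BCN N) (hc : A.BCc c0)
    (hred : A.Reduced) (hur : A.URaise) :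
    ∃ n0 : ℕ, ∀ n, n0 ≤ n → ∃ m0 : ℕ, ∀ m, m0 ≤ m → ∀ M : ℕ, m + A.ρ ≤ M →
    ∀ Lg : ℕ, 2 * c0 + 2 * A.ρ ≤ Lg →
    ∃ Cs : ℝ, ∀ C0 : ℝ, Cs ≤ C0 → ∃ Y0 Wm : ℕ, ∀ W1 L1 : ℕ, Wm ≤ W1 → ∃ W2 : ℕ,
      ∀ (z y : Pt b F) (l x e : ℤ) (R : Pt b F → Set (Pt b F)) (a0 t0 τ0 : Pt b F),
        A.GoodL c0 W1 L1 z l → l + W2 ≤ e → e + Y0 < x →
        ¬ A.Cfg c0 n m M Lg C0 z y l x e R a0 t0 τ0 := by
  obtain ⟨c1, n1, hc1, hcmp⟩ := exists_DCmp hN hc hred
  obtain ⟨n2, hn2⟩ := A.near_sign hN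
  obtain ⟨K, hSP⟩ := exists_SP hN hc
  refine ⟨max n1 n2, fun n hn => ?_⟩
  have hcmp' := hcmp n ((le_max_left _ _).trans hn)
  have hsgn := hn2 n ((le_max_right _ _).trans hn)
  choose L hL using hcmp'
  obtain ⟨R0, hTT⟩ := A.top_token hN hred n
  refine ⟨2 * c0 + c1 + R0 + A.ρ + 1, fun m hm M hM Lg hLg => ?_⟩
  refine ⟨2 * (K * (((c0 + R0 + M + m + 2 * A.ρ : ℕ) : ℝ) + 1)), fun C0 hC0 => ?_⟩
  set L1 : ℕ := L (2 * C0) + 2 * m + 2 * A.ρ with hL1
  set CB : ℝ := C0 + 2 * (K * (((c0 + 2 * R0 + L1 + M + m + A.ρ : ℕ) : ℝ) + 1)) with hCB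
  set Y0 : ℕ := 3 * c0 + c1 + 3 * R0 + L1 + L CB + M + 2 * m + A.ρ + Lg + 2 with hY0
  set Kr : ℝ := 2 * (K * (((Y0 + R0 + A.ρ : ℕ) : ℝ) + 1)) + 1 with hKr
  obtain ⟨W', hW'⟩ := hur (Lg + 1) Kr
  set Cb : ℝ := C0 + 2 * (K * (((W' + Lg + M : ℕ) : ℝ) + 1)) +
      2 * (K * (((R0 + c0 + m + 2 * A.ρ : ℕ) : ℝ) + 1)) with hCb
  refine ⟨Y0, c0 + R0, fun W1 Lg1 hW1 => ?_⟩
  refine ⟨L Cb + W1 + Lg1 + W' + 3 * m + c0 + c1 + 2 * R0 + 2 * A.ρ + 2, ?_⟩
  intro z y l x e R a0 t0 τ0 hGL he hx hcfg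
  have key : ∀ (k : ℕ) (x : ℤ) (R : Pt b F → Set (Pt b F)) (a0 t0 τ0 : Pt b F), e + Y0 < x →
      A.Cfg c0 n m M Lg C0 z y l x e R a0 t0 τ0 → (R a0).ncard ≤ k → False := by
    intro k
    induction k with
    | zero =>
      intro x R a0 t0 τ0 hx hcfg hk
      obtain ⟨x', R', a0', t0', τ0', h1, h2, h3⟩ := cfg_step hc hSP hc1 hsgn hTT (hL _) (hL CB)
        (hL Cb) hm hM hLg le_rfl hC0 le_rfl (Y1 := W' + Lg) le_rfl (Kr := Kr)
        (by rw [hKr]; linarith) hW' le_rfl le_rfl hW1 le_rfl hGL he hx hcfg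
      omega
    | succ k ih =>
      intro x R a0 t0 τ0 hx hcfg hk
      obtain ⟨x', R', a0', t0', τ0', h1, h2, h3⟩ := cfg_step hc hSP hc1 hsgn hTT (hL _) (hL CB)
        (hL Cb) hm hM hLg le_rfl hC0 le_rfl (Y1 := W' + Lg) le_rfl (Kr := Kr)
        (by rw [hKr]; linarith) hW' le_rfl le_rfl hW1 le_rfl hGL he hx hcfg
      exact ih x' R' a0' t0' τ0' h1 h2 (by omega)
  exact key _ x R a0 t0 τ0 hx hcfg le_rfl

end Sys

end Pool.Agent.helper98.NIG
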