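import Pool.Agent.helper97.NIG.Strip1

/-!
# NIG / P5 : the strip theorem (helper97)
-/

open scoped BigOperators
open Set Function

set_option linter.unusedSectionVars false
set_option linter.deprecated false

namespace Pool.Agent.helper98.NIG

variable {b : Base} {F : Type} [Fintype F]

namespace Sys

variable {A : Sys b F}

/-- case B3 of the strip theorem: a configuration, contradiction -/
theorem strip_B3 {c0 n m M Lg R0 K Y0 W' W1 L1 W2 W2c cs ns : ℕ} {C0 Kr : ℝ}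
    (hc : A.BCc c0) (hSP : A.SP c0 K)
    (hsgn : ∀ a ∈ A.D, ∀ t, A.Near n 1 a t → A.Near n (-1) a t → False)
    (hln : ∀ a ∈ A.D, ∀ t ∈ A.D,
      (∀ h, A.Reach a (Set.Icc (-(m : ℤ)) m) h → h a = a → h t = t) →
      ∃ σ : ℝ, (σ = 1 ∨ σ = -1) ∧ A.Near n σ a t)
    (hsu : ∀ z ∈ A.D, ∀ a0 ∈ A.orb z, ∀ t0 ∈ A.D, ∀ α β : ℤ,
      A.LockI z α β a0 t0 → α + cs ≤ pos z a0 → pos z a0 ≤ β - cs →
      ∀ h h', A.RIn z α β a0 h → A.RIn z α β a0 h' → ∀ σ σ' : ℝ, (σ = 1 ∨ σ = -1) →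
        (σ' = 1 ∨ σ' = -1) →
        α + cs + ns ≤ pos z (h a0) → pos z (h a0) ≤ β - cs - ns →
        α + cs + ns ≤ pos z (h' a0) → pos z (h' a0) ≤ β - cs - ns →
        A.Near ns σ (h a0) (h t0) → A.Near ns σ' (h' a0) (h' t0) → σ = σ')
    (hns : ns ≤ n)
    (hno : ∀ (z y : Pt b F) (l x e : ℤ) (R : Pt b F → Set (Pt b F)) (a0 t0 τ0 : Pt b F),
        A.GoodL c0 W1 L1 z l → l + W2c ≤ e → e + Y0 < x →
        ¬ A.Cfg c0 n m M Lg C0 z y l x e R a0 t0 τ0)
    (hm : 2 * c0 + cs + ns + R0 + A.ρ + 1 ≤ m) (hM : m + A.ρ ≤ M)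
    (hLg : 2 * c0 + 2 * A.ρ ≤ Lg)
    (hC0 : 2 * (K * (((R0 + c0 + m + 2 * A.ρ : ℕ) : ℝ) + 1)) ≤ C0)
    (hKr : 2 * (K * (((Y0 + R0 + A.ρ : ℕ) : ℝ) + 1)) < Kr)
    (hUR : ∀ z ∈ A.D, ∀ y ∈ A.D,
      (∃ h, A.Reach z (Set.Icc (-((Lg + 1 : ℕ) : ℤ)) (Lg + 1 : ℕ)) h ∧ h z = z ∧ h y ≠ y) →
      ∃ h, A.Reach z (Set.Icc (-(W' : ℤ)) W') h ∧ h z = z ∧ Kr ≤ A.dh y (h y))
    (hY0 : 3 * c0 + R0 + 2 * m + A.ρ ≤ Y0)
    (hW1 : 3 * c0 + R0 + m + cs + ns + A.ρ + Lg ≤ W1)
    (hW2 : W2c + W1 + L1 + W' + R0 + 2 * m + 2 * c0 + A.ρ + 1 ≤ W2)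
    {z y : Pt b F} {l x : ℤ} {R : Pt b F → Set (Pt b F)} (hz : z ∈ A.D) (hy : y ∈ A.D)
    (hfam : A.PFam c0 z y l x R) (hGL : A.GoodL c0 W1 L1 z l) {v w : ℤ} (hvw : w ≤ v + R0)
    (hgm : A.GoodOn R n (-1) z (l + c0 + R0) v) (hgp : A.GoodOn R n 1 z w (x - c0 - R0))
    {a1 t1 : Pt b F} (ha1 : a1 ∈ A.orb z) (p1 : x - W1 - c0 - A.ρ ≤ pos z a1)
    (p2 : pos z a1 ≤ x - W1 - c0) (ht1 : A.GoodT R n 1 a1 t1)
    {e : ℤ} (hew : e ≤ w) (he : l + W2 ≤ e) (hlock : A.LockI z e x a1 t1)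
    (hnot : ¬ A.LockI z (e - 1) x a1 t1) (hwx : w + (W1 + W' + 3 * c0 + 2 * A.ρ + m + Lg) ≤ x) :
    False := by
  have hm' : (2 * c0 + cs + ns + R0 + A.ρ + 1 : ℤ) ≤ m := by exact_mod_cast hm
  have hM' : (m + A.ρ : ℤ) ≤ M := by exact_mod_cast hM
  have hLg' : (2 * c0 + 2 * A.ρ : ℤ) ≤ Lg := by exact_mod_cast hLg
  have hY0' : (3 * c0 + R0 + 2 * m + A.ρ : ℤ) ≤ Y0 := by exact_mod_cast hY0
  have hW1' : (3 * c0 + R0 + m + cs + ns + A.ρ + Lg : ℤ) ≤ W1 := by exact_mod_cast hW1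
  have hW2' : (W2c + W1 + L1 + W' + R0 + 2 * m + 2 * c0 + A.ρ + 1 : ℤ) ≤ W2 := by
    exact_mod_cast hW2
  have hc0 : (0 : ℤ) ≤ c0 := by positivity
  have hcs0 : (0 : ℤ) ≤ cs := by positivity
  have hns0 : (0 : ℤ) ≤ ns := by positivity
  have hR0 : (0 : ℤ) ≤ R0 := by positivity
  have hρ0 : (0 : ℤ) ≤ A.ρ := by positivity
  have hL10 : (0 : ℤ) ≤ L1 := by positivity
  have hW'0 : (0 : ℤ) ≤ W' := by positivity
  have hW2c0 : (0 : ℤ) ≤ W2c := by positivity
  have hLg0 : (0 : ℤ) ≤ Lg := by positivity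
  have ht1R : t1 ∈ R a1 := ht1.1
  have hsub1 := hfam.sub a1 ha1 (by linarith) (by linarith)
  have ht1y : t1 ∈ A.orb y := hsub1 ht1R
  have ht1D : t1 ∈ A.D := mem_D_of_orb' hy ht1y
  -- (E3)
  have t_end : ∀ h, A.RIn z e x a1 h → e + c0 ≤ pos z (h a1) → pos z (h a1) ≤ e + Lg - c0 →
      ¬ A.LockI z (e - 1) (e + Lg) (h a1) (h t1) := by
    intro h hh e1 e2 hcon
    have hha : h a1 ∈ A.orb z := orb_of_orb ha1 hh.mem_G
    have hl2 := hlock.map ha1 (by linarith) (by linarith) hh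
    have hgl := hcon.glue hc hz hha (α := e) (β := e + Lg) (l := e - 1) (r := x) (by linarith)
      (by linarith) (by linarith) e1 e2 hl2
    have hinv : A.RIn z (e - 1) x (h a1) h⁻¹ :=
      (hh.inv ha1 (by linarith) (by linarith)).mono (by linarith) le_rfl
    have := hgl.map hha (by linarith) (by linarith) hinv
    rw [pinv_apply, pinv_apply] at this
    exact hnot this
  -- the right part
  obtain ⟨a2, ha2, s1, s2⟩ := exists_at hz (w + c0)
  have hright : ∀ k, A.RIn z e x a1 k → k a1 = a2 → A.IsTop R a2 (k t1) := by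
    intro k hk hka
    obtain ⟨g, hg, hga⟩ := exists_path hc hz ha1 ha2 (l := w) (r := x - c0 - R0) (by linarith)
      (by linarith) (by linarith) (by linarith)
    have htop := (hgp.top hfam (by linarith) (by linarith) ha1 (by linarith) (by linarith)
      ht1.isTop hg).1
    have heq2 := hlock.eq ha1 (by linarith) (by linarith) (hg.mono hew (by linarith)) hk (by
      rw [hga, hka])
    rw [hga, heq2] at htop
    exact htop
  set v1 : ℤ := min v w with hv1
  have hv1v : v1 ≤ v := min_le_left _ _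
  have hv1w : v1 ≤ w := min_le_right _ _
  have hwv1 : w ≤ v1 + R0 := by
    have : w - R0 ≤ v1 := le_min (by linarith) (by linarith)
    linarith
  -- (E4)
  have hA3 : e + Y0 < v1 := far_left hc hSP hLg hKr hUR hz hy hfam ha1 (by linarith)
    (by linarith) ht1R t_end hwv1 hew ha2 s1 s2 hright (by linarith) (by linarith) (by linarith)
  obtain ⟨a', ha', τ', q1, q2, htop, hnear, hlockτ, htops⟩ := cfg_left (c1 := 0) (m := m) (R0 := R0)
    hc (by omega) (by omega) hz hy hfam hGL (hgm.mono le_rfl hv1v) (by linarith) (by linarith)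
  -- the token `t0'`
  obtain ⟨k2, hk2, hk2a⟩ := exists_path hc hz ha1 ha2 (l := e) (r := x) (by linarith)
    (by linarith) (by linarith) (by linarith)
  obtain ⟨k3, hk3, hk3a, hs3⟩ := hSP z hz a2 ha2 a' ha' e x (by linarith) (by linarith)
    (by linarith) (by linarith) (((R0 + c0 + m + 2 * A.ρ : ℕ) : ℝ)) (by
      have e1 : |(pos z a' - pos z a2)| ≤ ((R0 + c0 + m + 2 * A.ρ : ℕ) : ℤ) := by
        push_cast
        rw [abs_le]
        constructor <;> linarith
      exact_mod_cast e1)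
  have hh : A.RIn z e x a1 (k3 * k2) := by
    refine hk2.trans ha1 ?_
    rw [hk2a]
    exact hk3
  have hha : (k3 * k2) a1 = a' := by rw [Equiv.Perm.mul_apply, hk2a, hk3a]
  have hhR : A.RIn z l x a1 (k3 * k2) := hh.mono (by linarith) le_rfl
  have hsub := hfam.sub a' ha' (by linarith) (by linarith)
  have hsub2 := hfam.sub a2 ha2 (by linarith) (by linarith)
  have hht : (k3 * k2) t1 ∈ R a' := by
    have := (hfam.mem ha1 (by linarith) (by linarith) hhR (t := t1)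
      (by rw [hha]; linarith) (by rw [hha]; linarith)).2 ht1R
    rw [hha] at this
    exact this
  have hlock' : A.LockI z e x a' ((k3 * k2) t1) := by
    have := hlock.map ha1 (by linarith) (by linarith) hh
    rw [hha] at this
    exact this
  have t_sgn : ∀ h, A.RIn z e v1 a' h → e + m ≤ pos z (h a') → pos z (h a') ≤ v1 - m →
      A.Near n 1 (h a') (h ((k3 * k2) t1)) := by
    intro h hh' e1 e2
    have hha' : h a' ∈ A.orb z := orb_of_orb ha' hh'.mem_G
    have hh'x : A.RIn z e x a' h := hh'.mono le_rfl (by linarith)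
    have hl3 := hlock'.map ha' (by linarith) (by linarith) hh'x
    have htD : h ((k3 * k2) t1) ∈ A.D := A.map_mem hh'.mem_G (A.map_mem hh.mem_G ht1D)
    obtain ⟨σ, hσ, hσn⟩ := hln (h a') (orb_mem_D hz hha') _ htD (fun u hu hua =>
      hl3 u (Reach.mono (Set.Icc_subset_Icc (by linarith) (by linarith)) hu) hua)
    have hcomp : A.RIn z e x a1 (h * (k3 * k2)) := by
      refine hh.trans ha1 ?_
      rw [hha]
      exact hh'x
    have h1 : (h * (k3 * k2)) a1 = h a' := by rw [Equiv.Perm.mul_apply, hha]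
    have h2 : (h * (k3 * k2)) t1 = h ((k3 * k2) t1) := rfl
    have hσ1 := hsu z hz a1 ha1 t1 ht1D e x hlock (by linarith) (by linarith) 1
      (h * (k3 * k2)) (RIn.one _ _ _ _) hcomp 1 σ (Or.inl rfl) hσ
      (by rw [Equiv.Perm.one_apply]; linarith) (by rw [Equiv.Perm.one_apply]; linarith)
      (by rw [h1]; linarith) (by rw [h1]; linarith)
      (by rw [Equiv.Perm.one_apply, Equiv.Perm.one_apply]; exact near_mono hns ht1.2.2.2)
      (by rw [h1, h2]; exact near_mono hns hσn)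
    rw [← hσ1] at hσn
    exact hσn
  have hne : (k3 * k2) t1 ≠ τ' := by
    intro hcon
    have h1 := t_sgn 1 (RIn.one _ _ _ _) (by rw [Equiv.Perm.one_apply]; linarith)
      (by rw [Equiv.Perm.one_apply]; linarith)
    rw [Equiv.Perm.one_apply, Equiv.Perm.one_apply, hcon] at h1
    exact hsgn a' (orb_mem_D hz ha') τ' h1 hnear
  have hgap : A.dh ((k3 * k2) t1) τ' ≤ C0 := by
    have htop2 := hright k2 hk2 hk2a
    have hinv : A.RIn z e x a' k3⁻¹ := by
      have := hk3.inv ha2 (by linarith) (by linarith)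
      rw [hk3a] at this
      exact this
    have hinv2 : k3⁻¹ a' = a2 := by rw [← hk3a, pinv_apply]
    have hmem : k3⁻¹ τ' ∈ R a2 := by
      have := (hfam.mem ha' (by linarith) (by linarith)
        (hinv.mono (by linarith) le_rfl) (t := τ')
        (by rw [hinv2]; linarith) (by rw [hinv2]; linarith)).2 htop.1
      rw [hinv2] at this
      exact this
    have hb1 := htop2.le hmem
    have hb2 := abs_le.1 (hs3.dh_le hk3.mem_G hy (hsub2 htop2.1) (hsub2 hmem))
    rw [papply_inv] at hb2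
    have hb3 := dh_neg (A := A) (hsub2 htop2.1) (hsub2 hmem)
    rw [Equiv.Perm.mul_apply]
    linarith [hb2.2]
  have hcfg := (new_cfg (C0 := C0) (M := M) (Lg := Lg) (n := n) hc (by omega : c0 ≤ m) hz hy hfam
    (e := e) (v1 := v1) (by linarith) ha' (by linarith) q2 (by linarith) hht
    (hlock'.mono le_rfl (by linarith)) t_sgn (by
      intro h hh' e1 e2
      have hh'x : A.RIn z e x a' h := hh'.mono le_rfl (by linarith)
      have hcomp : A.RIn z e x a1 (h * (k3 * k2)) := by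
        refine hh.trans ha1 ?_
        rw [hha]
        exact hh'x
      have := t_end _ hcomp (by rw [Equiv.Perm.mul_apply, hha]; exact e1)
        (by rw [Equiv.Perm.mul_apply, hha]; exact e2)
      rw [Equiv.Perm.mul_apply, hha] at this
      exact this)
    htop.1 hlockτ (fun k hk e1 e2 => (htops k hk e1 e2).2)
    (fun k hk e1 e2 t ht => (htops k hk e1 e2).1.le ht) hne hgap).1
  exact hno z y l v1 e _ a' _ τ' hGL (by linarith) hA3 hcfg

theorem strip' (A : Sys b F) {N c0 : ℕ} (hN : A.BCN N) (hc : A.BCc c0)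
    (hred : A.Reduced) (hur : A.URaise) : ∃ W1 : ℕ, ∀ L1 : ℕ, ∃ W2 : ℕ, ∀ L2 : ℕ, ∃ Dp : ℕ,
      ∀ z ∈ A.D, ∀ y ∈ A.D, ∀ l r : ℤ, A.GoodL c0 W1 L1 z l → A.GoodL c0 W2 L2 z l →
        A.GoodR c0 W1 L1 z r → A.GoodR c0 W2 L2 z r → l + Dp ≤ 0 → Dp ≤ r →
        {t : Pt b F | ∃ h, A.RIn z l r z h ∧ h z = z ∧ t = h y}.Finite → A.LockI z l r z y := by
  obtain ⟨n0, hno⟩ := no_cfg' A hN hc hred hur
  obtain ⟨n2, hn2⟩ := A.near_sign hN
  obtain ⟨cs, ns, -, hsu⟩ := A.sign_unique hN hc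
  obtain ⟨K, hSP⟩ := exists_SP hN hc
  set n : ℕ := max n0 (max n2 ns) with hn
  have hsgn := hn2 n ((le_max_left _ _).trans (le_max_right _ _))
  have hns : ns ≤ n := (le_max_right _ _).trans (le_max_right _ _)
  obtain ⟨m0, hno⟩ := hno n (le_max_left _ _)
  obtain ⟨ml, hln⟩ := A.lock_near hN hred n
  obtain ⟨R0, hTT⟩ := A.top_token hN hred n
  set m : ℕ := m0 + ml + (2 * c0 + cs + ns + R0 + A.ρ + 1) with hm
  obtain ⟨Cs, hno⟩ := hno m (by omega) (m + A.ρ) le_rfl (2 * c0 + 2 * A.ρ) le_rfl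
  set C0 : ℝ := max Cs (2 * (K * (((R0 + c0 + m + 2 * A.ρ : ℕ) : ℝ) + 1))) with hC0
  obtain ⟨Y0', Wm, hno⟩ := hno C0 (le_max_left _ _)
  set Y0 : ℕ := Y0' + (3 * c0 + R0 + 2 * m + A.ρ) with hY0
  set Lg : ℕ := 2 * c0 + 2 * A.ρ with hLg
  set Kr : ℝ := 2 * (K * (((Y0 + R0 + A.ρ : ℕ) : ℝ) + 1)) + 1 with hKr
  obtain ⟨W', hUR⟩ := hur (Lg + 1) Kr
  set W1 : ℕ := Wm + (3 * c0 + R0 + m + cs + ns + A.ρ + Lg) with hW1
  refine ⟨W1, fun L1 => ?_⟩
  obtain ⟨W2c, hno⟩ := hno W1 L1 (by omega)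
  set Y1 : ℕ := W1 + L1 + W' + 3 * c0 + 2 * A.ρ + m + Lg + R0 + 1 with hY1
  set W2 : ℕ := W2c + W1 + L1 + W' + R0 + 2 * m + 2 * c0 + A.ρ + 1 + Y1 + R0 + c0 with hW2
  refine ⟨W2, fun L2 => ?_⟩
  refine ⟨2 * (W2 + L2 + c0 + R0 + W1 + L1 + Y1 + m + A.ρ + 1), ?_⟩
  intro z hz y hy l r hGL1 hGL2 hGR1 hGR2 hl hr hfin
  push_cast at hl hr
  have hc0 : (0 : ℤ) ≤ c0 := by positivity
  have hR00 : (0 : ℤ) ≤ R0 := by positivity
  have hρ0 : (0 : ℤ) ≤ A.ρ := by positivity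
  have hL10 : (0 : ℤ) ≤ L1 := by positivity
  have hL20 : (0 : ℤ) ≤ L2 := by positivity
  have hW10 : (0 : ℤ) ≤ W1 := by positivity
  have hW20 : (0 : ℤ) ≤ W2 := by positivity
  have hW'0 : (0 : ℤ) ≤ W' := by positivity
  have hY10 : (0 : ℤ) ≤ Y1 := by positivity
  have hm0 : (0 : ℤ) ≤ m := by positivity
  have hLg0 : (0 : ℤ) ≤ Lg := by positivity
  have hY1' : (Y1 : ℤ) = W1 + L1 + W' + 3 * c0 + 2 * A.ρ + m + Lg + R0 + 1 := by
    rw [hY1]; push_cast; ring
  have hW2' : (W2 : ℤ) = W2c + W1 + L1 + W' + R0 + 2 * m + 2 * c0 + A.ρ + 1 + Y1 + R0 + c0 := by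
    rw [hW2]; push_cast; ring
  have hW2c0 : (0 : ℤ) ≤ W2c := by positivity
  have hW1' : (3 * c0 + R0 + m + cs + ns + A.ρ + Lg : ℤ) ≤ W1 := by
    rw [hW1]; push_cast; linarith [(by positivity : (0 : ℤ) ≤ Wm)]
  have hcs0 : (0 : ℤ) ≤ cs := by positivity
  have hns0 : (0 : ℤ) ≤ ns := by positivity
  have h0 : pos z z = 0 := pos_self z
  have hzz := A.orb_self z
  have hfam := SR_fam hc hz (y := y) (l := l) (r := r) (by linarith) (by linarith) hfin
  obtain ⟨v, w, hvw, hgm0, hgp0⟩ := hTT z hz y hy _ _ _ hfam.fam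
  have hgm : A.GoodOn (A.SR z y l r) n (-1) z (l + c0 + R0) v := hgm0
  have hgp : A.GoodOn (A.SR z y l r) n 1 z w (r - c0 - R0) := hgp0
  have hsubz := hfam.sub z hzz (by linarith) (by linarith)
  by_cases hB1 : r - Y1 < w
  · -- only the left part
    have hg1 := hgm.mono (le_refl (l + c0 + R0)) (min_le_left v (r - c0))
    have hv' : r - W2 ≤ min v (r - c0) := le_min (by linarith) (by linarith)
    obtain ⟨q, hq⟩ := hg1 z hzz (by linarith) (by linarith)
    have hlk := hg1.lock hfam (by linarith) (min_le_right _ _) hzz (by linarith) (by linarith)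
      hq.isTop
    have hqD := mem_D_of_orb' hy (hsubz hq.1)
    have := strip_end hGL2 hGR2 hqD hlk (by linarith) hv' (by linarith) (by linarith)
    exact SR_lock (by linarith) (by linarith) hzz (by linarith) (by linarith) hq.1 this
  push Not at hB1
  by_cases hB2 : v < l + Y1
  · -- only the right part
    have hg1 := hgp.mono (le_max_left w (l + c0)) (le_refl (r - c0 - R0))
    have hw' : max w (l + c0) ≤ l + W2 := max_le (by linarith) (by linarith)
    obtain ⟨q, hq⟩ := hg1 z hzz (by linarith) (by linarith)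
    have hlk := hg1.lock hfam (le_max_right _ _) (by linarith) hzz (by linarith) (by linarith)
      hq.isTop
    have hqD := mem_D_of_orb' hy (hsubz hq.1)
    have := strip_end hGL2 hGR2 hqD hlk hw' (by linarith) (by linarith) (by linarith)
    exact SR_lock (by linarith) (by linarith) hzz (by linarith) (by linarith) hq.1 this
  push Not at hB2
  obtain ⟨a1, ha1, p1, p2⟩ := exists_at hz (r - W1 - c0 - A.ρ)
  have p2' : pos z a1 ≤ r - W1 - c0 := by linarith
  set w' : ℤ := max w (l + c0) with hw'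
  have hw'1 : w ≤ w' := le_max_left _ _
  have hw'2 : l + c0 ≤ w' := le_max_right _ _
  have hw'3 : w' ≤ r - Y1 := max_le (by linarith) (by linarith)
  have hg1 := hgp.mono hw'1 (le_refl (r - c0 - R0))
  obtain ⟨t1, ht1⟩ := hg1 a1 ha1 (by linarith) (by linarith)
  have hlk := hg1.lock hfam hw'2 (by linarith) ha1 (by linarith) (by linarith) ht1.isTop
  have hsub1 := hfam.sub a1 ha1 (by linarith) (by linarith)
  have ht1D := mem_D_of_orb' hy (hsub1 ht1.1)
  have hlk2 : A.LockI z w' r a1 t1 := hGR1 a1 ha1 t1 ht1D w' (by linarith) (by linarith)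
    (by linarith) (hlk.mono le_rfl (by linarith))
  by_cases hfull : A.LockI z l r a1 t1
  · exact SR_lock (by linarith) (by linarith) ha1 (by linarith) (by linarith) ht1.1 hfull
  exfalso
  obtain ⟨e, he1, he2, he3, he4⟩ := exists_end (by linarith) hlk2 hfull
  have heW : l + W2 ≤ e := by
    by_contra hcon
    push Not at hcon
    exact hfull (hGL2 a1 ha1 t1 ht1D r (by linarith) (by linarith) (by linarith)
      (he3.mono (by linarith) le_rfl))
  have hw'w : w' = w := by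
    rcases max_choice w (l + c0) with h | h
    · rw [hw', h]
    · exfalso
      rw [← hw'] at h
      linarith
  rw [hw'w] at he2
  exact strip_B3 hc hSP hsgn (m := m) (fun a ha t ht h => hln a ha t ht (fun u hu hua =>
      h u (hu.mono (Set.Icc_subset_Icc (by omega) (by omega))) hua)) hsu hns
    (Y0 := Y0) (W2c := W2c) (fun z y l x e R a0 t0 τ0 h1 h2 h3 =>
      hno z y l x e R a0 t0 τ0 h1 h2 (by
        have : (Y0' : ℤ) ≤ Y0 := by rw [hY0]; push_cast; linarith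
        linarith))
    (by omega) le_rfl le_rfl (le_max_right _ _) (by rw [hKr]; linarith) hUR (by omega) (by omega)
    (W2 := W2) (by omega) hz hy hfam hGL1 hvw hgm hgp ha1 p1 p2' ht1 he2 heW he3 he4 (by linarith)

end Sys

end Pool.Agent.helper98.NIG
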