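import Pool.Agent.helper97.NIG.Strand
import Pool.Agent.helper98.NIG.B05

/-!
# NIG / P2 : the harmonic coordinate of a system (helper97)
-/

open scoped BigOperators
open Set Function

set_option linter.unusedSectionVars false
set_option linter.deprecated false

namespace NIG.Strand

variable {V ι : Type*} [Fintype ι] {mv : ι → V → V} {rev : ι → ι} {pos : V → ℤ} {r M N : ℕ}

/-- the current as a sum over the edges crossing from left to right -/
lemma IsStrand.cur_cross (h : IsStrand mv rev pos r M N) (f : V → ℝ) (c : ℤ) :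
    cur mv pos f c = ∑ v ∈ h.win (c - r) c, ∑ i,
      (if c < pos (mv i v) then f (mv i v) - f v else 0) := by
  classical
  set A : V × ι → ℝ := fun p => if pos p.1 ≤ c ∧ c < pos (mv p.2 p.1) then grad mv f p else 0
    with hA
  have hsub : support A ⊆ support (grad mv (cut pos c)) := by
    intro p hp
    simp only [mem_support, ne_eq, hA] at hp ⊢
    intro h0
    apply hp
    rw [if_neg]
    rintro ⟨h1, h2⟩
    unfold grad cut at h0
    rw [if_pos h2, if_neg (not_lt.2 h1)] at h0
    norm_num at h0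
  have hfin : (support A).Finite := (GF_cut h c).subset hsub
  have hfin' : (support (fun p => A (h.e p))).Finite := by
    have := hfin.preimage (f := h.e) (h.e.injective.injOn)
    exact this
  have h1 : ∀ p, grad mv (cut pos c) p * grad mv f p = A p + A (h.e p) := by
    intro p
    simp only [hA, IsStrand.e_apply, h.mv_rev]
    unfold grad cut
    simp only [h.mv_rev]
    split_ifs <;> first | (exfalso; omega) | ring
  have h2 : ∑ᶠ p, A (h.e p) = ∑ᶠ p, A p := finsum_comp_equiv h.e
  unfold cur E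
  rw [finsum_congr h1, finsum_add_distrib hfin hfin', h2, ← two_mul, ← mul_assoc]
  norm_num
  rw [finsum_curry _ hfin, finsum_eq_sum_of_support_subset (s := h.win (c - r) c)]
  · apply Finset.sum_congr rfl
    intro v hv
    rw [h.mem_win] at hv
    rw [finsum_eq_sum_of_fintype]
    apply Finset.sum_congr rfl
    intro i _
    simp only [hA, grad]
    by_cases hc : c < pos (mv i v)
    · rw [if_pos ⟨hv.2, hc⟩, if_pos hc]
    · rw [if_neg (fun hh => hc hh.2), if_neg hc]
  · intro v hv
    rw [Finset.mem_coe, h.mem_win]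
    by_contra hcon
    simp only [mem_support, ne_eq] at hv
    apply hv
    rw [finsum_eq_sum_of_fintype]
    apply Finset.sum_eq_zero
    intro i _
    simp only [hA]
    rw [if_neg]
    rintro ⟨h3, h4⟩
    have := abs_le.1 (h.step i v)
    omega

/-- transport of harmonic coordinates along an isomorphism which shifts the positions -/
lemma IsHC.comp_equiv {V' : Type*} {mv' : ι → V' → V'} {pos' : V' → ℤ} {H : V → ℝ}
    (hH : IsHC mv pos H) (e : V' ≃ V) (he : ∀ i v, e (mv' i v) = mv i (e v)) {k : ℤ}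
    (hk : ∀ v, pos (e v) = pos' v + k) : IsHC mv' pos' (fun v => H (e v)) where
  harm := by
    intro v
    have := hH.harm (e v)
    unfold lap at this ⊢
    simp_rw [he]
    exact this
  lip := by
    intro i v
    have := hH.lip i (e v)
    rw [← he] at this
    exact this
  cur := by
    intro c
    rw [← hH.cur (c + k)]
    unfold Strand.cur E
    congr 1
    rw [← finsum_comp_equiv (e.prodCongr (Equiv.refl ι))]
    apply finsum_congr
    intro p
    have h1 : ∀ v, cut pos' c v = cut pos (c + k) (e v) := by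
      intro v
      unfold cut
      rw [hk]
      by_cases hc : c < pos' v
      · rw [if_pos hc, if_pos (by omega)]
      · rw [if_neg hc, if_neg (by omega)]
    simp only [grad, h1, he, Equiv.prodCongr_apply, Prod.map_fst, Prod.map_snd, Equiv.refl_apply]

/-- far points are joined by paths of linearly bounded length -/
lemma IsStrand.path_far (h : IsStrand mv rev pos r M N) (v w : V) :
    ∃ l : List ι, (l.length : ℤ) ≤ N * (|pos v - pos w| + 1) ∧ l.foldr mv v = w := by
  have key : ∀ (k : ℕ) (v w : V), |pos v - pos w| ≤ k →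
      ∃ l : List ι, l.length ≤ N * (k + 1) ∧ l.foldr mv v = w := by
    intro k
    induction k with
    | zero =>
      intro v w h1
      obtain ⟨l, hl, hl2⟩ := h.conn v w (by
        push_cast at h1
        exact h1.trans (by positivity))
      exact ⟨l, by simpa using hl, hl2⟩
    | succ k ih =>
      intro v w h1
      by_cases hc : |pos v - pos w| ≤ 3 * r + 3
      · obtain ⟨l, hl, hl2⟩ := h.conn v w hc
        refine ⟨l, hl.trans ?_, hl2⟩
        nlinarith [Nat.zero_le N, Nat.zero_le k]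
      · rcases le_total (pos v) (pos w) with hle | hle
        · obtain ⟨u, hu⟩ := h.hit (pos v + r + 1)
          rw [abs_le] at hu h1
          rw [abs_le, not_and_or] at hc
          obtain ⟨l, hl, hl2⟩ := h.conn v u (by rw [abs_le]; constructor <;> omega)
          obtain ⟨l', hl', hl2'⟩ := ih u w (by
            rw [abs_le]; push_cast at h1; constructor <;> omega)
          refine ⟨l' ++ l, ?_, ?_⟩
          · rw [List.length_append]
            nlinarith
          · rw [List.foldr_append, hl2, hl2']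
        · obtain ⟨u, hu⟩ := h.hit (pos v - r - 1)
          rw [abs_le] at hu h1
          rw [abs_le, not_and_or] at hc
          obtain ⟨l, hl, hl2⟩ := h.conn v u (by rw [abs_le]; constructor <;> omega)
          obtain ⟨l', hl', hl2'⟩ := ih u w (by
            rw [abs_le]; push_cast at h1; constructor <;> omega)
          refine ⟨l' ++ l, ?_, ?_⟩
          · rw [List.length_append]
            nlinarith
          · rw [List.foldr_append, hl2, hl2']
  obtain ⟨l, hl, hl2⟩ := key (|pos v - pos w|).toNat v w (by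
    rw [Int.toNat_of_nonneg (abs_nonneg _)])
  refine ⟨l, ?_, hl2⟩
  have h1 : ((N * ((|pos v - pos w|).toNat + 1) : ℕ) : ℤ) = N * (|pos v - pos w| + 1) := by
    push_cast
    rw [Int.toNat_of_nonneg (abs_nonneg _)]
  rw [← h1]
  exact_mod_cast hl

end NIG.Strand

namespace Pool.Agent.helper98.NIG

open _root_.NIG.Strand

variable {b : Base} {F : Type} [Fintype F]

theorem pinv_apply {α : Type*} (g : Equiv.Perm α) (x : α) : g⁻¹ (g x) = x :=
  g.symm_apply_apply x

theorem papply_inv {α : Type*} (g : Equiv.Perm α) (x : α) : g (g⁻¹ x) = x :=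
  g.apply_symm_apply x

namespace Sys

variable (A : Sys b F)

/-- bounded connectivity with bound `N` -/
def BCN (N : ℕ) : Prop := ∀ x ∈ A.D, ∀ g ∈ A.G, |disp g x| ≤ 3 * A.ρ + 3 →
  ∃ l : List (Equiv.Perm (Pt b F)), l.length ≤ N ∧ (∀ s ∈ l, s ∈ A.S) ∧ l.prod x = g x

omit [Fintype F] in
theorem orb_self (x : Pt b F) : x ∈ A.orb x := ⟨1, A.G.one_mem, rfl⟩

omit [Fintype F] in
theorem orb_map {g : Equiv.Perm (Pt b F)} (hg : g ∈ A.G) {x a : Pt b F} (ha : a ∈ A.orb x) :
    g a ∈ A.orb x := by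
  obtain ⟨h, hh, rfl⟩ := ha
  exact ⟨g * h, A.G.mul_mem hg hh, rfl⟩

omit [Fintype F] in
theorem orb_eq {x a : Pt b F} (ha : a ∈ A.orb x) : A.orb a = A.orb x := by
  obtain ⟨h, hh, rfl⟩ := ha
  ext z
  constructor
  · rintro ⟨g, hg, rfl⟩
    exact ⟨g * h, A.G.mul_mem hg hh, rfl⟩
  · rintro ⟨g, hg, rfl⟩
    refine ⟨g * h⁻¹, A.G.mul_mem hg (A.G.inv_mem hh), ?_⟩
    rw [Equiv.Perm.mul_apply, pinv_apply]

omit [Fintype F] in
theorem sameLine_orb {x a : Pt b F} (ha : a ∈ A.orb x) : SameLine x a := by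
  obtain ⟨h, hh, rfl⟩ := ha
  exact sameLine_of_mem_PW (A.G_le_PW hh) x

/-- the moves of the strand of `x` -/
def mvx (x : Pt b F) (s : A.S) (v : A.orb x) : A.orb x :=
  ⟨s.1 v.1, A.orb_map (A.mem_G_of_mem_S s.2) v.2⟩

/-- inverse generator -/
def revx (s : A.S) : A.S := ⟨s.1⁻¹, A.inv_mem _ s.2⟩

/-- position on the strand of `x` -/
noncomputable def posx (x : Pt b F) (v : A.orb x) : ℤ := pos x v.1

omit [Fintype F] in
theorem hit {x : Pt b F} (hx : x ∈ A.D) (n : ℤ) : ∃ v ∈ A.orb x, |pos x v - n| ≤ A.ρ := by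
  by_contra hcon
  push Not at hcon
  have key : ∀ g ∈ A.G, ∀ v ∈ A.orb x, (pos x (g v) < n ↔ pos x v < n) := by
    intro g hg
    induction hg using Subgroup.closure_induction with
    | mem s hs =>
      intro v hv
      have h1 := hcon v hv
      have h2 := hcon (s v) (A.orb_map (A.mem_G_of_mem_S hs) hv)
      have h3 := abs_disp_le (A.pw s hs).1 v
      have h4 := pos_add (A.sameLine_orb hv)
        (sameLine_of_mem_PW (A.G_le_PW (A.mem_G_of_mem_S hs)) v)
      have h5 : pos x (s v) = pos x v + disp s v := h4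
      rw [abs_le] at h3
      rw [lt_abs] at h1 h2
      constructor <;> intro h6 <;> omega
    | one => intro v _; exact Iff.rfl
    | mul g h hg hh ihg ihh =>
      intro v hv
      rw [Equiv.Perm.mul_apply, ihg _ (A.orb_map hh hv), ihh v hv]
    | inv g hg ih =>
      intro v hv
      rw [← ih _ (A.orb_map (A.G.inv_mem hg) hv), papply_inv]
  obtain ⟨g, hg, h1⟩ := A.right x hx n
  obtain ⟨g', hg', h2⟩ := A.left x hx n
  have h3 := (key g hg x (A.orb_self x)).not
  have h4 := key g' hg' x (A.orb_self x)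
  have h5 : pos x (g x) = disp g x := rfl
  have h6 : pos x (g' x) = disp g' x := rfl
  rw [h5] at h3
  rw [h6] at h4
  have h7 : ¬ disp g x < n := by omega
  exact (h3.1 h7) (h4.1 h2)

omit [Fintype F] in
theorem foldr_mvx (x : Pt b F) (l : List A.S) (v : A.orb x) :
    (l.foldr (A.mvx x) v).1 = (l.map Subtype.val).prod v.1 := by
  induction l with
  | nil => rfl
  | cons s l ih =>
    simp only [List.foldr_cons, List.map_cons, List.prod_cons, Equiv.Perm.mul_apply]
    rw [← ih]
    rfl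

theorem isStrand {N : ℕ} (hN : A.BCN N) {x : Pt b F} (hx : x ∈ A.D) :
    IsStrand (A.mvx x) A.revx (A.posx x) A.ρ ((2 * A.ρ + 1) * Fintype.card F) N where
  rev_rev := by
    intro s
    apply Subtype.ext
    exact inv_inv _
  mv_rev := by
    intro s v
    apply Subtype.ext
    exact pinv_apply _ _
  step := by
    intro s v
    have h3 := abs_disp_le (A.pw s.1 s.2).1 v.1
    have h4 := pos_add (A.sameLine_orb v.2)
      (sameLine_of_mem_PW (A.G_le_PW (A.mem_G_of_mem_S s.2)) v.1)
    have h5 : A.posx x (A.mvx x s v) = A.posx x v + disp s.1 v.1 := h4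
    rw [h5, add_sub_cancel_left]
    exact h3
  fin := by
    intro a c
    have hinj : InjOn (fun v : A.orb x => (A.posx x v, v.1.2)) univ := by
      intro v _ w _ hvw
      simp only [Prod.mk.injEq] at hvw
      apply Subtype.ext
      rw [eq_of_pos (A.sameLine_orb v.2), eq_of_pos (A.sameLine_orb w.2)]
      have h1 : pos x v.1 = pos x w.1 := hvw.1
      rw [h1, hvw.2]
    have hf : ((Icc a c) ×ˢ (univ : Set F)).Finite := (finite_Icc a c).prod finite_univ
    refine (hf.preimage (hinj.mono (subset_univ _))).subset ?_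
    intro v hv
    exact ⟨hv, mem_univ _⟩
  width := by
    intro a
    have hinj : ∀ v ∈ {v : A.orb x | a ≤ A.posx x v ∧ A.posx x v ≤ a + 2 * A.ρ},
        ∀ w ∈ {v : A.orb x | a ≤ A.posx x v ∧ A.posx x v ≤ a + 2 * A.ρ},
        (fun v : A.orb x => (A.posx x v, v.1.2)) v = (fun v : A.orb x => (A.posx x v, v.1.2)) w →
        v = w := by
      intro v _ w _ hvw
      simp only [Prod.mk.injEq] at hvw
      apply Subtype.ext
      rw [eq_of_pos (A.sameLine_orb v.2), eq_of_pos (A.sameLine_orb w.2)]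
      have h1 : pos x v.1 = pos x w.1 := hvw.1
      rw [h1, hvw.2]
    have hf : (Icc a (a + 2 * A.ρ) ×ˢ (univ : Set F)).Finite := (finite_Icc _ _).prod finite_univ
    refine (Set.ncard_le_ncard_of_injOn (t := Icc a (a + 2 * A.ρ) ×ˢ (univ : Set F)) _ ?_ hinj
      hf).trans ?_
    · intro v hv
      exact ⟨hv, mem_univ _⟩
    · rw [Set.ncard_prod, Set.ncard_univ, Nat.card_eq_fintype_card]
      apply Nat.mul_le_mul_right
      rw [← Finset.coe_Icc, Set.ncard_coe_finset, Int.card_Icc]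
      omega
  conn := by
    intro v w hvw
    obtain ⟨g, hg, hgv⟩ := v.2
    obtain ⟨h, hh, hhw⟩ := w.2
    have hvD : v.1 ∈ A.D := by rw [hgv]; exact A.map_mem hg hx
    have hk : (h * g⁻¹) ∈ A.G := A.G.mul_mem hh (A.G.inv_mem hg)
    have hkv : (h * g⁻¹) v.1 = w.1 := by
      rw [Equiv.Perm.mul_apply, hgv, hhw, pinv_apply]
    have hd : disp (h * g⁻¹) v.1 = A.posx x w - A.posx x v := by
      have h4 := pos_add (A.sameLine_orb v.2) (sameLine_of_mem_PW (A.G_le_PW hk) v.1)
      rw [hkv] at h4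
      unfold disp
      rw [hkv]
      unfold posx
      omega
    obtain ⟨l, hl, hlS, hlx⟩ := hN v.1 hvD _ hk (by rw [hd, abs_sub_comm]; exact hvw)
    refine ⟨l.attachWith (fun s => s ∈ A.S) hlS, by simpa using hl, ?_⟩
    apply Subtype.ext
    rw [foldr_mvx, ← hkv, ← hlx]
    congr 1
    simp
  hit := by
    intro n
    obtain ⟨v, hv, h⟩ := A.hit hx n
    exact ⟨⟨v, hv⟩, h⟩

/-- `H` is a harmonic coordinate on the orbit of `x` -/
def IsHCx (x : Pt b F) (H : Pt b F → ℝ) : Prop :=
  IsHC (A.mvx x) (A.posx x) (fun v => H v.1)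

theorem IsHCx.transfer {A : Sys b F} {x x' : Pt b F} (hx : x' ∈ A.orb x) {H : Pt b F → ℝ}
    (h : A.IsHCx x H) : A.IsHCx x' H := by
  have he : A.orb x' = A.orb x := A.orb_eq hx
  have hx' : x ∈ A.orb x' := by rw [he]; exact A.orb_self x
  refine IsHC.comp_equiv h (Equiv.setCongr he) (k := pos x x') ?_ ?_
  · intro i v
    apply Subtype.ext
    rfl
  · intro v
    have hv : v.1 ∈ A.orb x := by rw [← he]; exact v.2
    have h1 := pos_add (A.sameLine_orb hx) (A.sameLine_orb v.2)
    have h2 : A.posx x (Equiv.setCongr he v) = pos x v.1 := rfl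
    have h3 : A.posx x' v = pos x' v.1 := rfl
    rw [h2, h3, h1]; ring

open Classical in
/-- a chosen harmonic coordinate on every orbit -/
noncomputable def Hc (O : Set (Pt b F)) : Pt b F → ℝ :=
  if h : ∃ H : Pt b F → ℝ, ∀ x ∈ A.D, A.orb x = O → A.IsHCx x H then h.choose else 0

theorem Hc_spec {N : ℕ} (hN : A.BCN N) {x : Pt b F} (hx : x ∈ A.D) :
    A.IsHCx x (A.Hc (A.orb x)) := by
  classical
  have hex : ∃ H : Pt b F → ℝ, ∀ y ∈ A.D, A.orb y = A.orb x → A.IsHCx y H := by
    obtain ⟨H, hH⟩ := (A.isStrand hN hx).exists_hc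
    refine ⟨fun v => if hv : v ∈ A.orb x then H ⟨v, hv⟩ else 0, ?_⟩
    intro y hy he
    have hyx : y ∈ A.orb x := by rw [← he]; exact A.orb_self y
    refine IsHCx.transfer hyx ?_
    unfold IsHCx
    convert hH using 1
    funext v
    show (if hv : v.1 ∈ A.orb x then H ⟨v.1, hv⟩ else 0) = H v
    rw [dif_pos v.2]
  unfold Hc
  rw [dif_pos hex]
  exact hex.choose_spec x hx rfl

/-- the difference of the harmonic coordinate -/
noncomputable def hδ (g : Equiv.Perm (Pt b F)) (x : Pt b F) : ℝ :=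
  A.Hc (A.orb x) (g x) - A.Hc (A.orb x) x

variable {A}

omit [Fintype F] in
theorem hδ_congr {g g' : Equiv.Perm (Pt b F)} {x : Pt b F} (h : g x = g' x) :
    A.hδ g x = A.hδ g' x := by
  unfold hδ; rw [h]

omit [Fintype F] in
theorem hδ_of_mem {g : Equiv.Perm (Pt b F)} {x v : Pt b F} (hv : v ∈ A.orb x) :
    A.hδ g v = A.Hc (A.orb x) (g v) - A.Hc (A.orb x) v := by
  unfold hδ
  rw [A.orb_eq hv]

omit [Fintype F] in
theorem hδ_mul {g h : Equiv.Perm (Pt b F)} (hh : h ∈ A.G) (x : Pt b F) :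
    A.hδ (g * h) x = A.hδ g (h x) + A.hδ h x := by
  rw [hδ_of_mem (A.orb_map hh (A.orb_self x))]
  unfold hδ
  rw [Equiv.Perm.mul_apply]
  ring

theorem hδ_lip {N : ℕ} (hN : A.BCN N) {x : Pt b F} (hx : x ∈ A.D) {s : Equiv.Perm (Pt b F)}
    (hs : s ∈ A.S) : |A.hδ s x| ≤ 1 :=
  (A.Hc_spec hN hx).lip ⟨s, hs⟩ ⟨x, A.orb_self x⟩

theorem hδ_harm {N : ℕ} (hN : A.BCN N) {x : Pt b F} (hx : x ∈ A.D) :
    ∑ s ∈ A.S, A.hδ s x = 0 := by
  have := (A.Hc_spec hN hx).harm ⟨x, A.orb_self x⟩
  unfold lap at this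
  rw [← this, ← Finset.sum_coe_sort A.S]
  rfl

theorem hδ_lower {N : ℕ} (hN : A.BCN N) {x : Pt b F} (hx : x ∈ A.D) {g : Equiv.Perm (Pt b F)}
    (hg : g ∈ A.G) (hd : 0 ≤ disp g x) :
    2 / (((2 * A.ρ + 1) * Fintype.card F : ℕ) * Fintype.card A.S * (2 * A.ρ + 1) : ℝ)
      * (disp g x : ℝ) - (2 + ((2 * A.ρ + 1) * Fintype.card F : ℕ) * Fintype.card A.S * N)
      ≤ A.hδ g x := by
  have h1 := (A.Hc_spec hN hx).lower (A.isStrand hN hx) (v := ⟨x, A.orb_self x⟩)
    (w := ⟨g x, A.orb_map hg (A.orb_self x)⟩) (by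
      show pos x x ≤ pos x (g x)
      rw [pos_self]; exact hd)
  have h2 : A.posx x ⟨g x, A.orb_map hg (A.orb_self x)⟩ - A.posx x ⟨x, A.orb_self x⟩
      = disp g x := by
    show pos x (g x) - pos x x = disp g x
    rw [pos_self, sub_zero]; rfl
  rw [h2] at h1
  exact h1

theorem hδ_upper {N : ℕ} (hN : A.BCN N) {x : Pt b F} (hx : x ∈ A.D) {g : Equiv.Perm (Pt b F)}
    (hg : g ∈ A.G) : |A.hδ g x| ≤ N * (|disp g x| + 1 : ℤ) := by
  have h1 := (A.Hc_spec hN hx).upper (A.isStrand hN hx)
    ⟨g x, A.orb_map hg (A.orb_self x)⟩ ⟨x, A.orb_self x⟩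
  have h2 : A.posx x ⟨g x, A.orb_map hg (A.orb_self x)⟩ - A.posx x ⟨x, A.orb_self x⟩
      = disp g x := by
    show pos x (g x) - pos x x = disp g x
    rw [pos_self, sub_zero]; rfl
  rw [h2] at h1
  exact h1

theorem hδ_bdd {N : ℕ} (hN : A.BCN N) {g : Equiv.Perm (Pt b F)} (hg : g ∈ A.G) :
    ∃ B : ℝ, ∀ x ∈ A.D, |A.hδ g x| ≤ B := by
  obtain ⟨ρ', hρ, -⟩ := A.G_le_PW hg
  refine ⟨N * ((ρ' : ℝ) + 1), fun x hx => (hδ_upper hN hx hg).trans ?_⟩
  have := abs_disp_le hρ x
  have h2 : ((|disp g x| + 1 : ℤ) : ℝ) ≤ (ρ' : ℝ) + 1 := by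
    have : (|disp g x| + 1 : ℤ) ≤ ρ' + 1 := by omega
    exact_mod_cast this
  exact mul_le_mul_of_nonneg_left h2 (by positivity)

/-- `cutSum` as a sum over the strand -/
theorem cutSum_eq {N : ℕ} (hN : A.BCN N) {x : Pt b F} (hx : x ∈ A.D) (c : ℤ)
    (w : Equiv.Perm (Pt b F) → Pt b F → ℝ) :
    cutSum A x c w = ∑ v ∈ (A.isStrand hN hx).win (c - A.ρ) c, ∑ s : A.S,
      (if c < A.posx x (A.mvx x s v) then w s.1 v.1 else 0) := by
  classical
  set G : Pt b F → ℝ := fun v => ∑ s ∈ A.S, if c < pos x (s v) then w s v else 0 with hG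
  have h1 : cutSum A x c w = ∑ q ∈ (Finset.Ioc (c - A.ρ) c ×ˢ (Finset.univ : Finset F)).filter
      (fun q => (sh q.1 x.1, q.2) ∈ A.orb x), G (sh q.1 x.1, q.2) := by
    rw [Finset.sum_filter, Finset.sum_product]
    unfold cutSum
    apply Finset.sum_congr rfl
    intro k _
    apply Finset.sum_congr rfl
    intro φ _
    by_cases hk : (sh k x.1, φ) ∈ A.orb x
    · rw [if_pos hk]
      apply Finset.sum_congr rfl
      intro s _
      by_cases hc : c < pos x (s (sh k x.1, φ))
      · rw [if_pos ⟨hk, hc⟩, if_pos hc]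
      · rw [if_neg (fun hh => hc hh.2), if_neg hc]
    · rw [if_neg hk]
      apply Finset.sum_eq_zero
      intro s _
      rw [if_neg (fun hh => hk hh.1)]
  have h2 : ∀ v : A.orb x, ∑ s : A.S, (if c < A.posx x (A.mvx x s v) then w s.1 v.1 else 0)
      = G v.1 := by
    intro v
    rw [hG]
    simp only
    rw [← Finset.sum_coe_sort A.S]
    rfl
  rw [h1]
  simp_rw [h2]
  refine Finset.sum_bij (fun q hq => ⟨(sh q.1 x.1, q.2), (Finset.mem_filter.1 hq).2⟩) ?_ ?_ ?_ ?_
  · intro q hq
    rw [(A.isStrand hN hx).mem_win]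
    rw [Finset.mem_filter, Finset.mem_product, Finset.mem_Ioc] at hq
    show c - A.ρ < pos x (sh q.1 x.1, q.2) ∧ pos x (sh q.1 x.1, q.2) ≤ c
    rw [pos_sh]
    exact hq.1.1
  · intro q hq q' hq' he
    have h3 := congrArg Subtype.val he
    have h4 := congrArg Prod.fst h3
    have h5 := congrArg Prod.snd h3
    exact Prod.ext (sh_inj h4) h5
  · intro v hv
    rw [(A.isStrand hN hx).mem_win] at hv
    have h3 := eq_of_pos (A.sameLine_orb v.2)
    refine ⟨(pos x v.1, v.1.2), ?_, ?_⟩
    · rw [Finset.mem_filter, Finset.mem_product, Finset.mem_Ioc]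
      refine ⟨⟨hv, Finset.mem_univ _⟩, ?_⟩
      rw [← h3]; exact v.2
    · apply Subtype.ext
      exact h3.symm
  · intro q hq
    rfl

theorem hδ_unit {N : ℕ} (hN : A.BCN N) {x : Pt b F} (hx : x ∈ A.D) (c : ℤ) :
    cutSum A x c A.hδ = 1 := by
  rw [cutSum_eq hN hx, ← (A.Hc_spec hN hx).cur c, (A.isStrand hN hx).cur_cross]
  apply Finset.sum_congr rfl
  intro v _
  apply Finset.sum_congr rfl
  intro s _
  rw [hδ_of_mem v.2]
  rfl

/-! ### convergence -/

omit [Fintype F] in
theorem eq_of_disp {g : Equiv.Perm (Pt b F)} (hg : g ∈ PW b F) {x : Pt b F} {k : ℤ} {φ : F} :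
    g x = (sh k x.1, φ) ↔ disp g x = k ∧ (g x).2 = φ := by
  constructor
  · intro h
    refine ⟨?_, by rw [h]⟩
    unfold disp
    rw [h, pos_sh]
  · rintro ⟨h1, h2⟩
    rw [eq_of_pos (sameLine_of_mem_PW hg x)]
    show (sh (disp g x) x.1, (g x).2) = _
    rw [h1, h2]

omit [Fintype F] in
theorem eq_sh_iff_of_agree {ρ : ℕ} {g : Equiv.Perm (Pt b F)} (hg : IsPW ρ g)
    {x x' : Pt b F} (h : Agree ρ x x') {k : ℤ} {φ : F} :
    g x = (sh k x.1, φ) ↔ g x' = (sh k x'.1, φ) := by
  obtain ⟨n, -, H⟩ := hg x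
  have h0 := H x (Agree.refl _ _)
  have h1 := H x' h
  constructor
  · intro he
    have h2 : n = k := by
      apply sh_inj (y := x.1)
      rw [← h0.1, he]
    refine Prod.ext ?_ ?_
    · rw [h1.1, h2]
    · rw [h1.2, he]
  · intro he
    have h2 : n = k := by
      apply sh_inj (y := x'.1)
      rw [← h1.1, he]
    refine Prod.ext ?_ ?_
    · rw [h0.1, h2]
    · rw [← h1.2, he]

theorem orb_iff_ulim {N : ℕ} (hN : A.BCN N) {κ : Type*} {U : Ultrafilter κ} {u : κ → Pt b F}
    {x : Pt b F} (hu : ∀ N : ℕ, ∀ᶠ i in (U : Filter κ), Agree N (u i) x) (huD : ∀ i, u i ∈ A.D)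
    (k : ℤ) (φ : F) :
    ∀ᶠ i in (U : Filter κ), ((sh k (u i).1, φ) ∈ A.orb (u i) ↔ (sh k x.1, φ) ∈ A.orb x) := by
  by_cases hx : (sh k x.1, φ) ∈ A.orb x
  · obtain ⟨g, hg, hgx⟩ := hx
    obtain ⟨ρ', hρ, -⟩ := A.G_le_PW hg
    filter_upwards [hu ρ'] with i hi
    have h1 := (eq_sh_iff_of_agree hρ hi.symm (k := k) (φ := φ)).1 hgx.symm
    exact iff_of_true ⟨g, hg, h1.symm⟩ ⟨g, hg, hgx⟩
  · have h1 : ¬ ∀ᶠ i in (U : Filter κ), (sh k (u i).1, φ) ∈ A.orb (u i) := by
      intro hev
      apply hx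
      have hfin : {l : List A.S | l.length ≤ N * (k.natAbs + 1)}.Finite :=
        List.finite_length_le _ _
      have h2 : ∀ᶠ i in (U : Filter κ), ∃ l ∈ {l : List A.S | l.length ≤ N * (k.natAbs + 1)},
          (l.map Subtype.val).prod (u i) = (sh k (u i).1, φ) := by
        filter_upwards [hev] with i hi
        obtain ⟨l, hl, hl2⟩ := (A.isStrand hN (huD i)).path_far ⟨u i, A.orb_self _⟩
          ⟨(sh k (u i).1, φ), hi⟩
        refine ⟨l, ?_, ?_⟩
        · have h3 : A.posx (u i) ⟨u i, A.orb_self _⟩ = 0 := pos_self _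
          have h4 : A.posx (u i) ⟨(sh k (u i).1, φ), hi⟩ = k := pos_sh _ _ _
          rw [h3, h4, zero_sub, abs_neg] at hl
          show l.length ≤ N * (k.natAbs + 1)
          have h5 : |k| = (k.natAbs : ℤ) := Int.abs_eq_natAbs k
          rw [h5] at hl
          exact_mod_cast hl
        · rw [← foldr_mvx A (u i) l ⟨u i, A.orb_self _⟩, hl2]
      rw [Ultrafilter.eventually_exists_mem_iff hfin] at h2
      obtain ⟨l, -, hl⟩ := h2
      have hg : (l.map Subtype.val).prod ∈ A.G := by
        apply Subgroup.list_prod_mem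
        intro s hs
        rw [List.mem_map] at hs
        obtain ⟨s', -, rfl⟩ := hs
        exact A.mem_G_of_mem_S s'.2
      obtain ⟨ρ', hρ, -⟩ := A.G_le_PW hg
      obtain ⟨i, hi, hi'⟩ := (hl.and (hu ρ')).exists
      exact ⟨_, hg, ((eq_sh_iff_of_agree hρ hi').1 hi).symm⟩
    rw [← Ultrafilter.eventually_not] at h1
    filter_upwards [h1] with i hi
    exact iff_of_false hi hx

/-- the harmonic coordinates converge along convergent families of points -/
theorem tendsto_hδ {N : ℕ} (hN : A.BCN N) {κ : Type*} {U : Ultrafilter κ} {u : κ → Pt b F}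
    {x : Pt b F} (hu : ∀ N : ℕ, ∀ᶠ i in (U : Filter κ), Agree N (u i) x) (huD : ∀ i, u i ∈ A.D)
    {g : Equiv.Perm (Pt b F)} (hg : g ∈ A.G) :
    Filter.Tendsto (fun i => A.hδ g (u i)) (U : Filter κ) (nhds (A.hδ g x)) := by
  classical
  have hx : x ∈ A.D := A.mem_D_of_ulim hu (Filter.Eventually.of_forall huD)
  -- limits exist
  have hlim : ∀ k : Equiv.Perm (Pt b F), ∃ y : ℝ, k ∈ A.G →
      Filter.Tendsto (fun i => A.hδ k (u i)) (U : Filter κ) (nhds y) := by
    intro k
    by_cases hk : k ∈ A.G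
    · obtain ⟨B, hB⟩ := hδ_bdd hN hk
      have hb : ∀ i, A.hδ k (u i) ∈ Icc (-B) B := fun i => abs_le.1 (hB _ (huD i))
      obtain ⟨y, -, hy⟩ := isCompact_Icc.ultrafilter_le_nhds (U.map (fun i => A.hδ k (u i)))
        (by
          rw [Filter.le_principal_iff, Ultrafilter.mem_coe, Ultrafilter.mem_map]
          exact Filter.Eventually.of_forall hb)
      exact ⟨y, fun _ => hy⟩
    · exact ⟨0, fun h => absurd h hk⟩
  choose L hL using hlim
  -- values agree eventually
  have hev : ∀ k ∈ A.G, ∀ k' ∈ A.G, k x = k' x → ∀ᶠ i in (U : Filter κ), k (u i) = k' (u i) := by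
    intro k hk k' hk' hkk
    obtain ⟨ρ1, h1, -⟩ := A.G_le_PW hk
    obtain ⟨ρ2, h2, -⟩ := A.G_le_PW hk'
    filter_upwards [hu (ρ1 + ρ2)] with i hi
    exact (eq_iff_of_agree (h1.mono (by omega)) (h2.mono (by omega)) hi.symm).1 hkk
  have hLeq : ∀ k ∈ A.G, ∀ k' ∈ A.G, k x = k' x → L k = L k' := by
    intro k hk k' hk' hkk
    refine tendsto_nhds_unique ((hL k hk).congr' ?_) (hL k' hk')
    filter_upwards [hev k hk k' hk' hkk] with i hi
    exact hδ_congr hi
  -- the limit function
  have hrep : ∀ v : A.orb x, ∃ k ∈ A.G, v.1 = k x := fun v => v.2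
  choose γ hγ hγx using hrep
  set K : A.orb x → ℝ := fun v => L (γ v) with hK
  have hKL : ∀ k (hk : k ∈ A.G), K ⟨k x, A.orb_map hk (A.orb_self x)⟩ = L k := by
    intro k hk
    apply hLeq _ (hγ _) _ hk
    rw [← hγx]
  have hKmv : ∀ (s : A.S) (v : A.orb x), K (A.mvx x s v) = L (s.1 * γ v) := by
    intro s v
    have h1 := hKL (s.1 * γ v) (A.G.mul_mem (A.mem_G_of_mem_S s.2) (hγ v))
    rw [← h1]
    congr 1
    apply Subtype.ext
    show s.1 v.1 = s.1 (γ v x)
    rw [← hγx]
  have hdiff : ∀ (s : A.S) (v : A.orb x), Filter.Tendsto (fun i => A.hδ s.1 (γ v (u i)))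
      (U : Filter κ) (nhds (K (A.mvx x s v) - K v)) := by
    intro s v
    rw [hKmv]
    have h1 := (hL _ (A.G.mul_mem (A.mem_G_of_mem_S s.2) (hγ v))).sub (hL _ (hγ v))
    refine h1.congr ?_
    intro i
    rw [hδ_mul (hγ v)]
    ring
  have hKhc : IsHC (A.mvx x) (A.posx x) K := by
    refine ⟨?_, ?_, ?_⟩
    · intro v
      have h1 : Filter.Tendsto (fun i => ∑ s : A.S, A.hδ s.1 (γ v (u i))) (U : Filter κ)
          (nhds (lap (A.mvx x) K v)) := by
        unfold lap
        exact tendsto_finset_sum _ (fun s _ => hdiff s v)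
      have h2 : ∀ i, ∑ s : A.S, A.hδ s.1 (γ v (u i)) = 0 := by
        intro i
        rw [← hδ_harm hN (A.map_mem (hγ v) (huD i)), ← Finset.sum_coe_sort A.S]
      simp_rw [h2] at h1
      exact tendsto_nhds_unique h1 tendsto_const_nhds
    · intro s v
      exact le_of_tendsto' (hdiff s v).abs
        (fun i => hδ_lip hN (A.map_mem (hγ v) (huD i)) s.2)
    · intro c
      set w : Equiv.Perm (Pt b F) → Pt b F → ℝ := fun s a =>
        if h : a ∈ A.orb x ∧ s ∈ A.S then K (A.mvx x ⟨s, h.2⟩ ⟨a, h.1⟩) - K ⟨a, h.1⟩ else 0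
        with hw
      have e1 : cur (A.mvx x) (A.posx x) K c = cutSum A x c w := by
        rw [cutSum_eq hN hx, (A.isStrand hN hx).cur_cross]
        apply Finset.sum_congr rfl
        intro v _
        apply Finset.sum_congr rfl
        intro s _
        have : w s.1 v.1 = K (A.mvx x s v) - K v := by
          rw [hw]
          simp only
          rw [dif_pos ⟨v.2, s.2⟩]
        rw [this]
      have e2 : Filter.Tendsto (fun i => cutSum A (u i) c A.hδ) (U : Filter κ)
          (nhds (cutSum A x c w)) := by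
        unfold cutSum
        apply tendsto_finset_sum
        intro k _
        apply tendsto_finset_sum
        intro φ _
        apply tendsto_finset_sum
        intro s hs
        have hsG := A.mem_G_of_mem_S hs
        have hor := orb_iff_ulim hN hu huD k φ
        by_cases ha : (sh k x.1, φ) ∈ A.orb x
        · -- the point is on the orbit
          set v : A.orb x := ⟨(sh k x.1, φ), ha⟩ with hv
          obtain ⟨ρ1, h1, -⟩ := A.G_le_PW (hγ v)
          have hsγ := A.G.mul_mem hsG (hγ v)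
          obtain ⟨ρ2, h2, -⟩ := A.G_le_PW hsγ
          have h3 : ∀ᶠ i in (U : Filter κ), γ v (u i) = (sh k (u i).1, φ) := by
            filter_upwards [hu ρ1] with i hi
            exact (eq_sh_iff_of_agree h1 hi.symm).1 (hγx v).symm
          have h4 : ∀ᶠ i in (U : Filter κ),
              pos (u i) (s (sh k (u i).1, φ)) = pos x (s (sh k x.1, φ)) := by
            filter_upwards [hu ρ2, h3] with i hi hi3
            rw [← hi3]
            have h5 : s (sh k x.1, φ) = (s * γ v) x := by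
              rw [Equiv.Perm.mul_apply, ← hγx]
            rw [h5]
            exact disp_eq_of_agree h2 hi
          by_cases hc : c < pos x (s (sh k x.1, φ))
          · rw [if_pos ⟨ha, hc⟩]
            have h5 : w s (sh k x.1, φ) = K (A.mvx x ⟨s, hs⟩ v) - K v := by
              rw [hw]
              simp only
              rw [dif_pos ⟨ha, hs⟩]
            rw [h5]
            refine (hdiff ⟨s, hs⟩ v).congr' ?_
            filter_upwards [hor, h3, h4] with i hi1 hi2 hi3
            rw [if_pos ⟨hi1.2 ha, by rw [hi3]; exact hc⟩, hi2]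
          · rw [if_neg (fun hh => hc hh.2)]
            apply tendsto_const_nhds.congr'
            filter_upwards [h4] with i hi3
            rw [if_neg]
            rintro ⟨-, h6⟩
            rw [hi3] at h6
            exact hc h6
        · rw [if_neg (fun hh => ha hh.1)]
          apply tendsto_const_nhds.congr'
          filter_upwards [hor] with i hi
          rw [if_neg (fun hh => ha (hi.1 hh.1))]
      have e3 : ∀ i, cutSum A (u i) c A.hδ = 1 := fun i => hδ_unit hN (huD i) c
      simp_rw [e3] at e2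
      rw [e1]
      exact tendsto_nhds_unique e2 tendsto_const_nhds
  have huniq := hKhc.unique (A.isStrand hN hx) (A.Hc_spec hN hx) ⟨x, A.orb_self x⟩
    ⟨g x, A.orb_map hg (A.orb_self x)⟩
  have h1 : K ⟨x, A.orb_self x⟩ = 0 := by
    have h2 := hKL 1 A.G.one_mem
    have h3 : L 1 = 0 := by
      have h4 : ∀ y, A.hδ 1 y = 0 := by
        intro y
        unfold hδ
        rw [Equiv.Perm.one_apply, sub_self]
      have h5 := hL 1 A.G.one_mem
      simp_rw [h4] at h5
      exact tendsto_nhds_unique h5 tendsto_const_nhds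
    rw [← h3, ← h2]
    rfl
  rw [hKL g hg, h1, sub_zero] at huniq
  have h2 : A.hδ g x = L g := by
    rw [huniq]; rfl
  rw [h2]
  exact hL g hg

theorem hδ_cont {N : ℕ} (hN : A.BCN N) {g : Equiv.Perm (Pt b F)} (hg : g ∈ A.G) {ε : ℝ}
    (hε : 0 < ε) : ∃ N : ℕ, ∀ x ∈ A.D, ∀ x' ∈ A.D, Agree N x x' → |A.hδ g x - A.hδ g x'| < ε := by
  by_contra hcon
  push Not at hcon
  choose u hu u' hu' hag hd using hcon
  let U : Ultrafilter ℕ := Filter.hyperfilter ℕ
  have hUtop : (U : Filter ℕ) ≤ Filter.atTop := by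
    rw [← Nat.cofinite_eq_atTop]
    exact Filter.hyperfilter_le_cofinite
  obtain ⟨x, hx⟩ := exists_ulim U u
  have hx' : ∀ M : ℕ, ∀ᶠ i in (U : Filter ℕ), Agree M (u' i) x := by
    intro M
    filter_upwards [hx M, hUtop (Filter.eventually_ge_atTop M)] with i hi hi'
    exact ((hag i).mono hi').symm.trans hi
  have h1 := tendsto_hδ hN hx hu hg
  have h2 := tendsto_hδ hN hx' hu' hg
  have h3 := (h1.sub h2).abs
  rw [sub_self, abs_zero] at h3
  have h4 := ge_of_tendsto' h3 hd
  linarith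

/-- **Existence of the harmonic coordinate of a system** (from bounded connectivity). -/
theorem harm_of_BCN {N : ℕ} (hN : A.BCN N) : Nonempty (Harm A) := by
  obtain ⟨x0, hx0⟩ := A.nonempty
  have hM := (A.Hc_spec hN hx0).M_pos (A.isStrand hN hx0)
  set c0 : ℝ := 2 / (((2 * A.ρ + 1) * Fintype.card F : ℕ) * Fintype.card A.S * (2 * A.ρ + 1) : ℝ)
    with hc0
  set C0 : ℝ := (2 + ((2 * A.ρ + 1) * Fintype.card F : ℕ) * Fintype.card A.S * N : ℝ) with hC0
  refine ⟨{
    δ := A.hδ
    mul := fun g _ h hh x _ => hδ_mul hh x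
    fix := fun g _ x _ hgx => by unfold hδ; rw [hgx, sub_self]
    harm := fun x hx => hδ_harm hN hx
    c := c0
    C := C0 + N
    c_pos := ?_
    C_pos := ?_
    lower := ?_
    upper := ?_
    cont := fun g hg ε hε => hδ_cont hN hg hε
    unit := fun x hx c => hδ_unit hN hx c }⟩
  · rw [hc0]
    apply div_pos two_pos
    apply mul_pos
    · linarith
    · positivity
  · rw [hC0]; positivity
  · intro g hg x hx hd
    have := hδ_lower hN hx hg hd
    rw [← hc0, ← hC0] at this
    have h2 : (0 : ℝ) ≤ N := Nat.cast_nonneg _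
    linarith
  · intro g hg x hx
    have h1 := hδ_upper hN hx hg
    have h2 : ((|disp g x| + 1 : ℤ) : ℝ) = |(disp g x : ℝ)| + 1 := by push_cast; ring
    rw [h2] at h1
    have h3 : 0 ≤ C0 := by rw [hC0]; positivity
    have h4 : (0 : ℝ) ≤ |(disp g x : ℝ)| := abs_nonneg _
    nlinarith [mul_nonneg h3 h4]

end Sys

end Pool.Agent.helper98.NIG
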