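import Pool.Agent.helper97.NIG.PRel

/-!
# NIG / P3b : limits of pairs, the period set (helper97)
-/

open scoped BigOperators
open Set Function

set_option linter.unusedSectionVars false
set_option linter.deprecated false

namespace Pool.Agent.helper98.NIG

open _root_.NIG.Strand

variable {b : Base} {F : Type} [Fintype F]

/-- a bounded offset is eventually constant along an ultrafilter -/
theorem exists_offset {κ : Type*} (U : Ultrafilter κ) (u v : κ → Pt b F) (C : ℤ)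
    (h : ∀ i, SameLine (u i) (v i) ∧ |pos (u i) (v i)| ≤ C) :
    ∃ (n : ℤ) (φ : F), |n| ≤ C ∧ ∀ᶠ i in (U : Filter κ), v i = (sh n (u i).1, φ) := by
  have h1 : ∀ᶠ i in (U : Filter κ), ∃ q ∈ (Icc (-C) C ×ˢ (univ : Set F)),
      v i = (sh q.1 (u i).1, q.2) := by
    apply Filter.Eventually.of_forall
    intro i
    exact ⟨(pos (u i) (v i), (v i).2), ⟨abs_le.1 (h i).2, mem_univ _⟩, eq_of_pos (h i).1⟩
  rw [Ultrafilter.eventually_exists_mem_iff ((finite_Icc _ _).prod finite_univ)] at h1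
  obtain ⟨q, hq, hq'⟩ := h1
  exact ⟨q.1, q.2, abs_le.2 hq.1, hq'⟩

/-- shifts of convergent families converge -/
theorem ulim_sh {κ : Type*} {U : Ultrafilter κ} {u : κ → Pt b F} {x : Pt b F}
    (hu : ∀ N : ℕ, ∀ᶠ i in (U : Filter κ), Agree N (u i) x) (n : ℤ) (φ : F) :
    ∀ N : ℕ, ∀ᶠ i in (U : Filter κ), Agree N ((sh n (u i).1, φ) : Pt b F) (sh n x.1, φ) := by
  intro N
  filter_upwards [hu (n.natAbs + N)] with i hi
  apply agree_sh hi
  rw [Int.abs_eq_natAbs]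
  push_cast
  exact le_rfl

namespace Sys

variable {A : Sys b F}

/-- the bound `C` of the relation passes to limits -/
theorem bound_of_ulim {κ : Type*} {U : Ultrafilter κ} {u v : κ → Pt b F} {x : Pt b F}
    (hu : ∀ N : ℕ, ∀ᶠ i in (U : Filter κ), Agree N (u i) x) {n : ℤ} {φ : F}
    (hv : ∀ᶠ i in (U : Filter κ), v i = (sh n (u i).1, φ)) {C : ℤ}
    (h : ∀ᶠ i in (U : Filter κ), ∀ g ∈ A.G, |pos (g (u i)) (g (v i))| ≤ C)
    {g : Equiv.Perm (Pt b F)} (hg : g ∈ A.G) : |pos (g x) (g (sh n x.1, φ))| ≤ C := by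
  obtain ⟨ρ', hρ, -⟩ := A.G_le_PW hg
  obtain ⟨i, ⟨⟨h1, h2⟩, h3⟩, h4⟩ :=
    ((((hu ρ').and hv).and (ulim_sh hu n φ ρ')).and h).exists
  have h5 := h4 g hg
  rw [h2] at h5
  have hl1 : SameLine (u i) (sh n (u i).1, φ) := sameLine_sh _ _ _
  have hl2 : SameLine x (sh n x.1, φ) := sameLine_sh _ _ _
  rw [pos_map hg hl1, pos_sh, disp_eq_of_agree hρ h1, disp_eq_of_agree hρ h3] at h5
  rw [pos_map hg hl2, pos_sh]
  exact h5

/-- the set of periods at `x` -/
def Uset (A : Sys b F) (x : Pt b F) : Set ℝ := {t | ∃ y ∈ A.orb x, A.PRel x y ∧ A.dh x y = t}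

theorem Uset_sub {N : ℕ} (hN : A.BCN N) {x x' : Pt b F} (hx : x ∈ A.D) (hx' : x' ∈ A.D) :
    A.Uset x ⊆ A.Uset x' := by
  rintro t ⟨y, hy, hxy, rfl⟩
  obtain ⟨hl, C, hC⟩ := hxy
  choose g hg hgA using A.minimal x hx x' hx'
  let U : Ultrafilter ℕ := Filter.hyperfilter ℕ
  have hUtop : (U : Filter ℕ) ≤ Filter.atTop := by
    rw [← Nat.cofinite_eq_atTop]
    exact Filter.hyperfilter_le_cofinite
  have hu : ∀ M : ℕ, ∀ᶠ i in (U : Filter ℕ), Agree M (g i x) x' := by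
    intro M
    filter_upwards [hUtop (Filter.eventually_ge_atTop M)] with i hi
    exact (hgA i).mono hi
  obtain ⟨n, φ, hn, hv⟩ := exists_offset U (fun i => g i x) (fun i => g i y) C
    (fun i => ⟨sameLine_map (hg i) hl, hC _ (hg i)⟩)
  have huD : ∀ i, g i x ∈ A.D := fun i => A.map_mem (hg i) hx
  have hor := orb_iff_ulim hN hu huD n φ
  have hy' : (sh n x'.1, φ) ∈ A.orb x' := by
    obtain ⟨i, hi1, hi2⟩ := (hor.and hv).exists
    rw [← hi1, ← hi2]
    show g i y ∈ A.orb (g i x)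
    rw [A.orb_eq (A.orb_map (hg i) (A.orb_self x))]
    exact A.orb_map (hg i) hy
  obtain ⟨k, hk, hky⟩ := hy'
  refine ⟨(sh n x'.1, φ), ⟨k, hk, hky⟩, ⟨sameLine_sh _ _ _, C, fun h hh => ?_⟩, ?_⟩
  · refine bound_of_ulim hu hv (A := A) (C := C) ?_ hh
    apply Filter.Eventually.of_forall
    intro i h' hh'
    exact hC (h' * g i) (A.G.mul_mem hh' (hg i))
  · obtain ⟨ρ', hρ, -⟩ := A.G_le_PW hk
    have h1 := tendsto_hδ hN hu huD hk
    have h2 : ∀ᶠ i in (U : Filter ℕ), A.hδ k (g i x) = A.dh x y := by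
      filter_upwards [hu ρ', hv] with i hi1 hi2
      have h3 := (eq_sh_iff_of_agree hρ hi1.symm (k := n) (φ := φ)).1 hky.symm
      rw [← dh_map, h3, ← hi2]
      exact dh_const hN hx hy ⟨hl, C, hC⟩ (hg i)
    have h3 := tendsto_nhds_unique (h1.congr' h2) tendsto_const_nhds
    rw [hky, dh_map]
    exact h3

/-- points of the orbit with bounded harmonic distance have bounded distance, uniformly -/
theorem pos_bound {N : ℕ} (hN : A.BCN N) : ∃ K : ℕ, ∀ x ∈ A.D, ∀ y ∈ A.orb x,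
    |(pos x y : ℝ)| ≤ K * (|A.dh x y| + 1) := by
  obtain ⟨x0, hx0⟩ := A.nonempty
  have hM := (A.Hc_spec hN hx0).M_pos (A.isStrand hN hx0)
  set c0 : ℝ := 2 / (((2 * A.ρ + 1) * Fintype.card F : ℕ) * Fintype.card A.S * (2 * A.ρ + 1) : ℝ)
    with hc0
  set C0 : ℝ := (2 + ((2 * A.ρ + 1) * Fintype.card F : ℕ) * Fintype.card A.S * N : ℝ) with hC0
  have hc0p : 0 < c0 := by
    rw [hc0]
    apply div_pos two_pos
    apply mul_pos
    · linarith
    · positivity
  have hC0p : 0 < C0 := by rw [hC0]; positivity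
  obtain ⟨K, hK⟩ := exists_nat_ge ((1 + C0) / c0)
  rw [div_le_iff₀ hc0p] at hK
  have key : ∀ x ∈ A.D, ∀ y ∈ A.orb x, 0 ≤ pos x y → (pos x y : ℝ) ≤ K * (|A.dh x y| + 1) := by
    rintro x hx y ⟨g, hg, rfl⟩ h0
    have h1 := hδ_lower hN hx hg h0
    rw [← hc0, ← hC0, ← dh_map] at h1
    have h2 := le_abs_self (A.dh x (g x))
    have h3 : (disp g x : ℝ) = (pos x (g x) : ℝ) := rfl
    rw [h3] at h1
    have h4 : 0 ≤ |A.dh x (g x)| := abs_nonneg _
    have h5 : c0 * (pos x (g x) : ℝ) ≤ |A.dh x (g x)| + C0 := by linarith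
    have h6 : |A.dh x (g x)| + C0 ≤ (1 + C0) * (|A.dh x (g x)| + 1) := by nlinarith
    have h7 : (1 + C0) * (|A.dh x (g x)| + 1) ≤ K * c0 * (|A.dh x (g x)| + 1) :=
      mul_le_mul_of_nonneg_right hK (by linarith)
    have h8 : c0 * (pos x (g x) : ℝ) ≤ c0 * (K * (|A.dh x (g x)| + 1)) := by linarith
    exact le_of_mul_le_mul_left h8 hc0p
  refine ⟨K, fun x hx y hy => ?_⟩
  rcases le_total 0 (pos x y) with h0 | h0
  · rw [abs_of_nonneg (by exact_mod_cast h0)]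
    exact key x hx y hy h0
  · have hyx : x ∈ A.orb y := by rw [A.orb_eq hy]; exact A.orb_self x
    have hyD : y ∈ A.D := by
      obtain ⟨g, hg, rfl⟩ := hy
      exact A.map_mem hg hx
    have h1 := pos_neg (A.sameLine_orb hy)
    have h2 := key y hyD x hyx (by omega)
    rw [dh_symm hy, abs_neg, h1] at h2
    rw [abs_of_nonpos (by exact_mod_cast h0)]
    push_cast at h2
    exact h2

end Sys

end Pool.Agent.helper98.NIG
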