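import Pool.Agent.helper97.NIG.PLim

/-!
# NIG / P3d : no translation pair, the reduced quotient (helper97)
-/

open scoped BigOperators
open Set Function

set_option linter.unusedSectionVars false
set_option linter.deprecated false

namespace Pool.Agent.helper98.NIG

open _root_.NIG.Strand

variable {b : Base} {F : Type} [Fintype F]

namespace Sys

variable {A : Sys b F}

/-- the points which stay within distance `B` of `x` for ever -/
def PB (A : Sys b F) (B : ℕ) (x : Pt b F) : Set (Pt b F) :=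
  {y | y ∈ A.D ∧ SameLine x y ∧ ∀ g ∈ A.G, |pos (g x) (g y)| ≤ B}

open Classical in
/-- their offsets -/
noncomputable def OB (A : Sys b F) (B : ℕ) (x : Pt b F) : Finset (ℤ × F) :=
  (Finset.Icc (-(B : ℤ)) B ×ˢ (Finset.univ : Finset F)).filter
    (fun q => (sh q.1 x.1, q.2) ∈ A.PB B x)

theorem mem_OB {B : ℕ} {x : Pt b F} {q : ℤ × F} :
    q ∈ A.OB B x ↔ (sh q.1 x.1, q.2) ∈ A.PB B x := by
  classical
  unfold OB
  rw [Finset.mem_filter, Finset.mem_product, Finset.mem_Icc]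
  constructor
  · exact fun h => h.2
  · intro h
    refine ⟨⟨?_, Finset.mem_univ _⟩, h⟩
    have h1 := h.2.2 1 A.G.one_mem
    rw [Equiv.Perm.one_apply, Equiv.Perm.one_apply, pos_sh] at h1
    exact abs_le.1 h1

theorem PB_eq_image (B : ℕ) (x : Pt b F) :
    A.PB B x = (fun q : ℤ × F => ((sh q.1 x.1, q.2) : Pt b F)) '' (A.OB B x : Set (ℤ × F)) := by
  ext y
  constructor
  · intro hy
    have h1 := eq_of_pos hy.2.1
    refine ⟨(pos x y, y.2), ?_, h1.symm⟩
    rw [Finset.mem_coe, mem_OB]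
    show (sh (pos x y) x.1, y.2) ∈ _
    rw [← h1]; exact hy
  · rintro ⟨q, hq, rfl⟩
    exact mem_OB.1 hq

theorem off_inj (x : Pt b F) : Injective (fun q : ℤ × F => ((sh q.1 x.1, q.2) : Pt b F)) := by
  intro q q' h
  have h1 := congrArg Prod.fst h
  have h2 := congrArg Prod.snd h
  exact Prod.ext (sh_inj h1) h2

theorem card_OB (B : ℕ) (x : Pt b F) : (A.OB B x).card = (A.PB B x).ncard := by
  rw [PB_eq_image, Set.ncard_image_of_injective _ (off_inj x), Set.ncard_coe_finset]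

theorem PB_finite (B : ℕ) (x : Pt b F) : (A.PB B x).Finite := by
  rw [PB_eq_image]
  exact (Finset.finite_toSet _).image _

theorem PB_map {g : Equiv.Perm (Pt b F)} (hg : g ∈ A.G) (B : ℕ) (x : Pt b F) :
    A.PB B (g x) = g '' A.PB B x := by
  ext y
  constructor
  · rintro ⟨h1, h2, h3⟩
    refine ⟨g⁻¹ y, ⟨A.map_mem (A.G.inv_mem hg) h1, ?_, fun k hk => ?_⟩, papply_inv _ _⟩
    · have := sameLine_map (A.G.inv_mem hg) h2
      rwa [pinv_apply] at this
    · have h4 := h3 (k * g⁻¹) (A.G.mul_mem hk (A.G.inv_mem hg))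
      rw [Equiv.Perm.mul_apply, Equiv.Perm.mul_apply, pinv_apply] at h4
      exact h4
  · rintro ⟨z, ⟨h1, h2, h3⟩, rfl⟩
    exact ⟨A.map_mem hg h1, sameLine_map hg h2, fun k hk => h3 (k * g) (A.G.mul_mem hk hg)⟩

theorem card_OB_map {g : Equiv.Perm (Pt b F)} (hg : g ∈ A.G) (B : ℕ) (x : Pt b F) :
    (A.OB B (g x)).card = (A.OB B x).card := by
  rw [card_OB, card_OB, PB_map hg, Set.ncard_image_of_injective _ g.injective]

/-- upper semicontinuity -/
theorem OB_ulim {κ : Type*} {U : Ultrafilter κ} {u : κ → Pt b F} {x : Pt b F}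
    (hu : ∀ N : ℕ, ∀ᶠ i in (U : Filter κ), Agree N (u i) x) (B : ℕ) :
    ∀ᶠ i in (U : Filter κ), A.OB B (u i) ⊆ A.OB B x := by
  classical
  have h1 : ∀ᶠ i in (U : Filter κ), ∀ q ∈ (Finset.Icc (-(B : ℤ)) B ×ˢ (Finset.univ : Finset F)),
      q ∈ A.OB B (u i) → q ∈ A.OB B x := by
    rw [Filter.eventually_all_finset]
    intro q _
    by_cases hq : q ∈ A.OB B x
    · exact Filter.Eventually.of_forall fun i _ => hq
    · have h2 : ¬ ∀ᶠ i in (U : Filter κ), q ∈ A.OB B (u i) := by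
        intro hev
        apply hq
        rw [mem_OB]
        have hv : ∀ᶠ i in (U : Filter κ), (fun i => ((sh q.1 (u i).1, q.2) : Pt b F)) i
            = (sh q.1 (u i).1, q.2) := Filter.Eventually.of_forall fun i => rfl
        refine ⟨?_, sameLine_sh _ _ _, fun g hg => ?_⟩
        · apply A.mem_D_of_ulim (ulim_sh hu q.1 q.2)
          filter_upwards [hev] with i hi
          exact (mem_OB.1 hi).1
        · refine bound_of_ulim hu hv (A := A) ?_ hg
          filter_upwards [hev] with i hi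
          exact (mem_OB.1 hi).2.2
      rw [← Ultrafilter.eventually_not] at h2
      filter_upwards [h2] with i hi h3
      exact absurd h3 hi
  filter_upwards [h1] with i hi q hq
  refine hi q ?_ hq
  have := mem_OB.1 hq
  unfold OB at hq
  exact (Finset.mem_filter.1 hq).1

theorem card_OB_le {x x' : Pt b F} (hx : x ∈ A.D) (hx' : x' ∈ A.D) (B : ℕ) :
    (A.OB B x).card ≤ (A.OB B x').card := by
  choose g hg hgA using A.minimal x hx x' hx'
  let U : Ultrafilter ℕ := Filter.hyperfilter ℕ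
  have hUtop : (U : Filter ℕ) ≤ Filter.atTop := by
    rw [← Nat.cofinite_eq_atTop]
    exact Filter.hyperfilter_le_cofinite
  have hu : ∀ M : ℕ, ∀ᶠ i in (U : Filter ℕ), Agree M (g i x) x' := by
    intro M
    filter_upwards [hUtop (Filter.eventually_ge_atTop M)] with i hi
    exact (hgA i).mono hi
  obtain ⟨i, hi⟩ := (OB_ulim (A := A) hu B).exists
  rw [← card_OB_map (hg i) B x]
  exact Finset.card_le_card hi

theorem card_OB_eq {x x' : Pt b F} (hx : x ∈ A.D) (hx' : x' ∈ A.D) (B : ℕ) :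
    (A.OB B x).card = (A.OB B x').card :=
  le_antisymm (card_OB_le hx hx' B) (card_OB_le hx' hx B)

/-- the class of `x` -/
def cls (A : Sys b F) (x : Pt b F) : Set (Pt b F) := {y | y ∈ A.D ∧ A.PRel x y}

theorem PB_sub_cls (B : ℕ) (x : Pt b F) : A.PB B x ⊆ A.cls x :=
  fun _ hy => ⟨hy.1, hy.2.1, B, hy.2.2⟩

theorem PB_mono {B B' : ℕ} (h : B ≤ B') (x : Pt b F) : A.PB B x ⊆ A.PB B' x :=
  fun _ hy => ⟨hy.1, hy.2.1, fun g hg => (hy.2.2 g hg).trans (by exact_mod_cast h)⟩

theorem cls_finite {N : ℕ} (hN : A.BCN N) (hzero : ∀ x ∈ A.D, ∀ t ∈ A.Uset x, t = 0)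
    {x : Pt b F} (hx : x ∈ A.D) : (A.cls x).Finite := by
  obtain ⟨K, hK⟩ := pos_bound hN
  have hK' : ∀ y ∈ A.D, ∀ z ∈ A.orb y, A.PRel y z → |pos y z| ≤ K := by
    intro y hy z hz hyz
    have h1 := hK y hy z hz
    rw [hzero y hy _ ⟨z, hz, hyz, rfl⟩] at h1
    simp only [abs_zero, zero_add, mul_one] at h1
    exact_mod_cast h1
  -- the strands near `x`
  set W : Set (Pt b F) := (fun q : ℤ × F => ((sh q.1 x.1, q.2) : Pt b F)) ''
    (Icc (-(A.ρ : ℤ)) A.ρ ×ˢ (univ : Set F)) with hW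
  have hWf : W.Finite := (((finite_Icc _ _).prod finite_univ)).image _
  have hcov : A.cls x ⊆ ⋃ w ∈ W, {y | y ∈ A.cls x ∧ y ∈ A.orb w} := by
    intro y hy
    obtain ⟨w, hw, hd⟩ := A.hit hy.1 (pos y x)
    have hl : SameLine x w := sameLine_trans hy.2.1 (A.sameLine_orb hw)
    have h1 : pos x w = pos x y + pos y w := pos_add hy.2.1 (A.sameLine_orb hw)
    have h2 : pos y x = - pos x y := pos_neg hy.2.1
    refine mem_iUnion₂.2 ⟨w, ⟨(pos x w, w.2), ⟨?_, mem_univ _⟩, (eq_of_pos hl).symm⟩, hy, ?_⟩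
    · have h3 : |pos x w| ≤ A.ρ := by
        rw [h1]
        rw [h2] at hd
        convert hd using 2
        ring
      exact abs_le.1 h3
    · rw [A.orb_eq hw]; exact A.orb_self y
  refine (hWf.biUnion fun w _ => ?_).subset hcov
  -- the points of the class on one strand
  by_cases hne : ∃ y0, y0 ∈ A.cls x ∧ y0 ∈ A.orb w
  · obtain ⟨y0, hy0, hy0w⟩ := hne
    have hf : ((fun q : ℤ × F => ((sh q.1 y0.1, q.2) : Pt b F)) ''
      (Icc (-(K : ℤ)) K ×ˢ (univ : Set F))).Finite := (((finite_Icc _ _).prod finite_univ)).image _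
    refine hf.subset ?_
    rintro y ⟨hy, hyw⟩
    have h1 : y ∈ A.orb y0 := by
      rw [A.orb_eq hy0w]; exact hyw
    have h2 := hK' y0 hy0.1 y h1 (hy0.2.symm.trans hy.2)
    exact ⟨(pos y0 y, y.2), ⟨abs_le.1 h2, mem_univ _⟩, (eq_of_pos (A.sameLine_orb h1)).symm⟩
  · push Not at hne
    have : {y | y ∈ A.cls x ∧ y ∈ A.orb w} = ∅ := by
      ext y
      simp only [mem_setOf_eq, mem_empty_iff_false, iff_false, not_and]
      exact hne y
    rw [this]; exact finite_empty

/-- the classes are uniformly bounded -/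
theorem exists_B0 {N : ℕ} (hN : A.BCN N) (hzero : ∀ x ∈ A.D, ∀ t ∈ A.Uset x, t = 0) :
    ∃ B0 : ℕ, ∀ x ∈ A.D, A.cls x = A.PB B0 x := by
  obtain ⟨x0, hx0⟩ := A.nonempty
  have hfin := cls_finite hN hzero hx0
  have hmono : ∀ B B', B ≤ B' → (A.OB B x0).card ≤ (A.OB B' x0).card := by
    intro B B' h
    rw [card_OB, card_OB]
    exact Set.ncard_le_ncard (PB_mono h x0) (PB_finite _ _)
  have hbd : ∀ B, (A.OB B x0).card ≤ (A.cls x0).ncard := by
    intro B
    rw [card_OB]
    exact Set.ncard_le_ncard (PB_sub_cls B x0) hfin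
  -- a maximal value
  obtain ⟨B0, hB0⟩ : ∃ B0, ∀ B, (A.OB B x0).card ≤ (A.OB B0 x0).card := by
    by_contra hcon
    push Not at hcon
    have hk : ∀ k : ℕ, ∃ B, k ≤ (A.OB B x0).card := by
      intro k
      induction k with
      | zero => exact ⟨0, Nat.zero_le _⟩
      | succ k ih =>
        obtain ⟨B, hB⟩ := ih
        obtain ⟨B', hB'⟩ := hcon B
        exact ⟨B', by omega⟩
    obtain ⟨B, hB⟩ := hk ((A.cls x0).ncard + 1)
    have := hbd B
    omega
  refine ⟨B0, fun x hx => ?_⟩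
  apply Subset.antisymm _ (PB_sub_cls B0 x)
  rintro y ⟨hy1, hy2, C, hC⟩
  set B : ℕ := max B0 C.toNat with hB
  have h1 : y ∈ A.PB B x := by
    refine ⟨hy1, hy2, fun g hg => (hC g hg).trans ?_⟩
    have : C ≤ (C.toNat : ℤ) := Int.self_le_toNat C
    have h2 : (C.toNat : ℤ) ≤ (B : ℤ) := by exact_mod_cast le_max_right _ _
    exact this.trans h2
  have h2 : A.PB B0 x = A.PB B x := by
    apply Set.eq_of_subset_of_ncard_le (PB_mono (le_max_left _ _) x) _ (PB_finite _ _)
    rw [← card_OB, ← card_OB, card_OB_eq hx hx0, card_OB_eq hx hx0]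
    exact hB0 B
  rw [h2]; exact h1

/-- the offsets are locally constant -/
theorem exists_R (B : ℕ) : ∃ R : ℕ, ∀ x ∈ A.D, ∀ x' ∈ A.D, Agree R x x' →
    A.OB B x = A.OB B x' := by
  by_contra hcon
  push Not at hcon
  choose u hu u' hu' hag hne using hcon
  let U : Ultrafilter ℕ := Filter.hyperfilter ℕ
  have hUtop : (U : Filter ℕ) ≤ Filter.atTop := by
    rw [← Nat.cofinite_eq_atTop]
    exact Filter.hyperfilter_le_cofinite
  obtain ⟨x, hx⟩ := exists_ulim U u
  have hx' : ∀ M : ℕ, ∀ᶠ i in (U : Filter ℕ), Agree M (u' i) x := by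
    intro M
    filter_upwards [hx M, hUtop (Filter.eventually_ge_atTop M)] with i hi hi'
    exact ((hag i).mono hi').symm.trans hi
  have hxD : x ∈ A.D := A.mem_D_of_ulim hx (Filter.Eventually.of_forall hu)
  obtain ⟨i, hi1, hi2⟩ := ((OB_ulim (A := A) hx B).and (OB_ulim (A := A) hx' B)).exists
  have h1 := Finset.eq_of_subset_of_card_le hi1 (card_OB_le hxD (hu i) B)
  have h2 := Finset.eq_of_subset_of_card_le hi2 (card_OB_le hxD (hu' i) B)
  exact hne i (h1.trans h2.symm)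

end Sys

end Pool.Agent.helper98.NIG
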