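import Pool.Agent.helper97.NIG.DescDefs

/-!
# NIG / P5 : the descent, preliminaries (helper97)
-/

open scoped BigOperators
open Set Function

set_option linter.unusedSectionVars false
set_option linter.deprecated false

namespace Pool.Agent.helper98.NIG

variable {b : Base} {F : Type} [Fintype F]

namespace Sys

variable {A : Sys b F}

theorem mem_D_of_orb' {y t : Pt b F} (hy : y ∈ A.D) (ht : t ∈ A.orb y) : t ∈ A.D := by
  obtain ⟨g, hg, rfl⟩ := ht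
  exact A.map_mem hg hy

theorem orb_symm {y t t' : Pt b F} (ht : t ∈ A.orb y) (ht' : t' ∈ A.orb y) : t' ∈ A.orb t := by
  rw [A.orb_eq ht]; exact ht'

/-- additivity of `dh` on an orbit -/
theorem dh_tri {y t1 t2 : Pt b F} (t3 : Pt b F) (h1 : t1 ∈ A.orb y) (h2 : t2 ∈ A.orb y) :
    A.dh t1 t3 = A.dh t1 t2 + A.dh t2 t3 := dh_add (orb_symm h1 h2)

theorem dh_neg {y t1 t2 : Pt b F} (h1 : t1 ∈ A.orb y) (h2 : t2 ∈ A.orb y) :
    A.dh t1 t2 = - A.dh t2 t1 := dh_symm (orb_symm h2 h1)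

/-- change of the height difference along a path -/
theorem dh_path {y t1 t2 : Pt b F} (h1 : t1 ∈ A.orb y) (h2 : t2 ∈ A.orb y)
    {h : Equiv.Perm (Pt b F)} (hh : h ∈ A.G) :
    A.dh (h t1) (h t2) = A.dh t1 t2 + A.dh t2 (h t2) - A.dh t1 (h t1) := by
  have e1 := dh_tri (A := A) (h t2) h1 h2
  have e2 := dh_tri (A := A) (h t2) h1 (A.orb_map hh h1)
  linarith

/-- a short path: the heights change by at most `B` -/
def Shr (A : Sys b F) (B : ℝ) (h : Equiv.Perm (Pt b F)) : Prop :=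
  ∀ t ∈ A.D, |A.dh t (h t)| ≤ B

theorem Shr.dh_le {B : ℝ} {h : Equiv.Perm (Pt b F)} (hs : A.Shr B h) (hh : h ∈ A.G)
    {y t1 t2 : Pt b F} (hy : y ∈ A.D) (h1 : t1 ∈ A.orb y) (h2 : t2 ∈ A.orb y) :
    |A.dh (h t1) (h t2) - A.dh t1 t2| ≤ 2 * B := by
  rw [dh_path h1 h2 hh]
  have e1 := abs_le.1 (hs t1 (mem_D_of_orb' hy h1))
  have e2 := abs_le.1 (hs t2 (mem_D_of_orb' hy h2))
  rw [abs_le]
  constructor <;> linarith [e1.1, e1.2, e2.1, e2.2]

/-- short paths inside of `[min - c0, max + c0]` -/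
def SP (A : Sys b F) (c0 K : ℕ) : Prop := ∀ z ∈ A.D, ∀ a ∈ A.orb z, ∀ a' ∈ A.orb z,
  ∀ l r : ℤ, l + c0 ≤ pos z a → pos z a ≤ r - c0 → l + c0 ≤ pos z a' → pos z a' ≤ r - c0 →
  ∀ d : ℝ, |((pos z a' - pos z a : ℤ) : ℝ)| ≤ d → ∃ h, A.RIn z l r a h ∧ h a = a' ∧
    A.Shr (K * (d + 1)) h

theorem exists_SP {N c0 : ℕ} (hN : A.BCN N) (hc : A.BCc c0) : ∃ K : ℕ, A.SP c0 K := by
  obtain ⟨K, hK⟩ := A.short_path hc
  refine ⟨K, fun z hz a ha a' ha' l r h1 h2 h3 h4 d hd => ?_⟩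
  obtain ⟨w, e1, e2, e3, e4⟩ := hK z hz a ha a' ha'
  refine ⟨w.prod, e4.mono ?_ ?_, e2, fun t ht => ?_⟩
  · have : l + c0 ≤ min (pos z a) (pos z a') := le_min h1 h3
    linarith
  · have : max (pos z a) (pos z a') ≤ r - c0 := max_le h2 h4
    linarith
  · refine (A.height_of_list hN ht w e1).trans ?_
    have e5 : ((w.length : ℤ) : ℝ) ≤ ((K * (|pos z a' - pos z a| + 1) : ℤ) : ℝ) := by
      exact_mod_cast e3
    have e6 : ((K * (|pos z a' - pos z a| + 1) : ℤ) : ℝ)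
        = K * (|((pos z a' - pos z a : ℤ) : ℝ)| + 1) := by push_cast; ring
    rw [e6] at e5
    have e7 : (K : ℝ) * (|((pos z a' - pos z a : ℤ) : ℝ)| + 1) ≤ K * (d + 1) :=
      mul_le_mul_of_nonneg_left (by linarith) (Nat.cast_nonneg _)
    have e8 : ((w.length : ℤ) : ℝ) = (w.length : ℝ) := by push_cast; rfl
    linarith

/-- one point comparison of two locked tokens -/
def DCmp (A : Sys b F) (c1 n : ℕ) (C : ℝ) (L : ℕ) : Prop :=
  ∀ z ∈ A.D, ∀ a ∈ A.orb z, ∀ y ∈ A.D, ∀ t1 ∈ A.orb y, ∀ t2 ∈ A.orb y, ∀ α β : ℤ,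
    (L : ℤ) ≤ β - α → A.LockI z α β a t1 → A.LockI z α β a t2 →
    α + c1 ≤ pos z a → pos z a ≤ β - c1 → ∀ σ : ℝ, (σ = 1 ∨ σ = -1) →
    A.Near n σ a t1 → A.Near n σ a t2 → |A.dh t1 t2| ≤ C → t1 = t2

theorem exists_DCmp {N c0 : ℕ} (hN : A.BCN N) (hc : A.BCc c0) (hred : A.Reduced) :
    ∃ c1 n0 : ℕ, c0 ≤ c1 ∧ ∀ n, n0 ≤ n → ∀ C : ℝ, ∃ L : ℕ, A.DCmp c1 n C L := by
  obtain ⟨c1, n0, hc1, h⟩ := A.compare hN hc hred
  refine ⟨c1 + n0, n0, by omega, fun n hn C => ?_⟩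
  obtain ⟨L, hL⟩ := h C
  refine ⟨L, fun z hz a ha y hy t1 h1 t2 h2 α β e1 e2 e3 e4 e5 σ hσ e6 e7 e8 => ?_⟩
  push_cast at e4 e5
  exact hL z hz a ha t1 (mem_D_of_orb' hy h1) t2 (orb_symm h1 h2) α β e1 e2 e3 (by linarith)
    (by linarith) 1 (RIn.one _ _ _ _) σ hσ (by simp only [Equiv.Perm.one_apply]; linarith)
    (by simp only [Equiv.Perm.one_apply]; linarith) (near_mono hn e6) (near_mono hn e7)
    1 (RIn.one _ _ _ _) (by simp only [Equiv.Perm.one_apply]; linarith)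
    (by simp only [Equiv.Perm.one_apply]; linarith) e8

/-- `t` is the unique highest token over `a` -/
def IsTop (A : Sys b F) (R : Pt b F → Set (Pt b F)) (a t : Pt b F) : Prop :=
  t ∈ R a ∧ ∀ t' ∈ R a, t' ≠ t → 0 < A.dh t' t

theorem IsTop.le {R : Pt b F → Set (Pt b F)} {a t : Pt b F} (h : A.IsTop R a t) {t' : Pt b F}
    (ht' : t' ∈ R a) : 0 ≤ A.dh t' t := by
  by_cases he : t' = t
  · rw [he, dh_self]
  · exact (h.2 t' ht' he).le

theorem IsTop.unique {R : Pt b F → Set (Pt b F)} {a t t' y : Pt b F} (h : A.IsTop R a t)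
    (h' : A.IsTop R a t') (hsub : R a ⊆ A.orb y) : t = t' := by
  by_contra hne
  have e1 := h.2 t' h'.1 (Ne.symm hne)
  have e2 := h'.2 t h.1 hne
  have e3 := dh_neg (hsub h.1) (hsub h'.1)
  linarith

/-- all orbit points at positions in `[p, q]` are good with the sign `σ` -/
def GoodOn (A : Sys b F) (R : Pt b F → Set (Pt b F)) (n : ℕ) (σ : ℝ) (z : Pt b F) (p q : ℤ) :
    Prop := ∀ a ∈ A.orb z, p ≤ pos z a → pos z a ≤ q → ∃ t, A.GoodT R n σ a t

/-- the unique highest tokens are transported along the paths inside of a good interval -/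
theorem GoodOn.top {c0 : ℕ} {z y : Pt b F} {l x p q : ℤ}
    {R : Pt b F → Set (Pt b F)} (hf : A.PFam c0 z y l x R) {n : ℕ} {σ : ℝ}
    (hg : A.GoodOn R n σ z p q) (hp : l + c0 ≤ p) (hq : q ≤ x - c0) {a t : Pt b F}
    (ha : a ∈ A.orb z) (h1 : p ≤ pos z a) (h2 : pos z a ≤ q) (ht : A.IsTop R a t)
    {h : Equiv.Perm (Pt b F)} (hh : A.RIn z p q a h) :
    A.IsTop R (h a) (h t) ∧ A.Near n σ (h a) (h t) := by
  have hc0 : (0 : ℤ) ≤ c0 := by positivity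
  have hnear : ∀ a' ∈ A.orb z, p ≤ pos z a' → pos z a' ≤ q → ∀ t', A.IsTop R a' t' →
      A.GoodT R n σ a' t' := by
    intro a' ha' e1 e2 t' ht'
    obtain ⟨t1, ht1⟩ := hg a' ha' e1 e2
    have e3 : A.IsTop R a' t1 := ⟨ht1.1, ht1.2.1⟩
    have e4 := e3.unique ht' (hf.sub a' ha' (by linarith) (by linarith))
    rw [← e4]
    exact ht1
  have key : A.IsTop R (h a) (h t) := by
    unfold RIn at hh
    induction hh with
    | one => exact ht
    | @step g s hg' hs hpos ih =>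
      have hgR : A.RIn z p q a g := hg'
      have hga : g a ∈ A.orb z := orb_of_orb ha hgR.mem_G
      have e1 := hgR.pos_mem ha h1 h2
      have hsga : s (g a) ∈ A.orb z := orb_of_orb hga (A.mem_G_of_mem_S hs)
      have hR' : A.RIn z p q a (s * g) := Reach.step hg' hs hpos
      have e2 := hR'.pos_mem ha h1 h2
      rw [Equiv.Perm.mul_apply] at e2
      obtain ⟨-, -, e3, -⟩ := hnear _ hga e1.1 e1.2 _ ih
      have e4 : A.RIn z l x (g a) s := RIn.step hga hs (by linarith [e2.1]) (by linarith [e2.2])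
      have e5 := hf.eqv _ hga (by linarith [e1.1]) (by linarith [e1.2]) s e4
        (by linarith [e2.1]) (by linarith [e2.2])
      rw [Equiv.Perm.mul_apply, Equiv.Perm.mul_apply]
      refine ⟨?_, e3 s hs⟩
      rw [e5]
      exact ⟨g t, ih.1, rfl⟩
  have e1 := hh.pos_mem ha h1 h2
  exact ⟨key, (hnear _ (orb_of_orb ha hh.mem_G) e1.1 e1.2 _ key).2.2.2⟩

theorem GoodOn.lock {c0 : ℕ} {z y : Pt b F} {l x p q : ℤ}
    {R : Pt b F → Set (Pt b F)} (hf : A.PFam c0 z y l x R) {n : ℕ} {σ : ℝ}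
    (hg : A.GoodOn R n σ z p q) (hp : l + c0 ≤ p) (hq : q ≤ x - c0) {a t : Pt b F}
    (ha : a ∈ A.orb z) (h1 : p ≤ pos z a) (h2 : pos z a ≤ q) (ht : A.IsTop R a t) :
    A.LockI z p q a t := by
  have hc0 : (0 : ℤ) ≤ c0 := by positivity
  intro h hh hfix
  have e1 := (hg.top hf hp hq ha h1 h2 ht hh).1
  rw [hfix] at e1
  exact e1.unique ht (hf.sub a ha (by linarith) (by linarith))

/-- rows for the top token theorem -/
theorem PFam.fam {c0 : ℕ} {z y : Pt b F} {l x : ℤ} {R : Pt b F → Set (Pt b F)}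
    (hf : A.PFam c0 z y l x R) : A.Fam z y (l + c0) (x - c0) R := by
  have hc0 : (0 : ℤ) ≤ c0 := by positivity
  refine ⟨hf.ne, hf.sub, ?_, ?_⟩
  · intro a ha h1 h2
    have hfin := (hf.fin a ha h1 h2).image (fun t => pos y t)
    obtain ⟨B, hB⟩ := hfin.bddAbove
    exact ⟨B, fun t ht => hB ⟨t, ht, rfl⟩⟩
  · intro a ha s hs h1 h2 h3 h4
    exact hf.eqv a ha h1 h2 s (RIn.step ha hs (by linarith) (by linarith)) h3 h4

/-- transport of the rows along a path -/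
theorem PFam.mem {c0 : ℕ} {z y : Pt b F} {l x : ℤ} {R : Pt b F → Set (Pt b F)}
    (hf : A.PFam c0 z y l x R) {a : Pt b F} (ha : a ∈ A.orb z) (h1 : l + c0 ≤ pos z a)
    (h2 : pos z a ≤ x - c0) {h : Equiv.Perm (Pt b F)} (hh : A.RIn z l x a h)
    (h3 : l + c0 ≤ pos z (h a)) (h4 : pos z (h a) ≤ x - c0) {t : Pt b F} :
    h t ∈ R (h a) ↔ t ∈ R a := by
  rw [hf.eqv a ha h1 h2 h hh h3 h4]
  constructor
  · rintro ⟨t', ht', he⟩
    rw [← h.injective he]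
    exact ht'
  · intro ht
    exact ⟨t, ht, rfl⟩

/-- orbit points at given positions -/
theorem exists_at {z : Pt b F} (hz : z ∈ A.D) (n : ℤ) :
    ∃ a ∈ A.orb z, n ≤ pos z a ∧ pos z a ≤ n + A.ρ := by
  obtain ⟨g, hg, h1, h2⟩ := A.syn hz n
  exact ⟨g z, ⟨g, hg, rfl⟩, h1, h2⟩

end Sys

end Pool.Agent.helper98.NIG
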