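import Pool.Agent.helper97.NIG.Desc1

/-!
# NIG / P5 : the descent, case B (short right part) (helper97)
-/

open scoped BigOperators
open Set Function

set_option linter.unusedSectionVars false
set_option linter.deprecated false

namespace Pool.Agent.helper98.NIG

variable {b : Base} {F : Type} [Fintype F]

namespace Sys

variable {A : Sys b F}

theorem GoodOn.mono {R : Pt b F → Set (Pt b F)} {n : ℕ} {σ : ℝ} {z : Pt b F} {p q p' q' : ℤ}
    (h : A.GoodOn R n σ z p q) (hp : p ≤ p') (hq : q' ≤ q) : A.GoodOn R n σ z p' q' :=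
  fun a ha h1 h2 => h a ha (hp.trans h1) (h2.trans hq)

theorem GoodT.isTop {R : Pt b F → Set (Pt b F)} {n : ℕ} {σ : ℝ} {a t : Pt b F}
    (h : A.GoodT R n σ a t) : A.IsTop R a t := ⟨h.1, h.2.1⟩

/-- in a configuration: the token `τ` is close to the top, comparison at a point reached by a short
path -/
theorem Cfg.bound {c0 n m M Lg : ℕ} {C0 : ℝ} {z y : Pt b F} {l x e : ℤ}
    {R : Pt b F → Set (Pt b F)} {a0 t0 τ0 : Pt b F} (hcfg : A.Cfg c0 n m M Lg C0 z y l x e R a0 t0 τ0)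
    {B : ℝ} {h : Equiv.Perm (Pt b F)} (hh : h ∈ A.G) (hs : A.Shr B h)
    (ht0 : t0 ∈ A.orb y) : A.dh (h t0) (h τ0) ≤ C0 + 2 * B := by
  have h1 := abs_le.1 (hs.dh_le hh hcfg.hy ht0 hcfg.τ_mem)
  linarith [h1.2, hcfg.gap]

theorem cfg_caseB {c0 c1 n m M Lg R0 K L1 L2 : ℕ} {C0 CB : ℝ} (hSP : A.SP c0 K)
    (hc1 : c0 ≤ c1) (hC2 : A.DCmp c1 n CB L2) (hm : 2 * c0 + c1 + R0 + A.ρ + 1 ≤ m)
    (hCB : C0 + 2 * (K * (((c0 + 2 * R0 + L1 + M + m + A.ρ : ℕ) : ℝ) + 1)) ≤ CB)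
    {z y : Pt b F} {l x e : ℤ} {R : Pt b F → Set (Pt b F)} {a0 t0 τ0 : Pt b F}
    (hcfg : A.Cfg c0 n m M Lg C0 z y l x e R a0 t0 τ0) {v w : ℤ} (hvw : w ≤ v + R0)
    (hgm : A.GoodOn R n (-1) z (l + c0 + R0) v) (hw : x - c0 - R0 - L1 < w)
    (he : l + c0 + R0 ≤ e)
    (hx : e + (2 * c0 + c1 + 3 * R0 + L1 + L2 + M + m + A.ρ + 1 : ℕ) ≤ x) : False := by
  push_cast at hx
  have hc1' : (c0 : ℤ) ≤ c1 := by exact_mod_cast hc1
  have hm' : (2 * c0 + c1 + R0 + A.ρ + 1 : ℤ) ≤ m := by exact_mod_cast hm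
  have hc0 : (0 : ℤ) ≤ c0 := by positivity
  have hR0 : (0 : ℤ) ≤ R0 := by positivity
  have hρ0 : (0 : ℤ) ≤ A.ρ := by positivity
  have hL1 : (0 : ℤ) ≤ L1 := by positivity
  have hL2 : (0 : ℤ) ≤ L2 := by positivity
  have hM0 : (0 : ℤ) ≤ M := by positivity
  have hz := hcfg.hz
  set v' : ℤ := min v (x - c0) with hv'
  have hv1 : v' ≤ v := min_le_left _ _
  have hv2 : v' ≤ x - c0 := min_le_right _ _
  have hv3 : x - c0 - 2 * R0 - L1 ≤ v' := le_min (by linarith) (by linarith)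
  obtain ⟨a, ha, ha1, ha2⟩ := exists_at hz (v' - m - A.ρ)
  have hg' : A.GoodOn R n (-1) z (l + c0 + R0) v' := hgm.mono le_rfl hv1
  obtain ⟨t1, ht1⟩ := hg' a ha (by linarith) (by linarith)
  have hp1 := hcfg.ha1
  have hp2 := hcfg.ha2
  obtain ⟨h, hh, hha, hs⟩ := hSP z hz a0 hcfg.ha0 a ha e x (by linarith) (by linarith)
    (by linarith) (by linarith) (((c0 + 2 * R0 + L1 + M + m + A.ρ : ℕ) : ℝ)) (by
      have e1 : |(pos z a - pos z a0)| ≤ ((c0 + 2 * R0 + L1 + M + m + A.ρ : ℕ) : ℤ) := by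
        push_cast
        rw [abs_le]
        constructor <;> linarith
      exact_mod_cast e1)
  have hhG := hh.mem_G
  have hhR : A.RIn z l x a0 h := hh.mono (by linarith) le_rfl
  have hsub0 := hcfg.fam.sub a0 hcfg.ha0 (by linarith) (by linarith)
  have hsub := hcfg.fam.sub a ha (by linarith) (by linarith)
  have hht0 : h t0 ∈ R a := by
    have := (hcfg.fam.mem hcfg.ha0 (by linarith) (by linarith) hhR (t := t0) (by rw [hha]; linarith)
      (by rw [hha]; linarith)).2 hcfg.t_mem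
    rw [hha] at this
    exact this
  have hhτ : h τ0 ∈ A.orb y := A.orb_map hhG hcfg.τ_mem
  have hb1 := hcfg.bound hhG hs (hsub0 hcfg.t_mem)
  have hb2 := ht1.isTop.le hht0
  have hb3 := hcfg.τ_top h hhR (by rw [hha]; linarith) (by rw [hha]; linarith) t1
    (by rw [hha]; exact ht1.1)
  have hb4 := dh_tri (A := A) (h τ0) (hsub hht0) (hsub ht1.1)
  have hlock1 := hg'.lock hcfg.fam (by linarith) (by linarith) ha (by linarith) (by linarith)
    ht1.isTop
  have hlock2 := hcfg.τ_lock.map hcfg.ha0 (by linarith) (by linarith) hhR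
  rw [hha] at hlock2
  have hn2 := hcfg.τ_sgn h hhR (by rw [hha]; linarith) (by rw [hha]; linarith)
  rw [hha] at hn2
  have heq := hC2 z hz a ha y hcfg.hy t1 (hsub ht1.1) (h τ0) hhτ (l + c0 + R0) v' (by linarith)
    hlock1 (hlock2.mono (by linarith) (by linarith)) (by linarith) (by linarith) (-1)
    (Or.inr rfl) ht1.2.2.2 hn2 (by
      rw [abs_le]
      constructor
      · linarith
      · linarith)
  refine hcfg.τ_not h hhR (by rw [hha]; linarith) (by rw [hha]; linarith) ?_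
  rw [hha, ← heq]
  exact ht1.1

end Sys

end Pool.Agent.helper98.NIG
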