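import Pool.Agent.helper97.NIG.Desc2

/-!
# NIG / P5 : the descent, case A, the right part (helper97)
-/

open scoped BigOperators
open Set Function

set_option linter.unusedSectionVars false
set_option linter.deprecated false

namespace Pool.Agent.helper98.NIG

variable {b : Base} {F : Type} [Fintype F]

namespace Sys

variable {A : Sys b F}

/-- on the right part the top token is the token `t` -/
theorem cfg_right {c0 c1 n m M Lg R0 K Lc L1 : ℕ} {C0 : ℝ} (hc : A.BCc c0) (hSP : A.SP c0 K)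
    (hc1 : c0 ≤ c1) (hC1 : A.DCmp c1 n (2 * C0) Lc) (hm : 2 * c0 + c1 + R0 + A.ρ + 1 ≤ m)
    (hLg : 2 * c0 + 2 * A.ρ ≤ Lg)
    (hL1 : Lc + 2 * m + 2 * A.ρ ≤ L1)
    (hCs : 2 * (K * (((c0 + R0 + M + m + A.ρ : ℕ) : ℝ) + 1)) ≤ C0)
    {z y : Pt b F} {l x e : ℤ} {R : Pt b F → Set (Pt b F)} {a0 t0 τ0 : Pt b F}
    (hcfg : A.Cfg c0 n m M Lg C0 z y l x e R a0 t0 τ0) {w : ℤ}
    (hgp : A.GoodOn R n 1 z w (x - c0 - R0)) (hw : w ≤ x - c0 - R0 - L1)
    (he : l + c0 + 1 ≤ e) (hx : e + (2 * c0 + R0 + L1 + M + 2 * m + A.ρ + Lg + 1 : ℕ) ≤ x) :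
    e ≤ w ∧ ∀ a ∈ A.orb z, w + c0 ≤ pos z a → pos z a ≤ x - c0 - R0 - c0 →
      ∀ k, A.RIn z e x a0 k → k a0 = a → A.IsTop R a (k t0) := by
  push_cast at hx
  have hc1' : (c0 : ℤ) ≤ c1 := by exact_mod_cast hc1
  have hm' : (2 * c0 + c1 + R0 + A.ρ + 1 : ℤ) ≤ m := by exact_mod_cast hm
  have hLg' : (2 * c0 + 2 * A.ρ : ℤ) ≤ Lg := by exact_mod_cast hLg
  have hL1' : (Lc + 2 * m + 2 * A.ρ : ℤ) ≤ L1 := by exact_mod_cast hL1
  have hc0 : (0 : ℤ) ≤ c0 := by positivity
  have hR0 : (0 : ℤ) ≤ R0 := by positivity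
  have hρ0 : (0 : ℤ) ≤ A.ρ := by positivity
  have hL10 : (0 : ℤ) ≤ L1 := by positivity
  have hLc0 : (0 : ℤ) ≤ Lc := by positivity
  have hM0 : (0 : ℤ) ≤ M := by positivity
  have hz := hcfg.hz
  have hp1 := hcfg.ha1
  have hp2 := hcfg.ha2
  -- the point `a1` near the right end
  obtain ⟨a1, ha1, q1, q2⟩ := exists_at hz (x - c0 - R0 - m - A.ρ)
  obtain ⟨h, hh, hha, hs⟩ := hSP z hz a0 hcfg.ha0 a1 ha1 e x (by linarith) (by linarith)
    (by linarith) (by linarith) (((c0 + R0 + M + m + A.ρ : ℕ) : ℝ)) (by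
      have e1 : |(pos z a1 - pos z a0)| ≤ ((c0 + R0 + M + m + A.ρ : ℕ) : ℤ) := by
        push_cast
        rw [abs_le]
        constructor <;> linarith
      exact_mod_cast e1)
  have hhG := hh.mem_G
  have hhR : A.RIn z l x a0 h := hh.mono (by linarith) le_rfl
  have hsub0 := hcfg.fam.sub a0 hcfg.ha0 (by linarith) (by linarith)
  have hsub := hcfg.fam.sub a1 ha1 (by linarith) (by linarith)
  obtain ⟨t1, ht1⟩ := hgp a1 ha1 (by linarith) (by linarith)
  have hht0 : h t0 ∈ R a1 := by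
    have := (hcfg.fam.mem hcfg.ha0 (by linarith) (by linarith) hhR (t := t0) (by rw [hha]; linarith)
      (by rw [hha]; linarith)).2 hcfg.t_mem
    rw [hha] at this
    exact this
  have hb1 := hcfg.bound hhG hs (hsub0 hcfg.t_mem)
  have hb2 := ht1.isTop.le hht0
  have hb3 := hcfg.τ_top h hhR (by rw [hha]; linarith) (by rw [hha]; linarith) t1
    (by rw [hha]; exact ht1.1)
  have hb4 := dh_tri (A := A) (h τ0) (hsub hht0) (hsub ht1.1)
  -- locks
  set p' : ℤ := max w (l + c0) with hp'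
  have hw' : w ≤ p' := le_max_left _ _
  have hl' : l + c0 ≤ p' := le_max_right _ _
  have hlock1 := (hgp.mono hw' le_rfl).lock hcfg.fam hl' (by linarith) ha1
    (max_le (by linarith) (by linarith)) (by linarith) ht1.isTop
  have hlock2 := hcfg.t_lock.map hcfg.ha0 (by linarith) (by linarith) hh
  rw [hha] at hlock2
  have hn2 := hcfg.t_sgn h hh (by rw [hha]; linarith) (by rw [hha]; linarith)
  rw [hha] at hn2
  have hmx1 : w ≤ max w e := le_max_left _ _
  have hmx2 : e ≤ max w e := le_max_right _ _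
  have hmx3 : max w e ≤ x - c0 - R0 - L1 := max_le hw (by linarith)
  have heq := hC1 z hz a1 ha1 y hcfg.hy t1 (hsub ht1.1) (h t0) (hsub hht0) (max w e)
    (x - c0 - R0) (by linarith)
    (hlock1.mono (max_le (by linarith) (by linarith)) le_rfl)
    (hlock2.mono hmx2 (by linarith)) (by linarith) (by linarith) 1 (Or.inl rfl) ht1.2.2.2 hn2 (by
      have hb5 := dh_neg (A := A) (hsub ht1.1) (hsub hht0)
      rw [hb5, abs_neg, abs_le]
      constructor
      · linarith
      · linarith)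
  rw [heq] at ht1 hlock1
  have hew : e ≤ w := by
    by_contra hcon
    push Not at hcon
    have hp'e : p' ≤ e - 1 := max_le (by omega) (by linarith)
    obtain ⟨ae, hae, r1, r2⟩ := exists_at hz (e + c0)
    obtain ⟨k, hk, hka⟩ := exists_path hc hz ha1 hae (l := e) (r := x - c0 - R0) (by linarith)
      (by linarith) (by linarith) (by linarith)
    have hk1 : A.RIn z p' (x - c0 - R0) a1 k := hk.mono (by linarith) le_rfl
    have hl3 := hlock1.map ha1 (max_le (by linarith) (by linarith)) (by linarith) hk1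
    have hk2 : A.RIn z e x a0 (k * h) := by
      refine hh.trans hcfg.ha0 ?_
      rw [hha]
      exact hk.mono le_rfl (by linarith)
    refine hcfg.t_end (k * h) hk2 ?_ ?_ ?_
    · rw [Equiv.Perm.mul_apply, hha, hka]
      linarith
    · rw [Equiv.Perm.mul_apply, hha, hka]
      linarith
    · rw [Equiv.Perm.mul_apply, Equiv.Perm.mul_apply, hha]
      exact hl3.mono (by linarith) (by linarith)
  refine ⟨hew, ?_⟩
  intro a ha s1 s2 k hk hka
  obtain ⟨g, hg, hga⟩ := exists_path hc hz ha1 ha (l := w) (r := x - c0 - R0) (by linarith)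
    (by linarith) (by linarith) (by linarith)
  have htop := (hgp.top hcfg.fam (by linarith) (by linarith) ha1 (by linarith) (by linarith)
    ht1.isTop hg).1
  have hg2 : A.RIn z e x a0 (g * h) := by
    refine hh.trans hcfg.ha0 ?_
    rw [hha]
    exact hg.mono hew (by linarith)
  have heq2 := hcfg.t_lock.eq hcfg.ha0 (by linarith) (by linarith) hg2 hk (by
    rw [Equiv.Perm.mul_apply, hha, hga, hka])
  rw [Equiv.Perm.mul_apply] at heq2
  rw [hga, heq2] at htop
  exact htop

end Sys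

end Pool.Agent.helper98.NIG
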