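import Pool.Agent.helper97.NIG.Desc3

/-!
# NIG / P5 : the descent, case A, the left part, estimates (helper97)
-/

open scoped BigOperators
open Set Function

set_option linter.unusedSectionVars false
set_option linter.deprecated false

namespace Pool.Agent.helper98.NIG

variable {b : Base} {F : Type} [Fintype F]

namespace Sys

variable {A : Sys b F}

/-- the top token of the left part -/
theorem cfg_left {c0 c1 n m R0 W1 Lg1 : ℕ} (hc : A.BCc c0)
    (hm : 2 * c0 + c1 + R0 + A.ρ + 1 ≤ m) (hW1 : c0 + R0 ≤ W1)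
    {z y : Pt b F} {l x : ℤ} {R : Pt b F → Set (Pt b F)} (hz : z ∈ A.D) (hy : y ∈ A.D)
    (hfam : A.PFam c0 z y l x R) (hGL : A.GoodL c0 W1 Lg1 z l) {v1 : ℤ}
    (hgm : A.GoodOn R n (-1) z (l + c0 + R0) v1) (hv : v1 ≤ x - c0)
    (hl : l + W1 + Lg1 + 2 * m + A.ρ ≤ v1) :
    ∃ a' ∈ A.orb z, ∃ τ', v1 - m - A.ρ ≤ pos z a' ∧ pos z a' ≤ v1 - m ∧ A.IsTop R a' τ' ∧
      A.Near n (-1) a' τ' ∧ A.LockI z l v1 a' τ' ∧
      ∀ k, A.RIn z l v1 a' k → l + m ≤ pos z (k a') → pos z (k a') ≤ v1 - m →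
        A.IsTop R (k a') (k τ') ∧ A.Near n (-1) (k a') (k τ') := by
  have hm' : (2 * c0 + c1 + R0 + A.ρ + 1 : ℤ) ≤ m := by exact_mod_cast hm
  have hW1' : (c0 + R0 : ℤ) ≤ W1 := by exact_mod_cast hW1
  have hc0 : (0 : ℤ) ≤ c0 := by positivity
  have hc10 : (0 : ℤ) ≤ c1 := by positivity
  have hR0 : (0 : ℤ) ≤ R0 := by positivity
  have hρ0 : (0 : ℤ) ≤ A.ρ := by positivity
  have hLg10 : (0 : ℤ) ≤ Lg1 := by positivity
  obtain ⟨a', ha', q1, q2⟩ := exists_at hz (v1 - m - A.ρ)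
  obtain ⟨τ', hτ'⟩ := hgm a' ha' (by linarith) (by linarith)
  have hlock := hgm.lock hfam (by linarith) hv ha' (by linarith) (by linarith) hτ'.isTop
  have hτD : τ' ∈ A.D := mem_D_of_orb' hy (hfam.sub a' ha' (by linarith) (by linarith) hτ'.1)
  have hlock2 := hGL a' ha' τ' hτD v1 (by linarith) (by linarith) (by linarith)
    (hlock.mono (by linarith) le_rfl)
  refine ⟨a', ha', τ', q1, by linarith, hτ'.isTop, hτ'.2.2.2, hlock2, ?_⟩
  intro k hk s1 s2
  obtain ⟨g, hg, hga⟩ := exists_path hc hz ha' (orb_of_orb ha' hk.mem_G)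
    (l := l + c0 + R0) (r := v1) (by linarith) (by linarith) (by linarith) (by linarith)
  have htop := hgm.top hfam (by linarith) hv ha' (by linarith) (by linarith) hτ'.isTop hg
  have heq := hlock2.eq ha' (by linarith) (by linarith) (hg.mono (by linarith) le_rfl) hk hga
  rw [hga, heq] at htop
  exact htop

/-- (A2): the right part is long -/
theorem cfg_A2 {c0 c1 n m M Lg R0 K L3 Y1 : ℕ} {C0 Cb : ℝ} (hSP : A.SP c0 K)
    (hc1 : c0 ≤ c1) (hC3 : A.DCmp c1 n Cb L3) (hm : 2 * c0 + c1 + R0 + A.ρ + 1 ≤ m)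
    (hCb : C0 + 2 * (K * (((Y1 + M : ℕ) : ℝ) + 1)) +
      2 * (K * (((R0 + c0 + m + 2 * A.ρ : ℕ) : ℝ) + 1)) ≤ Cb)
    {z y : Pt b F} {l x e : ℤ} {R : Pt b F → Set (Pt b F)} {a0 t0 τ0 : Pt b F}
    (hcfg : A.Cfg c0 n m M Lg C0 z y l x e R a0 t0 τ0) {v1 w : ℤ} (hvw : w ≤ v1 + R0)
    (hv1w : v1 ≤ w) (hew : e ≤ w)
    {a' τ' : Pt b F} (ha' : a' ∈ A.orb z) (q1 : v1 - m - A.ρ ≤ pos z a') (q2 : pos z a' ≤ v1 - m)
    (htop : A.IsTop R a' τ') (hnear : A.Near n (-1) a' τ') (hlock : A.LockI z l v1 a' τ')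
    {a2 : Pt b F} (ha2 : a2 ∈ A.orb z) (s1 : w + c0 ≤ pos z a2) (s2 : pos z a2 ≤ w + c0 + A.ρ)
    (hw : w + 2 * c0 + A.ρ + R0 ≤ x)
    (hl : l + c0 + c1 + 2 * m + R0 + A.ρ + L3 ≤ e)
    (hx : e + (c0 + M + m : ℕ) ≤ x) : w + Y1 < x := by
  push_cast at hx
  by_contra hcon
  push Not at hcon
  have hc1' : (c0 : ℤ) ≤ c1 := by exact_mod_cast hc1
  have hm' : (2 * c0 + c1 + R0 + A.ρ + 1 : ℤ) ≤ m := by exact_mod_cast hm
  have hc0 : (0 : ℤ) ≤ c0 := by positivity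
  have hR0 : (0 : ℤ) ≤ R0 := by positivity
  have hρ0 : (0 : ℤ) ≤ A.ρ := by positivity
  have hL30 : (0 : ℤ) ≤ L3 := by positivity
  have hM0 : (0 : ℤ) ≤ M := by positivity
  have hz := hcfg.hz
  have hp1 := hcfg.ha1
  have hp2 := hcfg.ha2
  obtain ⟨k2, hk2, hk2a, hs2⟩ := hSP z hz a0 hcfg.ha0 a2 ha2 e x (by linarith) (by linarith)
    (by linarith) (by linarith) (((Y1 + M : ℕ) : ℝ)) (by
      have e1 : |(pos z a2 - pos z a0)| ≤ ((Y1 + M : ℕ) : ℤ) := by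
        push_cast
        rw [abs_le]
        constructor <;> linarith
      exact_mod_cast e1)
  obtain ⟨k3, hk3, hk3a, hs3⟩ := hSP z hz a2 ha2 a' ha' l x (by linarith) (by linarith)
    (by linarith) (by linarith) (((R0 + c0 + m + 2 * A.ρ : ℕ) : ℝ)) (by
      have e1 : |(pos z a' - pos z a2)| ≤ ((R0 + c0 + m + 2 * A.ρ : ℕ) : ℤ) := by
        push_cast
        rw [abs_le]
        constructor <;> linarith
      exact_mod_cast e1)
  have hk2R : A.RIn z l x a0 k2 := hk2.mono (by linarith) le_rfl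
  have hkR : A.RIn z l x a0 (k3 * k2) := by
    refine hk2R.trans hcfg.ha0 ?_
    rw [hk2a]
    exact hk3
  have hka : (k3 * k2) a0 = a' := by rw [Equiv.Perm.mul_apply, hk2a, hk3a]
  have hsub0 := hcfg.fam.sub a0 hcfg.ha0 (by linarith) (by linarith)
  have hsub := hcfg.fam.sub a' ha' (by linarith) (by linarith)
  have ht0y := hsub0 hcfg.t_mem
  have hkt : (k3 * k2) t0 ∈ R a' := by
    have := (hcfg.fam.mem hcfg.ha0 (by linarith) (by linarith) hkR (t := t0) (by rw [hka]; linarith)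
      (by rw [hka]; linarith)).2 hcfg.t_mem
    rw [hka] at this
    exact this
  have hkτ : (k3 * k2) τ0 ∈ A.orb y := A.orb_map hkR.mem_G hcfg.τ_mem
  have hb1 := hcfg.bound hk2.mem_G hs2 ht0y
  have hb1' := abs_le.1 (hs3.dh_le hk3.mem_G hcfg.hy (A.orb_map hk2.mem_G ht0y)
    (A.orb_map hk2.mem_G hcfg.τ_mem))
  have hb2 := htop.le hkt
  have hb3 := hcfg.τ_top _ hkR (by rw [hka]; linarith) (by rw [hka]; linarith) τ'
    (by rw [hka]; exact htop.1)
  have hb4 := dh_tri (A := A) ((k3 * k2) τ0) (hsub hkt) (hsub htop.1)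
  have hlock2 := hcfg.τ_lock.map hcfg.ha0 (by linarith) (by linarith) hkR
  rw [hka] at hlock2
  have hn2 := hcfg.τ_sgn _ hkR (by rw [hka]; linarith) (by rw [hka]; linarith)
  rw [hka] at hn2
  have heq := hC3 z hz a' ha' y hcfg.hy τ' (hsub htop.1) _ hkτ l v1 (by linarith)
    hlock (hlock2.mono le_rfl (by linarith)) (by linarith) (by linarith) (-1)
    (Or.inr rfl) hnear hn2 (by
      simp only [Equiv.Perm.mul_apply] at hb3 hb4 hb2 ⊢
      rw [abs_le]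
      constructor
      · linarith
      · linarith [hb1'.2])
  refine hcfg.τ_not _ hkR (by rw [hka]; linarith) (by rw [hka]; linarith) ?_
  rw [hka, ← heq]
  exact htop.1

/-- (A3): the left part reaches far to the right of `e` -/
theorem cfg_A3 {c0 c1 n m M Lg R0 K W' Y0 : ℕ} {C0 Kr : ℝ} (hc : A.BCc c0) (hSP : A.SP c0 K)
    (hc1 : c0 ≤ c1) (hm : 2 * c0 + c1 + R0 + A.ρ + 1 ≤ m) (hLg : 2 * c0 + 2 * A.ρ ≤ Lg)
    (hKr : 2 * (K * (((Y0 + R0 + A.ρ : ℕ) : ℝ) + 1)) < Kr)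
    (hUR : ∀ z ∈ A.D, ∀ y ∈ A.D,
      (∃ h, A.Reach z (Set.Icc (-((Lg + 1 : ℕ) : ℤ)) (Lg + 1 : ℕ)) h ∧ h z = z ∧ h y ≠ y) →
      ∃ h, A.Reach z (Set.Icc (-(W' : ℤ)) W') h ∧ h z = z ∧ Kr ≤ A.dh y (h y))
    {z y : Pt b F} {l x e : ℤ} {R : Pt b F → Set (Pt b F)} {a0 t0 τ0 : Pt b F}
    (hcfg : A.Cfg c0 n m M Lg C0 z y l x e R a0 t0 τ0) {v1 w : ℤ} (hvw : w ≤ v1 + R0)
    (hew : e ≤ w) {a2 : Pt b F} (ha2 : a2 ∈ A.orb z) (s1 : w + c0 ≤ pos z a2)
    (s2 : pos z a2 ≤ w + c0 + A.ρ)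
    (hright : ∀ k, A.RIn z e x a0 k → k a0 = a2 → A.IsTop R a2 (k t0))
    (hw : w + 2 * c0 + A.ρ + R0 ≤ x) (hw2 : w + (W' + Lg) ≤ x) (hl : l + W' + c0 ≤ e)
    (hx : e + (2 * c0 + M + m + A.ρ : ℕ) ≤ x) : e + Y0 < v1 := by
  push_cast at hx
  by_contra hcon
  push Not at hcon
  have hc1' : (c0 : ℤ) ≤ c1 := by exact_mod_cast hc1
  have hm' : (2 * c0 + c1 + R0 + A.ρ + 1 : ℤ) ≤ m := by exact_mod_cast hm
  have hLg' : (2 * c0 + 2 * A.ρ : ℤ) ≤ Lg := by exact_mod_cast hLg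
  have hc0 : (0 : ℤ) ≤ c0 := by positivity
  have hR0 : (0 : ℤ) ≤ R0 := by positivity
  have hρ0 : (0 : ℤ) ≤ A.ρ := by positivity
  have hM0 : (0 : ℤ) ≤ M := by positivity
  have hW'0 : (0 : ℤ) ≤ W' := by positivity
  have hY00 : (0 : ℤ) ≤ Y0 := by positivity
  have hz := hcfg.hz
  have hp1 := hcfg.ha1
  have hp2 := hcfg.ha2
  obtain ⟨ae, hae, r1, r2⟩ := exists_at hz (e + c0)
  obtain ⟨he, hhe, hhea⟩ := exists_path hc hz hcfg.ha0 hae (l := e) (r := x) (by linarith)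
    (by linarith) (by linarith) (by linarith)
  have hheR : A.RIn z l x a0 he := hhe.mono (by linarith) le_rfl
  have hsub0 := hcfg.fam.sub a0 hcfg.ha0 (by linarith) (by linarith)
  have hsube := hcfg.fam.sub ae hae (by linarith) (by linarith)
  have hsub2 := hcfg.fam.sub a2 ha2 (by linarith) (by linarith)
  have hte : he t0 ∈ R ae := by
    have := (hcfg.fam.mem hcfg.ha0 (by linarith) (by linarith) hheR (t := t0)
      (by rw [hhea]; linarith) (by rw [hhea]; linarith)).2 hcfg.t_mem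
    rw [hhea] at this
    exact this
  have hend := hcfg.t_end he hhe (by rw [hhea]; linarith) (by rw [hhea]; linarith)
  unfold LockI at hend
  push Not at hend
  obtain ⟨u, hu, hua, hut⟩ := hend
  rw [hhea] at hu hua
  obtain ⟨g, hg, hga, hgK⟩ := hUR ae (orb_mem_D hz hae) (he t0) (mem_D_of_orb' hcfg.hy (hsube hte))
    ⟨u, Reach.mono (Set.Icc_subset_Icc (by push_cast; linarith) (by push_cast; linarith)) hu, hua,
      hut⟩
  have hgR : A.RIn z l x ae g := Reach.mono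
    (Set.Icc_subset_Icc (by linarith) (by linarith)) hg
  have hgte : g (he t0) ∈ R ae := by
    have := (hcfg.fam.mem hae (by linarith) (by linarith) hgR (t := he t0)
      (by rw [hga]; linarith) (by rw [hga]; linarith)).2 hte
    rw [hga] at this
    exact this
  obtain ⟨k, hk, hka, hs⟩ := hSP z hz ae hae a2 ha2 e x (by linarith) (by linarith)
    (by linarith) (by linarith) (((Y0 + R0 + A.ρ : ℕ) : ℝ)) (by
      have e1 : |(pos z a2 - pos z ae)| ≤ ((Y0 + R0 + A.ρ : ℕ) : ℤ) := by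
        push_cast
        rw [abs_le]
        constructor <;> linarith
      exact_mod_cast e1)
  have hkR : A.RIn z l x ae k := hk.mono (by linarith) le_rfl
  have hkhe : A.RIn z e x a0 (k * he) := by
    refine hhe.trans hcfg.ha0 ?_
    rw [hhea]
    exact hk
  have htop := hright (k * he) hkhe (by rw [Equiv.Perm.mul_apply, hhea, hka])
  rw [Equiv.Perm.mul_apply] at htop
  have hkg : k (g (he t0)) ∈ R a2 := by
    have := (hcfg.fam.mem hae (by linarith) (by linarith) hkR (t := g (he t0))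
      (by rw [hka]; linarith) (by rw [hka]; linarith)).2 hgte
    rw [hka] at this
    exact this
  have hb1 := htop.le hkg
  have hb2 := abs_le.1 (hs.dh_le hk.mem_G hcfg.hy (hsube hte) (hsube hgte))
  have hb3 := dh_neg (A := A) (hsub2 htop.1) (hsub2 hkg)
  linarith [hb2.1]

end Sys

end Pool.Agent.helper98.NIG
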