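import Pool.Agent.helper97.NIG.Desc5

/-!
# NIG / P5 : a new configuration from two tokens (helper97), for the strip theorem
-/

open scoped BigOperators
open Set Function

set_option linter.unusedSectionVars false
set_option linter.deprecated false

namespace Pool.Agent.helper98.NIG

variable {b : Base} {F : Type} [Fintype F]

namespace Sys

variable {A : Sys b F}

/-- the configuration obtained by removing the transported token `τ` from the rows -/
theorem new_cfg {c0 n m M Lg : ℕ} {C0 : ℝ} (hc : A.BCc c0) (hcm : c0 ≤ m)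
    {z y : Pt b F} {l x e v1 : ℤ} {R : Pt b F → Set (Pt b F)} {a t0 τ : Pt b F}
    (hz : z ∈ A.D) (hy : y ∈ A.D) (hfam : A.PFam c0 z y l x R) (hv1 : v1 ≤ x)
    (ha : a ∈ A.orb z) (h1 : v1 - M ≤ pos z a) (h2 : pos z a ≤ v1 - m) (h3 : l + c0 ≤ pos z a)
    (ht0 : t0 ∈ R a) (t_lock : A.LockI z e v1 a t0)
    (t_sgn : ∀ h, A.RIn z e v1 a h → e + m ≤ pos z (h a) → pos z (h a) ≤ v1 - m →
      A.Near n 1 (h a) (h t0))
    (t_end : ∀ h, A.RIn z e v1 a h → e + c0 ≤ pos z (h a) → pos z (h a) ≤ e + Lg - c0 →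
      ¬ A.LockI z (e - 1) (e + Lg) (h a) (h t0))
    (hτ : τ ∈ R a) (τ_lock : A.LockI z l v1 a τ)
    (τ_sgn : ∀ h, A.RIn z l v1 a h → l + m ≤ pos z (h a) → pos z (h a) ≤ v1 - m →
      A.Near n (-1) (h a) (h τ))
    (τ_top : ∀ h, A.RIn z l v1 a h → l + m ≤ pos z (h a) → pos z (h a) ≤ v1 - m →
      ∀ t ∈ R (h a), 0 ≤ A.dh t (h τ))
    (hne : t0 ≠ τ) (gap : A.dh t0 τ ≤ C0) :
    A.Cfg c0 n m M Lg C0 z y l v1 e (A.Rm z l v1 a τ R) a t0 τ ∧
      (A.Rm z l v1 a τ R a).ncard < (R a).ncard := by
  have hc0 : (0 : ℤ) ≤ c0 := by positivity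
  have hcm' : (c0 : ℤ) ≤ m := by exact_mod_cast hcm
  have hpa1 : l ≤ pos z a := by linarith
  have hpa2 : pos z a ≤ v1 := by linarith
  refine ⟨?_, ?_⟩
  · refine { hz := hz, hy := hy, fam := ?_, ha0 := ha, ha1 := h1, ha2 := h2,
             t_mem := ?_, t_lock := t_lock, t_sgn := t_sgn, t_end := t_end,
             τ_mem := hfam.sub a ha h3 (by linarith) hτ,
             τ_lock := τ_lock, τ_sgn := τ_sgn, τ_not := ?_, τ_top := ?_, gap := gap }
    · -- the rows
      refine ⟨?_, ?_, ?_, ?_⟩
      · intro a' ha' e1 e2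
        obtain ⟨g, hg, hga⟩ := exists_path hc hz ha ha' (l := l) (r := v1) h3
          (by linarith) (by linarith) (by linarith)
        refine ⟨g t0, ?_, ?_⟩
        · have := (hfam.mem ha h3 (by linarith)
            (hg.mono le_rfl hv1) (t := t0)
            (by rw [hga]; linarith) (by rw [hga]; linarith)).2 ht0
          rw [hga] at this
          exact this
        · intro k hk hka he
          have h1 := τ_lock.eq ha hpa1 hpa2 hk hg (hka.trans hga.symm)
          rw [h1] at he
          exact hne (g.injective he)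
      · intro a' ha' e1 e2
        exact (hfam.fin a' ha' e1 (by linarith)).subset (fun q hq => hq.1)
      · intro a' ha' e1 e2 q hq
        exact hfam.sub a' ha' e1 (by linarith) hq.1
      · intro a' ha' e1 e2 h hh' e3 e4
        have hR := hfam.eqv a' ha' e1 (by linarith) h (hh'.mono le_rfl hv1) e3
          (by linarith)
        ext q
        constructor
        · rintro ⟨hq, hq2⟩
          rw [hR] at hq
          obtain ⟨t, ht, rfl⟩ := hq
          refine ⟨t, ⟨ht, ?_⟩, rfl⟩
          intro k hk hka he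
          refine hq2 (h * k) ?_ (by rw [Equiv.Perm.mul_apply, hka]) (by
            rw [Equiv.Perm.mul_apply, he])
          refine hk.trans ha ?_
          rw [hka]
          exact hh'
        · rintro ⟨t, ⟨ht, ht2⟩, rfl⟩
          refine ⟨by rw [hR]; exact ⟨t, ht, rfl⟩, ?_⟩
          intro k hk hka he
          have hinv : A.RIn z l v1 (h a') h⁻¹ := hh'.inv ha' (by linarith) (by linarith)
          refine ht2 (h⁻¹ * k) ?_ (by rw [Equiv.Perm.mul_apply, hka, pinv_apply]) (by
            rw [Equiv.Perm.mul_apply, ← he, pinv_apply])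
          refine hk.trans ha ?_
          rw [hka]
          exact hinv
    · refine ⟨ht0, ?_⟩
      intro k hk hka he
      rw [τ_lock k hk hka] at he
      exact hne he
    · rintro k hk e1 e2 ⟨-, h2⟩
      exact h2 k hk rfl rfl
    · intro k hk e1 e2 t ht
      exact τ_top k hk e1 e2 t ht.1
  · apply Set.ncard_lt_ncard _ (hfam.fin a ha h3 (by linarith))
    refine ⟨fun q hq => hq.1, fun hsup => ?_⟩
    have := hsup hτ
    exact this.2 1 (RIn.one _ _ _ _) rfl rfl

end Sys

end Pool.Agent.helper98.NIG
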