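import Pool.Agent.helper98.NIG.E08
import Pool.Agent.helper2.NIG.L02

/-!
# NIG-E10, definitions of the descent (helper98), and short paths
-/

namespace Pool.Agent.helper98.NIG

variable {b : Base} {F : Type}

namespace Sys

/-- good left end -/
def GoodL (A : Sys b F) (c0 W L : ℕ) (z : Pt b F) (l : ℤ) : Prop :=
  ∀ a ∈ A.orb z, ∀ t ∈ A.D, ∀ β : ℤ, l + W + L ≤ β → l + W + c0 ≤ pos z a → pos z a ≤ β - c0 →
    A.LockI z (l + W) β a t → A.LockI z l β a t

/-- good right end -/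
def GoodR (A : Sys b F) (c0 W L : ℕ) (z : Pt b F) (r : ℤ) : Prop :=
  ∀ a ∈ A.orb z, ∀ t ∈ A.D, ∀ α : ℤ, α ≤ r - W - L → α + c0 ≤ pos z a → pos z a ≤ r - W - c0 →
    A.LockI z α (r - W) a t → A.LockI z α r a t

/-- finite rows over an interval, transported by all paths inside of the interval -/
structure PFam (A : Sys b F) (c0 : ℕ) (z y : Pt b F) (l r : ℤ) (R : Pt b F → Set (Pt b F)) :
    Prop where
  ne : ∀ a ∈ A.orb z, l + c0 ≤ pos z a → pos z a ≤ r - c0 → (R a).Nonempty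
  fin : ∀ a ∈ A.orb z, l + c0 ≤ pos z a → pos z a ≤ r - c0 → (R a).Finite
  sub : ∀ a ∈ A.orb z, l + c0 ≤ pos z a → pos z a ≤ r - c0 → R a ⊆ A.orb y
  eqv : ∀ a ∈ A.orb z, l + c0 ≤ pos z a → pos z a ≤ r - c0 → ∀ h, A.RIn z l r a h →
    l + c0 ≤ pos z (h a) → pos z (h a) ≤ r - c0 → R (h a) = h '' R a

/-- the configuration of the descent -/
structure Cfg [Fintype F] (A : Sys b F) (c0 n m M Lg : ℕ) (C0 : ℝ) (z y : Pt b F) (l x e : ℤ)
    (R : Pt b F → Set (Pt b F)) (a0 t0 τ0 : Pt b F) : Prop where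
  hz : z ∈ A.D
  hy : y ∈ A.D
  fam : A.PFam c0 z y l x R
  ha0 : a0 ∈ A.orb z
  ha1 : x - M ≤ pos z a0
  ha2 : pos z a0 ≤ x - m
  t_mem : t0 ∈ R a0
  t_lock : A.LockI z e x a0 t0
  t_sgn : ∀ h, A.RIn z e x a0 h → e + m ≤ pos z (h a0) → pos z (h a0) ≤ x - m →
    A.Near n 1 (h a0) (h t0)
  t_end : ∀ h, A.RIn z e x a0 h → e + c0 ≤ pos z (h a0) → pos z (h a0) ≤ e + Lg - c0 →
    ¬ A.LockI z (e - 1) (e + Lg) (h a0) (h t0)
  τ_mem : τ0 ∈ A.orb y
  τ_lock : A.LockI z l x a0 τ0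
  τ_sgn : ∀ h, A.RIn z l x a0 h → l + m ≤ pos z (h a0) → pos z (h a0) ≤ x - m →
    A.Near n (-1) (h a0) (h τ0)
  τ_not : ∀ h, A.RIn z l x a0 h → l + c0 ≤ pos z (h a0) → pos z (h a0) ≤ x - c0 →
    h τ0 ∉ R (h a0)
  τ_top : ∀ h, A.RIn z l x a0 h → l + m ≤ pos z (h a0) → pos z (h a0) ≤ x - m →
    ∀ t ∈ R (h a0), 0 ≤ A.dh t (h τ0)
  gap : A.dh t0 τ0 ≤ C0

/-- joining points of an orbit by short words inside of an interval -/
theorem short_path [Fintype F] (A : Sys b F) {c0 : ℕ} (hc : A.BCc c0) : ∃ Λ : ℕ, ∀ z ∈ A.D,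
    ∀ a ∈ A.orb z, ∀ a' ∈ A.orb z, ∃ l : List (Equiv.Perm (Pt b F)),
      (∀ s ∈ l, s ∈ A.S) ∧ l.prod a = a' ∧ (l.length : ℤ) ≤ Λ * (|pos z a' - pos z a| + 1) ∧
      A.RIn z (min (pos z a) (pos z a') - c0) (max (pos z a) (pos z a') + c0) a l.prod := by
  obtain ⟨K, -, hK⟩ := exists_RW (A := A) (R := c0) hc
  refine ⟨K, fun z hz a ha a' ha' => ?_⟩
  have haD := orb_mem_D hz ha
  obtain ⟨g, hg, hga⟩ : ∃ g ∈ A.G, g a = a' := by
    obtain ⟨g1, hg1, rfl⟩ := ha
    obtain ⟨g2, hg2, rfl⟩ := ha'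
    refine ⟨g2 * g1⁻¹, mul_mem hg2 (A.G.inv_mem hg1), ?_⟩
    exact congrArg g2 (g1.symm_apply_apply z)
  obtain ⟨g', h1, h2⟩ := hK a haD g hg
  have hlist : ∀ (n : ℕ) (g : Equiv.Perm (Pt b F)) (I : Set ℤ), A.RW a I n g →
      ∃ l : List (Equiv.Perm (Pt b F)), (∀ s ∈ l, s ∈ A.S) ∧ l.prod = g ∧ l.length ≤ n := by
    intro n g I h
    induction h with
    | one n => exact ⟨[], by simp, by simp, by simp⟩
    | @step n g s _ hs _ ih =>
      obtain ⟨l, e1, e2, e3⟩ := ih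
      refine ⟨s :: l, ?_, ?_, ?_⟩
      · intro t ht
        rcases List.mem_cons.1 ht with rfl | ht
        · exact hs
        · exact e1 t ht
      · rw [List.prod_cons, e2]
      · rw [List.length_cons]
        omega
  obtain ⟨l, e1, e2, e3⟩ := hlist _ _ _ h1
  have hp := pos_orb ha hg
  rw [hga] at hp
  refine ⟨l, e1, by rw [e2, h2, hga], ?_, ?_⟩
  · have e4 : pos z a' - pos z a = disp g a := by linarith
    rw [e4]
    have e5 : ((K * ((disp g a).natAbs + 1) : ℕ) : ℤ) = K * (|disp g a| + 1) := by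
      push_cast
      rw [Int.abs_eq_natAbs]
    rw [← e5]
    exact_mod_cast e3
  · rw [e2]
    refine Reach.mono (Set.Icc_subset_Icc ?_ ?_) h1.reach
    · have : min (pos z a) (pos z a') ≤ pos z a + min 0 (disp g a) := by
        rw [hp]
        rcases le_total 0 (disp g a) with h | h
        · rw [min_eq_left h]
          have := min_le_left (pos z a) (pos z a + disp g a)
          linarith
        · rw [min_eq_right h]
          exact min_le_right _ _
      linarith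
    · have : pos z a + max 0 (disp g a) ≤ max (pos z a) (pos z a') := by
        rw [hp]
        rcases le_total 0 (disp g a) with h | h
        · rw [max_eq_right h]
          exact le_max_right _ _
        · rw [max_eq_left h]
          have := le_max_left (pos z a) (pos z a + disp g a)
          linarith
      linarith

theorem height_of_list [Fintype F] (A : Sys b F) {N : ℕ} (hN : A.BCN N) {t : Pt b F}
    (ht : t ∈ A.D) (l : List (Equiv.Perm (Pt b F))) (hl : ∀ s ∈ l, s ∈ A.S) :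
    |A.dh t (l.prod t)| ≤ l.length := by
  rw [dh_map]
  induction l with
  | nil =>
    rw [List.prod_nil]
    unfold hδ
    rw [Equiv.Perm.one_apply, sub_self, abs_zero]
    simp
  | cons s l ih =>
    have hlS : ∀ s ∈ l, s ∈ A.S := fun t ht => hl t (List.mem_cons_of_mem _ ht)
    have hlG : l.prod ∈ A.G := Subgroup.list_prod_mem _
      (fun t ht => A.mem_G_of_mem_S (hlS t ht))
    rw [List.prod_cons, hδ_mul hlG, List.length_cons]
    have h1 := hδ_lip hN (A.map_mem hlG ht) (hl s List.mem_cons_self)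
    refine (abs_add_le _ _).trans ?_
    have := ih hlS
    push_cast
    linarith

end Sys

end Pool.Agent.helper98.NIG
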