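import Pool.Agent.helper97.NIG.HarmSys

/-!
# NIG / P3a : the relation PRel, bounded distance for ever (helper97)
-/

open scoped BigOperators
open Set Function

set_option linter.unusedSectionVars false
set_option linter.deprecated false

namespace Pool.Agent.helper98.NIG

open _root_.NIG.Strand

variable {b : Base} {F : Type}

namespace Sys

/-- `x`, `y` are on the same line and stay at a bounded distance for ever. -/
def PRel (A : Sys b F) (x y : Pt b F) : Prop :=
  SameLine x y ∧ ∃ C : ℤ, ∀ g ∈ A.G, |pos (g x) (g y)| ≤ C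

variable {A : Sys b F}

theorem sameLine_map {g : Equiv.Perm (Pt b F)} (hg : g ∈ A.G) {x y : Pt b F}
    (h : SameLine x y) : SameLine (g x) (g y) :=
  sameLine_trans (sameLine_symm (sameLine_of_mem_PW (A.G_le_PW hg) x))
    (sameLine_trans h (sameLine_of_mem_PW (A.G_le_PW hg) y))

theorem pos_map {g : Equiv.Perm (Pt b F)} (hg : g ∈ A.G) {x y : Pt b F}
    (h : SameLine x y) : pos (g x) (g y) = pos x y + disp g y - disp g x := by
  have h1 := pos_add (sameLine_of_mem_PW (A.G_le_PW hg) x) (sameLine_map hg h)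
  have h2 := pos_add h (sameLine_of_mem_PW (A.G_le_PW hg) y)
  unfold disp
  linarith

theorem PRel.refl (A : Sys b F) (x : Pt b F) : A.PRel x x :=
  ⟨sameLine_refl x, 0, fun g _ => by rw [pos_self]; simp⟩

theorem PRel.symm {x y : Pt b F} (h : A.PRel x y) : A.PRel y x := by
  obtain ⟨h1, C, h2⟩ := h
  refine ⟨sameLine_symm h1, C, fun g hg => ?_⟩
  rw [pos_neg (sameLine_map hg h1), abs_neg]
  exact h2 g hg

theorem PRel.trans {x y z : Pt b F} (h : A.PRel x y) (h' : A.PRel y z) : A.PRel x z := by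
  obtain ⟨h1, C, h2⟩ := h
  obtain ⟨h1', C', h2'⟩ := h'
  refine ⟨sameLine_trans h1 h1', C + C', fun g hg => ?_⟩
  rw [pos_add (sameLine_map hg h1) (sameLine_map hg h1')]
  exact (abs_add_le _ _).trans (add_le_add (h2 g hg) (h2' g hg))

theorem PRel.map {x y : Pt b F} (h : A.PRel x y) {g : Equiv.Perm (Pt b F)} (hg : g ∈ A.G) :
    A.PRel (g x) (g y) := by
  obtain ⟨h1, C, h2⟩ := h
  exact ⟨sameLine_map hg h1, C, fun k hk => h2 (k * g) (A.G.mul_mem hk hg)⟩

theorem PRel.map_iff {x y : Pt b F} {g : Equiv.Perm (Pt b F)} (hg : g ∈ A.G) :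
    A.PRel (g x) (g y) ↔ A.PRel x y := by
  refine ⟨fun h => ?_, fun h => h.map hg⟩
  have := h.map (A.G.inv_mem hg)
  rwa [pinv_apply, pinv_apply] at this

/-- every element of the group is a product of a list of generators -/
theorem exists_list {g : Equiv.Perm (Pt b F)} (hg : g ∈ A.G) :
    ∃ l : List (Equiv.Perm (Pt b F)), (∀ s ∈ l, s ∈ A.S) ∧ l.prod = g := by
  induction hg using Subgroup.closure_induction with
  | mem s hs => exact ⟨[s], by simpa using hs, by simp⟩
  | one => exact ⟨[], by simp, by simp⟩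
  | mul g h _ _ ihg ihh =>
    obtain ⟨l, hl, rfl⟩ := ihg
    obtain ⟨l', hl', rfl⟩ := ihh
    refine ⟨l ++ l', ?_, by simp⟩
    intro s hs
    rw [List.mem_append] at hs
    rcases hs with hs | hs
    · exact hl s hs
    · exact hl' s hs
  | inv g _ ih =>
    obtain ⟨l, hl, rfl⟩ := ih
    refine ⟨(l.map (fun s => s⁻¹)).reverse, ?_, ?_⟩
    · intro s hs
      rw [List.mem_reverse, List.mem_map] at hs
      obtain ⟨t, ht, rfl⟩ := hs
      exact A.inv_mem _ (hl t ht)
    · rw [List.prod_inv_reverse]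

/-- difference of the harmonic coordinate between two points of an orbit -/
noncomputable def dh (A : Sys b F) (x y : Pt b F) : ℝ := A.Hc (A.orb x) y - A.Hc (A.orb x) x

theorem dh_self (x : Pt b F) : A.dh x x = 0 := sub_self _

theorem dh_add {x y z : Pt b F} (hy : y ∈ A.orb x) : A.dh x z = A.dh x y + A.dh y z := by
  unfold dh
  rw [A.orb_eq hy]; ring

theorem dh_symm {x y : Pt b F} (hy : y ∈ A.orb x) : A.dh y x = - A.dh x y := by
  have := dh_add (A := A) (z := x) hy
  rw [dh_self] at this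
  linarith

theorem dh_map (g : Equiv.Perm (Pt b F)) (x : Pt b F) : A.dh x (g x) = A.hδ g x := rfl

variable [Fintype F]

/-- **Constancy**: along an orbit of pairs at bounded distance on one strand the difference of the
harmonic coordinate is constant. -/
theorem dh_const {N : ℕ} (hN : A.BCN N) {x y : Pt b F} (hx : x ∈ A.D) (hy : y ∈ A.orb x)
    (h : A.PRel x y) {g : Equiv.Perm (Pt b F)} (hg : g ∈ A.G) : A.dh (g x) (g y) = A.dh x y := by
  classical
  obtain ⟨hl, C, hC⟩ := h
  have hs := A.isStrand hN hx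
  set H : A.orb x → ℝ := fun v => A.Hc (A.orb x) v.1 with hH
  have hHC : IsHC (A.mvx x) (A.posx x) H := A.Hc_spec hN hx
  -- rows
  set R : A.orb x → Set (A.orb x) := fun a => {b | ∃ g ∈ A.G, g x = a.1 ∧ g y = b.1} with hR
  have hdist : ∀ a, ∀ b ∈ R a, |A.posx x b - A.posx x a| ≤ C := by
    rintro a b ⟨g, hg, h1, h2⟩
    have h3 := hC g hg
    rw [h1, h2] at h3
    have h4 := pos_add (A.sameLine_orb a.2) (sameLine_trans (sameLine_symm (A.sameLine_orb a.2))
      (A.sameLine_orb b.2))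
    have h5 : A.posx x b - A.posx x a = pos a.1 b.1 := by
      unfold posx; linarith
    rw [h5]; exact h3
  have hfin : ∀ a, (R a).Finite := by
    intro a
    refine (hs.fin (A.posx x a - C) (A.posx x a + C)).subset ?_
    intro b hb
    have := abs_le.1 (hdist a b hb)
    simp only [mem_setOf_eq]
    constructor <;> linarith
  have hne : ∀ a, (R a).Nonempty := by
    intro a
    obtain ⟨g, hg, h1⟩ := a.2
    exact ⟨⟨g y, A.orb_map hg hy⟩, g, hg, h1.symm, rfl⟩
  have hmv : ∀ (s : A.S) a, ∀ b ∈ R a, A.mvx x s b ∈ R (A.mvx x s a) := by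
    rintro s a b ⟨g, hg, h1, h2⟩
    refine ⟨s.1 * g, A.G.mul_mem (A.mem_G_of_mem_S s.2) hg, ?_, ?_⟩
    · rw [Equiv.Perm.mul_apply, h1]; rfl
    · rw [Equiv.Perm.mul_apply, h2]; rfl
  choose β hβ hβmax using fun a => Set.exists_max_image (R a) H (hfin a) (hne a)
  set f : A.orb x → ℝ := fun a => H (β a) - H a with hf
  have hsub : ∀ a, 0 ≤ lap (A.mvx x) f a := by
    intro a
    have h1 := hHC.harm a
    have h2 := hHC.harm (β a)
    unfold lap at h1 h2 ⊢
    have h3 : ∑ s, (f (A.mvx x s a) - f a) ≥ ∑ s : A.S, ((H (A.mvx x s (β a)) - H (β a))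
        - (H (A.mvx x s a) - H a)) := by
      apply Finset.sum_le_sum
      intro s _
      have h4 := hβmax (A.mvx x s a) _ (hmv s a _ (hβ a))
      simp only [hf]
      linarith
    have h5 : ∑ s : A.S, ((H (A.mvx x s (β a)) - H (β a))
        - (H (A.mvx x s a) - H a)) = 0 := by
      rw [Finset.sum_sub_distrib, h1, h2, sub_zero]
    rw [h5] at h3
    exact h3
  have hbd : ∀ a, f a ≤ N * (C + 1 : ℤ) := by
    intro a
    have h1 := hHC.upper hs (β a) a
    have h2 := hdist a _ (hβ a)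
    have h3 : ((|A.posx x (β a) - A.posx x a| + 1 : ℤ) : ℝ) ≤ ((C + 1 : ℤ) : ℝ) := by
      exact_mod_cast (by linarith : |A.posx x (β a) - A.posx x a| + 1 ≤ C + 1)
    calc f a ≤ |H (β a) - H a| := le_abs_self _
      _ ≤ _ := h1
      _ ≤ _ := mul_le_mul_of_nonneg_left h3 (Nat.cast_nonneg _)
  have hconst := fun a a' => liouville hs hHC hsub hbd a a'
  set x0 : A.orb x := ⟨x, A.orb_self x⟩ with hx0
  set M : ℝ := f x0 with hM
  -- the function on the group
  set Q : Equiv.Perm (Pt b F) → ℝ := fun g => A.Hc (A.orb x) (g y) - A.Hc (A.orb x) (g x) with hQ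
  have hQle : ∀ g ∈ A.G, Q g ≤ M := by
    intro g hg
    have h1 := hβmax ⟨g x, A.orb_map hg (A.orb_self x)⟩ ⟨g y, A.orb_map hg hy⟩ ⟨g, hg, rfl, rfl⟩
    have h2 := hconst ⟨g x, A.orb_map hg (A.orb_self x)⟩ x0
    simp only [hf] at h2
    simp only [hQ, hM, hf]
    rw [← h2]
    linarith
  have hQstep : ∀ g ∈ A.G, Q g = M → ∀ s ∈ A.S, Q (s * g) = M := by
    intro g hg hQg s hsS
    have h1 := hHC.harm ⟨g x, A.orb_map hg (A.orb_self x)⟩
    have h2 := hHC.harm ⟨g y, A.orb_map hg hy⟩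
    unfold lap at h1 h2
    have h3 : ∑ s : A.S, (M - Q (s.1 * g)) = 0 := by
      have h4 : ∑ s : A.S, (M - Q (s.1 * g))
          = ∑ s : A.S, ((H (A.mvx x s ⟨g x, A.orb_map hg (A.orb_self x)⟩)
              - H ⟨g x, A.orb_map hg (A.orb_self x)⟩)
            - (H (A.mvx x s ⟨g y, A.orb_map hg hy⟩) - H ⟨g y, A.orb_map hg hy⟩)) := by
        apply Finset.sum_congr rfl
        intro t _
        rw [← hQg]
        simp only [hQ, hH, Equiv.Perm.mul_apply]
        have e1 : (A.mvx x t ⟨g x, A.orb_map hg (A.orb_self x)⟩).1 = t.1 (g x) := rfl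
        have e2 : (A.mvx x t ⟨g y, A.orb_map hg hy⟩).1 = t.1 (g y) := rfl
        rw [e1, e2]
        ring
      rw [h4, Finset.sum_sub_distrib, h1, h2, sub_zero]
    have h5 := (Finset.sum_eq_zero_iff_of_nonneg (fun t _ => by
      have := hQle (t.1 * g) (A.G.mul_mem (A.mem_G_of_mem_S t.2) hg)
      linarith)).1 h3 ⟨s, hsS⟩ (Finset.mem_univ _)
    simp only at h5
    linarith
  obtain ⟨g0, hg0, h1, h2⟩ := hβ x0
  have hQ0 : Q g0 = M := by
    simp only [hQ, hM, hf, hH]
    rw [h1, h2]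
  have hall : ∀ l : List (Equiv.Perm (Pt b F)), (∀ s ∈ l, s ∈ A.S) →
      l.prod * g0 ∈ A.G ∧ Q (l.prod * g0) = M := by
    intro l
    induction l with
    | nil => intro _; simpa using ⟨hg0, hQ0⟩
    | cons s l ih =>
      intro hl
      have h3 := ih (fun t ht => hl t (List.mem_cons_of_mem _ ht))
      have h4 := hl s List.mem_cons_self
      rw [List.prod_cons, mul_assoc]
      exact ⟨A.G.mul_mem (A.mem_G_of_mem_S h4) h3.1, hQstep _ h3.1 h3.2 s h4⟩
  have hQM : ∀ g ∈ A.G, Q g = M := by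
    intro g hg
    obtain ⟨l, hl, hlp⟩ := exists_list (A.G.mul_mem hg (A.G.inv_mem hg0))
    have := (hall l hl).2
    rw [hlp, inv_mul_cancel_right] at this
    exact this
  have h3 := hQM g hg
  have h4 := hQM 1 A.G.one_mem
  unfold dh
  rw [A.orb_eq (A.orb_map hg (A.orb_self x))]
  simp only [hQ, Equiv.Perm.one_apply] at h3 h4
  rw [h3, h4]

end Sys

end Pool.Agent.helper98.NIG
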