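import Pool.Agent.helper97.NIG.TopCpt

/-!
# NIG / P5 : the top token theorem (helper97)
-/

open scoped BigOperators
open Set Function

set_option linter.unusedSectionVars false
set_option linter.deprecated false

namespace Pool.Agent.helper98.NIG

open _root_.NIG.Strand

variable {b : Base} {F : Type} [Fintype F]

namespace Sys

variable {A : Sys b F}

/-- change of the base point of a family -/
theorem Fam.rebase {z y : Pt b F} {l r : ℤ} {R : Pt b F → Set (Pt b F)} (h : A.Fam z y l r R)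
    {a : Pt b F} (ha : a ∈ A.orb z) {l' r' : ℤ} (hl : l ≤ pos z a + l') (hr : pos z a + r' ≤ r) :
    A.Fam a y l' r' R := by
  have hp : ∀ a' ∈ A.orb a, a' ∈ A.orb z ∧ pos z a' = pos z a + pos a a' := by
    intro a' ha'
    exact ⟨by rw [← A.orb_eq ha]; exact ha', pos_add (A.sameLine_orb ha) (A.sameLine_orb ha')⟩
  refine ⟨?_, ?_, ?_, ?_⟩
  · intro a' ha' h1 h2
    obtain ⟨e1, e2⟩ := hp a' ha'
    exact h.ne a' e1 (by linarith) (by linarith)
  · intro a' ha' h1 h2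
    obtain ⟨e1, e2⟩ := hp a' ha'
    exact h.sub a' e1 (by linarith) (by linarith)
  · intro a' ha' h1 h2
    obtain ⟨e1, e2⟩ := hp a' ha'
    exact h.bdd a' e1 (by linarith) (by linarith)
  · intro a' ha' s hs h1 h2 h3 h4
    obtain ⟨e1, e2⟩ := hp a' ha'
    obtain ⟨f1, f2⟩ := hp (s a') (A.orb_map (A.mem_G_of_mem_S hs) ha')
    exact h.eqv a' e1 s hs (by linarith) (by linarith) (by linarith) (by linarith)

theorem lap_eq (z : Pt b F) (f : Pt b F → ℝ) (v : A.orb z) :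
    lap (A.mvx z) (fun v => f v.1) v = ∑ s ∈ A.S, (f (s v.1) - f v.1) := by
  unfold lap
  rw [← Finset.sum_coe_sort A.S]
  rfl

theorem Fam.lap_nonneg {N : ℕ} (hN : A.BCN N) {z y : Pt b F} (hz : z ∈ A.D) (hy : y ∈ A.D)
    {l r : ℤ} {R : Pt b F → Set (Pt b F)} (h : A.Fam z y l r R) {c c' : ℤ}
    (hl : l + A.ρ ≤ c) (hr : c' + A.ρ ≤ r) :
    ∀ v ∈ (A.isStrand hN hz).win c c', 0 ≤ lap (A.mvx z) (fun v => A.tf y R v.1) v := by
  intro v hv
  rw [(A.isStrand hN hz).mem_win] at hv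
  have h1 : A.posx z v = pos z v.1 := rfl
  rw [h1] at hv
  rw [lap_eq]
  exact h.def_nonneg hN hy v.2 (by linarith [hv.1]) (by linarith [hv.2])

theorem Fam.curx_mono {N : ℕ} (hN : A.BCN N) {z y : Pt b F} (hz : z ∈ A.D) (hy : y ∈ A.D)
    {l r : ℤ} {R : Pt b F → Set (Pt b F)} (h : A.Fam z y l r R) {c c' : ℤ} (hc : c ≤ c')
    (hl : l + A.ρ ≤ c) (hr : c' + A.ρ ≤ r) :
    A.curx z (A.tf y R) c ≤ A.curx z (A.tf y R) c' := by
  have h1 := cur_sub (A.isStrand hN hz) (fun v => A.tf y R v.1) hc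
  have h2 := Finset.sum_nonneg (h.lap_nonneg hN hz hy hl hr)
  unfold curx
  linarith

theorem Fam.def_le_curx {N : ℕ} (hN : A.BCN N) {z y : Pt b F} (hz : z ∈ A.D) (hy : y ∈ A.D)
    {l r : ℤ} {R : Pt b F → Set (Pt b F)} (h : A.Fam z y l r R) {c c' : ℤ}
    (hl : l + A.ρ ≤ c) (hr : c' + A.ρ ≤ r) {a : Pt b F} (ha : a ∈ A.orb z)
    (h1 : c < pos z a) (h2 : pos z a ≤ c') :
    ∑ s ∈ A.S, (A.tf y R (s a) - A.tf y R a)
      ≤ A.curx z (A.tf y R) c' - A.curx z (A.tf y R) c := by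
  have h3 := cur_sub (A.isStrand hN hz) (fun v => A.tf y R v.1) (h1.le.trans h2)
  have h4 : (⟨a, ha⟩ : A.orb z) ∈ (A.isStrand hN hz).win c c' := by
    rw [(A.isStrand hN hz).mem_win]
    exact ⟨h1, h2⟩
  have h5 := Finset.single_le_sum (h.lap_nonneg hN hz hy hl hr) h4
  rw [lap_eq] at h5
  unfold curx
  linarith

theorem Fam.abs_curx_le {N : ℕ} (hN : A.BCN N) {z y : Pt b F} (hz : z ∈ A.D) (hy : y ∈ A.D)
    {l r : ℤ} {R : Pt b F → Set (Pt b F)} (h : A.Fam z y l r R) {c : ℤ}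
    (hl : l + 2 * A.ρ ≤ c) (hr : c + 2 * A.ρ ≤ r) :
    |A.curx z (A.tf y R) c| ≤ ((2 * A.ρ + 1) * Fintype.card F : ℕ) * Fintype.card A.S := by
  have hs := A.isStrand hN hz
  have hρ0 : (0 : ℤ) ≤ A.ρ := by positivity
  unfold curx _root_.NIG.Strand.cur _root_.NIG.Strand.E
  have h1 := hs.abs_finsum_cut c (grad (A.mvx z) (fun v => A.tf y R v.1)) (B := 1) (by
    intro p hp
    unfold IsStrand.ed at hp
    rw [Finset.mem_product, hs.mem_win] at hp
    have e1 : A.posx z p.1 = pos z p.1.1 := rfl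
    have e2 := abs_le.1 (hs.step p.2 p.1)
    have e3 : A.posx z (A.mvx z p.2 p.1) = pos z (p.2.1 p.1.1) := rfl
    rw [e1, e3] at e2
    rw [e1] at hp
    have f1 := hp.1.1
    have f2 := hp.1.2
    exact h.tf_step hN hy p.1.2 (by linarith) (by linarith) p.2.2 (by linarith [e2.1])
      (by linarith [e2.2])) zero_le_one
  rw [abs_mul]
  have h2 : |(1 / 2 : ℝ)| ≤ 1 := by norm_num [abs_le]
  calc |(1 / 2 : ℝ)| * |∑ᶠ p, grad (A.mvx z) (cut (A.posx z) c) p
          * grad (A.mvx z) (fun v => A.tf y R v.1) p|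
      ≤ 1 * |∑ᶠ p, grad (A.mvx z) (cut (A.posx z) c) p
          * grad (A.mvx z) (fun v => A.tf y R v.1) p| :=
        mul_le_mul_of_nonneg_right h2 (abs_nonneg _)
    _ ≤ _ := by rw [one_mul]; rw [mul_one] at h1; exact h1

/-- the last cut with a nonpositive value of a monotone function on an interval -/
theorem exists_split (K : ℤ → ℝ) (L R : ℤ)
    (hK : ∀ c c', L ≤ c → c ≤ c' → c' ≤ R → K c ≤ K c') :
    ∃ c0 : ℤ, (c0 = L - 1 ∨ (L ≤ c0 ∧ c0 ≤ R)) ∧ (∀ c, L ≤ c → c ≤ c0 → K c ≤ 0) ∧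
      (∀ c, c0 < c → L ≤ c → c ≤ R → 0 < K c) := by
  by_cases hex : ∃ c, L ≤ c ∧ c ≤ R ∧ K c ≤ 0
  · have hfin : {c | L ≤ c ∧ c ≤ R ∧ K c ≤ 0}.Finite :=
      (finite_Icc L R).subset (fun c hc => ⟨hc.1, hc.2.1⟩)
    obtain ⟨c0, ⟨h1, h2, h3⟩, hmax⟩ := Set.exists_max_image _ (fun c => c) hfin hex
    refine ⟨c0, Or.inr ⟨h1, h2⟩, ?_, ?_⟩
    · intro c hc hc0
      exact (hK c c0 hc hc0 h2).trans h3
    · intro c hc hL hR
      by_contra hcon
      push Not at hcon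
      have hle : c ≤ c0 := hmax c ⟨hL, hR, hcon⟩
      omega
  · refine ⟨L - 1, Or.inl rfl, ?_, ?_⟩
    · intro c h1 h2
      omega
    · intro c _ h1 h2
      by_contra hcon
      push Not at hcon
      exact hex ⟨c, h1, h2, hcon⟩

/-- fine points are dense -/
theorem exists_fine {N : ℕ} (hN : A.BCN N) (N1 : ℕ) {ε : ℝ} (hε : 0 < ε) :
    ∃ T : ℕ, ∀ z ∈ A.D, ∀ y ∈ A.D, ∀ (l r : ℤ) (R : Pt b F → Set (Pt b F)), A.Fam z y l r R →
      ∀ c : ℤ, l + 2 * A.ρ ≤ c → c + T + 2 * A.ρ ≤ r → ∃ a ∈ A.orb z, c + N1 < pos z a ∧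
        pos z a + N1 ≤ c + T ∧
        ∀ a' ∈ A.orb a, |pos a a'| ≤ N1 → ∑ s ∈ A.S, (A.tf y R (s a') - A.tf y R a') ≤ ε := by
  set B : ℝ := ((2 * A.ρ + 1) * Fintype.card F : ℕ) * Fintype.card A.S with hB
  obtain ⟨k, hk⟩ := exists_nat_gt (2 * B / ε)
  rw [div_lt_iff₀ hε] at hk
  set T0 : ℕ := 2 * N1 + 2 * A.ρ + 1 with hT0
  refine ⟨k * T0, ?_⟩
  intro z hz y hy l r R hfam c hl hr
  have hρ0 : (0 : ℤ) ≤ A.ρ := by positivity
  by_contra hcon
  push Not at hcon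
  have key : ∀ j : ℕ, j ≤ k →
      A.curx z (A.tf y R) c + j * ε ≤ A.curx z (A.tf y R) (c + (j * T0 : ℕ)) := by
    intro j
    induction j with
    | zero => intro _; simp
    | succ j ih =>
      intro hj
      have ih' := ih (by omega)
      have hjk : ((j * T0 : ℕ) : ℤ) + T0 ≤ ((k * T0 : ℕ) : ℤ) := by
        have : j * T0 + T0 ≤ k * T0 := by
          calc j * T0 + T0 = (j + 1) * T0 := by ring
            _ ≤ k * T0 := Nat.mul_le_mul_right _ hj
        exact_mod_cast this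
      have hj0 : (0 : ℤ) ≤ ((j * T0 : ℕ) : ℤ) := by positivity
      have hT0' : (T0 : ℤ) = 2 * N1 + 2 * A.ρ + 1 := by rw [hT0]; push_cast; ring
      -- the middle of the block
      obtain ⟨a, ha, hap⟩ := A.hit hz (c + (j * T0 : ℕ) + N1 + A.ρ + 1)
      rw [abs_le] at hap
      have h1 : c + N1 < pos z a := by linarith [hap.1]
      have h2 : pos z a + N1 ≤ c + (k * T0 : ℕ) := by linarith [hap.2]
      obtain ⟨a', ha', hp', hbad⟩ := hcon a ha h1 h2
      rw [abs_le] at hp'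
      have ha'z : a' ∈ A.orb z := by rw [← A.orb_eq ha]; exact ha'
      have h3 := pos_add (A.sameLine_orb ha) (A.sameLine_orb ha')
      have h4 := hfam.def_le_curx hN hz hy (c := c + (j * T0 : ℕ)) (c' := c + ((j + 1) * T0 : ℕ))
        (by linarith) (by
          have : (((j + 1) * T0 : ℕ) : ℤ) = ((j * T0 : ℕ) : ℤ) + T0 := by push_cast; ring
          rw [this]
          linarith) ha'z (by linarith [hap.1, hp'.1]) (by
          have : (((j + 1) * T0 : ℕ) : ℤ) = ((j * T0 : ℕ) : ℤ) + T0 := by push_cast; ring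
          rw [this]
          linarith [hap.2, hp'.2])
      have h5 : ((j + 1 : ℕ) : ℝ) * ε = j * ε + ε := by push_cast; ring
      rw [h5]
      linarith
  have h1 := key k le_rfl
  have hk0 : (0 : ℤ) ≤ ((k * T0 : ℕ) : ℤ) := by positivity
  have h2 := abs_le.1 (hfam.abs_curx_le hN hz hy (c := c) hl (by linarith))
  have h3 := abs_le.1 (hfam.abs_curx_le hN hz hy (c := c + (k * T0 : ℕ)) (by linarith) hr)
  rw [← hB] at h2 h3
  linarith [h2.1, h3.2]

theorem top_token' {N : ℕ} (hN : A.BCN N) (hred : A.Reduced) (n : ℕ) :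
    ∃ R0 : ℕ, ∀ z ∈ A.D, ∀ y ∈ A.D, ∀ (l r : ℤ) (R : Pt b F → Set (Pt b F)), A.Fam z y l r R →
    ∃ v w : ℤ, w ≤ v + R0 ∧
      (∀ a ∈ A.orb z, l + R0 ≤ pos z a → pos z a ≤ v → ∃ t, A.GoodT R n (-1) a t) ∧
      (∀ a ∈ A.orb z, w ≤ pos z a → pos z a ≤ r - R0 → ∃ t, A.GoodT R n 1 a t) := by
  obtain ⟨N1, ε0, hε0, H1⟩ := compact_top hN hred n (η := 1 / 4) (by norm_num)
  set η' : ℝ := min (ε0 / 4) (1 / 4) with hη'
  have hη'0 : 0 < η' := lt_min (by linarith) (by norm_num)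
  have hη'1 : η' ≤ ε0 / 4 := min_le_left _ _
  have hη'2 : η' ≤ 1 / 4 := min_le_right _ _
  obtain ⟨N2, ε1, hε1, H2⟩ := compact_top hN hred n hη'0
  obtain ⟨T, hT⟩ := exists_fine hN N2 hε1
  set Q : ℕ := N1 + T + 2 with hQ
  have hρ0 : (0 : ℤ) ≤ A.ρ := by positivity
  refine ⟨2 * Q + 2 * A.ρ, ?_⟩
  intro z hz y hy l r R hfam
  set K : ℤ → ℝ := fun c => A.curx z (A.tf y R) c with hK
  have hQ' : (Q : ℤ) = N1 + T + 2 := by rw [hQ]; push_cast; ring
  have hT0 : (0 : ℤ) ≤ T := by positivity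
  have hN10 : (0 : ℤ) ≤ N1 := by positivity
  have hN20 : (0 : ℤ) ≤ N2 := by positivity
  obtain ⟨c0, hc0, hneg, hposi⟩ := exists_split K (l + 2 * A.ρ) (r - 2 * A.ρ) (by
    intro c c' h1 h2 h3
    exact hfam.curx_mono hN hz hy h2 (by linarith) (by linarith))
  -- a fine point has current close to a sign
  have hfine : ∀ c : ℤ, l + 2 * A.ρ ≤ c → c + T + 2 * A.ρ ≤ r → ∃ a ∈ A.orb z,
      c < pos z a ∧ pos z a ≤ c + T ∧ ∃ σ : ℝ, (σ = 1 ∨ σ = -1) ∧ |K (pos z a) - σ| ≤ η' := by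
    intro c h1 h2
    obtain ⟨a, ha, e1, e2, e3⟩ := hT z hz y hy l r R hfam c h1 h2
    have haD : a ∈ A.D := by
      obtain ⟨g, hg, rfl⟩ := ha
      exact A.map_mem hg hz
    obtain ⟨σ, hσ, -, hcur⟩ := H2 a haD y hy R
      (hfam.rebase ha (by linarith) (by linarith)) (fun a' ha' hp => e3 a' ha' (by linarith))
    refine ⟨a, ha, by linarith, by linarith, σ, hσ, ?_⟩
    rw [curx_rebase ha, zero_add] at hcur
    exact hcur
  -- the main step
  have hmain : ∀ a ∈ A.orb z, ∀ τ : ℝ, l + 2 * A.ρ ≤ pos z a - N1 - 1 - T →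
      pos z a + N1 + T + 2 * A.ρ ≤ r → (τ = 1 ∨ τ = -1) →
      (∀ c σ : ℝ, (σ = 1 ∨ σ = -1) → ∀ p : ℤ, pos z a - N1 - 1 - T < p → p ≤ pos z a + N1 + T →
        c = K p → |c - σ| ≤ 1 / 4 → σ = τ) → ∃ t, A.GoodT R n τ a t := by
    intro a ha τ h1 h2 hτ hsig
    have haD : a ∈ A.D := by
      obtain ⟨g, hg, rfl⟩ := ha
      exact A.map_mem hg hz
    obtain ⟨a1, ha1, p1, p2, σ1, hσ1, hK1⟩ := hfine (pos z a - N1 - 1 - T) h1 (by linarith)
    obtain ⟨a2, ha2, q1, q2, σ2, hσ2, hK2⟩ := hfine (pos z a + N1) (by linarith) (by linarith)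
    have e1 : σ1 = τ := hsig _ σ1 hσ1 (pos z a1) p1 (by linarith) rfl (hK1.trans hη'2)
    have e2 : σ2 = τ := hsig _ σ2 hσ2 (pos z a2) (by linarith) q2 rfl (hK2.trans hη'2)
    rw [e1] at hK1
    rw [e2] at hK2
    have hK1' := abs_le.1 hK1
    have hK2' := abs_le.1 hK2
    obtain ⟨σ, hσ, ⟨t, ht⟩, hcur⟩ := H1 a haD y hy R
      (hfam.rebase ha (by linarith) (by linarith)) (by
        intro a' ha' hp
        have hp' := abs_le.1 (show |pos a a'| ≤ N1 by linarith)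
        have ha'z : a' ∈ A.orb z := by rw [← A.orb_eq ha]; exact ha'
        have h3 := pos_add (A.sameLine_orb ha) (A.sameLine_orb ha')
        have h4 := hfam.def_le_curx hN hz hy (c := pos z a1) (c' := pos z a2)
          (by linarith) (by linarith) ha'z (by linarith [hp'.1]) (by linarith [hp'.2])
        have h5 : A.curx z (A.tf y R) (pos z a2) - A.curx z (A.tf y R) (pos z a1) ≤ 2 * η' := by
          have : K (pos z a2) - K (pos z a1) ≤ 2 * η' := by linarith [hK1'.1, hK2'.2]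
          exact this
        linarith)
    rw [curx_rebase ha, zero_add] at hcur
    have e3 : σ = τ := hsig _ σ hσ (pos z a) (by linarith) (by linarith) rfl hcur
    rw [e3] at ht
    exact ⟨t, ht⟩
  refine ⟨c0 - Q, c0 + Q, by push_cast; linarith, ?_, ?_⟩
  · intro a ha h1 h2
    push_cast at h1
    have hc0' : l + 2 * A.ρ ≤ c0 ∧ c0 ≤ r - 2 * A.ρ := by
      rcases hc0 with h | h
      · exfalso; linarith
      · exact h
    apply hmain a ha (-1) (by linarith) (by linarith) (Or.inr rfl)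
    intro c σ hσ p hp1 hp2 hcp habs
    have h3 : K p ≤ 0 := hneg p (by linarith) (by linarith)
    rcases hσ with h | h
    · exfalso
      rw [h, hcp] at habs
      have := (abs_le.1 habs).1
      linarith
    · exact h
  · intro a ha h1 h2
    push_cast at h2
    have hc0' : l + 2 * A.ρ - 1 ≤ c0 := by
      rcases hc0 with h | h <;> linarith [h]
    apply hmain a ha 1 (by linarith) (by linarith) (Or.inl rfl)
    intro c σ hσ p hp1 hp2 hcp habs
    have h3 : 0 < K p := hposi p (by linarith) (by linarith) (by linarith)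
    rcases hσ with h | h
    · exact h
    · exfalso
      rw [h, hcp] at habs
      have := (abs_le.1 habs).2
      linarith

end Sys

end Pool.Agent.helper98.NIG
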