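import Pool.Agent.helper98.NIG.E07a
import Pool.Agent.helper98.NIG.E08
import Pool.Agent.helper98.NIG.E02
import Pool.Agent.helper98.NIG.E05
import Pool.Agent.helper97.NIG.Desc1
import Pool.Agent.helper2.NIG.L27

/-!
# NIG / P5 : rows of unrelated pairs are unbounded above (helper97)
-/

open scoped BigOperators
open Set Function

set_option linter.unusedSectionVars false
set_option linter.deprecated false

namespace Pool.Agent.helper98.NIG

variable {b : Base} {F : Type} [Fintype F]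

namespace Sys

variable {A : Sys b F}

/-- the rows of the pair `(z, y)` over the whole line -/
def GR (A : Sys b F) (z y : Pt b F) (a : Pt b F) : Set (Pt b F) :=
  {t | ∃ g ∈ A.G, g z = a ∧ t = g y}

theorem GR_map {z y a t : Pt b F} {g : Equiv.Perm (Pt b F)} (hg : g ∈ A.G) :
    g t ∈ A.GR z y (g a) ↔ t ∈ A.GR z y a := by
  constructor
  · rintro ⟨k, hk, h1, h2⟩
    refine ⟨g⁻¹ * k, mul_mem (A.G.inv_mem hg) hk, ?_, ?_⟩
    · rw [Equiv.Perm.mul_apply, h1, pinv_apply]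
    · rw [Equiv.Perm.mul_apply, ← h2, pinv_apply]
  · rintro ⟨k, hk, rfl, rfl⟩
    exact ⟨g * k, mul_mem hg hk, rfl, rfl⟩

theorem GR_sub {z y a : Pt b F} : A.GR z y a ⊆ A.orb y := by
  rintro t ⟨g, hg, -, rfl⟩
  exact ⟨g, hg, rfl⟩

theorem GR_rel {z y a t : Pt b F} (hn : ¬ A.Rel z y) (ht : t ∈ A.GR z y a) : ¬ A.Rel a t := by
  obtain ⟨k, hk, rfl, rfl⟩ := ht
  intro h
  have := h.map (A.G.inv_mem hk)
  rw [pinv_apply, pinv_apply] at this
  exact hn this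

/-- linear comparison of the harmonic displacement with the displacement -/
theorem exists_lin {N : ℕ} (hN : A.BCN N) : ∃ c C : ℝ, 0 < c ∧ 0 ≤ C ∧ ∀ x ∈ A.D, ∀ g ∈ A.G,
    (0 ≤ disp g x → c * (disp g x : ℝ) - C ≤ A.hδ g x) ∧
    (disp g x ≤ 0 → A.hδ g x ≤ c * (disp g x : ℝ) + C) := by
  obtain ⟨x0, hx0⟩ := A.nonempty
  have hM := (A.Hc_spec hN hx0).M_pos (A.isStrand hN hx0)
  set c0 : ℝ := 2 / (((2 * A.ρ + 1) * Fintype.card F : ℕ) * Fintype.card A.S * (2 * A.ρ + 1) : ℝ)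
    with hc0
  set C0 : ℝ := (2 + ((2 * A.ρ + 1) * Fintype.card F : ℕ) * Fintype.card A.S * N : ℝ) with hC0
  have hc0p : 0 < c0 := by
    rw [hc0]
    apply div_pos two_pos
    apply mul_pos
    · linarith
    · positivity
  refine ⟨c0, C0, hc0p, by positivity, fun x hx g hg => ⟨fun h => ?_, fun h => ?_⟩⟩
  · exact hδ_lower hN hx hg h
  · have hgi := A.G.inv_mem hg
    have h1 := disp_inv (A.G_le_PW hg) x
    have h2 := hδ_lower hN (A.map_mem hg hx) hgi (by rw [h1]; linarith)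
    rw [h1, ← hc0, ← hC0] at h2
    have h3 := hδ_mul (A := A) (g := g⁻¹) hg x
    rw [inv_mul_cancel] at h3
    have h4 : A.hδ 1 x = 0 := by
      unfold hδ
      rw [Equiv.Perm.one_apply, sub_self]
    push_cast at h2
    linarith

theorem GR_fam {N : ℕ} (hN : A.BCN N) {z y : Pt b F} (hy : y ∈ A.D) {K : ℝ}
    (hK : ∀ h ∈ A.G, h z = z → A.dh y (h y) < K) (l r : ℤ) :
    A.Fam z y l r (A.GR z y) := by
  refine ⟨?_, ?_, ?_, ?_⟩
  · rintro a ⟨g, hg, rfl⟩ - -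
    exact ⟨g y, g, hg, rfl, rfl⟩
  · rintro a - - -
    exact GR_sub
  · rintro a ⟨g0, hg0, rfl⟩ - -
    obtain ⟨C0, hC0⟩ := hδ_bdd hN hg0
    obtain ⟨c, C, hc, -, hlin⟩ := exists_lin hN
    obtain ⟨B, hB⟩ := exists_nat_ge ((K + C0 + C) / c)
    rw [div_le_iff₀ hc] at hB
    refine ⟨B, ?_⟩
    rintro t ⟨g, hg, hgz, rfl⟩
    by_contra hcon
    push Not at hcon
    have hd : (B : ℤ) < disp g y := hcon
    have hd0 : 0 ≤ disp g y := by
      have : (0 : ℤ) ≤ B := Int.natCast_nonneg _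
      linarith
    have h1 := (hlin y hy g hg).1 hd0
    have hh : g0⁻¹ * g ∈ A.G := mul_mem (A.G.inv_mem hg0) hg
    have h2 := hK _ hh (by rw [Equiv.Perm.mul_apply, hgz, pinv_apply])
    have h3 : g y = g0 ((g0⁻¹ * g) y) := by rw [Equiv.Perm.mul_apply, papply_inv]
    have h4 : A.dh y (g y) = A.dh y ((g0⁻¹ * g) y) + A.dh ((g0⁻¹ * g) y) (g0 ((g0⁻¹ * g) y)) := by
      rw [← h3]
      exact dh_add ⟨g0⁻¹ * g, hh, rfl⟩
    rw [dh_map, dh_map, dh_map] at h4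
    have h5 := abs_le.1 (hC0 _ (A.map_mem hh hy))
    have h6 : (B : ℝ) < (disp g y : ℝ) := by exact_mod_cast hd
    have h7 : (B : ℝ) * c < c * (disp g y : ℝ) := by nlinarith
    rw [dh_map] at h2
    linarith [h5.2]
  · intro a _ s hs _ _ _ _
    have hsG := A.mem_G_of_mem_S hs
    ext t
    constructor
    · intro ht
      refine ⟨s⁻¹ t, ?_, papply_inv _ _⟩
      rw [← GR_map hsG, papply_inv]
      exact ht
    · rintro ⟨t', ht', rfl⟩
      exact (GR_map hsG).2 ht'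

/-- the tops are transported along the paths through good points -/
theorem GR_top {z y : Pt b F} {n : ℕ} {σ : ℝ} {J : Set ℤ}
    (hg : ∀ a ∈ A.orb z, pos z a ∈ J → ∃ t, A.GoodT (A.GR z y) n σ a t) {a t : Pt b F}
    (ha : a ∈ A.orb z) (h1 : pos z a ∈ J) (ht : A.IsTop (A.GR z y) a t) {I : Set ℤ}
    (hI : ∀ k ∈ I, pos z a + k ∈ J) {h : Equiv.Perm (Pt b F)} (hh : A.Reach a I h) :
    A.IsTop (A.GR z y) (h a) (h t) ∧ pos z (h a) ∈ J := by
  induction hh with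
  | one => exact ⟨ht, h1⟩
  | @step g s hg' hs hpos ih =>
    obtain ⟨ih1, ih2⟩ := ih
    have hga : g a ∈ A.orb z := orb_of_orb ha hg'.mem_G
    have hsG := A.mem_G_of_mem_S hs
    obtain ⟨t1, ht1⟩ := hg _ hga ih2
    have e3 : A.IsTop (A.GR z y) (g a) t1 := ⟨ht1.1, ht1.2.1⟩
    have e4 := e3.unique ih1 GR_sub
    rw [e4] at ht1
    rw [Equiv.Perm.mul_apply, Equiv.Perm.mul_apply]
    refine ⟨⟨(GR_map hsG).2 ih1.1, ht1.2.2.1 s hs⟩, ?_⟩
    have e5 : pos z (s (g a)) = pos z a + pos a (s (g a)) :=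
      pos_orb ha (mul_mem hsG hg'.mem_G)
    rw [e5]
    exact hI _ hpos

theorem GR_lock {z y : Pt b F} {n : ℕ} {σ : ℝ} {J : Set ℤ}
    (hg : ∀ a ∈ A.orb z, pos z a ∈ J → ∃ t, A.GoodT (A.GR z y) n σ a t) {a t : Pt b F}
    (ha : a ∈ A.orb z) (h1 : pos z a ∈ J) (ht : A.IsTop (A.GR z y) a t) {I : Set ℤ}
    (hI : ∀ k ∈ I, pos z a + k ∈ J) : A.Lock I a t := by
  intro h hh hfix
  have e1 := (GR_top hg ha h1 ht hI hh).1
  rw [hfix] at e1
  exact e1.unique ht GR_sub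

/-- a path stays in a bounded interval -/
theorem reach_bdd {a : Pt b F} {I : Set ℤ} {g : Equiv.Perm (Pt b F)} (hg : A.Reach a I g) :
    ∃ β : ℕ, A.Reach a (I ∩ Set.Icc (-(β : ℤ)) β) g := by
  induction hg with
  | one => exact ⟨0, Reach.one⟩
  | @step g s _ hs hpos ih =>
    obtain ⟨β, hβ⟩ := ih
    refine ⟨β + (pos a (s (g a))).natAbs, Reach.step (hβ.mono ?_) hs ⟨hpos, ?_⟩⟩
    · refine Set.inter_subset_inter_right _ (Set.Icc_subset_Icc ?_ ?_) <;> push_cast <;>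
        linarith [abs_nonneg (pos a (s (g a)))]
    · have h1 := abs_le.1 (le_refl |pos a (s (g a))|)
      have h2 : (0 : ℤ) ≤ β := Int.natCast_nonneg _
      push_cast
      exact ⟨by linarith [h1.1], by linarith [h1.2]⟩

/-- the trichotomy -/
theorem GR_tri {z y : Pt b F} {n R0 : ℕ}
    (hTT : ∀ l r : ℤ, ∃ v w : ℤ, w ≤ v + R0 ∧
      (∀ a ∈ A.orb z, l + R0 ≤ pos z a → pos z a ≤ v → ∃ t, A.GoodT (A.GR z y) n (-1) a t) ∧
      (∀ a ∈ A.orb z, w ≤ pos z a → pos z a ≤ r - R0 → ∃ t, A.GoodT (A.GR z y) n 1 a t)) :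
    (∀ a ∈ A.orb z, ∃ t, A.GoodT (A.GR z y) n (-1) a t) ∨
    (∀ a ∈ A.orb z, ∃ t, A.GoodT (A.GR z y) n 1 a t) ∨
    ∃ v w : ℤ, (∀ a ∈ A.orb z, pos z a ≤ v → ∃ t, A.GoodT (A.GR z y) n (-1) a t) ∧
      (∀ a ∈ A.orb z, w ≤ pos z a → ∃ t, A.GoodT (A.GR z y) n 1 a t) := by
  by_contra hcon
  push Not at hcon
  obtain ⟨⟨a1, ha1, h1⟩, ⟨a2, ha2, h2⟩, h3⟩ := hcon
  have key : ∀ L : ℤ, |pos z a1| + R0 ≤ L → |pos z a2| + R0 ≤ L → 
      (∀ a ∈ A.orb z, -L + R0 ≤ pos z a → pos z a ≤ pos z a2 - R0 →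
        ∃ t, A.GoodT (A.GR z y) n (-1) a t) ∧
      (∀ a ∈ A.orb z, pos z a1 + R0 ≤ pos z a → pos z a ≤ L - R0 →
        ∃ t, A.GoodT (A.GR z y) n 1 a t) := by
    intro L hL1 hL2
    obtain ⟨v, w, hvw, hv, hw⟩ := hTT (-L) L
    have e1 := abs_le.1 (le_refl |pos z a1|)
    have e2 := abs_le.1 (le_refl |pos z a2|)
    have e3 : v < pos z a1 := by
      by_contra hc
      push Not at hc
      obtain ⟨t, ht⟩ := hv a1 ha1 (by linarith [e1.1]) hc
      exact h1 t ht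
    have e4 : pos z a2 < w := by
      by_contra hc
      push Not at hc
      obtain ⟨t, ht⟩ := hw a2 ha2 hc (by linarith [e2.2])
      exact h2 t ht
    exact ⟨fun a ha k1 k2 => hv a ha k1 (by linarith), fun a ha k1 k2 => hw a ha (by linarith) k2⟩
  obtain ⟨a, ha, hh⟩ := h3 (pos z a2 - R0) (pos z a1 + R0) (fun a ha hp => by
    have e1 := abs_le.1 (le_refl |pos z a|)
    exact (key (|pos z a1| + |pos z a2| + |pos z a| + R0)
      (by linarith [abs_nonneg (pos z a2), abs_nonneg (pos z a)])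
      (by linarith [abs_nonneg (pos z a1), abs_nonneg (pos z a)])).1 a ha
      (by linarith [abs_nonneg (pos z a1), abs_nonneg (pos z a2), e1.1]) hp)
  have e1 := abs_le.1 (le_refl |pos z a|)
  obtain ⟨t, ht⟩ := (key (|pos z a1| + |pos z a2| + |pos z a| + R0)
      (by linarith [abs_nonneg (pos z a2), abs_nonneg (pos z a)])
      (by linarith [abs_nonneg (pos z a1), abs_nonneg (pos z a)])).2 a ha hh.1
      (by linarith [abs_nonneg (pos z a1), abs_nonneg (pos z a2), e1.2])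
  exact hh.2 t ht

end Sys

end Pool.Agent.helper98.NIG
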