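import Pool.Agent.helper97.NIG.Raise1

/-!
# NIG / P5 : rows of unrelated pairs are unbounded above, end (helper97)
-/

open scoped BigOperators
open Set Function

set_option linter.unusedSectionVars false
set_option linter.deprecated false

namespace Pool.Agent.helper98.NIG

variable {b : Base} {F : Type} [Fintype F]

namespace Sys

variable {A : Sys b F}

theorem side_right {N c0 w : ℕ} (hN : A.BCN N) (hc : A.BCc c0) (hw : A.SYN w)
    (hred : A.Reduced) : ∃ c2 n : ℕ, ∀ n' : ℕ, n ≤ n' → ∀ a ∈ A.D, ∀ t ∈ A.D,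
      A.Lock {p | -(c2 : ℤ) ≤ 1 * p} a t → A.Near n' 1 a t → a = t ∨ A.AsTw c0 1 a t := by
  obtain ⟨C1, c1, hc1, H⟩ := A.lock_affine hN hc
  obtain ⟨n, hn⟩ := H (1 / 2) (by norm_num)
  refine ⟨c1 + n, n, fun n' hn' a ha t ht hl hnear => ?_⟩
  have hl0 : A.Lock {p | -(c0 : ℤ) ≤ 1 * p} a t := by
    refine Lock.mono ?_ hl
    intro p hp
    have hp' : -(c0 : ℤ) ≤ 1 * p := hp
    change -((c1 + n : ℕ) : ℤ) ≤ 1 * p
    push_cast
    have : (c0 : ℤ) ≤ c1 := by exact_mod_cast hc1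
    linarith [Int.natCast_nonneg n]
  obtain ⟨σ, B, hσ, hdr, h1, -⟩ := lock_half2 hred (R := c0) hc hw (δ := 1) (Or.inl rfl) ha ht hl0
  rcases hσ with rfl | rfl
  · exact h1 rfl
  exfalso
  obtain ⟨c, C, hcp, hC0, hlin⟩ := exists_lin hN
  obtain ⟨M1, hM1⟩ := exists_nat_ge ((3 * C + 2 * |C1| + 1) / c)
  rw [div_le_iff₀ hcp] at hM1
  obtain ⟨g, hg, hgM, hgB⟩ := hdr (M1 + B)
  obtain ⟨β, hβ⟩ := reach_bdd hg
  have hgG := hg.mem_G
  have hc1' : (c0 : ℤ) ≤ c1 := by exact_mod_cast hc1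
  have hn0 : (0 : ℤ) ≤ n := Int.natCast_nonneg n
  have hc00 : (0 : ℤ) ≤ c0 := Int.natCast_nonneg c0
  have hβ0 : (0 : ℤ) ≤ β := Int.natCast_nonneg β
  have hself : pos a a = 0 := pos_self a
  have hLI : A.LockI a (-(c1 + n : ℤ)) (β + c1 + n) a t := by
    intro h hh hfix
    refine hl h (Reach.mono ?_ hh) hfix
    intro p hp
    change -((c1 + n : ℕ) : ℤ) ≤ 1 * p
    have := hp.1
    rw [hself] at this
    push_cast
    linarith
  obtain ⟨κ, hκ1, hκ2⟩ := hn a ha a (A.orb_self a) t ht _ _ hLI (by rw [hself]; linarith)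
    (by rw [hself]; linarith)
  have hgd : disp g a ≤ β := by
    have := Reach.disp_mem (I := {p | -(c0 : ℤ) ≤ 1 * p} ∩ Set.Icc (-(β : ℤ)) β)
      ⟨by change -(c0 : ℤ) ≤ 1 * 0; linarith, by constructor <;> linarith⟩ hβ
    exact this.2.2
  have hgR : A.RIn a (-(c1 + n : ℤ)) (β + c1 + n) a g := by
    refine Reach.mono ?_ hβ
    rintro p ⟨hp1, hp2⟩
    have hp1' : -(c0 : ℤ) ≤ 1 * p := hp1
    rw [hself]
    exact ⟨by linarith, by linarith [hp2.2]⟩
  have hM0 : (0 : ℤ) ≤ ((M1 + B : ℕ) : ℤ) := Int.natCast_nonneg _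
  have hpg : pos a (g a) = disp g a := rfl
  have k1 := hκ1 1 g (RIn.one _ _ _ _) hgR (by rw [Equiv.Perm.one_apply, hself]; linarith)
    (by rw [Equiv.Perm.one_apply, hself]; linarith) (by rw [hpg]; linarith)
    (by rw [hpg]; linarith)
  have k2 := hκ2 1 (RIn.one _ _ _ _) 1 (Or.inl rfl)
    (by rw [Equiv.Perm.one_apply, hself]; linarith)
    (by rw [Equiv.Perm.one_apply, hself]; linarith)
    (by rw [Equiv.Perm.one_apply, Equiv.Perm.one_apply]; exact near_mono hn' hnear)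
  rw [Equiv.Perm.one_apply, Equiv.Perm.one_apply, dh_map, dh_map] at k1
  have k1' := abs_le.1 k1
  have k2' := abs_le.1 k2
  have e1 := (hlin a ha g hgG).1 (by linarith)
  have e2 := (hlin t ht g hgG).2 (by
    have := (abs_le.1 hgB).2
    push_cast at hgM
    linarith [Int.natCast_nonneg M1])
  have e3 : ((M1 + B : ℕ) : ℝ) ≤ (disp g a : ℝ) := by
    have : ((M1 + B : ℕ) : ℤ) ≤ disp g a := by linarith
    exact_mod_cast this
  have e4 : (disp g t : ℝ) ≤ 0 := by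
    have := (abs_le.1 hgB).2
    push_cast at hgM
    have h5 : disp g t ≤ 0 := by linarith [Int.natCast_nonneg M1]
    exact_mod_cast h5
  have e5 : (3 * C + 2 * |C1| + 1) ≤ c * (disp g a : ℝ) := by
    have : (M1 : ℝ) ≤ disp g a := by
      push_cast at e3
      linarith [(Nat.cast_nonneg B : (0 : ℝ) ≤ B)]
    nlinarith
  have e6 : 2 * C + 2 * |C1| + 1 ≤ A.hδ g a := by linarith
  have e7 : 1 / 2 * A.hδ g a ≤ κ * A.hδ g a := by
    apply mul_le_mul_of_nonneg_right (by linarith [k2'.1])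
    linarith [abs_nonneg C1]
  have e8 : c * (disp g t : ℝ) ≤ 0 := mul_nonpos_of_nonneg_of_nonpos hcp.le e4
  linarith [k1'.1, le_abs_self C1]

theorem side_left {N c0 w : ℕ} (hN : A.BCN N) (hc : A.BCc c0) (hw : A.SYN w)
    (hred : A.Reduced) : ∃ c2 n : ℕ, ∀ n' : ℕ, n ≤ n' → ∀ a ∈ A.D, ∀ t ∈ A.D,
      A.Lock {p | -(c2 : ℤ) ≤ -1 * p} a t → A.Near n' (-1) a t →
      ∃ y' ∈ A.D, A.Rel t y' ∧ A.Mirror t y' ∧ (a = y' ∨ A.AsTw c0 (-1) a y') := by
  obtain ⟨C1, c1, hc1, H⟩ := A.lock_affine hN hc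
  obtain ⟨n, hn⟩ := H (1 / 2) (by norm_num)
  refine ⟨c1 + n, n, fun n' hn' a ha t ht hl hnear => ?_⟩
  have hl0 : A.Lock {p | -(c0 : ℤ) ≤ -1 * p} a t := by
    refine Lock.mono ?_ hl
    intro p hp
    have hp' : -(c0 : ℤ) ≤ -1 * p := hp
    change -((c1 + n : ℕ) : ℤ) ≤ -1 * p
    push_cast
    have : (c0 : ℤ) ≤ c1 := by exact_mod_cast hc1
    linarith [Int.natCast_nonneg n]
  obtain ⟨σ, B, hσ, hdr, -, h1⟩ := lock_half2 hred (R := c0) hc hw (δ := -1) (Or.inr rfl) ha ht hl0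
  rcases hσ with rfl | rfl
  swap
  · exact h1 rfl
  exfalso
  obtain ⟨c, C, hcp, hC0, hlin⟩ := exists_lin hN
  obtain ⟨M1, hM1⟩ := exists_nat_ge ((3 * C + 2 * |C1| + 1) / c)
  rw [div_le_iff₀ hcp] at hM1
  obtain ⟨g, hg, hgM, hgB⟩ := hdr (M1 + B)
  obtain ⟨β, hβ⟩ := reach_bdd hg
  have hgG := hg.mem_G
  have hc1' : (c0 : ℤ) ≤ c1 := by exact_mod_cast hc1
  have hn0 : (0 : ℤ) ≤ n := Int.natCast_nonneg n
  have hc00 : (0 : ℤ) ≤ c0 := Int.natCast_nonneg c0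
  have hβ0 : (0 : ℤ) ≤ β := Int.natCast_nonneg β
  have hself : pos a a = 0 := pos_self a
  have hLI : A.LockI a (-(β + c1 + n : ℤ)) (c1 + n) a t := by
    intro h hh hfix
    refine hl h (Reach.mono ?_ hh) hfix
    intro p hp
    change -((c1 + n : ℕ) : ℤ) ≤ -1 * p
    have := hp.2
    rw [hself] at this
    push_cast
    linarith
  obtain ⟨κ, hκ1, hκ2⟩ := hn a ha a (A.orb_self a) t ht _ _ hLI (by rw [hself]; linarith)
    (by rw [hself]; linarith)
  have hgd : -(β : ℤ) ≤ disp g a := by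
    have := Reach.disp_mem (I := {p | -(c0 : ℤ) ≤ -1 * p} ∩ Set.Icc (-(β : ℤ)) β)
      ⟨by change -(c0 : ℤ) ≤ -1 * 0; linarith, by constructor <;> linarith⟩ hβ
    exact this.2.1
  have hgR : A.RIn a (-(β + c1 + n : ℤ)) (c1 + n) a g := by
    refine Reach.mono ?_ hβ
    rintro p ⟨hp1, hp2⟩
    have hp1' : -(c0 : ℤ) ≤ -1 * p := hp1
    rw [hself]
    exact ⟨by linarith [hp2.1], by linarith⟩
  have hM0 : (0 : ℤ) ≤ ((M1 + B : ℕ) : ℤ) := Int.natCast_nonneg _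
  have hpg : pos a (g a) = disp g a := rfl
  have k1 := hκ1 1 g (RIn.one _ _ _ _) hgR (by rw [Equiv.Perm.one_apply, hself]; linarith)
    (by rw [Equiv.Perm.one_apply, hself]; linarith) (by rw [hpg]; linarith)
    (by rw [hpg]; linarith)
  have k2 := hκ2 1 (RIn.one _ _ _ _) (-1) (Or.inr rfl)
    (by rw [Equiv.Perm.one_apply, hself]; linarith)
    (by rw [Equiv.Perm.one_apply, hself]; linarith)
    (by rw [Equiv.Perm.one_apply, Equiv.Perm.one_apply]; exact near_mono hn' hnear)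
  rw [Equiv.Perm.one_apply, Equiv.Perm.one_apply, dh_map, dh_map] at k1
  have k1' := abs_le.1 k1
  have k2' := abs_le.1 k2
  have e1 := (hlin a ha g hgG).2 (by linarith)
  have e2 := (hlin t ht g hgG).2 (by
    have := (abs_le.1 hgB).2
    push_cast at hgM
    linarith [Int.natCast_nonneg M1])
  have e3 : (disp g a : ℝ) ≤ -((M1 + B : ℕ) : ℝ) := by
    have : disp g a ≤ -((M1 + B : ℕ) : ℤ) := by linarith
    exact_mod_cast this
  have e4 : (disp g t : ℝ) ≤ 0 := by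
    have := (abs_le.1 hgB).2
    push_cast at hgM
    have h5 : disp g t ≤ 0 := by linarith [Int.natCast_nonneg M1]
    exact_mod_cast h5
  have e5 : c * (disp g a : ℝ) ≤ -(3 * C + 2 * |C1| + 1) := by
    have : (disp g a : ℝ) ≤ -(M1 : ℝ) := by
      push_cast at e3
      linarith [(Nat.cast_nonneg B : (0 : ℝ) ≤ B)]
    nlinarith
  have e6 : A.hδ g a ≤ -(2 * C + 2 * |C1| + 1) := by linarith
  have e7 : 1 / 2 * (-A.hδ g a) ≤ (-κ) * (-A.hδ g a) := by
    apply mul_le_mul_of_nonneg_right (by linarith [k2'.2])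
    linarith [abs_nonneg C1]
  have e8 : c * (disp g t : ℝ) ≤ 0 := mul_nonpos_of_nonneg_of_nonpos hcp.le e4
  have e9 : (-κ) * (-A.hδ g a) = κ * A.hδ g a := by ring
  linarith [k1'.1, le_abs_self C1]

theorem line_tw {x p : Pt b F} {h : Bool} {n : ℤ} {φ : F} (hx : tw b h n φ ∈ A.orb x)
    (hp : p ∈ A.orb x) : ∃ (n' : ℤ) (φ' : F), p = tw b h n' φ' := by
  obtain ⟨k, hk, rfl⟩ := orb_symm hx hp
  exact ⟨_, _, map_tw (A.G_le_PW hk) h n φ⟩

theorem raise' (A : Sys b F) {N c0 w : ℕ} (hN : A.BCN N) (hc : A.BCc c0)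
    (hw : A.SYN w) (hred : A.Reduced) : A.Raise := by
  intro z hz y hy hn K
  by_contra hcon
  push Not at hcon
  obtain ⟨cR, nR, hR⟩ := side_right hN hc hw hred
  obtain ⟨cL, nL, hL⟩ := side_left hN hc hw hred
  obtain ⟨D0, hD0⟩ := rel_same_line hred (R := c0) hc hw
  obtain ⟨R0, hTT⟩ := A.top_token hN hred (max nR nL)
  have hwhole : ∀ σ : ℝ, (∀ a ∈ A.orb z, ∃ t, A.GoodT (A.GR z y) (max nR nL) σ a t) → False := by
    intro σ hall
    obtain ⟨t, ht⟩ := hall z (A.orb_self z)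
    have htD : t ∈ A.D := mem_D_of_orb' hy (GR_sub ht.1)
    have hl := GR_lock (J := Set.univ) (I := Set.univ) (fun a ha _ => hall a ha)
      (A.orb_self z) (Set.mem_univ _) ⟨ht.1, ht.2.1⟩ (fun _ _ => Set.mem_univ _)
    refine GR_rel hn ht.1 (A.one_sided hN hred hz htD (fun g hg hgz => ?_)).1
    obtain ⟨C, hC⟩ := A.exists_reach_bounded hg
    exact hl g ((hC z).mono (Set.subset_univ _)) hgz
  rcases GR_tri (z := z) (y := y) (n := max nR nL) (R0 := R0)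
    (fun l r => hTT z hz y hy l r _ (GR_fam hN hy hcon l r)) with h | h | ⟨v, w1, hv, hw1⟩
  · exact hwhole _ h
  · exact hwhole _ h
  -- the right side
  obtain ⟨a, ha, p1, -⟩ := exists_at hz (w1 + cR)
  obtain ⟨t, ht⟩ := hw1 a ha (by linarith [Int.natCast_nonneg cR])
  have haD := orb_mem_D hz ha
  have htD : t ∈ A.D := mem_D_of_orb' hy (GR_sub ht.1)
  have hl := GR_lock (J := {p | w1 ≤ p}) (I := {p | -(cR : ℤ) ≤ 1 * p}) (fun a ha h => hw1 a ha h)
    ha (by change w1 ≤ pos z a; linarith [Int.natCast_nonneg cR]) ⟨ht.1, ht.2.1⟩ (fun k hk => by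
      have hk' : -(cR : ℤ) ≤ 1 * k := hk
      change w1 ≤ pos z a + k
      linarith)
  rcases hR _ (le_max_left _ _) a haD t htD hl ht.2.2.2 with he | htw
  · refine GR_rel hn ht.1 ?_
    rw [he]
    exact Rel.refl A t
  obtain ⟨g, hg, h, m, φ, -, e1, e2⟩ := htw 0
  have hgG := hg.mem_G
  have lz : tw b h m φ ∈ A.orb z := by
    rw [← e1]
    exact A.orb_map hgG ha
  have ly : tw b (!h) m φ ∈ A.orb y := by
    rw [← e2]
    exact A.orb_map hgG (GR_sub ht.1)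
  -- the left side
  obtain ⟨a2, ha2, -, p2⟩ := exists_at hz (v - cL - A.ρ)
  obtain ⟨t2, ht2⟩ := hv a2 ha2 (by linarith [Int.natCast_nonneg cL])
  have ha2D := orb_mem_D hz ha2
  have ht2y : t2 ∈ A.orb y := GR_sub ht2.1
  have ht2D : t2 ∈ A.D := mem_D_of_orb' hy ht2y
  have hl2 := GR_lock (J := {p | p ≤ v}) (I := {p | -(cL : ℤ) ≤ -1 * p})
    (fun a ha h => hv a ha h)
    ha2 (by change pos z a2 ≤ v; linarith [Int.natCast_nonneg cL]) ⟨ht2.1, ht2.2.1⟩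
    (fun k hk => by
      have hk' : -(cL : ℤ) ≤ -1 * k := hk
      change pos z a2 + k ≤ v
      linarith)
  obtain ⟨y', hy'D, hry, hmy, hcase⟩ := hL _ (le_max_right _ _) a2 ha2D t2 ht2D hl2 ht2.2.2.2
  rcases hcase with he | htw2
  · refine GR_rel hn ht2.1 ?_
    rw [he]
    exact hry.symm
  obtain ⟨g2, hg2, h2, m2, φ2, hm2, e3, e4⟩ := htw2 D0
  have hg2G := hg2.mem_G
  obtain ⟨m4, φ4, e5⟩ := line_tw lz (A.orb_map hg2G ha2)
  obtain ⟨e6, -, -⟩ := tw_inj (e3.symm.trans e5)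
  subst e6
  obtain ⟨m3, φ3, e7⟩ := line_tw ly (A.orb_map hg2G ht2y)
  have hrel := (hry.symm).map hg2G
  have hmir := (hmy.symm).map hg2G
  have d1 := A.map_mem hg2G hy'D
  have d2 := A.map_mem hg2G ht2D
  rw [e4, e7] at hrel hmir
  rw [e4] at d1
  rw [e7] at d2
  obtain ⟨-, hr⟩ := hD0 (!h2) m2 m3 φ2 φ3 d1 d2 hrel hmir (by
    have := neg_le_abs m2
    linarith)
  rw [Bool.not_not, ← e4, ← e3] at hr
  have hr2 := hr.map (A.G.inv_mem hg2G)
  rw [pinv_apply, pinv_apply] at hr2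
  exact GR_rel hn ht2.1 (hry.trans hr2).symm

end Sys

end Pool.Agent.helper98.NIG
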