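import Pool.Agent.helper98.NIG.E00
import Pool.Agent.helper97.NIG.PLim

/-!
# NIG / P5 : slopes (helper97)
-/

open scoped BigOperators
open Set Function

set_option linter.unusedSectionVars false
set_option linter.deprecated false

namespace Pool.Agent.helper98.NIG

open _root_.NIG.Strand

variable {b : Base} {F : Type} [Fintype F]

theorem agree_all_eq {x x' : Pt b F} (h : ∀ N : ℕ, Agree N x x') : x = x' := by
  refine Prod.ext (Subtype.ext ?_) (h 0).1
  funext k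
  exact (h k.natAbs).2 k (by rw [Int.abs_eq_natAbs])

theorem ulim_unique {κ : Type*} {U : Ultrafilter κ} {u : κ → Pt b F} {x x' : Pt b F}
    (hu : ∀ N : ℕ, ∀ᶠ i in (U : Filter κ), Agree N (u i) x)
    (hu' : ∀ N : ℕ, ∀ᶠ i in (U : Filter κ), Agree N (u i) x') : x = x' := by
  apply agree_all_eq
  intro N
  obtain ⟨i, h1, h2⟩ := ((hu N).and (hu' N)).exists
  exact h1.symm.trans h2

/-- a bounded offset is eventually constant along an ultrafilter -/
theorem exists_offset' {κ : Type*} (U : Ultrafilter κ) (u v : κ → Pt b F) (C : ℤ)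
    (h : ∀ᶠ i in (U : Filter κ), SameLine (u i) (v i) ∧ |pos (u i) (v i)| ≤ C) :
    ∃ (n : ℤ) (φ : F), |n| ≤ C ∧ ∀ᶠ i in (U : Filter κ), v i = (sh n (u i).1, φ) := by
  have h1 : ∀ᶠ i in (U : Filter κ), ∃ q ∈ (Icc (-C) C ×ˢ (univ : Set F)),
      v i = (sh q.1 (u i).1, q.2) := by
    filter_upwards [h] with i hi
    exact ⟨(pos (u i) (v i), (v i).2), ⟨abs_le.1 hi.2, mem_univ _⟩, eq_of_pos hi.1⟩
  rw [Ultrafilter.eventually_exists_mem_iff ((finite_Icc _ _).prod finite_univ)] at h1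
  obtain ⟨q, hq, hq'⟩ := h1
  exact ⟨q.1, q.2, abs_le.2 hq.1, hq'⟩

namespace Sys

variable {A : Sys b F}

theorem exists_big_abs {N : ℕ} (hN : A.BCN N) {x : Pt b F} (hx : x ∈ A.D) (B : ℝ) :
    ∃ g ∈ A.G, B < |A.hδ g x| := by
  obtain ⟨K, hK⟩ := pos_bound hN
  obtain ⟨M, hM⟩ := exists_nat_ge ((K : ℝ) * (B + 1))
  obtain ⟨g, hg, hd⟩ := A.right x hx M
  refine ⟨g, hg, ?_⟩
  by_contra hcon
  push Not at hcon
  have h1 := hK x hx (g x) ⟨g, hg, rfl⟩
  rw [dh_map] at h1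
  have h2 : (K : ℝ) * (|A.hδ g x| + 1) ≤ K * (B + 1) :=
    mul_le_mul_of_nonneg_left (by linarith) (Nat.cast_nonneg _)
  have h3 : (pos x (g x) : ℝ) ≤ M := (le_abs_self _).trans (h1.trans (h2.trans hM))
  have h4 : pos x (g x) ≤ (M : ℤ) := by exact_mod_cast h3
  have h5 : (M : ℤ) < pos x (g x) := hd
  omega

/-- two points of one orbit with the same harmonic displacements are equal, if `A` is reduced -/
theorem eq_of_hδ {N : ℕ} (hN : A.BCN N) (hred : A.Reduced) {t t' : Pt b F} (ht : t ∈ A.D)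
    (ht' : t' ∈ A.orb t) (h : ∀ g ∈ A.G, A.hδ g t' = A.hδ g t) : t' = t := by
  obtain ⟨K, hK⟩ := pos_bound hN
  symm
  apply hred t ht t' (by obtain ⟨g, hg, rfl⟩ := ht'; exact A.map_mem hg ht) (A.sameLine_orb ht')
  obtain ⟨M, hM⟩ := exists_nat_ge ((K : ℝ) * (|A.dh t t'| + 1))
  refine ⟨M, fun g hg => ?_⟩
  have h1 : A.dh (g t) (g t') = A.dh t t' := by
    have e1 : A.hδ g t' = A.Hc (A.orb t) (g t') - A.Hc (A.orb t) t' := hδ_of_mem ht'
    have e2 : A.hδ g t = A.Hc (A.orb t) (g t) - A.Hc (A.orb t) t := rfl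
    have e3 := h g hg
    unfold dh
    rw [A.orb_eq (A.orb_map hg (A.orb_self t))]
    linarith
  have h2 : g t' ∈ A.orb (g t) := by
    rw [A.orb_eq (A.orb_map hg (A.orb_self t))]
    exact A.orb_map hg ht'
  have h3 := hK (g t) (A.map_mem hg ht) (g t') h2
  rw [h1] at h3
  have h4 := h3.trans hM
  exact_mod_cast h4

theorem fix_of_hδ {N : ℕ} (hN : A.BCN N) (hred : A.Reduced) {x t : Pt b F} (ht : t ∈ A.D) {α : ℝ}
    (h : ∀ g ∈ A.G, A.hδ g t = α * A.hδ g x) {g : Equiv.Perm (Pt b F)} (hg : g ∈ A.G)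
    (hgx : g x = x) : g t = t := by
  apply eq_of_hδ hN hred ht (A.orb_map hg (A.orb_self t))
  intro k hk
  have h1 := hδ_mul (A := A) (g := k) hg t
  have h2 := hδ_mul (A := A) (g := k) hg x
  rw [hgx] at h2
  have h3 := h (k * g) (A.G.mul_mem hk hg)
  have h4 := h g hg
  have h5 := h k hk
  have h6 : A.hδ g x = 0 := by unfold hδ; rw [hgx, sub_self]
  rw [h2, h6, add_zero] at h3
  rw [h6, mul_zero] at h4
  rw [h4, add_zero] at h1
  rw [← h1, h3, h5]

theorem abs_slope_le {N : ℕ} (hN : A.BCN N) {x t : Pt b F} (hx : x ∈ A.D) (ht : t ∈ A.D) {α : ℝ}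
    (h : ∀ g ∈ A.G, A.hδ g t = α * A.hδ g x) : |α| ≤ 1 := by
  by_contra hcon
  push Not at hcon
  -- every point has a partner
  have hP : ∀ x' ∈ A.D, ∃ t' ∈ A.D, ∀ g ∈ A.G, A.hδ g t' = α * A.hδ g x' := by
    intro x' hx'
    choose γ hγ hγA using A.minimal x hx x' hx'
    let U : Ultrafilter ℕ := Filter.hyperfilter ℕ
    have hUtop : (U : Filter ℕ) ≤ Filter.atTop := by
      rw [← Nat.cofinite_eq_atTop]
      exact Filter.hyperfilter_le_cofinite
    have hu : ∀ M : ℕ, ∀ᶠ i in (U : Filter ℕ), Agree M (γ i x) x' := by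
      intro M
      filter_upwards [hUtop (Filter.eventually_ge_atTop M)] with i hi
      exact (hγA i).mono hi
    obtain ⟨t', ht'⟩ := exists_ulim U (fun i => γ i t)
    have htD : ∀ i, γ i t ∈ A.D := fun i => A.map_mem (hγ i) ht
    refine ⟨t', A.mem_D_of_ulim ht' (Filter.Eventually.of_forall htD), fun g hg => ?_⟩
    have h1 := tendsto_hδ hN hu (fun i => A.map_mem (hγ i) hx) hg
    have h2 := tendsto_hδ hN ht' htD hg
    refine tendsto_nhds_unique h2 ((h1.const_mul α).congr ?_)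
    intro i
    have h3 := hδ_mul (A := A) (g := g) (hγ i) t
    have h4 := hδ_mul (A := A) (g := g) (hγ i) x
    have h5 := h _ (A.G.mul_mem hg (hγ i))
    have h6 := h _ (hγ i)
    have h7 : A.hδ g (γ i t) = A.hδ (g * γ i) t - A.hδ (γ i) t := by linarith
    have h8 : A.hδ g (γ i x) = A.hδ (g * γ i) x - A.hδ (γ i) x := by linarith
    rw [h7, h8, h5, h6]; ring
  have hPn : ∀ (n : ℕ) (x' : Pt b F), x' ∈ A.D → ∃ t' ∈ A.D, ∀ g ∈ A.G,
      A.hδ g t' = α ^ n * A.hδ g x' := by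
    intro n
    induction n with
    | zero => intro x' hx'; exact ⟨x', hx', fun g _ => by ring⟩
    | succ n ih =>
      intro x' hx'
      obtain ⟨t1, ht1, h1⟩ := ih x' hx'
      obtain ⟨t2, ht2, h2⟩ := hP t1 ht1
      exact ⟨t2, ht2, fun g hg => by rw [h2 g hg, h1 g hg]; ring⟩
  have hzero : ∀ x' ∈ A.D, ∀ s ∈ A.S, A.hδ s x' = 0 := by
    intro x' hx' s hs
    by_contra hne
    have hpos : 0 < |A.hδ s x'| := abs_pos.2 hne
    obtain ⟨n, hn⟩ := pow_unbounded_of_one_lt (|A.hδ s x'|)⁻¹ hcon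
    obtain ⟨t', ht', h1⟩ := hPn n x' hx'
    have h2 := hδ_lip hN ht' hs
    rw [h1 s (A.mem_G_of_mem_S hs), abs_mul, abs_pow] at h2
    have h3 : 1 < |α| ^ n * |A.hδ s x'| := by
      rw [inv_lt_iff_one_lt_mul₀ hpos] at hn
      exact hn
    linarith
  have hall : ∀ l : List (Equiv.Perm (Pt b F)), (∀ s ∈ l, s ∈ A.S) → A.hδ l.prod x = 0 := by
    intro l
    induction l with
    | nil =>
      intro _
      unfold hδ
      rw [List.prod_nil, Equiv.Perm.one_apply, sub_self]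
    | cons s l ih =>
      intro hl
      have h1 := ih (fun t ht => hl t (List.mem_cons_of_mem _ ht))
      have hlG : l.prod ∈ A.G := Subgroup.list_prod_mem _
        (fun t ht => A.mem_G_of_mem_S (hl t (List.mem_cons_of_mem _ ht)))
      rw [List.prod_cons, hδ_mul hlG, h1,
        hzero _ (A.map_mem hlG hx) s (hl s List.mem_cons_self), add_zero]
  obtain ⟨g, hg, hgB⟩ := exists_big_abs hN hx 0
  obtain ⟨l, hl, rfl⟩ := exists_list hg
  rw [hall l hl, abs_zero] at hgB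
  exact lt_irrefl _ hgB

theorem slopes' {N : ℕ} (hN : A.BCN N) (hred : A.Reduced)
    {x t : Pt b F} (hx : x ∈ A.D) (ht : t ∈ A.D) {α : ℝ}
    (h : ∀ g ∈ A.G, A.hδ g t = α * A.hδ g x) : A.Rel x t ∧ (α = 1 ∨ α = -1) := by
  have hα : α ≠ 0 := by
    rintro rfl
    obtain ⟨g, hg, hgB⟩ := exists_big_abs hN ht 0
    rw [h g hg, zero_mul, abs_zero] at hgB
    exact lt_irrefl _ hgB
  have h' : ∀ g ∈ A.G, A.hδ g x = α⁻¹ * A.hδ g t := by
    intro g hg
    rw [h g hg, inv_mul_cancel_left₀ hα]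
  refine ⟨fun g hg => ⟨fun hgx => fix_of_hδ hN hred ht h hg hgx,
    fun hgt => fix_of_hδ hN hred hx h' hg hgt⟩, ?_⟩
  have h1 := abs_slope_le hN hx ht h
  have h2 := abs_slope_le hN ht hx h'
  rw [abs_inv] at h2
  have h3 : 0 < |α| := abs_pos.2 hα
  have h4 : 1 ≤ |α| := by
    rw [inv_le_one₀ h3] at h2
    exact h2
  have h5 : |α| = 1 := le_antisymm h1 h4
  rcases abs_choice α with h6 | h6
  · left; rw [← h6, h5]
  · right
    rw [h5] at h6
    linarith

end Sys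

end Pool.Agent.helper98.NIG
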