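import Mathlib

/-!
# NIG / P2 : harmonic coordinate on an abstract strand (helper97)

A *strand* is a connected graph of bounded width (Schreier graph of a finitely generated group
acting on a line with bounded displacement).  `mv i v` are the moves, `rev i` the inverse move,
`pos v` the position on the line.
-/

open scoped BigOperators
open Set Function

set_option linter.unusedSectionVars false
set_option linter.deprecated false

namespace NIG.Strand

variable {V ι : Type*} [Fintype ι]

/-- The axioms of a strand. -/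
structure IsStrand (mv : ι → V → V) (rev : ι → ι) (pos : V → ℤ) (r M N : ℕ) : Prop where
  rev_rev : ∀ i, rev (rev i) = i
  mv_rev : ∀ i v, mv (rev i) (mv i v) = v
  step : ∀ i v, |pos (mv i v) - pos v| ≤ r
  fin : ∀ a b : ℤ, {v | a ≤ pos v ∧ pos v ≤ b}.Finite
  width : ∀ a : ℤ, {v | a ≤ pos v ∧ pos v ≤ a + 2 * r}.ncard ≤ M
  conn : ∀ v w, |pos v - pos w| ≤ 3 * r + 3 → ∃ l : List ι, l.length ≤ N ∧ l.foldr mv v = w
  hit : ∀ a : ℤ, ∃ v, |pos v - a| ≤ r

/-- Laplacian. -/
def lap (mv : ι → V → V) (f : V → ℝ) (v : V) : ℝ := ∑ i, (f (mv i v) - f v)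

/-- gradient along an oriented edge -/
def grad (mv : ι → V → V) (f : V → ℝ) (p : V × ι) : ℝ := f (mv p.2 p.1) - f p.1

/-- (twice the) Dirichlet form -/
noncomputable def E (mv : ι → V → V) (φ f : V → ℝ) : ℝ := ∑ᶠ p : V × ι, grad mv φ p * grad mv f p

/-- indicator of the right side of a cut -/
noncomputable def cut (pos : V → ℤ) (c : ℤ) (v : V) : ℝ := if c < pos v then 1 else 0

/-- the current of `f` through the cut `c` -/
noncomputable def cur (mv : ι → V → V) (pos : V → ℤ) (f : V → ℝ) (c : ℤ) : ℝ :=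
  (1 / 2) * E mv (cut pos c) f

def Harm (mv : ι → V → V) (f : V → ℝ) : Prop := ∀ v, lap mv f v = 0

def Lip (mv : ι → V → V) (L : ℝ) (f : V → ℝ) : Prop := ∀ i v, |f (mv i v) - f v| ≤ L

variable {mv : ι → V → V} {rev : ι → ι} {pos : V → ℤ} {r M N : ℕ}

/-- reversal of edges -/
def IsStrand.e (h : IsStrand mv rev pos r M N) : V × ι ≃ V × ι where
  toFun p := (mv p.2 p.1, rev p.2)
  invFun p := (mv p.2 p.1, rev p.2)
  left_inv p := by
    rcases p with ⟨v, i⟩
    simp [h.mv_rev, h.rev_rev]
  right_inv p := by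
    rcases p with ⟨v, i⟩
    simp [h.mv_rev, h.rev_rev]

@[simp] lemma IsStrand.e_apply (h : IsStrand mv rev pos r M N) (p : V × ι) :
    h.e p = (mv p.2 p.1, rev p.2) := rfl

lemma grad_e (h : IsStrand mv rev pos r M N) (f : V → ℝ) (p : V × ι) :
    grad mv f (h.e p) = - grad mv f p := by
  simp [grad, h.mv_rev]

lemma sum_grad (f : V → ℝ) (v : V) : ∑ i, grad mv f (v, i) = lap mv f v := rfl

lemma fin_prod {s : Set V} (hs : s.Finite) : {p : V × ι | p.1 ∈ s}.Finite := by
  have : {p : V × ι | p.1 ∈ s} = s ×ˢ (univ : Set ι) := by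
    ext p; simp
  rw [this]
  exact hs.prod (Set.finite_univ)

lemma fin_prod' (h : IsStrand mv rev pos r M N) {s : Set V} (hs : s.Finite) :
    {p : V × ι | mv p.2 p.1 ∈ s}.Finite := by
  have h1 := (fin_prod (ι := ι) hs).preimage (f := h.e) (h.e.injective.injOn)
  exact h1

/-- functions with finitely supported gradient -/
def GF (mv : ι → V → V) (φ : V → ℝ) : Prop := (support (grad mv φ)).Finite

lemma GF_of_fin (h : IsStrand mv rev pos r M N) {φ : V → ℝ} (hφ : (support φ).Finite) :
    GF mv φ := by
  refine ((fin_prod (ι := ι) hφ).union (fin_prod' h hφ)).subset ?_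
  intro p hp
  simp only [mem_support, grad, ne_eq] at hp
  by_contra hc
  simp only [mem_union, mem_setOf_eq, mem_support, not_or, not_not, ne_eq] at hc
  rw [hc.1, hc.2] at hp
  simp at hp

lemma GF.sub {φ ψ : V → ℝ} (h1 : GF mv φ) (h2 : GF mv ψ) : GF mv (fun v => φ v - ψ v) := by
  refine (Set.Finite.union h1 h2).subset ?_
  intro p hp
  simp only [mem_support, grad, ne_eq] at hp
  by_contra hc
  simp only [mem_union, mem_support, not_or, not_not, ne_eq, grad] at hc
  apply hp
  linarith [hc.1, hc.2]

lemma GF.add {φ ψ : V → ℝ} (h1 : GF mv φ) (h2 : GF mv ψ) : GF mv (fun v => φ v + ψ v) := by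
  refine (Set.Finite.union h1 h2).subset ?_
  intro p hp
  simp only [mem_support, grad, ne_eq] at hp
  by_contra hc
  simp only [mem_union, mem_support, not_or, not_not, ne_eq, grad] at hc
  apply hp
  linarith [hc.1, hc.2]

lemma finsupp_mul_left {α : Type*} {a b : α → ℝ} (h : (support a).Finite) :
    (support (fun x => a x * b x)).Finite :=
  h.subset (fun x hx => by
    simp only [mem_support, ne_eq] at hx ⊢
    intro h0; exact hx (by rw [h0, zero_mul]))

lemma finsupp_mul_right {α : Type*} {a b : α → ℝ} (h : (support b).Finite) :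
    (support (fun x => a x * b x)).Finite :=
  h.subset (fun x hx => by
    simp only [mem_support, ne_eq] at hx ⊢
    intro h0; exact hx (by rw [h0, mul_zero]))

lemma E_sub_left {φ ψ : V → ℝ} (f : V → ℝ) (h1 : GF mv φ) (h2 : GF mv ψ) :
    E mv (fun v => φ v - ψ v) f = E mv φ f - E mv ψ f := by
  unfold E
  rw [← finsum_sub_distrib (finsupp_mul_left h1) (finsupp_mul_left h2)]
  apply finsum_congr
  intro p
  simp only [grad]
  ring

lemma E_add_left {φ ψ : V → ℝ} (f : V → ℝ) (h1 : GF mv φ) (h2 : GF mv ψ) :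
    E mv (fun v => φ v + ψ v) f = E mv φ f + E mv ψ f := by
  unfold E
  rw [← finsum_add_distrib (finsupp_mul_left h1) (finsupp_mul_left h2)]
  apply finsum_congr
  intro p
  simp only [grad]
  ring

lemma E_sub_right {φ : V → ℝ} (f g : V → ℝ) (h1 : GF mv φ) :
    E mv φ (fun v => f v - g v) = E mv φ f - E mv φ g := by
  unfold E
  rw [← finsum_sub_distrib (finsupp_mul_left h1) (finsupp_mul_left h1)]
  apply finsum_congr
  intro p
  simp only [grad]
  ring

lemma E_add_right {φ : V → ℝ} (f g : V → ℝ) (h1 : GF mv φ) :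
    E mv φ (fun v => f v + g v) = E mv φ f + E mv φ g := by
  unfold E
  rw [← finsum_add_distrib (finsupp_mul_left h1) (finsupp_mul_left h1)]
  apply finsum_congr
  intro p
  simp only [grad]
  ring

lemma E_mul_right {φ : V → ℝ} (f : V → ℝ) (a : ℝ) (h1 : GF mv φ) :
    E mv φ (fun v => a * f v) = a * E mv φ f := by
  unfold E
  rw [← smul_eq_mul, smul_finsum' a (finsupp_mul_left h1)]
  apply finsum_congr
  intro p
  simp only [grad, smul_eq_mul]
  ring

/-- Summation by parts. -/
theorem sbp (h : IsStrand mv rev pos r M N) {φ : V → ℝ} (f : V → ℝ) (hφ : (support φ).Finite) :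
    E mv φ f = -2 * ∑ᶠ v, φ v * lap mv f v := by
  have h1 : (support (fun p : V × ι => φ (h.e p).1 * grad mv f p)).Finite :=
    finsupp_mul_left ((fin_prod' h hφ).subset (fun p hp => hp))
  have h2 : (support (fun p : V × ι => φ p.1 * grad mv f p)).Finite :=
    finsupp_mul_left ((fin_prod (ι := ι) hφ).subset (fun p hp => hp))
  have e1 : E mv φ f = ∑ᶠ p : V × ι, φ (h.e p).1 * grad mv f p
      - ∑ᶠ p : V × ι, φ p.1 * grad mv f p := by
    rw [← finsum_sub_distrib h1 h2]
    apply finsum_congr
    intro p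
    simp only [grad, IsStrand.e_apply]
    ring
  have e2 : ∑ᶠ p : V × ι, φ (h.e p).1 * grad mv f p = - ∑ᶠ p : V × ι, φ p.1 * grad mv f p := by
    rw [← finsum_neg_distrib, ← finsum_comp_equiv h.e]
    apply finsum_congr
    intro p
    rw [grad_e]
    have : h.e (h.e p) = p := h.e.left_inv p
    rw [this]
    ring
  have e3 : ∑ᶠ p : V × ι, φ p.1 * grad mv f p = ∑ᶠ v, φ v * lap mv f v := by
    rw [finsum_curry _ h2]
    apply finsum_congr
    intro v
    rw [finsum_eq_sum_of_fintype, ← sum_grad, Finset.mul_sum]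
  rw [e1, e2, e3]
  ring

/-! ### cuts -/

lemma GF_cut (h : IsStrand mv rev pos r M N) (c : ℤ) : GF mv (cut pos c) := by
  refine ((fin_prod (ι := ι) (h.fin (c - r) (c + r)))).subset ?_
  intro p hp
  simp only [mem_support, grad, ne_eq, cut] at hp
  simp only [mem_setOf_eq]
  have := abs_le.1 (h.step p.2 p.1)
  by_contra hc
  apply hp
  split_ifs with h1 h2 h2
  · simp
  · exfalso; apply hc; constructor <;> omega
  · exfalso; apply hc; constructor <;> omega
  · simp

lemma cut_sub_supp (h : IsStrand mv rev pos r M N) (c c' : ℤ) :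
    (support (fun v => cut pos c v - cut pos c' v)).Finite := by
  refine ((h.fin (min c c') (max c c'))).subset ?_
  intro v hv
  simp only [mem_support, ne_eq, cut] at hv
  simp only [mem_setOf_eq]
  by_contra hc
  apply hv
  split_ifs with h1 h2 h2
  · simp
  · exfalso; apply hc; constructor <;> omega
  · exfalso; apply hc; constructor <;> omega
  · simp

/-- window `c < pos v ≤ c'` as a `Finset`. -/
noncomputable def IsStrand.win (h : IsStrand mv rev pos r M N) (c c' : ℤ) : Finset V :=
  (h.fin (c + 1) c').toFinset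

lemma IsStrand.mem_win (h : IsStrand mv rev pos r M N) {c c' : ℤ} {v : V} :
    v ∈ h.win c c' ↔ c < pos v ∧ pos v ≤ c' := by
  simp only [IsStrand.win, Finite.mem_toFinset, mem_setOf_eq]
  constructor <;> rintro ⟨h1, h2⟩ <;> constructor <;> omega

/-- Conservation law. -/
theorem cur_sub (h : IsStrand mv rev pos r M N) (f : V → ℝ) {c c' : ℤ} (hc : c ≤ c') :
    cur mv pos f c' - cur mv pos f c = ∑ v ∈ h.win c c', lap mv f v := by
  have h1 := sbp h f (cut_sub_supp h c c')
  rw [E_sub_left f (GF_cut h c) (GF_cut h c')] at h1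
  have h2 : ∑ᶠ v, (cut pos c v - cut pos c' v) * lap mv f v = ∑ v ∈ h.win c c', lap mv f v := by
    rw [finsum_eq_sum_of_support_subset (s := h.win c c')]
    · apply Finset.sum_congr rfl
      intro v hv
      rw [h.mem_win] at hv
      have e1 : cut pos c v = 1 := by unfold cut; rw [if_pos hv.1]
      have e2 : cut pos c' v = 0 := by unfold cut; rw [if_neg (by omega)]
      rw [e1, e2]; ring
    · intro v hv
      simp only [mem_support, ne_eq] at hv
      rw [Finset.mem_coe, h.mem_win]
      by_contra hcon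
      apply hv
      have : cut pos c v = cut pos c' v := by
        unfold cut
        split_ifs <;> first | rfl | (exfalso; omega)
      rw [this]; ring
  rw [h2] at h1
  unfold cur
  linarith

lemma cur_harm (h : IsStrand mv rev pos r M N) {f : V → ℝ} (hf : Harm mv f) (c c' : ℤ) :
    cur mv pos f c = cur mv pos f c' := by
  rcases le_total c c' with hc | hc
  · have := cur_sub h f hc
    rw [Finset.sum_eq_zero (fun v _ => hf v)] at this
    linarith
  · have := cur_sub h f hc
    rw [Finset.sum_eq_zero (fun v _ => hf v)] at this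
    linarith

/-- the finite set of edges near a cut -/
noncomputable def IsStrand.ed (h : IsStrand mv rev pos r M N) (c : ℤ) : Finset (V × ι) :=
  (h.win (c - r) (c + r)) ×ˢ Finset.univ

lemma IsStrand.card_ed (h : IsStrand mv rev pos r M N) (c : ℤ) :
    (h.ed c).card ≤ M * Fintype.card ι := by
  unfold IsStrand.ed
  rw [Finset.card_product, Finset.card_univ]
  apply Nat.mul_le_mul_right
  have h1 := h.width (c - r)
  have h2 : (h.win (c - r) (c + r)).card ≤ {v | c - r ≤ pos v ∧ pos v ≤ c - r + 2 * r}.ncard := by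
    rw [← Set.ncard_coe_finset]
    apply Set.ncard_le_ncard
    · intro v hv
      rw [Finset.mem_coe, h.mem_win] at hv
      simp only [mem_setOf_eq]
      constructor <;> omega
    · exact h.fin _ _
  omega

/-- edges with nonzero cut gradient are in `ed c` -/
lemma IsStrand.grad_cut_ne (h : IsStrand mv rev pos r M N) {c : ℤ} {p : V × ι}
    (hp : grad mv (cut pos c) p ≠ 0) : p ∈ h.ed c := by
  have := abs_le.1 (h.step p.2 p.1)
  unfold IsStrand.ed
  rw [Finset.mem_product, h.mem_win]
  refine ⟨?_, Finset.mem_univ _⟩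
  by_contra hc
  apply hp
  unfold grad cut
  split_ifs with h1 h2 h2
  · simp
  · exfalso; apply hc; constructor <;> omega
  · exfalso; apply hc; constructor <;> omega
  · simp

lemma abs_grad_cut_le (c : ℤ) (p : V × ι) : |grad mv (cut pos c) p| ≤ 1 := by
  unfold grad cut
  split_ifs <;> simp

/-- sums against the gradient of a cut are finite sums -/
lemma IsStrand.finsum_cut (h : IsStrand mv rev pos r M N) (c : ℤ) (F : V × ι → ℝ) :
    ∑ᶠ p, grad mv (cut pos c) p * F p = ∑ p ∈ h.ed c, grad mv (cut pos c) p * F p := by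
  apply finsum_eq_sum_of_support_subset
  intro p hp
  simp only [mem_support, ne_eq] at hp
  rw [Finset.mem_coe]
  apply h.grad_cut_ne
  intro h0
  apply hp
  rw [h0, zero_mul]

lemma IsStrand.cur_eq (h : IsStrand mv rev pos r M N) (f : V → ℝ) (c : ℤ) :
    cur mv pos f c = (1 / 2) * ∑ p ∈ h.ed c, grad mv (cut pos c) p * grad mv f p := by
  unfold cur E
  rw [h.finsum_cut]

lemma IsStrand.abs_finsum_cut (h : IsStrand mv rev pos r M N) (c : ℤ) (F : V × ι → ℝ) {B : ℝ}
    (hB : ∀ p ∈ h.ed c, |F p| ≤ B) (hB0 : 0 ≤ B) :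
    |∑ᶠ p, grad mv (cut pos c) p * F p| ≤ M * Fintype.card ι * B := by
  rw [h.finsum_cut]
  calc |∑ p ∈ h.ed c, grad mv (cut pos c) p * F p|
      ≤ ∑ p ∈ h.ed c, |grad mv (cut pos c) p * F p| := Finset.abs_sum_le_sum_abs _ _
    _ ≤ ∑ p ∈ h.ed c, B := by
        apply Finset.sum_le_sum
        intro p hp
        rw [abs_mul]
        calc |grad mv (cut pos c) p| * |F p| ≤ 1 * B :=
              mul_le_mul (abs_grad_cut_le c p) (hB p hp) (abs_nonneg _) zero_le_one
          _ = B := one_mul B
    _ = (h.ed c).card * B := by rw [Finset.sum_const, nsmul_eq_mul]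
    _ ≤ M * Fintype.card ι * B := by
        apply mul_le_mul_of_nonneg_right _ hB0
        exact_mod_cast h.card_ed c

/-- bound of the current -/
lemma IsStrand.abs_cur_le (h : IsStrand mv rev pos r M N) {f : V → ℝ} {L : ℝ} (hf : Lip mv L f)
    (hL : 0 ≤ L) (c : ℤ) : |cur mv pos f c| ≤ M * Fintype.card ι * L := by
  unfold cur E
  have := h.abs_finsum_cut c (grad mv f) (B := L) (fun p _ => hf p.2 p.1) hL
  rw [abs_mul]
  have h2 : |(1 / 2 : ℝ)| ≤ 1 := by norm_num [abs_le]
  calc |(1 / 2 : ℝ)| * |∑ᶠ p, grad mv (cut pos c) p * grad mv f p|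
      ≤ 1 * |∑ᶠ p, grad mv (cut pos c) p * grad mv f p| :=
        mul_le_mul_of_nonneg_right h2 (abs_nonneg _)
    _ ≤ _ := by rw [one_mul]; exact this

/-! ### paths -/

lemma foldr_pos (h : IsStrand mv rev pos r M N) (l : List ι) (v : V) :
    |pos (l.foldr mv v) - pos v| ≤ r * l.length := by
  induction l with
  | nil => simp
  | cons i l ih =>
    simp only [List.foldr_cons, List.length_cons]
    have h1 := h.step i (l.foldr mv v)
    have h2 := abs_le.1 h1
    have h3 := abs_le.1 ih
    rw [abs_le]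
    push_cast
    constructor <;> nlinarith

lemma foldr_lip {f : V → ℝ} {L : ℝ} (hf : Lip mv L f) (l : List ι) (v : V) :
    |f (l.foldr mv v) - f v| ≤ L * l.length := by
  induction l with
  | nil => simp
  | cons i l ih =>
    simp only [List.foldr_cons, List.length_cons]
    have h1 := hf i (l.foldr mv v)
    have h2 := abs_le.1 h1
    have h3 := abs_le.1 ih
    rw [abs_le]
    push_cast
    constructor <;> nlinarith

lemma foldr_ind {P : V → Prop} (hP : ∀ i v, P v → P (mv i v)) (l : List ι) {v : V} (hv : P v) :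
    P (l.foldr mv v) := by
  induction l with
  | nil => exact hv
  | cons i l ih => exact hP i _ ih

/-- a function with small oscillation on near points has linearly bounded oscillation -/
lemma IsStrand.chain (h : IsStrand mv rev pos r M N) {f : V → ℝ} {δ : ℝ} (hδ : 0 ≤ δ)
    (hf : ∀ v w, |pos v - pos w| ≤ 3 * r + 3 → |f v - f w| ≤ δ) (v w : V) :
    |f v - f w| ≤ δ * (|pos v - pos w| + 1 : ℤ) := by
  have key : ∀ (k : ℕ) (v w : V), pos v ≤ pos w → pos w - pos v ≤ k → |f v - f w| ≤ δ * (k + 1) := by
    intro k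
    induction k with
    | zero =>
      intro v w h1 h2
      have := hf v w (by
        have : pos v = pos w := by push_cast at h2; omega
        rw [this]; simp; positivity)
      simpa using this
    | succ k ih =>
      intro v w h1 h2
      by_cases hc : pos w - pos v ≤ 3 * r + 3
      · have := hf v w (by rw [abs_le]; constructor <;> omega)
        push_cast
        nlinarith
      · obtain ⟨u, hu⟩ := h.hit (pos v + r + 1)
        rw [abs_le] at hu
        have h3 := hf v u (by rw [abs_le]; constructor <;> omega)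
        have h4 := ih u w (by omega) (by push_cast at h2; omega)
        calc |f v - f w| ≤ |f v - f u| + |f u - f w| := abs_sub_le _ _ _
          _ ≤ δ + δ * (k + 1) := add_le_add h3 h4
          _ = δ * ((k + 1 : ℕ) + 1) := by push_cast; ring
  rcases le_total (pos v) (pos w) with h1 | h1
  · have := key (pos w - pos v).toNat v w h1 (by omega)
    have e : |pos v - pos w| = ((pos w - pos v).toNat : ℤ) := by
      rw [abs_of_nonpos (by omega)]; omega
    rw [e]; push_cast; exact_mod_cast this
  · have := key (pos v - pos w).toNat w v h1 (by omega)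
    have e : |pos v - pos w| = ((pos v - pos w).toNat : ℤ) := by
      rw [abs_of_nonneg (by omega)]; omega
    rw [e, abs_sub_comm]; push_cast; exact_mod_cast this

lemma IsStrand.lip_near (h : IsStrand mv rev pos r M N) {f : V → ℝ} {L : ℝ} (hL : 0 ≤ L)
    (hf : Lip mv L f) {v w : V} (hvw : |pos v - pos w| ≤ 3 * r + 3) : |f v - f w| ≤ L * N := by
  obtain ⟨l, hl, rfl⟩ := h.conn v w hvw
  rw [abs_sub_comm]
  refine (foldr_lip hf l v).trans ?_
  apply mul_le_mul_of_nonneg_left _ hL
  exact_mod_cast hl

lemma IsStrand.lip_far (h : IsStrand mv rev pos r M N) {f : V → ℝ} {L : ℝ} (hL : 0 ≤ L)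
    (hf : Lip mv L f) (v w : V) : |f v - f w| ≤ L * N * (|pos v - pos w| + 1 : ℤ) :=
  h.chain (by positivity) (fun _ _ hvw => h.lip_near hL hf hvw) v w

lemma IsStrand.const_of_lip_zero (h : IsStrand mv rev pos r M N) {f : V → ℝ}
    (hf : ∀ i v, f (mv i v) = f v) (v w : V) : f v = f w := by
  have := h.lip_far (f := f) (L := 0) le_rfl (fun i v => by rw [hf]; simp) v w
  simp at this
  linarith

/-! ### Green's identity -/

/-- boundary term -/
noncomputable def bd (mv : ι → V → V) (pos : V → ℤ) (g f : V → ℝ) (c : ℤ) : ℝ :=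
  ∑ᶠ p : V × ι, grad mv (cut pos c) p * (g (mv p.2 p.1) * grad mv f p)

/-- Dirichlet energy of the window -/
noncomputable def IsStrand.en (h : IsStrand mv rev pos r M N) (g f : V → ℝ) (c c' : ℤ) : ℝ :=
  ∑ v ∈ h.win c c', ∑ i, grad mv g (v, i) * grad mv f (v, i)

theorem green (h : IsStrand mv rev pos r M N) (g f : V → ℝ) {c c' : ℤ} (hc : c ≤ c') :
    h.en g f c c' + bd mv pos g f c - bd mv pos g f c'
      = -2 * ∑ v ∈ h.win c c', g v * lap mv f v := by
  have hs : (support (fun v => (cut pos c v - cut pos c' v) * g v)).Finite :=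
    finsupp_mul_left (cut_sub_supp h c c')
  have h1 := sbp h f hs
  have hwin : ∀ v, v ∈ h.win c c' → cut pos c v - cut pos c' v = 1 := by
    intro v hv
    rw [h.mem_win] at hv
    have e1 : cut pos c v = 1 := by unfold cut; rw [if_pos hv.1]
    have e2 : cut pos c' v = 0 := by unfold cut; rw [if_neg (by omega)]
    rw [e1, e2]; ring
  have hnwin : ∀ v, v ∉ h.win c c' → cut pos c v - cut pos c' v = 0 := by
    intro v hv
    rw [h.mem_win] at hv
    have : cut pos c v = cut pos c' v := by
      unfold cut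
      split_ifs <;> first | rfl | (exfalso; omega)
    rw [this]; ring
  have h2 : ∑ᶠ v, ((cut pos c v - cut pos c' v) * g v) * lap mv f v
      = ∑ v ∈ h.win c c', g v * lap mv f v := by
    rw [finsum_eq_sum_of_support_subset (s := h.win c c')]
    · apply Finset.sum_congr rfl
      intro v hv
      rw [hwin v hv]; ring
    · intro v hv
      simp only [mem_support, ne_eq] at hv
      rw [Finset.mem_coe]
      by_contra hcon
      apply hv
      rw [hnwin v hcon]; ring
  have f1 : (support (fun p : V × ι =>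
      (cut pos c p.1 - cut pos c' p.1) * (grad mv g p * grad mv f p))).Finite := by
    apply finsupp_mul_left
    exact (fin_prod (ι := ι) (cut_sub_supp h c c')).subset (fun p hp => hp)
  have f2 : (support (fun p : V × ι =>
      grad mv (cut pos c) p * (g (mv p.2 p.1) * grad mv f p))).Finite :=
    finsupp_mul_left (GF_cut h c)
  have f3 : (support (fun p : V × ι =>
      grad mv (cut pos c') p * (g (mv p.2 p.1) * grad mv f p))).Finite :=
    finsupp_mul_left (GF_cut h c')
  have h3 : E mv (fun v => (cut pos c v - cut pos c' v) * g v) f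
      = ∑ᶠ p : V × ι, (cut pos c p.1 - cut pos c' p.1) * (grad mv g p * grad mv f p)
        + bd mv pos g f c - bd mv pos g f c' := by
    unfold E bd
    rw [← finsum_add_distrib f1 f2, ← finsum_sub_distrib _ f3]
    · apply finsum_congr
      intro p
      simp only [grad]
      ring
    · exact (f1.union f2).subset (Function.support_add _ _)
  have h4 : ∑ᶠ p : V × ι, (cut pos c p.1 - cut pos c' p.1) * (grad mv g p * grad mv f p)
      = h.en g f c c' := by
    rw [finsum_curry _ f1, finsum_eq_sum_of_support_subset (s := h.win c c')]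
    · unfold IsStrand.en
      apply Finset.sum_congr rfl
      intro v hv
      rw [finsum_eq_sum_of_fintype]
      apply Finset.sum_congr rfl
      intro i _
      simp only
      rw [hwin v hv]; ring
    · intro v hv
      simp only [mem_support, ne_eq] at hv
      rw [Finset.mem_coe]
      by_contra hcon
      apply hv
      rw [finsum_eq_sum_of_fintype]
      apply Finset.sum_eq_zero
      intro i _
      rw [hnwin v hcon]; ring
  rw [h3, h2, h4] at h1
  exact h1

/-- shifting the boundary term by a constant -/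
lemma bd_const (h : IsStrand mv rev pos r M N) (g f : V → ℝ) (c : ℤ) (κ : ℝ) :
    bd mv pos g f c = 2 * κ * cur mv pos f c + bd mv pos (fun v => g v - κ) f c := by
  unfold bd cur E
  rw [h.finsum_cut, h.finsum_cut, h.finsum_cut]
  rw [Finset.mul_sum, Finset.mul_sum, ← Finset.sum_add_distrib]
  apply Finset.sum_congr rfl
  intro p _
  ring

lemma IsStrand.abs_bd (h : IsStrand mv rev pos r M N) (g f : V → ℝ) (c : ℤ) {B L : ℝ}
    (hB : ∀ p ∈ h.ed c, |g (mv p.2 p.1)| ≤ B) (hB0 : 0 ≤ B)
    (hL : ∀ p ∈ h.ed c, |grad mv f p| ≤ L) (hL0 : 0 ≤ L) :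
    |bd mv pos g f c| ≤ M * Fintype.card ι * (B * L) := by
  unfold bd
  apply h.abs_finsum_cut c _ _ (by positivity)
  intro p hp
  rw [abs_mul]
  exact mul_le_mul (hB p hp) (hL p hp) (abs_nonneg _) hB0

lemma foldr_lip_loc (h : IsStrand mv rev pos r M N) {f : V → ℝ} {L : ℝ} {R : ℤ} {v : V}
    (hf : ∀ i u, |pos u - pos v| ≤ R → |f (mv i u) - f u| ≤ L) (l : List ι)
    (hl : (r : ℤ) * l.length ≤ R) :
    |f (l.foldr mv v) - f v| ≤ L * l.length := by
  induction l with
  | nil => simp
  | cons i l ih =>
    simp only [List.foldr_cons, List.length_cons] at hl ⊢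
    push_cast at hl
    have hr : (0 : ℤ) ≤ r := by positivity
    have hl' : (r : ℤ) * l.length ≤ R := by nlinarith
    have h1 := hf i (l.foldr mv v) ((foldr_pos h l v).trans hl')
    have h2 := abs_le.1 h1
    have h3 := abs_le.1 (ih hl')
    rw [abs_le]
    push_cast
    constructor <;> nlinarith

/-- near points of an edge of `ed c` and a point close to the cut -/
lemma IsStrand.ed_near (h : IsStrand mv rev pos r M N) {c : ℤ} {p : V × ι} (hp : p ∈ h.ed c)
    {v : V} (hv : |pos v - c| ≤ r) : |pos v - pos (mv p.2 p.1)| ≤ 3 * r + 3 := by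
  unfold IsStrand.ed at hp
  rw [Finset.mem_product, h.mem_win] at hp
  have h1 := abs_le.1 (h.step p.2 p.1)
  have h2 := abs_le.1 hv
  rw [abs_le]
  constructor <;> omega

/-- energy bound by the local energy near a cut: the boundary term of a function with zero
current is controlled by the local energy. -/
lemma IsStrand.abs_bd_loc (h : IsStrand mv rev pos r M N) (f : V → ℝ) (c : ℤ)
    (hJ : cur mv pos f c = 0) {Z : ℝ} (hZ0 : 0 ≤ Z)
    (hZ : ∀ v i, |pos v - c| ≤ r * (N + 2) → (grad mv f (v, i)) ^ 2 ≤ Z) :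
    |bd mv pos f f c| ≤ M * Fintype.card ι * N * Z := by
  obtain ⟨v, hv⟩ := h.hit c
  have hG : ∀ u i, |pos u - c| ≤ r * (N + 2) → |grad mv f (u, i)| ≤ Real.sqrt Z := by
    intro u i hu
    rw [← Real.sqrt_sq_eq_abs]
    exact Real.sqrt_le_sqrt (hZ u i hu)
  rw [bd_const h f f c (f v), hJ, mul_zero, zero_add]
  have key := h.abs_bd (fun u => f u - f v) f c (B := N * Real.sqrt Z) (L := Real.sqrt Z) ?_
    (by positivity) ?_ (Real.sqrt_nonneg _)
  · refine key.trans (le_of_eq ?_)
    have : Real.sqrt Z * Real.sqrt Z = Z := Real.mul_self_sqrt hZ0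
    calc (M : ℝ) * Fintype.card ι * (N * Real.sqrt Z * Real.sqrt Z)
        = M * Fintype.card ι * N * (Real.sqrt Z * Real.sqrt Z) := by ring
      _ = _ := by rw [this]
  · intro p hp
    obtain ⟨l, hl, hl2⟩ := h.conn v (mv p.2 p.1) (h.ed_near hp hv)
    have h1 := foldr_lip_loc h (f := f) (L := Real.sqrt Z) (R := r * N) (v := v) ?_ l ?_
    · rw [← hl2]
      refine h1.trans ?_
      rw [mul_comm]
      apply mul_le_mul_of_nonneg_right _ (Real.sqrt_nonneg _)
      exact_mod_cast hl
    · intro i u hu
      apply hG u i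
      have h2 := abs_le.1 hu
      have h3 := abs_le.1 hv
      have hr : (0 : ℤ) ≤ r := by positivity
      rw [abs_le]
      constructor <;> nlinarith
    · have hr : (0 : ℤ) ≤ r := by positivity
      apply mul_le_mul_of_nonneg_left _ hr
      exact_mod_cast hl
  · intro p hp
    have hp' := hp
    unfold IsStrand.ed at hp'
    rw [Finset.mem_product, h.mem_win] at hp'
    apply hG p.1 p.2
    have hr : (0 : ℤ) ≤ r := by positivity
    have hN : (0 : ℤ) ≤ N := by positivity
    have : (0 : ℤ) ≤ r * N := by positivity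
    rw [abs_le]
    constructor <;> nlinarith [hp'.1.1, hp'.1.2]

lemma IsStrand.en_nonneg (h : IsStrand mv rev pos r M N) (f : V → ℝ) (c c' : ℤ) :
    0 ≤ h.en f f c c' := by
  unfold IsStrand.en
  apply Finset.sum_nonneg
  intro v _
  apply Finset.sum_nonneg
  intro i _
  exact mul_self_nonneg _

lemma IsStrand.sq_le_en (h : IsStrand mv rev pos r M N) (f : V → ℝ) {c c' : ℤ} {v : V}
    (hv : v ∈ h.win c c') (i : ι) : (grad mv f (v, i)) ^ 2 ≤ h.en f f c c' := by
  unfold IsStrand.en
  calc (grad mv f (v, i)) ^ 2 = grad mv f (v, i) * grad mv f (v, i) := by ring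
    _ ≤ ∑ i, grad mv f (v, i) * grad mv f (v, i) :=
        Finset.single_le_sum (f := fun i => grad mv f (v, i) * grad mv f (v, i))
          (fun i _ => mul_self_nonneg _) (Finset.mem_univ i)
    _ ≤ _ := Finset.single_le_sum (f := fun v => ∑ i, grad mv f (v, i) * grad mv f (v, i))
          (fun v _ => Finset.sum_nonneg (fun i _ => mul_self_nonneg _)) hv

lemma IsStrand.en_mono (h : IsStrand mv rev pos r M N) (f : V → ℝ) {a b c d : ℤ}
    (h1 : c ≤ a) (h2 : b ≤ d) : h.en f f a b ≤ h.en f f c d := by
  unfold IsStrand.en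
  apply Finset.sum_le_sum_of_subset_of_nonneg
  · intro v hv
    rw [h.mem_win] at hv ⊢
    omega
  · intro v _ _
    exact Finset.sum_nonneg (fun i _ => mul_self_nonneg _)

lemma IsStrand.en_add (h : IsStrand mv rev pos r M N) (f : V → ℝ) {a b c : ℤ}
    (h1 : a ≤ b) (h2 : b ≤ c) : h.en f f a b + h.en f f b c = h.en f f a c := by
  unfold IsStrand.en
  classical
  rw [← Finset.sum_union]
  · apply Finset.sum_congr _ (fun _ _ => rfl)
    ext v
    rw [Finset.mem_union, h.mem_win, h.mem_win, h.mem_win]
    omega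
  · rw [Finset.disjoint_left]
    intro v hv hv'
    rw [h.mem_win] at hv hv'
    omega

/-- **Uniqueness**: a Lipschitz harmonic function with zero current is constant. -/
theorem harm_zero_const (h : IsStrand mv rev pos r M N) {f : V → ℝ} {L : ℝ}
    (hf : Harm mv f) (hL : Lip mv L f) (hJ : cur mv pos f 0 = 0) (v w : V) : f v = f w := by
  have hJ' : ∀ c, cur mv pos f c = 0 := fun c => by rw [cur_harm h hf c 0, hJ]
  obtain ⟨v0, -⟩ := h.hit 0
  have hgr : ∀ p : V × ι, |grad mv f p| ≤ |L| := fun p => (hL p.2 p.1).trans (le_abs_self L)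
  set K : ℝ := M * Fintype.card ι * N with hK
  have hK0 : 0 ≤ K := by positivity
  set R : ℕ := r * (N + 2) with hR
  -- the identity
  have hid : ∀ n : ℕ, h.en f f (-n) n ≤ |bd mv pos f f n| + |bd mv pos f f (-n)| := by
    intro n
    have := green h f f (c := -n) (c' := n) (by omega)
    rw [Finset.sum_eq_zero (fun v _ => by rw [hf v, mul_zero]), mul_zero] at this
    have h1 := le_abs_self (bd mv pos f f n)
    have h2 := neg_abs_le (bd mv pos f f (-n))
    linarith
  have hbdd : ∀ n : ℕ, h.en f f (-n) n ≤ 2 * (K * L ^ 2) := by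
    intro n
    have h1 : ∀ c, |bd mv pos f f c| ≤ K * L ^ 2 := by
      intro c
      apply h.abs_bd_loc f c (hJ' c) (sq_nonneg _)
      intro v i _
      rw [← sq_abs, ← sq_abs L]
      exact pow_le_pow_left₀ (abs_nonneg _) (hgr _) 2
    linarith [hid n, h1 n, h1 (-n)]
  have hrec : ∀ m : ℕ, h.en f f (-m) m
      ≤ K * (h.en f f (-(m + 2 * R + 2 : ℕ)) (m + 2 * R + 2 : ℕ) - h.en f f (-m) m) := by
    intro m
    have hZ : ∀ c : ℤ, |bd mv pos f f c| ≤ K * h.en f f (c - R - 1) (c + R) := by
      intro c
      apply h.abs_bd_loc f c (hJ' c) (h.en_nonneg _ _ _)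
      intro v i hv
      apply h.sq_le_en
      rw [h.mem_win]
      have e : (r : ℤ) * (N + 2) = (R : ℤ) := by rw [hR]; push_cast; ring
      rw [e, abs_le] at hv
      omega
    set n : ℕ := m + R + 1 with hn
    have h1 := hid n
    have h2 := hZ n
    have h3 := hZ (-n)
    have h4 : h.en f f (-m) m ≤ h.en f f (-n) n := h.en_mono f (by omega) (by omega)
    have h5 : h.en f f (-(m + 2 * R + 2 : ℕ)) (-n - R - 1)
        + h.en f f (-n - R - 1) (-n + R) + h.en f f (-n + R) (-m) + h.en f f (-m) m
        + h.en f f m (n - R - 1) + h.en f f (n - R - 1) (n + R)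
        + h.en f f (n + R) (m + 2 * R + 2 : ℕ)
        = h.en f f (-(m + 2 * R + 2 : ℕ)) (m + 2 * R + 2 : ℕ) := by
      rw [h.en_add f (by push_cast; omega) (by omega), h.en_add f (by push_cast; omega) (by omega),
        h.en_add f (by push_cast; omega) (by omega), h.en_add f (by push_cast; omega) (by omega),
        h.en_add f (by push_cast; omega) (by omega), h.en_add f (by push_cast; omega) (by omega)]
    have p1 := h.en_nonneg f (-(m + 2 * R + 2 : ℕ)) (-n - R - 1)
    have p2 := h.en_nonneg f (-n + R) (-m)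
    have p3 := h.en_nonneg f m (n - R - 1)
    have p4 := h.en_nonneg f (n + R) (m + 2 * R + 2 : ℕ)
    have h6 : h.en f f (n - R - 1) (n + R) + h.en f f (-n - R - 1) (-n + R)
        ≤ h.en f f (-(m + 2 * R + 2 : ℕ)) (m + 2 * R + 2 : ℕ) - h.en f f (-m) m := by linarith
    have h7 := mul_le_mul_of_nonneg_left h6 hK0
    linarith
  have hmono : Monotone (fun n : ℕ => h.en f f (-n) n) := by
    intro a b hab
    apply h.en_mono f <;> omega
  have hlim := tendsto_atTop_ciSup hmono ⟨2 * (K * L ^ 2), by
    rintro _ ⟨n, rfl⟩; exact hbdd n⟩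
  set ℓ := ⨆ n : ℕ, h.en f f (-n) n with hℓ
  have hlim2 : Filter.Tendsto (fun m : ℕ => h.en f f (-(m + 2 * R + 2 : ℕ)) (m + 2 * R + 2 : ℕ))
      Filter.atTop (nhds ℓ) := by
    have := hlim.comp (Filter.tendsto_add_atTop_nat (2 * R + 2))
    refine this.congr ?_
    intro m
    rfl
  have hle : ℓ ≤ K * (ℓ - ℓ) :=
    le_of_tendsto_of_tendsto' hlim ((hlim2.sub hlim).const_mul K) hrec
  rw [sub_self, mul_zero] at hle
  have hen : ∀ n : ℕ, h.en f f (-n) n ≤ 0 := fun n =>
    (hmono.ge_of_tendsto hlim n).trans hle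
  apply h.const_of_lip_zero
  intro i v
  have h1 := h.sq_le_en f (c := -((pos v).natAbs + 1 : ℕ)) (c' := ((pos v).natAbs + 1 : ℕ))
    (v := v) (by rw [h.mem_win]; omega) i
  have h2 := h1.trans (hen _)
  have h3 : grad mv f (v, i) = 0 := by nlinarith [sq_nonneg (grad mv f (v, i))]
  unfold grad at h3
  simp only at h3
  linarith

/-! ### the unit current harmonic coordinate: bounds -/

/-- `H` is a harmonic coordinate: harmonic, 1-Lipschitz along edges, unit current. -/
structure IsHC (mv : ι → V → V) (pos : V → ℤ) (H : V → ℝ) : Prop where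
  harm : Harm mv H
  lip : Lip mv 1 H
  cur : ∀ c, cur mv pos H c = 1

theorem IsHC.unique (h : IsStrand mv rev pos r M N) {H H' : V → ℝ} (hH : IsHC mv pos H)
    (hH' : IsHC mv pos H') (v w : V) : H w - H v = H' w - H' v := by
  have key := harm_zero_const h (f := fun v => H v - H' v) (L := 2) ?_ ?_ ?_ v w
  · linarith
  · intro v
    have h1 := hH.harm v
    have h2 := hH'.harm v
    unfold lap at h1 h2 ⊢
    have : ∑ i, ((fun v => H v - H' v) (mv i v) - (fun v => H v - H' v) v)
        = ∑ i, (H (mv i v) - H v) - ∑ i, (H' (mv i v) - H' v) := by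
      rw [← Finset.sum_sub_distrib]
      apply Finset.sum_congr rfl
      intro i _
      ring
    rw [this, h1, h2, sub_zero]
  · intro i v
    have h1 := abs_le.1 (hH.lip i v)
    have h2 := abs_le.1 (hH'.lip i v)
    rw [abs_le]
    constructor <;> linarith
  · have e1 := hH.cur 0
    have e2 := hH'.cur 0
    unfold Strand.cur at e1 e2 ⊢
    rw [E_sub_right H H' (GF_cut h 0)]
    linarith

/-- a Lipschitz harmonic function is an affine function of the harmonic coordinate -/
theorem IsHC.affine (h : IsStrand mv rev pos r M N) {H f : V → ℝ} (hH : IsHC mv pos H)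
    {L : ℝ} (hf : Harm mv f) (hL : Lip mv L f) (v w : V) :
    f w - f v = Strand.cur mv pos f 0 * (H w - H v) := by
  set a := Strand.cur mv pos f 0 with ha
  have key := harm_zero_const h (f := fun v => f v - a * H v) (L := L + |a|) ?_ ?_ ?_ v w
  · linarith
  · intro v
    have h1 := hf v
    have h2 := hH.harm v
    unfold lap at h1 h2 ⊢
    have : ∑ i, ((fun v => f v - a * H v) (mv i v) - (fun v => f v - a * H v) v)
        = ∑ i, (f (mv i v) - f v) - a * ∑ i, (H (mv i v) - H v) := by
      rw [Finset.mul_sum, ← Finset.sum_sub_distrib]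
      apply Finset.sum_congr rfl
      intro i _
      ring
    rw [this, h1, h2]; ring
  · intro i v
    have h1 := hL i v
    have h2 := hH.lip i v
    have e : (fun v => f v - a * H v) (mv i v) - (fun v => f v - a * H v) v
        = (f (mv i v) - f v) - a * (H (mv i v) - H v) := by ring
    rw [e]
    refine (abs_sub _ _).trans ?_
    rw [abs_mul]
    have := mul_le_mul_of_nonneg_left h2 (abs_nonneg a)
    linarith
  · have e2 := hH.cur 0
    unfold Strand.cur at e2 ha ⊢
    rw [E_sub_right f (fun v => a * H v) (GF_cut h 0), E_mul_right H a (GF_cut h 0)]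
    linear_combination (-a) * e2 - ha

lemma IsHC.M_pos (h : IsStrand mv rev pos r M N) {H : V → ℝ} (hH : IsHC mv pos H) :
    (1 : ℝ) ≤ M * Fintype.card ι := by
  have := h.abs_cur_le hH.lip zero_le_one 0
  rw [hH.cur 0, mul_one, abs_one] at this
  exact this

/-- energy of one block -/
lemma IsHC.en_block (h : IsStrand mv rev pos r M N) {H : V → ℝ} (hH : IsHC mv pos H) (c : ℤ) :
    4 / (M * Fintype.card ι : ℝ) ≤ h.en H H c (c + (2 * r + 1)) := by
  have hM := hH.M_pos h
  have e1 := hH.cur (c + r)
  rw [h.cur_eq] at e1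
  have e2 : (∑ p ∈ h.ed (c + r), grad mv (cut pos (c + r)) p * grad mv H p) ^ 2
      ≤ (∑ p ∈ h.ed (c + r), (grad mv (cut pos (c + r)) p) ^ 2)
        * (∑ p ∈ h.ed (c + r), (grad mv H p) ^ 2) := Finset.sum_mul_sq_le_sq_mul_sq _ _ _
  have e3 : ∑ p ∈ h.ed (c + r), (grad mv (cut pos (c + r)) p) ^ 2 ≤ M * Fintype.card ι := by
    calc ∑ p ∈ h.ed (c + r), (grad mv (cut pos (c + r)) p) ^ 2
        ≤ ∑ p ∈ h.ed (c + r), (1 : ℝ) := by
          apply Finset.sum_le_sum
          intro p _
          rw [← sq_abs]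
          exact pow_le_one₀ (abs_nonneg _) (abs_grad_cut_le _ p)
      _ = (h.ed (c + r)).card := by simp
      _ ≤ _ := by exact_mod_cast h.card_ed _
  have e4 : ∑ p ∈ h.ed (c + r), (grad mv H p) ^ 2 ≤ h.en H H c (c + (2 * r + 1)) := by
    unfold IsStrand.ed
    rw [Finset.sum_product]
    unfold IsStrand.en
    calc ∑ v ∈ h.win (c + r - r) (c + r + r), ∑ i, (grad mv H (v, i)) ^ 2
        ≤ ∑ v ∈ h.win c (c + (2 * r + 1)), ∑ i, (grad mv H (v, i)) ^ 2 := by
          apply Finset.sum_le_sum_of_subset_of_nonneg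
          · intro v hv
            rw [h.mem_win] at hv ⊢
            omega
          · intro v _ _
            exact Finset.sum_nonneg (fun i _ => sq_nonneg _)
      _ = _ := by
          apply Finset.sum_congr rfl
          intro v _
          apply Finset.sum_congr rfl
          intro i _
          ring
  have e5 : (∑ p ∈ h.ed (c + r), grad mv (cut pos (c + r)) p * grad mv H p) = 2 := by linarith
  rw [e5] at e2
  have e6 : 0 ≤ ∑ p ∈ h.ed (c + r), (grad mv H p) ^ 2 :=
    Finset.sum_nonneg (fun i _ => sq_nonneg _)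
  have e7 : (2 : ℝ) ^ 2 ≤ (M * Fintype.card ι) * h.en H H c (c + (2 * r + 1)) :=
    e2.trans (mul_le_mul e3 e4 e6 (by linarith))
  rw [div_le_iff₀ (by linarith)]
  linarith

/-- linear lower bound -/
theorem IsHC.lower (h : IsStrand mv rev pos r M N) {H : V → ℝ} (hH : IsHC mv pos H)
    {v w : V} (hvw : pos v ≤ pos w) :
    2 / (M * Fintype.card ι * (2 * r + 1) : ℝ) * ((pos w - pos v : ℤ) : ℝ)
      - (2 + M * Fintype.card ι * N) ≤ H w - H v := by
  have hM := hH.M_pos h
  set A : ℝ := M * Fintype.card ι with hA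
  have hA0 : 0 < A := by linarith
  -- energy of k blocks
  have hk : ∀ (k : ℕ) (c : ℤ), k * (4 / A) ≤ h.en H H c (c + k * (2 * r + 1)) := by
    intro k
    induction k with
    | zero => intro c; simpa using h.en_nonneg H c _
    | succ k ih =>
      intro c
      have h1 := ih c
      have h2 := hH.en_block h (c + k * (2 * r + 1))
      have h3 := h.en_add H (a := c) (b := c + k * (2 * r + 1))
        (c := c + k * (2 * r + 1) + (2 * r + 1)) (by nlinarith [Nat.zero_le k, Nat.zero_le r]) (by omega)
      have e : c + ((k + 1 : ℕ) : ℤ) * (2 * r + 1) = c + k * (2 * r + 1) + (2 * r + 1) := by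
        push_cast; ring
      rw [e, ← h3]
      push_cast
      linarith
  set D : ℕ := (pos w - pos v).toNat with hD
  set k : ℕ := D / (2 * r + 1) with hkdef
  have hDk : D < (k + 1) * (2 * r + 1) := by
    have := Nat.lt_div_mul_add (a := D) (b := 2 * r + 1) (by omega)
    rw [← hkdef] at this
    nlinarith
  have hDk2 : k * (2 * r + 1) ≤ D := Nat.div_mul_le_self _ _
  have h1 : k * (4 / A) ≤ h.en H H (pos v) (pos w) := by
    refine (hk k (pos v)).trans ?_
    apply h.en_mono H le_rfl
    have : ((k * (2 * r + 1) : ℕ) : ℤ) ≤ (D : ℤ) := by exact_mod_cast hDk2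
    push_cast at this
    omega
  have hg := green h H H hvw
  rw [Finset.sum_eq_zero (fun v _ => by rw [hH.harm v, mul_zero]), mul_zero,
    bd_const h H H (pos v) (H v), bd_const h H H (pos w) (H w), hH.cur, hH.cur] at hg
  have hb : ∀ u : V, |bd mv pos (fun x => H x - H u) H (pos u)| ≤ A * (N * 1) := by
    intro u
    apply h.abs_bd _ _ _ _ (by positivity) _ zero_le_one
    · intro p hp
      have := h.lip_near zero_le_one hH.lip (h.ed_near hp (v := u) (by simp))
      rw [one_mul, abs_sub_comm] at this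
      exact this
    · intro p _
      exact hH.lip p.2 p.1
  have hb1 := abs_le.1 (hb v)
  have hb2 := abs_le.1 (hb w)
  have hDr : ((pos w - pos v : ℤ) : ℝ) = D := by
    have : (D : ℤ) = pos w - pos v := by omega
    rw [← this]; push_cast; rfl
  rw [hDr]
  have hDk' : (D : ℝ) ≤ (k + 1) * (2 * r + 1) := by exact_mod_cast hDk.le
  have h5 : 2 / (A * (2 * r + 1) : ℝ) * D ≤ 2 / A * (k + 1) := by
    rw [div_mul_eq_mul_div, div_mul_eq_mul_div, div_le_div_iff₀ (by positivity) hA0]
    nlinarith
  have h6 : 2 / A ≤ 2 := by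
    rw [div_le_iff₀ hA0]; linarith
  have h7 : (4 : ℝ) / A = 2 * (2 / A) := by ring
  rw [h7] at h1
  nlinarith

/-- upper bound -/
theorem IsHC.upper (h : IsStrand mv rev pos r M N) {H : V → ℝ} (hH : IsHC mv pos H) (v w : V) :
    |H v - H w| ≤ N * (|pos v - pos w| + 1 : ℤ) := by
  have := h.lip_far zero_le_one hH.lip v w
  rwa [one_mul] at this

/-! ### Liouville -/

lemma IsStrand.neg (h : IsStrand mv rev pos r M N) :
    IsStrand mv rev (fun v => - pos v) r M N where
  rev_rev := h.rev_rev
  mv_rev := h.mv_rev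
  step := fun i v => by
    have := h.step i v
    rw [abs_sub_comm] at this
    convert this using 2
    ring
  fin := fun a b => by
    refine (h.fin (-b) (-a)).subset ?_
    intro v hv
    simp only [mem_setOf_eq] at hv ⊢
    omega
  width := fun a => by
    refine le_trans (le_of_eq ?_) (h.width (-a - 2 * r))
    congr 1
    ext v
    simp only [mem_setOf_eq]
    omega
  conn := fun v w hvw => by
    apply h.conn v w
    rw [abs_sub_comm] at hvw
    refine le_trans (le_of_eq ?_) hvw
    congr 1
    ring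
  hit := fun a => by
    obtain ⟨v, hv⟩ := h.hit (-a)
    refine ⟨v, ?_⟩
    rw [abs_sub_comm] at hv
    refine le_trans (le_of_eq ?_) hv
    congr 1
    ring

/-- one-sided barrier: a bounded subharmonic function is bounded on the right side by its maximum
on the zone. -/
lemma liouville_right (h : IsStrand mv rev pos r M N) {f H : V → ℝ} (hH : Harm mv H)
    (hHlow : ∃ ε C : ℝ, 0 < ε ∧ ∀ v w, pos v ≤ pos w → ε * ((pos w - pos v : ℤ) : ℝ) - C ≤ H w - H v)
    (hsub : ∀ v, 0 ≤ lap mv f v) {B m : ℝ} (hB : ∀ v, f v ≤ B)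
    (hm : ∀ v, |pos v| ≤ r → f v ≤ m) (v : V) (hv : -r ≤ pos v) : f v ≤ m := by
  by_contra hcon
  push Not at hcon
  obtain ⟨ε, C, hε, hlow⟩ := hHlow
  obtain ⟨u0, hu0⟩ := h.hit (-2 * r)
  rw [abs_le] at hu0
  -- choose η
  set a : ℝ := H v - H u0 with ha
  set C' : ℝ := |a| + |C| + 1 with hC'
  have hC'0 : 0 < C' := by positivity
  set η : ℝ := (f v - m) / (4 * C') with hη
  have hη0 : 0 < η := by
    rw [hη]; apply div_pos <;> linarith
  have e : η * C' = (f v - m) / 4 := by
    rw [hη]; field_simp
  set g : V → ℝ := fun u => f u - η * (H u - H u0) with hg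
  have hgv : m + 3 * (f v - m) / 4 ≤ g v := by
    simp only [hg]
    have : η * (H v - H u0) ≤ η * C' := by
      apply mul_le_mul_of_nonneg_left _ hη0.le
      rw [← ha, hC']
      linarith [le_abs_self a, abs_nonneg C]
    linarith
  have hlowu : ∀ u, -r ≤ pos u → ε * ((pos u - pos u0 : ℤ) : ℝ) - C ≤ H u - H u0 :=
    fun u hu => hlow u0 u (by omega)
  have hgz : ∀ u, |pos u| ≤ r → g u ≤ m + (f v - m) / 4 := by
    intro u hu
    simp only [hg]
    have hu' := abs_le.1 hu
    have h1 : - C' ≤ H u - H u0 := by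
      have h1 := hlowu u hu'.1
      have h2 : 0 ≤ ε * ((pos u - pos u0 : ℤ) : ℝ) := by
        apply mul_nonneg hε.le; exact_mod_cast (by omega : (0 : ℤ) ≤ pos u - pos u0)
      linarith [neg_abs_le C, le_abs_self C, abs_nonneg a]
    have h2 : η * (-C') ≤ η * (H u - H u0) := mul_le_mul_of_nonneg_left h1 hη0.le
    linarith [hm u hu]
  -- far away g is small
  obtain ⟨K, hK⟩ : ∃ K : ℤ, pos v ≤ K ∧ ∀ u, K < pos u → g u < g v := by
    obtain ⟨n, hn⟩ := exists_nat_gt ((B - g v + η * C) / (η * ε))
    refine ⟨max (pos v) (pos u0 + n), le_max_left _ _, ?_⟩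
    intro u hu
    have hu1 : pos v < pos u := lt_of_le_of_lt (le_max_left _ _) hu
    have hu2 : pos u0 + n < pos u := lt_of_le_of_lt (le_max_right _ _) hu
    have h1 := hlowu u (by omega)
    have h2 : (n : ℝ) ≤ ((pos u - pos u0 : ℤ) : ℝ) := by
      have : (n : ℤ) ≤ pos u - pos u0 := by omega
      exact_mod_cast this
    rw [div_lt_iff₀ (by positivity)] at hn
    have h3 : η * ε * n ≤ η * ε * ((pos u - pos u0 : ℤ) : ℝ) :=
      mul_le_mul_of_nonneg_left h2 (by positivity)
    have h4 : η * (ε * ((pos u - pos u0 : ℤ) : ℝ) - C) ≤ η * (H u - H u0) :=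
      mul_le_mul_of_nonneg_left h1 hη0.le
    have h5 := hB u
    simp only [hg] at *
    nlinarith
  obtain ⟨hK1, hK2⟩ := hK
  set F : Finset V := (h.fin (-r) K).toFinset with hF
  have memF : ∀ u, u ∈ F ↔ -r ≤ pos u ∧ pos u ≤ K := by
    intro u; rw [hF, Finite.mem_toFinset]; rfl
  obtain ⟨us, husF, hus⟩ := F.exists_max_image g ⟨v, (memF v).2 ⟨hv, hK1⟩⟩
  have hvus : g v ≤ g us := hus v ((memF v).2 ⟨hv, hK1⟩)
  have hmax : ∀ u, -r ≤ pos u → g u ≤ g us := by
    intro u hu
    by_cases hc : pos u ≤ K
    · exact hus u ((memF u).2 ⟨hu, hc⟩)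
    · push Not at hc
      exact (hK2 u hc).le.trans hvus
  obtain ⟨ws, hwsF, hws⟩ := (F.filter (fun u => g u = g us)).exists_min_image pos
    ⟨us, by rw [Finset.mem_filter]; exact ⟨husF, rfl⟩⟩
  rw [Finset.mem_filter] at hwsF
  have hP : ∀ u, (g u = g us ∧ -r ≤ pos u) → pos ws ≤ pos u := by
    rintro u ⟨hu1, hu2⟩
    apply hws
    rw [Finset.mem_filter, memF]
    refine ⟨⟨hu2, ?_⟩, hu1⟩
    by_contra hc
    push Not at hc
    have := hK2 u hc
    linarith
  have hwsr : (r : ℤ) < pos ws := by
    by_contra hc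
    push Not at hc
    have h1 := hgz ws (by rw [abs_le]; exact ⟨((memF ws).1 hwsF.1).1, hc⟩)
    rw [hwsF.2] at h1
    linarith
  have hlapg : ∀ u, 0 ≤ lap mv g u := by
    intro u
    have : lap mv g u = lap mv f u - η * lap mv H u := by
      unfold lap
      rw [Finset.mul_sum, ← Finset.sum_sub_distrib]
      apply Finset.sum_congr rfl
      intro i _
      simp only [hg]; ring
    rw [this, hH u]
    linarith [hsub u]
  have hstep : ∀ i u, (g u = g us ∧ -r ≤ pos u) → (g (mv i u) = g us ∧ -r ≤ pos (mv i u)) := by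
    intro i u hu
    have h1 := hP u hu
    have h2 : ∀ j, -r ≤ pos (mv j u) := fun j => by
      have := abs_le.1 (h.step j u)
      omega
    refine ⟨?_, h2 i⟩
    have h3 := hlapg u
    unfold lap at h3
    have h4 : ∀ j ∈ Finset.univ, 0 ≤ - (g (mv j u) - g u) := by
      intro j _
      have := hmax (mv j u) (h2 j)
      rw [hu.1]; linarith
    have h5 : ∑ j, - (g (mv j u) - g u) ≤ 0 := by
      rw [Finset.sum_neg_distrib]; linarith
    have h6 := (Finset.sum_eq_zero_iff_of_nonneg h4).1
      (le_antisymm h5 (Finset.sum_nonneg h4)) i (Finset.mem_univ i)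
    rw [hu.1] at h6
    linarith
  obtain ⟨w', hw'⟩ := h.hit (pos ws - r - 1)
  rw [abs_le] at hw'
  obtain ⟨l, -, hl⟩ := h.conn ws w' (by rw [abs_le]; constructor <;> omega)
  have h1 := foldr_ind (mv := mv) (P := fun u => g u = g us ∧ -r ≤ pos u) hstep l
    (v := ws) ⟨hwsF.2, ((memF ws).1 hwsF.1).1⟩
  rw [hl] at h1
  have := hP w' h1
  omega

/-- **Liouville**: a subharmonic function which is bounded above is constant. -/
theorem liouville (h : IsStrand mv rev pos r M N) {f H : V → ℝ} (hH : IsHC mv pos H)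
    (hsub : ∀ v, 0 ≤ lap mv f v) {B : ℝ} (hB : ∀ v, f v ≤ B) (v w : V) : f v = f w := by
  classical
  -- maximum on the zone
  obtain ⟨z0, hz0⟩ := h.hit 0
  rw [sub_zero] at hz0
  set Z : Finset V := (h.fin (-r) r).toFinset with hZ
  have memZ : ∀ u, u ∈ Z ↔ |pos u| ≤ r := by
    intro u; rw [hZ, Finite.mem_toFinset, abs_le]; rfl
  obtain ⟨z, hzZ, hz⟩ := Z.exists_max_image f ⟨z0, (memZ z0).2 hz0⟩
  have hM := hH.M_pos h
  have hlow1 : ∃ ε C : ℝ, 0 < ε ∧ ∀ v w, pos v ≤ pos w →
      ε * ((pos w - pos v : ℤ) : ℝ) - C ≤ H w - H v :=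
    ⟨2 / (M * Fintype.card ι * (2 * r + 1) : ℝ), _, by positivity,
      fun v w hvw => hH.lower h hvw⟩
  have hright := liouville_right h hH.harm hlow1 hsub hB (m := f z)
    (fun u hu => hz u ((memZ u).2 hu))
  have hleft := liouville_right h.neg (f := f) (H := fun v => - H v) ?_ ?_ hsub hB (m := f z)
    (fun u hu => hz u ((memZ u).2 (by rwa [abs_neg] at hu)))
  · have hmax : ∀ u, f u ≤ f z := by
      intro u
      by_cases hc : -r ≤ pos u
      · exact hright u hc
      · exact hleft u (by omega)
    have hprop : ∀ i u, f u = f z → f (mv i u) = f z := by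
      intro i u hu
      have h3 := hsub u
      unfold lap at h3
      have h4 : ∀ j ∈ Finset.univ, 0 ≤ - (f (mv j u) - f u) := by
        intro j _
        have := hmax (mv j u)
        rw [hu]; linarith
      have h5 : ∑ j, - (f (mv j u) - f u) ≤ 0 := by
        rw [Finset.sum_neg_distrib]; linarith
      have h6 := (Finset.sum_eq_zero_iff_of_nonneg h4).1
        (le_antisymm h5 (Finset.sum_nonneg h4)) i (Finset.mem_univ i)
      rw [hu] at h6
      linarith
    have hprop' : ∀ i u, f (mv i u) = f z → f u = f z := by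
      intro i u hu
      have := hprop (rev i) _ hu
      rwa [h.mv_rev] at this
    have key := h.const_of_lip_zero (f := fun u => if f u = f z then (0 : ℝ) else 1) ?_
    · have h1 : ∀ u, f u = f z := by
        intro u
        have := key u z
        simp only [if_true] at this
        by_contra hc
        rw [if_neg hc] at this
        norm_num at this
      rw [h1 v, h1 w]
    · intro i u
      by_cases hc : f u = f z
      · rw [if_pos hc, if_pos (hprop i u hc)]
      · rw [if_neg hc, if_neg (fun hh => hc (hprop' i u hh))]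
  · intro u
    have := hH.harm u
    unfold lap at this ⊢
    have e : ∑ i, ((fun v => - H v) (mv i u) - (fun v => - H v) u) = - ∑ i, (H (mv i u) - H u) := by
      rw [← Finset.sum_neg_distrib]
      apply Finset.sum_congr rfl
      intro i _
      ring
    rw [e, this, neg_zero]
  · obtain ⟨ε, C, hε, hlow⟩ := hlow1
    refine ⟨ε, C, hε, ?_⟩
    intro v w hvw
    have := hlow w v (by omega)
    push_cast at this ⊢
    linarith

/-! ### existence -/

/-- the function extended by zero -/
noncomputable def IsStrand.ext (h : IsStrand mv rev pos r M N) (n : ℕ)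
    (u : (h.win (-n) n) → ℝ) (v : V) : ℝ :=
  open Classical in if hv : v ∈ h.win (-n) n then u ⟨v, hv⟩ else 0

/-- Dirichlet Laplacian as a linear map -/
noncomputable def IsStrand.dir (h : IsStrand mv rev pos r M N) (n : ℕ) :
    ((h.win (-n) n) → ℝ) →ₗ[ℝ] ((h.win (-n) n) → ℝ) where
  toFun u := fun v => lap mv (h.ext n u) v
  map_add' u w := by
    funext v
    simp only [lap, Pi.add_apply]
    rw [← Finset.sum_add_distrib]
    apply Finset.sum_congr rfl
    intro i _
    have : ∀ x, h.ext n (u + w) x = h.ext n u x + h.ext n w x := by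
      intro x
      unfold IsStrand.ext
      split_ifs
      · rfl
      · simp
    rw [this, this]; ring
  map_smul' a u := by
    funext v
    simp only [lap, Pi.smul_apply, RingHom.id_apply, smul_eq_mul]
    rw [Finset.mul_sum]
    apply Finset.sum_congr rfl
    intro i _
    have : ∀ x, h.ext n (a • u) x = a * h.ext n u x := by
      intro x
      unfold IsStrand.ext
      split_ifs
      · rfl
      · simp
    rw [this, this]; ring

lemma IsStrand.ext_supp (h : IsStrand mv rev pos r M N) (n : ℕ) (u : (h.win (-n) n) → ℝ) :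
    (support (h.ext n u)).Finite := by
  refine (h.win (-n) n).finite_toSet.subset ?_
  intro v hv
  simp only [mem_support, ne_eq] at hv
  rw [Finset.mem_coe]
  by_contra hc
  apply hv
  unfold IsStrand.ext
  rw [dif_neg hc]

lemma IsStrand.ext_out (h : IsStrand mv rev pos r M N) (n : ℕ) (u : (h.win (-n) n) → ℝ)
    {v : V} (hv : v ∉ h.win (-n) n) : h.ext n u v = 0 := by
  unfold IsStrand.ext
  rw [dif_neg hv]

/-- if the Dirichlet form of `φ` with itself vanishes then `φ` is constant -/
lemma E_self_zero (h : IsStrand mv rev pos r M N) {φ : V → ℝ} (hφ : GF mv φ)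
    (h0 : E mv φ φ = 0) (v w : V) : φ v = φ w := by
  apply h.const_of_lip_zero
  intro i v
  unfold E at h0
  have h1 : ∀ p : V × ι, 0 ≤ grad mv φ p * grad mv φ p := fun p => mul_self_nonneg _
  have h2 := single_le_finsum (v, i) (finsupp_mul_left hφ) h1
  rw [h0] at h2
  have h3 : grad mv φ (v, i) = 0 := by nlinarith [mul_self_nonneg (grad mv φ (v, i))]
  simp only [grad] at h3
  linarith

/-- solution of the Dirichlet problem -/
lemma IsStrand.solve (h : IsStrand mv rev pos r M N) (n : ℕ) :
    ∃ w : V → ℝ, (∀ v ∈ h.win (-n) n, lap mv w v = 0) ∧ (∀ v, pos v ≤ -n → w v = 0) ∧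
      (∀ v, (n : ℤ) < pos v → w v = 1) := by
  have hinj : Function.Injective (h.dir n) := by
    rw [injective_iff_map_eq_zero]
    intro u hu
    have h1 := sbp h (φ := h.ext n u) (h.ext n u) (h.ext_supp n u)
    have h2 : ∀ v, h.ext n u v * lap mv (h.ext n u) v = 0 := by
      intro v
      by_cases hv : v ∈ h.win (-n) n
      · have := congrFun hu ⟨v, hv⟩
        have h3 : lap mv (h.ext n u) v = 0 := this
        rw [h3, mul_zero]
      · rw [h.ext_out n u hv, zero_mul]
    rw [finsum_congr h2, finsum_zero, mul_zero] at h1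
    obtain ⟨z, hz⟩ := h.hit (n + r + 1)
    rw [abs_le] at hz
    funext v
    have h4 := E_self_zero h (GF_of_fin h (h.ext_supp n u)) h1 v z
    rw [h.ext_out n u (v := z) (by rw [h.mem_win]; omega)] at h4
    have h5 : h.ext n u v = u v := by
      unfold IsStrand.ext
      rw [dif_pos v.2]
    rw [← h5, h4]; rfl
  have hsurj : Function.Surjective (h.dir n) := LinearMap.injective_iff_surjective.1 hinj
  obtain ⟨u, hu⟩ := hsurj (fun v => - lap mv (cut pos n) v)
  refine ⟨fun v => h.ext n u v + cut pos n v, ?_, ?_, ?_⟩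
  · intro v hv
    have h1 := congrFun hu ⟨v, hv⟩
    have h2 : lap mv (h.ext n u) v = - lap mv (cut pos n) v := h1
    have h3 : lap mv (fun v => h.ext n u v + cut pos n v) v
        = lap mv (h.ext n u) v + lap mv (cut pos n) v := by
      unfold lap
      rw [← Finset.sum_add_distrib]
      apply Finset.sum_congr rfl
      intro i _
      ring
    rw [h3, h2]; ring
  · intro v hv
    show h.ext n u v + cut pos n v = 0
    rw [h.ext_out n u (v := v) (by rw [h.mem_win]; omega)]
    unfold cut
    rw [if_neg (by omega)]; ring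
  · intro v hv
    show h.ext n u v + cut pos n v = 1
    rw [h.ext_out n u (v := v) (by rw [h.mem_win]; omega)]
    unfold cut
    rw [if_pos (by omega)]; ring

/-- the level set function -/
noncomputable def lev (w : V → ℝ) (t : ℝ) (v : V) : ℝ := open Classical in if t < w v then 1 else 0

lemma E_of_supp (h : IsStrand mv rev pos r M N) {n : ℕ} {w φ : V → ℝ}
    (h1 : ∀ v ∈ h.win (-n) n, lap mv w v = 0) (hφ : ∀ v, v ∉ h.win (-n) n → φ v = 0) :
    (support φ).Finite ∧ E mv φ w = 0 := by
  have hs : (support φ).Finite := by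
    refine (h.win (-n) n).finite_toSet.subset ?_
    intro v hv
    simp only [mem_support, ne_eq] at hv
    rw [Finset.mem_coe]
    by_contra hc
    exact hv (hφ v hc)
  refine ⟨hs, ?_⟩
  rw [sbp h w hs]
  have h2 : ∀ v, φ v * lap mv w v = 0 := by
    intro v
    by_cases hv : v ∈ h.win (-n) n
    · rw [h1 v hv, mul_zero]
    · rw [hφ v hv, zero_mul]
  rw [finsum_congr h2, finsum_zero, mul_zero]

lemma lev_E (h : IsStrand mv rev pos r M N) {n : ℕ} {w : V → ℝ}
    (h1 : ∀ v ∈ h.win (-n) n, lap mv w v = 0) (h2 : ∀ v, pos v ≤ -n → w v = 0)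
    (h3 : ∀ v, (n : ℤ) < pos v → w v = 1) (t : ℝ) :
    GF mv (lev w t) ∧ (E mv (lev w t) w = 0 ∨ E mv (lev w t) w = 2 * cur mv pos w 0) := by
  have hcase : ∀ χ : V → ℝ, GF mv χ → (∀ v, v ∉ h.win (-n) n → lev w t v - χ v = 0) →
      GF mv (lev w t) ∧ E mv (lev w t) w = E mv χ w := by
    intro χ hχ hsup
    obtain ⟨a1, a2⟩ := E_of_supp h h1 hsup
    have e : lev w t = fun v => (lev w t v - χ v) + χ v := by funext v; ring
    refine ⟨?_, ?_⟩
    · rw [e]
      exact GF.add (GF_of_fin h a1) hχ
    · conv_lhs => rw [e]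
      rw [E_add_left w (GF_of_fin h a1) hχ, a2, zero_add]
  have hgc : ∀ a : ℝ, GF mv (fun _ : V => a) ∧ E mv (fun _ : V => a) w = 0 := by
    intro a
    have : ∀ p : V × ι, grad mv (fun _ : V => a) p = 0 := by intro p; unfold grad; ring
    constructor
    · unfold GF
      have : support (grad mv (fun _ : V => a)) = ∅ := by
        ext p; simp [this p]
      rw [this]; exact Set.finite_empty
    · unfold E
      rw [finsum_congr (fun p => by rw [this p, zero_mul]), finsum_zero]
  rcases lt_or_ge t 0 with ht | ht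
  · obtain ⟨b1, b2⟩ := hcase (fun _ => 1) (hgc 1).1 (by
      intro v hv
      rw [h.mem_win] at hv
      have : t < w v := by
        by_cases hc : pos v ≤ -n
        · rw [h2 v hc]; exact ht
        · rw [h3 v (by omega)]; linarith
      unfold lev
      rw [if_pos this]; ring)
    exact ⟨b1, Or.inl (by rw [b2, (hgc 1).2])⟩
  rcases lt_or_ge t 1 with ht1 | ht1
  · obtain ⟨b1, b2⟩ := hcase (cut pos 0) (GF_cut h 0) (by
      intro v hv
      rw [h.mem_win] at hv
      by_cases hc : pos v ≤ -n
      · have : ¬ t < w v := by rw [h2 v hc]; linarith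
        unfold lev cut
        rw [if_neg this, if_neg (by omega)]; ring
      · have : t < w v := by rw [h3 v (by omega)]; linarith
        unfold lev cut
        rw [if_pos this, if_pos (by omega)]; ring)
    refine ⟨b1, Or.inr ?_⟩
    rw [b2]; unfold cur; ring
  · obtain ⟨b1, b2⟩ := hcase (fun _ => 0) (hgc 0).1 (by
      intro v hv
      rw [h.mem_win] at hv
      have : ¬ t < w v := by
        by_cases hc : pos v ≤ -n
        · rw [h2 v hc]; linarith
        · rw [h3 v (by omega)]; linarith
      unfold lev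
      rw [if_neg this]; ring)
    exact ⟨b1, Or.inl (by rw [b2, (hgc 0).2])⟩

lemma two_le_E (h : IsStrand mv rev pos r M N) {w : V → ℝ} {t : ℝ} (hg : GF mv (lev w t))
    {v : V} {i : ι} (h1 : w v ≤ t) (h2 : t < w (mv i v)) :
    2 * (w (mv i v) - w v) ≤ E mv (lev w t) w := by
  classical
  set F : V × ι → ℝ := fun p => grad mv (lev w t) p * grad mv w p with hF
  have hnn : ∀ p, 0 ≤ F p := by
    intro p
    simp only [hF, grad, lev]
    split_ifs with a1 a2 a2
    · simp
    · rw [sub_zero, one_mul]; linarith [not_lt.1 a2]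
    · have := not_lt.1 a1
      nlinarith
    · simp
  have hFe : F (h.e (v, i)) = F (v, i) := by
    simp only [hF]
    rw [grad_e, grad_e]; ring
  have hF0 : F (v, i) = w (mv i v) - w v := by
    simp only [hF, grad, lev]
    rw [if_pos h2, if_neg (not_lt.2 h1)]; ring
  have hne : (v, i) ≠ h.e (v, i) := by
    intro hc
    have := congrArg Prod.fst hc
    simp only [IsStrand.e_apply] at this
    rw [← this] at h2
    linarith
  have hfin : (support F).Finite := finsupp_mul_left hg
  unfold E
  have hE : ∑ᶠ p, F p = ∑ p ∈ hfin.toFinset ∪ {(v, i), h.e (v, i)}, F p := by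
    apply finsum_eq_sum_of_support_subset
    intro p hp
    rw [Finset.mem_coe, Finset.mem_union]
    left
    rwa [Finite.mem_toFinset]
  have hle : ∑ p ∈ ({(v, i), h.e (v, i)} : Finset (V × ι)), F p
      ≤ ∑ p ∈ hfin.toFinset ∪ {(v, i), h.e (v, i)}, F p :=
    Finset.sum_le_sum_of_subset_of_nonneg Finset.subset_union_right (fun p _ _ => hnn p)
  rw [Finset.sum_pair hne, hFe, hF0] at hle
  rw [hE]
  linarith

lemma IsStrand.exists_fin (h : IsStrand mv rev pos r M N) (n : ℕ) :
    ∃ H : V → ℝ, (∀ v ∈ h.win (-n) n, lap mv H v = 0) ∧ Lip mv 1 H ∧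
      (∀ c : ℤ, -n ≤ c → c ≤ n → cur mv pos H c = 1) := by
  obtain ⟨w, h1, h2, h3⟩ := h.solve n
  set J : ℝ := cur mv pos w 0 with hJ
  have hstep : ∀ i v, 0 < w (mv i v) - w v → w (mv i v) - w v ≤ J := by
    intro i v hpos
    obtain ⟨a1, a2⟩ := lev_E h h1 h2 h3 (w v)
    have a3 := two_le_E h a1 (v := v) (i := i) le_rfl (by linarith)
    rcases a2 with a2 | a2
    · rw [a2] at a3; linarith
    · rw [a2] at a3; linarith
  have hJ0 : 0 < J := by
    by_contra hc
    push Not at hc
    have h4 : ∀ i v, w (mv i v) ≤ w v := by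
      intro i v
      by_contra hcc
      push Not at hcc
      have := hstep i v (by linarith)
      linarith
    have h5 : ∀ i v, w (mv i v) = w v := by
      intro i v
      apply le_antisymm (h4 i v)
      have := h4 (rev i) (mv i v)
      rwa [h.mv_rev] at this
    obtain ⟨a, ha⟩ := h.hit (-n - r)
    obtain ⟨b, hb⟩ := h.hit (n + r + 1)
    rw [abs_le] at ha hb
    have := h.const_of_lip_zero h5 a b
    rw [h2 a (by omega), h3 b (by omega)] at this
    norm_num at this
  have hlip : ∀ i v, |w (mv i v) - w v| ≤ J := by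
    intro i v
    rw [abs_le]
    constructor
    · by_cases hc : 0 < w v - w (mv i v)
      · have := hstep (rev i) (mv i v) (by rw [h.mv_rev]; exact hc)
        rw [h.mv_rev] at this
        linarith
      · linarith
    · by_cases hc : 0 < w (mv i v) - w v
      · exact hstep i v hc
      · linarith
  refine ⟨fun v => J⁻¹ * w v, ?_, ?_, ?_⟩
  · intro v hv
    have := h1 v hv
    unfold lap at this ⊢
    have e : ∑ i, (J⁻¹ * w (mv i v) - J⁻¹ * w v) = J⁻¹ * ∑ i, (w (mv i v) - w v) := by
      rw [Finset.mul_sum]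
      apply Finset.sum_congr rfl
      intro i _
      ring
    rw [e, this, mul_zero]
  · intro i v
    have e : J⁻¹ * w (mv i v) - J⁻¹ * w v = J⁻¹ * (w (mv i v) - w v) := by ring
    rw [e, abs_mul, abs_of_pos (inv_pos.2 hJ0), inv_mul_le_iff₀ hJ0, mul_one]
    exact hlip i v
  · intro c hc1 hc2
    have h4 : cur mv pos w c = J := by
      rw [hJ]
      rcases le_total c 0 with hc | hc
      · have := cur_sub h w hc
        rw [Finset.sum_eq_zero (fun v hv => h1 v (by
          rw [h.mem_win] at hv ⊢; omega))] at this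
        linarith
      · have := cur_sub h w hc
        rw [Finset.sum_eq_zero (fun v hv => h1 v (by
          rw [h.mem_win] at hv ⊢; omega))] at this
        linarith
    unfold cur at h4 ⊢
    rw [E_mul_right w J⁻¹ (GF_cut h c)]
    field_simp
    linarith

/-- **Existence** of the harmonic coordinate. -/
theorem IsStrand.exists_hc (h : IsStrand mv rev pos r M N) : ∃ H : V → ℝ, IsHC mv pos H := by
  choose Hn hn1 hn2 hn3 using h.exists_fin
  obtain ⟨v0, -⟩ := h.hit 0
  let U : Ultrafilter ℕ := Filter.hyperfilter ℕ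
  have hUtop : (U : Filter ℕ) ≤ Filter.atTop := by
    rw [← Nat.cofinite_eq_atTop]
    exact Filter.hyperfilter_le_cofinite
  have hlim : ∀ v, ∃ y : ℝ, Filter.Tendsto (fun n => Hn n v - Hn n v0) (U : Filter ℕ) (nhds y) := by
    intro v
    set B : ℝ := N * (|pos v - pos v0| + 1 : ℤ) with hB
    have hb : ∀ n, Hn n v - Hn n v0 ∈ Icc (-B) B := by
      intro n
      have := h.lip_far zero_le_one (hn2 n) v v0
      rw [one_mul, abs_le] at this
      exact this
    obtain ⟨y, -, hy⟩ := isCompact_Icc.ultrafilter_le_nhds (U.map (fun n => Hn n v - Hn n v0))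
      (by
        rw [Filter.le_principal_iff, Ultrafilter.mem_coe, Ultrafilter.mem_map]
        exact Filter.Eventually.of_forall hb)
    exact ⟨y, hy⟩
  choose H hH using hlim
  have hdiff : ∀ v w, Filter.Tendsto (fun n => Hn n w - Hn n v) (U : Filter ℕ) (nhds (H w - H v)) := by
    intro v w
    have := (hH w).sub (hH v)
    refine this.congr ?_
    intro n
    ring
  refine ⟨H, ?_, ?_, ?_⟩
  · intro v
    have h1 : Filter.Tendsto (fun n => lap mv (Hn n) v) (U : Filter ℕ) (nhds (lap mv H v)) := by
      unfold lap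
      exact tendsto_finset_sum _ (fun i _ => hdiff v (mv i v))
    have h2 : Filter.Tendsto (fun n => lap mv (Hn n) v) (U : Filter ℕ) (nhds 0) := by
      apply tendsto_const_nhds.congr'
      have : ∀ᶠ n : ℕ in (U : Filter ℕ), (pos v).natAbs + 1 ≤ n :=
        hUtop (Filter.eventually_ge_atTop _)
      filter_upwards [this] with n hn
      rw [hn1 n v (by rw [h.mem_win]; omega)]
    exact tendsto_nhds_unique h1 h2
  · intro i v
    have h1 := (hdiff v (mv i v)).abs
    exact le_of_tendsto' h1 (fun n => hn2 n i v)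
  · intro c
    have h1 : Filter.Tendsto (fun n => cur mv pos (Hn n) c) (U : Filter ℕ)
        (nhds (cur mv pos H c)) := by
      simp_rw [h.cur_eq]
      apply Filter.Tendsto.const_mul
      apply tendsto_finset_sum
      intro p _
      exact (hdiff p.1 (mv p.2 p.1)).const_mul _
    have h2 : Filter.Tendsto (fun n => cur mv pos (Hn n) c) (U : Filter ℕ) (nhds 1) := by
      apply tendsto_const_nhds.congr'
      have : ∀ᶠ n : ℕ in (U : Filter ℕ), c.natAbs ≤ n :=
        hUtop (Filter.eventually_ge_atTop _)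
      filter_upwards [this] with n hn
      rw [hn3 n c (by omega) (by omega)]
    exact tendsto_nhds_unique h1 h2

end NIG.Strand
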