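import Pool.Agent.helper97.NIG.Desc6

/-!
# NIG / P5 : the strip theorem, preliminaries (helper97)
-/

open scoped BigOperators
open Set Function

set_option linter.unusedSectionVars false
set_option linter.deprecated false

namespace Pool.Agent.helper98.NIG

variable {b : Base} {F : Type} [Fintype F]

namespace Sys

variable {A : Sys b F}

/-- the rows of the strip -/
def SR (A : Sys b F) (z y : Pt b F) (l r : ℤ) (a : Pt b F) : Set (Pt b F) :=
  {q | ∃ k, A.RIn z l r z k ∧ k z = a ∧ q = k y}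

theorem SR_fam {c0 : ℕ} (hc : A.BCc c0) {z y : Pt b F} (hz : z ∈ A.D) {l r : ℤ}
    (hl : l + c0 ≤ 0) (hr : (c0 : ℤ) ≤ r)
    (hfin : {t : Pt b F | ∃ h, A.RIn z l r z h ∧ h z = z ∧ t = h y}.Finite) :
    A.PFam c0 z y l r (A.SR z y l r) := by
  have hc0 : (0 : ℤ) ≤ c0 := by positivity
  have h0 : pos z z = 0 := pos_self z
  have hzz := A.orb_self z
  refine ⟨?_, ?_, ?_, ?_⟩
  · intro a ha e1 e2
    obtain ⟨k, hk, hka⟩ := exists_path hc hz hzz ha (l := l) (r := r) (by linarith)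
      (by linarith) e1 e2
    exact ⟨k y, k, hk, hka, rfl⟩
  · intro a ha e1 e2
    obtain ⟨k0, hk0, hk0a⟩ := exists_path hc hz hzz ha (l := l) (r := r) (by linarith)
      (by linarith) e1 e2
    refine (hfin.image k0).subset ?_
    rintro q ⟨k, hk, hka, rfl⟩
    have hinv : A.RIn z l r a k0⁻¹ := by
      have := hk0.inv hzz (by linarith) (by linarith)
      rw [hk0a] at this
      exact this
    refine ⟨(k0⁻¹ * k) y, ⟨k0⁻¹ * k, ?_, ?_, rfl⟩, ?_⟩
    · refine hk.trans hzz ?_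
      rw [hka]
      exact hinv
    · rw [Equiv.Perm.mul_apply, hka, ← hk0a, pinv_apply]
    · rw [Equiv.Perm.mul_apply, papply_inv]
  · rintro a ha e1 e2 q ⟨k, hk, hka, rfl⟩
    exact ⟨k, hk.mem_G, rfl⟩
  · intro a ha e1 e2 h hh e3 e4
    ext q
    constructor
    · rintro ⟨k, hk, hka, rfl⟩
      have hinv : A.RIn z l r (h a) h⁻¹ := hh.inv ha (by linarith) (by linarith)
      refine ⟨(h⁻¹ * k) y, ⟨h⁻¹ * k, ?_, ?_, rfl⟩, ?_⟩
      · refine hk.trans hzz ?_
        rw [hka]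
        exact hinv
      · rw [Equiv.Perm.mul_apply, hka, pinv_apply]
      · rw [Equiv.Perm.mul_apply, papply_inv]
    · rintro ⟨_, ⟨k, hk, hka, rfl⟩, rfl⟩
      refine ⟨h * k, ?_, ?_, ?_⟩
      · refine hk.trans hzz ?_
        rw [hka]
        exact hh
      · rw [Equiv.Perm.mul_apply, hka]
      · rw [Equiv.Perm.mul_apply]

/-- one token locked over the whole strip is enough -/
theorem SR_lock {z y : Pt b F} {l r : ℤ} (hl : l ≤ 0) (hr : 0 ≤ r) {a q : Pt b F}
    (ha : a ∈ A.orb z) (h1 : l ≤ pos z a) (h2 : pos z a ≤ r) (hq : q ∈ A.SR z y l r a)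
    (hlock : A.LockI z l r a q) : A.LockI z l r z y := by
  have h0 : pos z z = 0 := pos_self z
  obtain ⟨k, hk, hka, rfl⟩ := hq
  have hinv : A.RIn z l r a k⁻¹ := by
    have := hk.inv (A.orb_self z) (by linarith) (by linarith)
    rw [hka] at this
    exact this
  have := hlock.map ha h1 h2 hinv
  rw [pinv_apply, ← hka, pinv_apply] at this
  exact this

/-- prolongation at both ends -/
theorem strip_end {c0 W2 L2 : ℕ} {z : Pt b F} {l r : ℤ} (hGL : A.GoodL c0 W2 L2 z l)
    (hGR : A.GoodR c0 W2 L2 z r) {q : Pt b F} (hq : q ∈ A.D) {p p' : ℤ}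
    (hlock : A.LockI z p p' z q) (hp : p ≤ l + W2) (hp' : r - W2 ≤ p')
    (hl : l + W2 + L2 + c0 ≤ 0) (hr : (W2 + L2 + c0 : ℤ) ≤ r) : A.LockI z l r z q := by
  have h0 : pos z z = 0 := pos_self z
  have hc0 : (0 : ℤ) ≤ c0 := by positivity
  have hL20 : (0 : ℤ) ≤ L2 := by positivity
  have hW20 : (0 : ℤ) ≤ W2 := by positivity
  have h1 := hGL z (A.orb_self z) q hq (r - W2) (by linarith) (by linarith) (by linarith)
    (hlock.mono hp hp')
  exact hGR z (A.orb_self z) q hq l (by linarith) (by linarith) (by linarith) h1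

/-- the least left end of a lock -/
theorem exists_end {z a t : Pt b F} {l w r : ℤ} (hlw : l ≤ w) (h1 : A.LockI z w r a t)
    (h2 : ¬ A.LockI z l r a t) : ∃ e, l < e ∧ e ≤ w ∧ A.LockI z e r a t ∧
      ¬ A.LockI z (e - 1) r a t := by
  have key : ∀ (k : ℕ) (w : ℤ), l ≤ w → w ≤ l + k → A.LockI z w r a t → ∃ e, l < e ∧ e ≤ w ∧
      A.LockI z e r a t ∧ ¬ A.LockI z (e - 1) r a t := by
    intro k
    induction k with
    | zero =>
      intro w e1 e2 e3
      have : w = l := by push_cast at e2; omega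
      rw [this] at e3
      exact absurd e3 h2
    | succ k ih =>
      intro w e1 e2 e3
      by_cases hc : A.LockI z (w - 1) r a t
      · by_cases hw : w = l
        · rw [hw] at e3
          exact absurd e3 h2
        · obtain ⟨e, f1, f2, f3, f4⟩ := ih (w - 1) (by omega) (by push_cast at e2; omega) hc
          exact ⟨e, f1, by omega, f3, f4⟩
      · refine ⟨w, ?_, le_rfl, e3, hc⟩
        by_contra hcon
        push Not at hcon
        have : w = l := by omega
        rw [this] at e3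
        exact h2 e3
  exact key (w - l).toNat w hlw (by omega) h1

/-- (A3), general form -/
theorem far_left {c0 Lg R0 K W' Y0 : ℕ} {Kr : ℝ} (hc : A.BCc c0) (hSP : A.SP c0 K)
    (hLg : 2 * c0 + 2 * A.ρ ≤ Lg)
    (hKr : 2 * (K * (((Y0 + R0 + A.ρ : ℕ) : ℝ) + 1)) < Kr)
    (hUR : ∀ z ∈ A.D, ∀ y ∈ A.D,
      (∃ h, A.Reach z (Set.Icc (-((Lg + 1 : ℕ) : ℤ)) (Lg + 1 : ℕ)) h ∧ h z = z ∧ h y ≠ y) →
      ∃ h, A.Reach z (Set.Icc (-(W' : ℤ)) W') h ∧ h z = z ∧ Kr ≤ A.dh y (h y))
    {z y : Pt b F} {l x e : ℤ} {R : Pt b F → Set (Pt b F)} {a0 t0 : Pt b F}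
    (hz : z ∈ A.D) (hy : y ∈ A.D) (hfam : A.PFam c0 z y l x R) (ha0 : a0 ∈ A.orb z)
    (hp1 : e + c0 ≤ pos z a0) (hp2 : pos z a0 ≤ x - c0) (t_mem : t0 ∈ R a0)
    (t_end : ∀ h, A.RIn z e x a0 h → e + c0 ≤ pos z (h a0) → pos z (h a0) ≤ e + Lg - c0 →
      ¬ A.LockI z (e - 1) (e + Lg) (h a0) (h t0))
    {v1 w : ℤ} (hvw : w ≤ v1 + R0)
    (hew : e ≤ w) {a2 : Pt b F} (ha2 : a2 ∈ A.orb z) (s1 : w + c0 ≤ pos z a2)
    (s2 : pos z a2 ≤ w + c0 + A.ρ)
    (hright : ∀ k, A.RIn z e x a0 k → k a0 = a2 → A.IsTop R a2 (k t0))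
    (hw : w + 2 * c0 + A.ρ ≤ x) (hw2 : w + (W' + c0 + A.ρ) ≤ x) (hl : l + W' + c0 ≤ e) :
    e + Y0 < v1 := by
  by_contra hcon
  push Not at hcon
  have hLg' : (2 * c0 + 2 * A.ρ : ℤ) ≤ Lg := by exact_mod_cast hLg
  have hc0 : (0 : ℤ) ≤ c0 := by positivity
  have hR0 : (0 : ℤ) ≤ R0 := by positivity
  have hρ0 : (0 : ℤ) ≤ A.ρ := by positivity
  have hW'0 : (0 : ℤ) ≤ W' := by positivity
  have hY00 : (0 : ℤ) ≤ Y0 := by positivity
  obtain ⟨ae, hae, r1, r2⟩ := exists_at hz (e + c0)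
  obtain ⟨he, hhe, hhea⟩ := exists_path hc hz ha0 hae (l := e) (r := x) (by linarith)
    (by linarith) (by linarith) (by linarith)
  have hheR : A.RIn z l x a0 he := hhe.mono (by linarith) le_rfl
  have hsub0 := hfam.sub a0 ha0 (by linarith) (by linarith)
  have hsube := hfam.sub ae hae (by linarith) (by linarith)
  have hsub2 := hfam.sub a2 ha2 (by linarith) (by linarith)
  have hte : he t0 ∈ R ae := by
    have := (hfam.mem ha0 (by linarith) (by linarith) hheR (t := t0)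
      (by rw [hhea]; linarith) (by rw [hhea]; linarith)).2 t_mem
    rw [hhea] at this
    exact this
  have hend := t_end he hhe (by rw [hhea]; linarith) (by rw [hhea]; linarith)
  unfold LockI at hend
  push Not at hend
  obtain ⟨u, hu, hua, hut⟩ := hend
  rw [hhea] at hu hua
  obtain ⟨g, hg, hga, hgK⟩ := hUR ae (orb_mem_D hz hae) (he t0) (mem_D_of_orb' hy (hsube hte))
    ⟨u, Reach.mono (Set.Icc_subset_Icc (by push_cast; linarith) (by push_cast; linarith)) hu, hua,
      hut⟩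
  have hgR : A.RIn z l x ae g := Reach.mono
    (Set.Icc_subset_Icc (by linarith) (by linarith)) hg
  have hgte : g (he t0) ∈ R ae := by
    have := (hfam.mem hae (by linarith) (by linarith) hgR (t := he t0)
      (by rw [hga]; linarith) (by rw [hga]; linarith)).2 hte
    rw [hga] at this
    exact this
  obtain ⟨k, hk, hka, hs⟩ := hSP z hz ae hae a2 ha2 e x (by linarith) (by linarith)
    (by linarith) (by linarith) (((Y0 + R0 + A.ρ : ℕ) : ℝ)) (by
      have e1 : |(pos z a2 - pos z ae)| ≤ ((Y0 + R0 + A.ρ : ℕ) : ℤ) := by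
        push_cast
        rw [abs_le]
        constructor <;> linarith
      exact_mod_cast e1)
  have hkR : A.RIn z l x ae k := hk.mono (by linarith) le_rfl
  have hkhe : A.RIn z e x a0 (k * he) := by
    refine hhe.trans ha0 ?_
    rw [hhea]
    exact hk
  have htop := hright (k * he) hkhe (by rw [Equiv.Perm.mul_apply, hhea, hka])
  rw [Equiv.Perm.mul_apply] at htop
  have hkg : k (g (he t0)) ∈ R a2 := by
    have := (hfam.mem hae (by linarith) (by linarith) hkR (t := g (he t0))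
      (by rw [hka]; linarith) (by rw [hka]; linarith)).2 hgte
    rw [hka] at this
    exact this
  have hb1 := htop.le hkg
  have hb2 := abs_le.1 (hs.dh_le hk.mem_G hy (hsube hte) (hsube hgte))
  have hb3 := dh_neg (A := A) (hsub2 htop.1) (hsub2 hkg)
  linarith [hb2.1]

end Sys

end Pool.Agent.helper98.NIG
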