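import Pool.Agent.helper97.NIG.TopSeq

/-!
# NIG / P5 : the top token, the compactness lemma (helper97)
-/

open scoped BigOperators
open Set Function

set_option linter.unusedSectionVars false
set_option linter.deprecated false

namespace Pool.Agent.helper98.NIG

open _root_.NIG.Strand

variable {b : Base} {F : Type} [Fintype F]

namespace Sys

variable {A : Sys b F}

/-- short words to the points of a window -/
theorem exists_short {N : ℕ} (hN : A.BCN N) {x : Pt b F} (hx : x ∈ A.D) {a : Pt b F}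
    (ha : a ∈ A.orb x) {n : ℕ} (hn : |pos x a| ≤ n) :
    ∃ l : List A.S, l.length ≤ N * (n + 1) ∧ (l.map Subtype.val).prod x = a := by
  obtain ⟨l, hl, hlx⟩ := (A.isStrand hN hx).path_far ⟨x, A.orb_self x⟩ ⟨a, ha⟩
  refine ⟨l, ?_, ?_⟩
  · have h1 : A.posx x ⟨x, A.orb_self x⟩ = 0 := pos_self x
    have h2 : A.posx x ⟨a, ha⟩ = pos x a := rfl
    rw [h1, h2, zero_sub, abs_neg] at hl
    have h3 : (l.length : ℤ) ≤ N * (n + 1) := by
      refine hl.trans ?_
      apply mul_le_mul_of_nonneg_left _ (by positivity)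
      linarith
    exact_mod_cast h3
  · have h1 := congrArg Subtype.val hlx
    rw [foldr_mvx] at h1
    exact h1

theorem near_of_ulim {N : ℕ} (hN : A.BCN N) {κ : Type} {U : Ultrafilter κ}
    {u t : κ → Pt b F} {x t0 : Pt b F} (huD : ∀ i, u i ∈ A.D) (htD : ∀ i, t i ∈ A.D)
    (hu : ∀ N : ℕ, ∀ᶠ i in (U : Filter κ), Agree N (u i) x)
    (ht : ∀ N : ℕ, ∀ᶠ i in (U : Filter κ), Agree N (t i) t0)
    (hrel : A.Rel x t0) {σ : ℝ} (hσ : ∀ g ∈ A.G, A.hδ g t0 = σ * A.hδ g x) (n : ℕ) :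
    ∀ᶠ i in (U : Filter κ), A.Near n σ (u i) (t i) := by
  set L := N * (n + 1) with hL
  have hfin : {l : List A.S | l.length ≤ 2 * L + 1}.Finite := List.finite_length_le _ _
  have hlG : ∀ l : List A.S, (l.map Subtype.val).prod ∈ A.G := by
    intro l
    apply Subgroup.list_prod_mem
    intro s hs
    rw [List.mem_map] at hs
    obtain ⟨s', -, rfl⟩ := hs
    exact A.mem_G_of_mem_S s'.2
  have hev : ∀ᶠ i in (U : Filter κ), ∀ l ∈ {l : List A.S | l.length ≤ 2 * L + 1},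
      ((l.map Subtype.val).prod (u i) = u i → (l.map Subtype.val).prod (t i) = t i) ∧
      |A.hδ (l.map Subtype.val).prod (t i) - σ * A.hδ (l.map Subtype.val).prod (u i)|
        ≤ 1 / ((n : ℝ) + 1) := by
    rw [Filter.eventually_all_finite hfin]
    intro l _
    have hg := hlG l
    obtain ⟨ρ1, h1, -⟩ := A.G_le_PW hg
    have h2 : Filter.Tendsto (fun i => |A.hδ (l.map Subtype.val).prod (t i)
        - σ * A.hδ (l.map Subtype.val).prod (u i)|) (U : Filter κ) (nhds 0) := by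
      have h3 := ((tendsto_hδ hN ht htD hg).sub ((tendsto_hδ hN hu huD hg).const_mul σ)).abs
      rw [hσ _ hg, sub_self, abs_zero] at h3
      exact h3
    have h4 : (0 : ℝ) < 1 / ((n : ℝ) + 1) := by positivity
    filter_upwards [h2.eventually (gt_mem_nhds h4), hu ρ1, ht ρ1] with i hi hi1 hi2
    refine ⟨fun h5 => ?_, hi.le⟩
    rw [fix_iff_of_agree h1 hi2, ← hrel _ hg, ← fix_iff_of_agree h1 hi1]
    exact h5
  filter_upwards [hev] with i hi
  have key : ∀ g, A.Reach (u i) (Set.Icc (-(n : ℤ)) n) g → ∃ l : List A.S, l.length ≤ L ∧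
      (l.map Subtype.val).prod (u i) = g (u i) ∧ (l.map Subtype.val).prod (t i) = g (t i) := by
    intro g hg
    induction hg with
    | one => exact ⟨[], by simp, by simp, by simp⟩
    | @step g s hg hs hp ih =>
      obtain ⟨l, hl, h1, h2⟩ := ih
      have hsG := A.mem_G_of_mem_S hs
      have hmem : s (g (u i)) ∈ A.orb (u i) :=
        A.orb_map hsG (A.orb_map hg.mem_G (A.orb_self _))
      obtain ⟨l', hl', h3⟩ := exists_short hN (huD i) hmem (abs_le.2 hp)
      refine ⟨l', hl', h3, ?_⟩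
      have hS : ∀ s : A.S, s.1⁻¹ ∈ A.S := fun s => A.inv_mem _ s.2
      set li : List A.S := (l'.map (fun s => (⟨s.1⁻¹, hS s⟩ : A.S))).reverse with hli
      have hliprod : (li.map Subtype.val).prod = ((l'.map Subtype.val).prod)⁻¹ := by
        rw [hli, List.prod_inv_reverse, List.map_reverse, List.map_map, List.map_map]
        rfl
      have hlen : (li ++ [(⟨s, hs⟩ : A.S)] ++ l).length ≤ 2 * L + 1 := by
        rw [List.length_append, List.length_append, hli, List.length_reverse, List.length_map,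
          List.length_singleton]
        omega
      have h4 := (hi _ hlen).1
      have h5 : ((li ++ [(⟨s, hs⟩ : A.S)] ++ l).map Subtype.val).prod
          = ((l'.map Subtype.val).prod)⁻¹ * s * (l.map Subtype.val).prod := by
        rw [List.map_append, List.map_append, List.prod_append, List.prod_append, hliprod,
          List.map_singleton, List.prod_singleton]
      rw [h5] at h4
      simp only [Equiv.Perm.mul_apply] at h4
      rw [h1, h2, Equiv.Perm.inv_eq_iff_eq, Equiv.Perm.inv_eq_iff_eq] at h4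
      exact (h4 h3.symm).symm
  intro g hg
  obtain ⟨l, hl, h1, h2⟩ := key g hg
  obtain ⟨h3, h4⟩ := hi l (show l.length ≤ 2 * L + 1 by omega)
  rw [hδ_congr h1, hδ_congr h2] at h4
  rw [h1, h2] at h3
  exact ⟨h3, h4⟩

theorem Seq.unique_top {N : ℕ} (hN : A.BCN N) (hred : A.Reduced) {κ : Type} {U : Ultrafilter κ}
    {u y : κ → Pt b F} {R : κ → Pt b F → Set (Pt b F)} {M : κ → ℕ} {x : Pt b F}
    (h : A.Seq U u y R M x) {α : ℝ}
    (hα : ∀ g ∈ A.G, Filter.Tendsto
      (fun i => A.tf (y i) (R i) (g (u i)) - A.tf (y i) (R i) (u i))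
        (U : Filter κ) (nhds (α * A.hδ g x)))
    {t : κ → Pt b F} {t0 : Pt b F}
    (htD : ∀ i, t i ∈ A.D) (ht : ∀ N : ℕ, ∀ᶠ i in (U : Filter κ), Agree N (t i) t0)
    (htop : ∀ᶠ i in (U : Filter κ), t i ∈ R i (u i) ∧
      A.Hc (A.orb (y i)) (t i) = A.tf (y i) (R i) (u i))
    {s : Equiv.Perm (Pt b F)} (hs : s ∈ A.S) :
    ∀ᶠ i in (U : Filter κ), ∀ t' ∈ R i (s (u i)), t' ≠ s (t i) → 0 < A.dh t' (s (t i)) := by
  classical
  by_contra hcon
  have hsG := A.mem_G_of_mem_S hs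
  have ht0 : t0 ∈ A.D := A.mem_D_of_ulim ht (Filter.Eventually.of_forall htD)
  obtain ⟨m, hm⟩ := exists_control hN hsG
  have hρ0 : (0 : ℤ) ≤ A.ρ := by positivity
  set P : κ → Pt b F → Prop := fun i τ => τ ∈ A.D ∧ τ ∈ A.orb (y i) ∧ s (t i) ∈ A.orb (y i) ∧
    τ ∈ R i (s (u i)) ∧ τ ≠ s (t i) ∧
    A.Hc (A.orb (y i)) τ = A.tf (y i) (R i) (s (u i)) with hP
  have hbad : ∀ᶠ i in (U : Filter κ), ∃ τ, P i τ := by
    filter_upwards [Ultrafilter.eventually_not.2 hcon, h.big m, htop] with i hi hmi hti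
    obtain ⟨e1, e2, -⟩ := hm _ _ _ _ (h.yD i) hmi (h.fam i)
    have e3 := abs_le.1 (show |pos (u i) (s (u i))| ≤ M i by linarith)
    have hsu : s (u i) ∈ A.orb (u i) := A.orb_map hsG (A.orb_self _)
    obtain ⟨t1, ht1, f1, f2⟩ := (h.fam i).tf_spec hN (h.yD i) hsu e3.1 e3.2
    have hsub := (h.fam i).sub _ hsu e3.1 e3.2
    have hDD : ∀ t' ∈ A.orb (y i), t' ∈ A.D := by
      rintro t' ⟨g, hg, rfl⟩
      exact A.map_mem hg (h.yD i)
    have hst : s (t i) ∈ R i (s (u i)) := by rw [e1]; exact ⟨t i, hti.1, rfl⟩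
    by_cases hc : t1 = s (t i)
    · push Not at hi
      obtain ⟨t', ht', hne, hle⟩ := hi
      refine ⟨t', hDD _ (hsub ht'), hsub ht', hsub hst, ht', hne, ?_⟩
      unfold dh at hle
      rw [A.orb_eq (hsub ht')] at hle
      have f3 := f2 t' ht'
      rw [← f1]
      apply le_antisymm f3
      rw [hc]
      linarith
    · exact ⟨t1, hDD _ (hsub ht1), hsub ht1, hsub hst, ht1, hc, f1⟩
  have hch : ∀ i, ∃ τ, τ ∈ A.D ∧ ((∃ τ', P i τ') → P i τ) := by
    intro i
    by_cases hex : ∃ τ', P i τ'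
    · obtain ⟨τ', hτ'⟩ := hex
      exact ⟨τ', hτ'.1, fun _ => hτ'⟩
    · exact ⟨t i, htD i, fun h => absurd h hex⟩
  choose τ hτD hτP using hch
  obtain ⟨τ0, hτ0⟩ := exists_ulim U τ
  have hτ : ∀ᶠ i in (U : Filter κ), P i (τ i) := by
    filter_upwards [hbad] with i hi
    exact hτP i hi
  have h1 : ∀ g ∈ A.G, A.hδ g τ0 = α * A.hδ g (s x) := by
    refine h.top_lim hN hα hsG hτD hτ0 ?_
    filter_upwards [hτ] with i hi
    exact ⟨hi.2.2.2.1, hi.2.2.2.2.2⟩
  have h2 : ∀ g ∈ A.G, A.hδ g t0 = α * A.hδ g x := by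
    have := h.top_lim hN hα A.G.one_mem htD ht (by
      filter_upwards [htop] with i hi
      exact hi)
    exact this
  have h3 : ∀ g ∈ A.G, A.hδ g (s t0) = α * A.hδ g (s x) := by
    intro g hg
    have e1 := hδ_mul (A := A) (g := g) hsG t0
    have e2 := hδ_mul (A := A) (g := g) hsG x
    have e3 := h2 _ (A.G.mul_mem hg hsG)
    have e4 := h2 _ hsG
    have e5 : A.hδ g (s t0) = A.hδ (g * s) t0 - A.hδ s t0 := by linarith
    have e6 : A.hδ g (s x) = A.hδ (g * s) x - A.hδ s x := by linarith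
    rw [e5, e6, e3, e4]
    ring
  -- distance
  have h4 : Filter.Tendsto (fun i => A.tf (y i) (R i) (s (u i)) - A.tf (y i) (R i) (u i)
      - A.hδ s (t i)) (U : Filter κ) (nhds 0) := by
    have e1 := (hα s hsG).sub (tendsto_hδ hN ht htD hsG)
    rw [h2 s hsG, sub_self] at e1
    exact e1
  obtain ⟨K, hK⟩ := pos_bound hN
  have h5 : ∀ᶠ i in (U : Filter κ), SameLine (s (t i)) (τ i) ∧
      |pos (s (t i)) (τ i)| ≤ (2 * K : ℕ) := by
    have e0 : ∀ᶠ i in (U : Filter κ), |A.tf (y i) (R i) (s (u i)) - A.tf (y i) (R i) (u i)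
      - A.hδ s (t i)| < 1 := by
      have e1 := h4.abs
      rw [abs_zero] at e1
      exact e1.eventually (gt_mem_nhds one_pos)
    filter_upwards [e0, hτ, htop] with i hi hPi hti
    obtain ⟨p1, p2, p3, p4, p5, p6⟩ := hPi
    have q1 : τ i ∈ A.orb (s (t i)) := by rw [A.orb_eq p3]; exact p2
    have q2 : t i ∈ A.orb (y i) := by
      have := A.orb_map (A.G.inv_mem hsG) p3
      rwa [pinv_apply] at this
    have q3 : A.dh (s (t i)) (τ i) = A.tf (y i) (R i) (s (u i)) - A.tf (y i) (R i) (u i)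
        - A.hδ s (t i) := by
      unfold dh
      rw [A.orb_eq p3, p6, hδ_of_mem q2, ← hti.2]
      ring
    refine ⟨A.sameLine_orb q1, ?_⟩
    have q4 := hK (s (t i)) (A.map_mem hsG (htD i)) (τ i) q1
    rw [q3] at q4
    have q5 : (K : ℝ) * (|A.tf (y i) (R i) (s (u i)) - A.tf (y i) (R i) (u i)
        - A.hδ s (t i)| + 1) ≤ K * 2 := by
      apply mul_le_mul_of_nonneg_left _ (Nat.cast_nonneg _)
      linarith
    have q6 : |(pos (s (t i)) (τ i) : ℝ)| ≤ ((2 * K : ℕ) : ℝ) := by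
      push_cast
      linarith
    exact_mod_cast q6
  obtain ⟨n, φ, -, hoff⟩ := exists_offset' U (fun i => s (t i)) τ _ h5
  have hst : ∀ N : ℕ, ∀ᶠ i in (U : Filter κ), Agree N (s (t i)) (s t0) :=
    ulim_map (A.G_le_PW hsG) ht
  have h6 : τ0 = (sh n (s t0).1, φ) := by
    refine ulim_unique hτ0 (fun k => ?_)
    filter_upwards [ulim_sh hst n φ k, hoff] with i hi hi2
    rw [hi2]
    exact hi
  have hor := orb_iff_ulim hN hst (fun i => A.map_mem hsG (htD i)) n φ
  have h7 : τ0 ∈ A.orb (s t0) := by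
    obtain ⟨i, ⟨hi1, hi2⟩, hi3⟩ := ((hor.and hoff).and hτ).exists
    rw [h6, ← hi1, ← hi2]
    rw [A.orb_eq hi3.2.2.1]
    exact hi3.2.1
  have h8 : τ0 = s t0 := by
    apply eq_of_hδ hN hred (A.map_mem hsG ht0) h7
    intro g hg
    rw [h1 g hg, h3 g hg]
  rw [h8] at h6
  have h9 : n = 0 := by
    have e1 : sh n (s t0).1 = sh 0 (s t0).1 := by
      rw [sh_zero]
      exact (congrArg Prod.fst h6).symm
    exact sh_inj e1
  have h10 : φ = (s t0).2 := (congrArg Prod.snd h6).symm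
  obtain ⟨i, ⟨hi1, hi2⟩, hi3⟩ := ((hoff.and (hst 0)).and hτ).exists
  apply hi3.2.2.2.2.1
  rw [hi1, h9, sh_zero, h10, ← hi2.1]

/-- **The compactness lemma** -/
theorem compact_top {N : ℕ} (hN : A.BCN N) (hred : A.Reduced) (n : ℕ) {η : ℝ} (hη : 0 < η) :
    ∃ (N1 : ℕ) (ε : ℝ), 0 < ε ∧ ∀ a ∈ A.D, ∀ y ∈ A.D, ∀ R : Pt b F → Set (Pt b F),
      A.Fam a y (-(N1 : ℤ)) N1 R →
      (∀ a' ∈ A.orb a, |pos a a'| + A.ρ ≤ N1 →
        ∑ s ∈ A.S, (A.tf y R (s a') - A.tf y R a') ≤ ε) →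
      ∃ σ : ℝ, (σ = 1 ∨ σ = -1) ∧ (∃ t, A.GoodT R n σ a t) ∧
        |A.curx a (A.tf y R) 0 - σ| ≤ η := by
  by_contra hcon
  push Not at hcon
  have hpos : ∀ i : ℕ, (0 : ℝ) < 1 / ((i : ℝ) + 1) := fun i => by positivity
  choose a ha y hy R hR hdef hbad using fun i : ℕ => hcon i (1 / ((i : ℝ) + 1)) (hpos i)
  let U : Ultrafilter ℕ := Filter.hyperfilter ℕ
  have hUtop : (U : Filter ℕ) ≤ Filter.atTop := by
    rw [← Nat.cofinite_eq_atTop]
    exact Filter.hyperfilter_le_cofinite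
  obtain ⟨x, hx⟩ := exists_ulim U a
  have hseq : A.Seq U a y R (fun i => i) x := by
    refine ⟨ha, hy, A.mem_D_of_ulim hx (Filter.Eventually.of_forall ha), hR, ?_, hx, ?_⟩
    · intro m
      exact hUtop (Filter.eventually_ge_atTop m)
    · intro ε hε
      have h1 : Filter.Tendsto (fun i : ℕ => 1 / ((i : ℝ) + 1)) (U : Filter ℕ) (nhds 0) :=
        tendsto_one_div_add_atTop_nhds_zero_nat.mono_left hUtop
      filter_upwards [h1.eventually (gt_mem_nhds hε)] with i hi a' ha' hp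
      exact (hdef i a' ha' hp).trans hi.le
  obtain ⟨α, hcur, hα⟩ := hseq.exists_slope hN
  have htop : ∀ i, ∃ t, t ∈ A.D ∧ t ∈ R i (a i) ∧
      A.Hc (A.orb (y i)) t = A.tf (y i) (R i) (a i) := by
    intro i
    have h1 : -(i : ℤ) ≤ pos (a i) (a i) := by rw [pos_self]; simp
    have h2 : pos (a i) (a i) ≤ i := by rw [pos_self]; simp
    obtain ⟨t, ht, h3, -⟩ := (hR i).tf_spec hN (hy i) (A.orb_self _) h1 h2
    refine ⟨t, ?_, ht, h3⟩
    obtain ⟨g, hg, rfl⟩ := (hR i).sub _ (A.orb_self _) h1 h2 ht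
    exact A.map_mem hg (hy i)
  choose t htD htR htH using htop
  obtain ⟨t0, ht0⟩ := exists_ulim U t
  have h0D : t0 ∈ A.D := A.mem_D_of_ulim ht0 (Filter.Eventually.of_forall htD)
  have hslope : ∀ g ∈ A.G, A.hδ g t0 = α * A.hδ g x :=
    hseq.top_lim hN hα A.G.one_mem htD ht0 (Filter.Eventually.of_forall fun i => ⟨htR i, htH i⟩)
  obtain ⟨hrel, hα1⟩ := slopes' hN hred hseq.xD h0D hslope
  have hnear := near_of_ulim hN ha htD hx ht0 hrel hslope n
  have huniq : ∀ᶠ i in (U : Filter ℕ), ∀ s ∈ A.S, ∀ t' ∈ R i (s (a i)), t' ≠ s (t i) →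
      0 < A.dh t' (s (t i)) := by
    rw [Filter.eventually_all_finset]
    intro s hs
    exact hseq.unique_top hN hred hα htD ht0
      (Filter.Eventually.of_forall fun i => ⟨htR i, htH i⟩) hs
  have hc : ∀ᶠ i in (U : Filter ℕ), |A.curx (a i) (A.tf (y i) (R i)) 0 - α| < η := by
    have h1 := (hcur.sub (tendsto_const_nhds (x := α))).abs
    rw [sub_self, abs_zero] at h1
    exact h1.eventually (gt_mem_nhds hη)
  obtain ⟨i, ⟨hi1, hi2⟩, hi3⟩ := ((hnear.and huniq).and hc).exists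
  have h1 := hbad i α hα1 ⟨t i, htR i, fun t' ht' hne => hi2 1 A.one_mem t' ht' hne, hi2, hi1⟩
  linarith

end Sys

end Pool.Agent.helper98.NIG
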