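import Pool.Agent.helper97.NIG.TopTok

/-!
# NIG / P5 : the top token, limits of families (helper97)
-/

open scoped BigOperators
open Set Function

set_option linter.unusedSectionVars false
set_option linter.deprecated false

namespace Pool.Agent.helper98.NIG

open _root_.NIG.Strand

variable {b : Base} {F : Type} [Fintype F]

namespace Sys

variable {A : Sys b F}

/-- increments of the top height along words -/
theorem Fam.tf_list {N : ℕ} (hN : A.BCN N) {a y : Pt b F} (hy : y ∈ A.D) {M : ℕ}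
    {R : Pt b F → Set (Pt b F)} (h : A.Fam a y (-(M : ℤ)) M R)
    (l : List (Equiv.Perm (Pt b F))) (hl : ∀ s ∈ l, s ∈ A.S) (hM : A.ρ * l.length ≤ M) :
    |A.tf y R (l.prod a) - A.tf y R a| ≤ l.length := by
  induction l with
  | nil =>
    simp only [List.prod_nil, Equiv.Perm.one_apply, List.length_nil, sub_self, abs_zero]
    simp
  | cons s l ih =>
    have hM' : A.ρ * l.length ≤ M := by
      refine le_trans ?_ hM
      rw [List.length_cons]
      exact Nat.mul_le_mul_left _ (Nat.le_succ _)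
    have hlS : ∀ s ∈ l, s ∈ A.S := fun t ht => hl t (List.mem_cons_of_mem _ ht)
    have ih' := ih hlS hM'
    obtain ⟨-, hp⟩ := h.list l hlS hM'
    obtain ⟨-, hp'⟩ := h.list (s :: l) hl hM
    have hlG : l.prod ∈ A.G := Subgroup.list_prod_mem _
      (fun t ht => A.mem_G_of_mem_S (hlS t ht))
    have h7 : (A.ρ : ℤ) * ((s :: l).length : ℕ) ≤ M := by exact_mod_cast hM
    have h8 : (A.ρ : ℤ) * l.length ≤ M := by exact_mod_cast hM'
    have r1 := abs_le.1 (hp.trans h8)
    have r2 := abs_le.1 (hp'.trans h7)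
    rw [List.prod_cons, Equiv.Perm.mul_apply] at r2 ⊢
    have h9 := h.tf_step hN hy (a := l.prod a) ⟨_, hlG, rfl⟩ r1.1 r1.2
      (hl s List.mem_cons_self) r2.1 r2.2
    have h10 : A.tf y R (s (l.prod a)) - A.tf y R a
        = (A.tf y R (s (l.prod a)) - A.tf y R (l.prod a)) + (A.tf y R (l.prod a) - A.tf y R a) := by
      ring
    rw [h10, List.length_cons]
    refine (abs_add_le _ _).trans ?_
    push_cast
    linarith

/-- uniform control along an element of the group -/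
theorem exists_control {N : ℕ} (hN : A.BCN N) {g : Equiv.Perm (Pt b F)} (hg : g ∈ A.G) :
    ∃ m : ℕ, ∀ (a y : Pt b F) (M : ℕ) (R : Pt b F → Set (Pt b F)), y ∈ A.D → m ≤ M →
      A.Fam a y (-(M : ℤ)) M R → R (g a) = g '' R a ∧ |pos a (g a)| + A.ρ ≤ M ∧
        |A.tf y R (g a) - A.tf y R a| ≤ m := by
  obtain ⟨l, hl, rfl⟩ := exists_list hg
  refine ⟨A.ρ * (l.length + 1) + l.length, ?_⟩
  intro a y M R hy hM hfam
  have h1 : A.ρ * l.length ≤ M := by
    refine le_trans ?_ hM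
    have : A.ρ * l.length ≤ A.ρ * (l.length + 1) := Nat.mul_le_mul_left _ (Nat.le_succ _)
    omega
  obtain ⟨h2, h3⟩ := hfam.list l hl h1
  refine ⟨h2, ?_, ?_⟩
  · have h4 : (A.ρ : ℤ) * l.length + A.ρ ≤ M := by
      have h5 : A.ρ * l.length + A.ρ ≤ M := by
        refine le_trans ?_ hM
        rw [Nat.mul_add, Nat.mul_one]
        omega
      exact_mod_cast h5
    linarith
  · refine (hfam.tf_list hN hy l hl h1).trans ?_
    have : l.length ≤ A.ρ * (l.length + 1) + l.length := Nat.le_add_left _ _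
    exact_mod_cast this

/-- families converging to a point -/
structure Seq (A : Sys b F) {κ : Type} (U : Ultrafilter κ) (u y : κ → Pt b F)
    (R : κ → Pt b F → Set (Pt b F)) (M : κ → ℕ) (x : Pt b F) : Prop where
  uD : ∀ i, u i ∈ A.D
  yD : ∀ i, y i ∈ A.D
  xD : x ∈ A.D
  fam : ∀ i, A.Fam (u i) (y i) (-(M i : ℤ)) (M i) (R i)
  big : ∀ m : ℕ, ∀ᶠ i in (U : Filter κ), m ≤ M i
  lim : ∀ N : ℕ, ∀ᶠ i in (U : Filter κ), Agree N (u i) x
  def_le : ∀ ε : ℝ, 0 < ε → ∀ᶠ i in (U : Filter κ), ∀ a' ∈ A.orb (u i),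
    |pos (u i) a'| + A.ρ ≤ M i →
    ∑ s ∈ A.S, (A.tf (y i) (R i) (s a') - A.tf (y i) (R i) a') ≤ ε

theorem Seq.exists_slope {N : ℕ} (hN : A.BCN N) {κ : Type} {U : Ultrafilter κ}
    {u y : κ → Pt b F} {R : κ → Pt b F → Set (Pt b F)} {M : κ → ℕ} {x : Pt b F}
    (h : A.Seq U u y R M x) :
    ∃ α : ℝ, Filter.Tendsto (fun i => A.curx (u i) (A.tf (y i) (R i)) 0) (U : Filter κ) (nhds α) ∧
      ∀ g ∈ A.G, Filter.Tendsto (fun i => A.tf (y i) (R i) (g (u i)) - A.tf (y i) (R i) (u i))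
        (U : Filter κ) (nhds (α * A.hδ g x)) := by
  classical
  -- the limit
  have hex : ∀ g : Equiv.Perm (Pt b F), ∃ c : ℝ, g ∈ A.G →
      Filter.Tendsto (fun i => A.tf (y i) (R i) (g (u i)) - A.tf (y i) (R i) (u i))
        (U : Filter κ) (nhds c) := by
    intro g
    by_cases hg : g ∈ A.G
    · obtain ⟨m, hm⟩ := exists_control hN hg
      obtain ⟨c, hc⟩ := exists_lim U
        (fun i => A.tf (y i) (R i) (g (u i)) - A.tf (y i) (R i) (u i)) m (by
          filter_upwards [h.big m] with i hi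
          exact (hm _ _ _ _ (h.yD i) hi (h.fam i)).2.2)
      exact ⟨c, fun _ => hc⟩
    · exact ⟨0, fun h => absurd h hg⟩
  choose φ hφ using hex
  have hφ1 : φ 1 = 0 := by
    refine tendsto_nhds_unique (hφ 1 A.G.one_mem) ?_
    refine tendsto_const_nhds.congr (fun i => ?_)
    rw [Equiv.Perm.one_apply, sub_self]
  have hstep : ∀ g ∈ A.G, ∀ s ∈ A.S, Filter.Tendsto
      (fun i => A.tf (y i) (R i) (s (g (u i))) - A.tf (y i) (R i) (g (u i)))
      (U : Filter κ) (nhds (φ (s * g) - φ g)) := by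
    intro g hg s hs
    have h1 := hφ _ (A.G.mul_mem (A.mem_G_of_mem_S hs) hg)
    have h2 := hφ g hg
    refine (h1.sub h2).congr (fun i => ?_)
    rw [Equiv.Perm.mul_apply]
    ring
  have hfactor : ∀ g ∈ A.G, ∀ g' ∈ A.G, g x = g' x → φ g = φ g' := by
    intro g hg g' hg' hgg
    obtain ⟨ρ1, h1, -⟩ := A.G_le_PW hg
    obtain ⟨ρ2, h2, -⟩ := A.G_le_PW hg'
    refine tendsto_nhds_unique (hφ g hg) ?_
    refine (hφ g' hg').congr' ?_
    filter_upwards [h.lim (max ρ1 ρ2)] with i hi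
    have h3 := (eq_iff_of_agree (h1.mono (le_max_left _ _)) (h2.mono (le_max_right _ _)) hi).2 hgg
    rw [h3]
  have hharm : ∀ g ∈ A.G, ∑ s ∈ A.S, (φ (s * g) - φ g) = 0 := by
    intro g hg
    have h1 : Filter.Tendsto (fun i => ∑ s ∈ A.S, (A.tf (y i) (R i) (s (g (u i)))
        - A.tf (y i) (R i) (g (u i)))) (U : Filter κ) (nhds (∑ s ∈ A.S, (φ (s * g) - φ g))) :=
      tendsto_finset_sum _ (fun s hs => hstep g hg s hs)
    obtain ⟨m, hm⟩ := exists_control hN hg
    have hwin : ∀ᶠ i in (U : Filter κ), |pos (u i) (g (u i))| + A.ρ ≤ M i := by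
      filter_upwards [h.big m] with i hi
      exact (hm _ _ _ _ (h.yD i) hi (h.fam i)).2.1
    apply le_antisymm
    · refine le_of_forall_pos_le_add (fun ε hε => ?_)
      rw [zero_add]
      refine le_of_tendsto h1 ?_
      filter_upwards [hwin, h.def_le ε hε] with i hi hi2
      exact hi2 _ (A.orb_map hg (A.orb_self _)) hi
    · refine ge_of_tendsto h1 ?_
      filter_upwards [hwin] with i hi
      have h2 := abs_le.1 (show |pos (u i) (g (u i))| ≤ M i - A.ρ by linarith)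
      exact (h.fam i).def_nonneg hN (h.yD i) (A.orb_map hg (A.orb_self _)) (by linarith)
        (by linarith)
  have hlip : ∀ g ∈ A.G, ∀ s ∈ A.S, |φ (s * g) - φ g| ≤ 1 := by
    intro g hg s hs
    refine le_of_tendsto (hstep g hg s hs).abs ?_
    obtain ⟨m, hm⟩ := exists_control hN hg
    obtain ⟨m', hm'⟩ := exists_control hN (A.G.mul_mem (A.mem_G_of_mem_S hs) hg)
    have hρ0 : (0 : ℤ) ≤ A.ρ := by positivity
    filter_upwards [h.big m, h.big m'] with i hi hi'
    have h2 := (hm _ _ _ _ (h.yD i) hi (h.fam i)).2.1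
    have h3 := (hm' _ _ _ _ (h.yD i) hi' (h.fam i)).2.1
    have h4 := abs_le.1 (show |pos (u i) (g (u i))| ≤ M i by linarith)
    have h5 := abs_le.1 (show |pos (u i) ((s * g) (u i))| ≤ M i by linarith)
    exact (h.fam i).tf_step hN (h.yD i) (A.orb_map hg (A.orb_self _)) h4.1 h4.2 hs h5.1 h5.2
  -- the weights
  set w : Equiv.Perm (Pt b F) → Pt b F → ℝ := fun s v =>
    if hv : v ∈ A.orb x then φ (s * hv.choose) - φ hv.choose else 0 with hw
  have hww : ∀ g ∈ A.G, ∀ s ∈ A.S, w s (g x) = φ (s * g) - φ g := by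
    intro g hg s hs
    have hv : g x ∈ A.orb x := A.orb_map hg (A.orb_self x)
    have hsG := A.mem_G_of_mem_S hs
    have h1 := hv.choose_spec
    simp only [hw]
    rw [dif_pos hv, hfactor _ h1.1 g hg h1.2.symm,
      hfactor _ (A.G.mul_mem hsG h1.1) (s * g) (A.G.mul_mem hsG hg) (by
        rw [Equiv.Perm.mul_apply, Equiv.Perm.mul_apply, ← h1.2])]
  have hmain := harm_on_group hN h.xD hfactor hharm hlip w hww
  have hcur : Filter.Tendsto (fun i => A.curx (u i) (A.tf (y i) (R i)) 0) (U : Filter κ)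
      (nhds (cutSum A x 0 w)) := by
    have h1 : ∀ i, A.curx (u i) (A.tf (y i) (R i)) 0
        = cutSum A (u i) 0 (fun s v => A.tf (y i) (R i) (s v) - A.tf (y i) (R i) v) :=
      fun i => curx_eq hN (h.uD i) _ _
    simp only [h1]
    refine tendsto_cutSum hN h.lim h.uD 0 (fun g hg s hs => ?_)
    rw [hww g hg s hs]
    exact hstep g hg s hs
  refine ⟨cutSum A x 0 w, hcur, fun g hg => ?_⟩
  have h1 := hmain g hg
  rw [hφ1, sub_zero] at h1
  rw [← h1]
  exact hφ g hg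

theorem Seq.top_lim {N : ℕ} (hN : A.BCN N) {κ : Type} {U : Ultrafilter κ}
    {u y : κ → Pt b F} {R : κ → Pt b F → Set (Pt b F)} {M : κ → ℕ} {x : Pt b F}
    (h : A.Seq U u y R M x) {α : ℝ}
    (hα : ∀ g ∈ A.G, Filter.Tendsto
      (fun i => A.tf (y i) (R i) (g (u i)) - A.tf (y i) (R i) (u i))
        (U : Filter κ) (nhds (α * A.hδ g x)))
    {s0 : Equiv.Perm (Pt b F)} (hs0 : s0 ∈ A.G) {τ : κ → Pt b F} {τ0 : Pt b F}
    (hτD : ∀ i, τ i ∈ A.D) (hτ : ∀ N : ℕ, ∀ᶠ i in (U : Filter κ), Agree N (τ i) τ0)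
    (htop : ∀ᶠ i in (U : Filter κ), τ i ∈ R i (s0 (u i)) ∧
      A.Hc (A.orb (y i)) (τ i) = A.tf (y i) (R i) (s0 (u i))) :
    ∀ g ∈ A.G, A.hδ g τ0 = α * A.hδ g (s0 x) := by
  have hτ0 : τ0 ∈ A.D := A.mem_D_of_ulim hτ (Filter.Eventually.of_forall hτD)
  set Φ : Equiv.Perm (Pt b F) → ℝ := fun g => α * A.hδ g (s0 x) - A.hδ g τ0 with hΦ
  have hlim : ∀ g ∈ A.G, Filter.Tendsto (fun i => A.tf (y i) (R i) (g (s0 (u i)))
      - A.tf (y i) (R i) (s0 (u i)) - A.hδ g (τ i)) (U : Filter κ) (nhds (Φ g)) := by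
    intro g hg
    have h1 := hα _ (A.G.mul_mem hg hs0)
    have h2 := hα _ hs0
    have h3 := tendsto_hδ hN hτ hτD hg
    have h4 : Φ g = α * A.hδ (g * s0) x - α * A.hδ s0 x - A.hδ g τ0 := by
      simp only [hΦ]
      rw [hδ_mul hs0 x]
      ring
    rw [h4]
    refine ((h1.sub h2).sub h3).congr (fun i => ?_)
    rw [Equiv.Perm.mul_apply]
    ring
  have hnn : ∀ g ∈ A.G, 0 ≤ Φ g := by
    intro g hg
    refine ge_of_tendsto (hlim g hg) ?_
    obtain ⟨m, hm⟩ := exists_control hN (A.G.mul_mem hg hs0)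
    obtain ⟨m', hm'⟩ := exists_control hN hs0
    have hρ0 : (0 : ℤ) ≤ A.ρ := by positivity
    filter_upwards [h.big m, h.big m', htop] with i hi hi' ht
    obtain ⟨e1, e2, -⟩ := hm _ _ _ _ (h.yD i) hi (h.fam i)
    obtain ⟨f1, f2, -⟩ := hm' _ _ _ _ (h.yD i) hi' (h.fam i)
    have e3 := abs_le.1 (show |pos (u i) ((g * s0) (u i))| ≤ M i by linarith)
    have f3 := abs_le.1 (show |pos (u i) (s0 (u i))| ≤ M i by linarith)
    have e4 : g (τ i) ∈ R i (g (s0 (u i))) := by
      have e5 : R i (g (s0 (u i))) = g '' R i (s0 (u i)) := by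
        rw [f1, image_image]
        exact e1
      rw [e5]
      exact ⟨τ i, ht.1, rfl⟩
    have e6 := (h.fam i).le_tf hN (h.yD i)
      (A.orb_map (A.G.mul_mem hg hs0) (A.orb_self (u i))) e3.1 e3.2
      (show g (τ i) ∈ R i ((g * s0) (u i)) from e4)
    rw [Equiv.Perm.mul_apply] at e6
    have e7 : τ i ∈ A.orb (y i) := (h.fam i).sub _
      (A.orb_map hs0 (A.orb_self (u i))) f3.1 f3.2 ht.1
    rw [hδ_of_mem e7, ← ht.2]
    linarith
  have hΦharm : ∀ g ∈ A.G, ∑ s ∈ A.S, (Φ (s * g) - Φ g) = 0 := by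
    intro g hg
    have h1 : ∀ s, Φ (s * g) - Φ g = α * A.hδ s (g (s0 x)) - A.hδ s (g τ0) := by
      intro s
      simp only [hΦ]
      rw [hδ_mul hg (s0 x), hδ_mul hg τ0]
      ring
    simp only [h1]
    rw [Finset.sum_sub_distrib, ← Finset.mul_sum,
      hδ_harm hN (A.map_mem hg (A.map_mem hs0 h.xD)), hδ_harm hN (A.map_mem hg hτ0)]
    ring
  have hΦ1 : Φ 1 = 0 := by
    simp only [hΦ]
    unfold hδ
    rw [Equiv.Perm.one_apply, Equiv.Perm.one_apply, sub_self, sub_self]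
    ring
  have hall : ∀ l : List (Equiv.Perm (Pt b F)), (∀ s ∈ l, s ∈ A.S) → Φ l.prod = 0 := by
    intro l
    induction l with
    | nil => intro _; exact hΦ1
    | cons s l ih =>
      intro hl
      have hlS : ∀ s ∈ l, s ∈ A.S := fun t ht => hl t (List.mem_cons_of_mem _ ht)
      have h1 := ih hlS
      have hlG : l.prod ∈ A.G := Subgroup.list_prod_mem _
        (fun t ht => A.mem_G_of_mem_S (hlS t ht))
      have h2 := hΦharm _ hlG
      rw [h1] at h2
      simp only [sub_zero] at h2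
      have h3 := (Finset.sum_eq_zero_iff_of_nonneg (fun t ht =>
        hnn _ (A.G.mul_mem (A.mem_G_of_mem_S ht) hlG))).1 h2 s (hl s List.mem_cons_self)
      rw [List.prod_cons]
      exact h3
  intro g hg
  obtain ⟨l, hl, rfl⟩ := exists_list hg
  have h1 := hall l hl
  simp only [hΦ] at h1
  linarith

end Sys

end Pool.Agent.helper98.NIG
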