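import Pool.Agent.helper97.NIG.Slopes

/-!
# NIG / P5 : the top token, compactness lemma (helper97)
-/

open scoped BigOperators
open Set Function

set_option linter.unusedSectionVars false
set_option linter.deprecated false

namespace Pool.Agent.helper98.NIG

open _root_.NIG.Strand

variable {b : Base} {F : Type} [Fintype F]

theorem exists_lim {κ : Type*} (U : Ultrafilter κ) (f : κ → ℝ) (B : ℝ)
    (h : ∀ᶠ i in (U : Filter κ), |f i| ≤ B) :
    ∃ y : ℝ, Filter.Tendsto f (U : Filter κ) (nhds y) := by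
  obtain ⟨y, -, hy⟩ := (isCompact_Icc (a := -B) (b := B)).ultrafilter_le_nhds (U.map f) (by
    rw [Filter.le_principal_iff, Ultrafilter.mem_coe, Ultrafilter.mem_map]
    filter_upwards [h] with i hi
    exact abs_le.1 hi)
  exact ⟨y, hy⟩

namespace Sys

variable {A : Sys b F}

/-- signed version of the position bound -/
theorem pos_bound_signed {N : ℕ} (hN : A.BCN N) : ∃ K : ℕ, ∀ x ∈ A.D, ∀ y ∈ A.orb x,
    A.dh x y ≤ 0 → pos x y ≤ K := by
  obtain ⟨x0, hx0⟩ := A.nonempty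
  have hM := (A.Hc_spec hN hx0).M_pos (A.isStrand hN hx0)
  set c0 : ℝ := 2 / (((2 * A.ρ + 1) * Fintype.card F : ℕ) * Fintype.card A.S * (2 * A.ρ + 1) : ℝ)
    with hc0
  set C0 : ℝ := (2 + ((2 * A.ρ + 1) * Fintype.card F : ℕ) * Fintype.card A.S * N : ℝ) with hC0
  have hc0p : 0 < c0 := by
    rw [hc0]
    apply div_pos two_pos
    apply mul_pos
    · linarith
    · positivity
  obtain ⟨K, hK⟩ := exists_nat_ge (C0 / c0)
  refine ⟨K, ?_⟩
  rintro x hx y ⟨g, hg, rfl⟩ hle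
  by_cases h0 : 0 ≤ disp g x
  · have h1 := hδ_lower hN hx hg h0
    rw [← hc0, ← hC0, ← dh_map] at h1
    have h2 : c0 * (disp g x : ℝ) ≤ C0 := by linarith
    have h3 : (disp g x : ℝ) ≤ C0 / c0 := by
      rw [le_div_iff₀ hc0p]; linarith
    have h4 : (disp g x : ℝ) ≤ K := h3.trans hK
    have h5 : disp g x ≤ (K : ℤ) := by exact_mod_cast h4
    exact h5
  · have h5 : disp g x = pos x (g x) := rfl
    have : (0 : ℤ) ≤ K := by positivity
    omega

/-- height of the top token -/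
noncomputable def tf (A : Sys b F) (y : Pt b F) (R : Pt b F → Set (Pt b F)) (a : Pt b F) : ℝ :=
  sSup (A.Hc (A.orb y) '' R a)

theorem tf_spec {N : ℕ} (hN : A.BCN N) {y : Pt b F} (hy : y ∈ A.D)
    {R : Pt b F → Set (Pt b F)} {a : Pt b F} (hne : (R a).Nonempty) (hsub : R a ⊆ A.orb y)
    (hbdd : ∃ B : ℤ, ∀ t ∈ R a, pos y t ≤ B) :
    ∃ t ∈ R a, A.Hc (A.orb y) t = A.tf y R a ∧
      ∀ t' ∈ R a, A.Hc (A.orb y) t' ≤ A.Hc (A.orb y) t := by
  obtain ⟨K, hK⟩ := pos_bound_signed hN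
  obtain ⟨t0, ht0⟩ := hne
  obtain ⟨B, hB⟩ := hbdd
  have hfin : {t | t ∈ R a ∧ A.Hc (A.orb y) t0 ≤ A.Hc (A.orb y) t}.Finite := by
    have hf : ((fun q : ℤ × F => ((sh q.1 y.1, q.2) : Pt b F)) ''
      (Icc (pos y t0 - K) B ×ˢ (univ : Set F))).Finite := (((finite_Icc _ _).prod finite_univ)).image _
    refine hf.subset ?_
    rintro t ⟨ht, hle⟩
    refine ⟨(pos y t, t.2), ⟨⟨?_, hB t ht⟩, mem_univ _⟩, (eq_of_pos (A.sameLine_orb (hsub ht))).symm⟩
    show pos y t0 - K ≤ pos y t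
    have htD : t ∈ A.D := by
      obtain ⟨g, hg, rfl⟩ := hsub ht
      exact A.map_mem hg hy
    have h1 : t0 ∈ A.orb t := by rw [A.orb_eq (hsub ht)]; exact hsub ht0
    have h2 : A.dh t t0 ≤ 0 := by
      unfold dh
      rw [A.orb_eq (hsub ht)]
      linarith
    have h3 := hK t htD t0 h1 h2
    have h4 := pos_add (A.sameLine_orb (hsub ht)) (A.sameLine_orb h1)
    linarith
  obtain ⟨t, ht, hmax⟩ := Set.exists_max_image _ (A.Hc (A.orb y)) hfin ⟨t0, ht0, le_refl _⟩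
  have hall : ∀ t' ∈ R a, A.Hc (A.orb y) t' ≤ A.Hc (A.orb y) t := by
    intro t' ht'
    rcases le_total (A.Hc (A.orb y) t0) (A.Hc (A.orb y) t') with h | h
    · exact hmax t' ⟨ht', h⟩
    · exact h.trans ht.2
  refine ⟨t, ht.1, ?_, hall⟩
  symm
  apply IsGreatest.csSup_eq
  refine ⟨⟨t, ht.1, rfl⟩, ?_⟩
  rintro _ ⟨t', ht', rfl⟩
  exact hall t' ht'

theorem Fam.tf_spec {N : ℕ} (hN : A.BCN N) {z y : Pt b F} (hy : y ∈ A.D) {l r : ℤ}
    {R : Pt b F → Set (Pt b F)} (h : A.Fam z y l r R) {a : Pt b F} (ha : a ∈ A.orb z)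
    (hl : l ≤ pos z a) (hr : pos z a ≤ r) :
    ∃ t ∈ R a, A.Hc (A.orb y) t = A.tf y R a ∧
      ∀ t' ∈ R a, A.Hc (A.orb y) t' ≤ A.Hc (A.orb y) t :=
  Sys.tf_spec hN hy (h.ne a ha hl hr) (h.sub a ha hl hr) (h.bdd a ha hl hr)

/-- the top height is at least the height of every token -/
theorem Fam.le_tf {N : ℕ} (hN : A.BCN N) {z y : Pt b F} (hy : y ∈ A.D) {l r : ℤ}
    {R : Pt b F → Set (Pt b F)} (h : A.Fam z y l r R) {a : Pt b F} (ha : a ∈ A.orb z)
    (hl : l ≤ pos z a) (hr : pos z a ≤ r) {t : Pt b F} (ht : t ∈ R a) :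
    A.Hc (A.orb y) t ≤ A.tf y R a := by
  obtain ⟨t', ht', h1, h2⟩ := h.tf_spec hN hy ha hl hr
  rw [← h1]
  exact h2 t ht

theorem Hc_step {N : ℕ} (hN : A.BCN N) {y t : Pt b F} (hy : y ∈ A.D) (ht : t ∈ A.orb y)
    {s : Equiv.Perm (Pt b F)} (hs : s ∈ A.S) :
    |A.Hc (A.orb y) (s t) - A.Hc (A.orb y) t| ≤ 1 := by
  have htD : t ∈ A.D := by
    obtain ⟨g, hg, rfl⟩ := ht
    exact A.map_mem hg hy
  have h1 := hδ_lip hN htD hs
  rw [hδ_of_mem ht] at h1
  exact h1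

/-- increments of the top height -/
theorem Fam.tf_step {N : ℕ} (hN : A.BCN N) {z y : Pt b F} (hy : y ∈ A.D) {l r : ℤ}
    {R : Pt b F → Set (Pt b F)} (h : A.Fam z y l r R) {a : Pt b F} (ha : a ∈ A.orb z)
    (hl : l ≤ pos z a) (hr : pos z a ≤ r) {s : Equiv.Perm (Pt b F)} (hs : s ∈ A.S)
    (hl' : l ≤ pos z (s a)) (hr' : pos z (s a) ≤ r) :
    |A.tf y R (s a) - A.tf y R a| ≤ 1 := by
  have hsa : s a ∈ A.orb z := A.orb_map (A.mem_G_of_mem_S hs) ha
  obtain ⟨t, ht, h1, h2⟩ := h.tf_spec hN hy ha hl hr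
  obtain ⟨t', ht', h1', h2'⟩ := h.tf_spec hN hy hsa hl' hr'
  have heq := h.eqv a ha s hs hl hr hl' hr'
  have hst : s t ∈ R (s a) := by rw [heq]; exact ⟨t, ht, rfl⟩
  rw [heq] at ht'
  obtain ⟨t'', ht'', rfl⟩ := ht'
  have h3 := h2' (s t) hst
  have h4 := h2 t'' ht''
  have h5 := abs_le.1 (Hc_step hN hy (h.sub a ha hl hr ht) hs)
  have h6 := abs_le.1 (Hc_step hN hy (h.sub a ha hl hr ht'') hs)
  rw [abs_le]
  constructor <;> linarith

/-- the defect is nonnegative -/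
theorem Fam.def_nonneg {N : ℕ} (hN : A.BCN N) {z y : Pt b F} (hy : y ∈ A.D) {l r : ℤ}
    {R : Pt b F → Set (Pt b F)} (h : A.Fam z y l r R) {a : Pt b F} (ha : a ∈ A.orb z)
    (hl : l + A.ρ ≤ pos z a) (hr : pos z a + A.ρ ≤ r) :
    0 ≤ ∑ s ∈ A.S, (A.tf y R (s a) - A.tf y R a) := by
  have hρ0 : (0 : ℤ) ≤ A.ρ := by positivity
  obtain ⟨t, ht, h1, h2⟩ := h.tf_spec hN hy ha (by linarith) (by linarith)
  have htD : t ∈ A.D := by
    obtain ⟨g, hg, rfl⟩ := h.sub a ha (by linarith) (by linarith) ht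
    exact A.map_mem hg hy
  have h3 := hδ_harm hN htD
  rw [← h3]
  apply Finset.sum_le_sum
  intro s hs
  have h4 := pos_add (A.sameLine_orb ha)
    (sameLine_of_mem_PW (A.G_le_PW (A.mem_G_of_mem_S hs)) a)
  have h5 := abs_le.1 (abs_disp_le (A.pw s hs).1 a)
  have h5' : pos a (s a) = disp s a := rfl
  have hl1 : l ≤ pos z (s a) := by linarith [h5.1]
  have hr1 : pos z (s a) ≤ r := by linarith [h5.2]
  have heq := h.eqv a ha s hs (by linarith) (by linarith) hl1 hr1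
  have hst : s t ∈ R (s a) := by rw [heq]; exact ⟨t, ht, rfl⟩
  have h6 := h.le_tf hN hy (A.orb_map (A.mem_G_of_mem_S hs) ha) hl1 hr1 hst
  rw [hδ_of_mem (h.sub a ha (by linarith) (by linarith) ht), ← h1]
  linarith

/-- transport of the rows along words -/
theorem Fam.list {a y : Pt b F} {M : ℕ} {R : Pt b F → Set (Pt b F)}
    (h : A.Fam a y (-(M : ℤ)) M R) (l : List (Equiv.Perm (Pt b F))) (hl : ∀ s ∈ l, s ∈ A.S)
    (hM : A.ρ * l.length ≤ M) :
    R (l.prod a) = l.prod '' R a ∧ |pos a (l.prod a)| ≤ A.ρ * l.length := by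
  induction l with
  | nil =>
    simp only [List.prod_nil, Equiv.Perm.one_apply, List.length_nil]
    refine ⟨?_, by rw [pos_self]; simp⟩
    ext t; simp
  | cons s l ih =>
    have hM' : A.ρ * l.length ≤ M := by
      refine le_trans ?_ hM
      rw [List.length_cons]
      exact Nat.mul_le_mul_left _ (Nat.le_succ _)
    obtain ⟨ih1, ih2⟩ := ih (fun t ht => hl t (List.mem_cons_of_mem _ ht)) hM'
    have hlG : l.prod ∈ A.G := Subgroup.list_prod_mem _
      (fun t ht => A.mem_G_of_mem_S (hl t (List.mem_cons_of_mem _ ht)))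
    have hs := hl s List.mem_cons_self
    have hla : l.prod a ∈ A.orb a := ⟨_, hlG, rfl⟩
    have h4 := pos_add (A.sameLine_orb hla)
      (sameLine_of_mem_PW (A.G_le_PW (A.mem_G_of_mem_S hs)) (l.prod a))
    have h5 := abs_disp_le (A.pw s hs).1 (l.prod a)
    have h5' : pos (l.prod a) (s (l.prod a)) = disp s (l.prod a) := rfl
    have h6 : |pos a (s (l.prod a))| ≤ A.ρ * (l.length + 1 : ℕ) := by
      rw [h4, h5']
      refine (abs_add_le _ _).trans ?_
      push_cast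
      linarith
    have h7 : (A.ρ : ℤ) * (l.length + 1 : ℕ) ≤ M := by
      rw [List.length_cons] at hM
      exact_mod_cast hM
    have h8 : (A.ρ : ℤ) * l.length ≤ M := by exact_mod_cast hM'
    have r1 := abs_le.1 (ih2.trans h8)
    have r2 := abs_le.1 (h6.trans h7)
    rw [List.prod_cons]
    refine ⟨?_, ?_⟩
    · rw [Equiv.Perm.mul_apply, h.eqv _ hla s hs r1.1 r1.2 r2.1 r2.2, ih1, image_image]
      rfl
    · rw [Equiv.Perm.mul_apply, List.length_cons]
      exact h6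

/-- a function on the group which is harmonic along the orbit of `x` is a multiple of `hδ` -/
theorem harm_on_group {N : ℕ} (hN : A.BCN N) {x : Pt b F} (hx : x ∈ A.D)
    {φ : Equiv.Perm (Pt b F) → ℝ} (h1 : ∀ g ∈ A.G, ∀ g' ∈ A.G, g x = g' x → φ g = φ g')
    (h2 : ∀ g ∈ A.G, ∑ s ∈ A.S, (φ (s * g) - φ g) = 0)
    (h3 : ∀ g ∈ A.G, ∀ s ∈ A.S, |φ (s * g) - φ g| ≤ 1)
    (w : Equiv.Perm (Pt b F) → Pt b F → ℝ)
    (hw : ∀ g ∈ A.G, ∀ s ∈ A.S, w s (g x) = φ (s * g) - φ g) :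
    ∀ g ∈ A.G, φ g - φ 1 = cutSum A x 0 w * A.hδ g x := by
  have hrep : ∀ v : A.orb x, ∃ k ∈ A.G, v.1 = k x := fun v => v.2
  choose γ hγ hγx using hrep
  set K : A.orb x → ℝ := fun v => φ (γ v) with hK
  have hKL : ∀ k (hk : k ∈ A.G), K ⟨k x, A.orb_map hk (A.orb_self x)⟩ = φ k := by
    intro k hk
    apply h1 _ (hγ _) _ hk
    rw [← hγx]
  have hKmv : ∀ (s : A.S) (v : A.orb x), K (A.mvx x s v) = φ (s.1 * γ v) := by
    intro s v
    have h1 := hKL (s.1 * γ v) (A.G.mul_mem (A.mem_G_of_mem_S s.2) (hγ v))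
    rw [← h1]
    congr 1
    apply Subtype.ext
    show s.1 v.1 = s.1 (γ v x)
    rw [← hγx]
  have hHarm : NIG.Strand.Harm (A.mvx x) K := by
    intro v
    unfold lap
    have h4 := h2 (γ v) (hγ v)
    rw [← Finset.sum_coe_sort A.S] at h4
    rw [← h4]
    apply Finset.sum_congr rfl
    intro s _
    rw [hKmv]
  have hLip : Lip (A.mvx x) 1 K := by
    intro s v
    rw [hKmv]
    exact h3 _ (hγ v) s.1 s.2
  have hcur : cutSum A x 0 w = cur (A.mvx x) (A.posx x) K 0 := by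
    rw [cutSum_eq hN hx, (A.isStrand hN hx).cur_cross]
    apply Finset.sum_congr rfl
    intro v _
    apply Finset.sum_congr rfl
    intro s _
    have : w s.1 v.1 = K (A.mvx x s v) - K v := by
      rw [hKmv, ← hw _ (hγ v) s.1 s.2, ← hγx]
    rw [this]
  intro g hg
  have haff := (A.Hc_spec hN hx).affine (A.isStrand hN hx) hHarm hLip ⟨x, A.orb_self x⟩
    ⟨g x, A.orb_map hg (A.orb_self x)⟩
  rw [hKL g hg, ← hcur] at haff
  have h5 : K ⟨x, A.orb_self x⟩ = φ 1 := by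
    have := hKL 1 A.G.one_mem
    rw [← this]
    rfl
  rw [h5] at haff
  rw [haff]
  rfl

/-- convergence of cut sums -/
theorem tendsto_cutSum {N : ℕ} (hN : A.BCN N) {κ : Type*} {U : Ultrafilter κ} {u : κ → Pt b F}
    {x : Pt b F} (hu : ∀ N : ℕ, ∀ᶠ i in (U : Filter κ), Agree N (u i) x) (huD : ∀ i, u i ∈ A.D)
    (c : ℤ) {wi : κ → Equiv.Perm (Pt b F) → Pt b F → ℝ} {w : Equiv.Perm (Pt b F) → Pt b F → ℝ}
    (h : ∀ g ∈ A.G, ∀ s ∈ A.S, Filter.Tendsto (fun i => wi i s (g (u i))) (U : Filter κ)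
      (nhds (w s (g x)))) :
    Filter.Tendsto (fun i => cutSum A (u i) c (wi i)) (U : Filter κ) (nhds (cutSum A x c w)) := by
  unfold cutSum
  apply tendsto_finset_sum
  intro k _
  apply tendsto_finset_sum
  intro φ _
  apply tendsto_finset_sum
  intro s hs
  have hsG := A.mem_G_of_mem_S hs
  have hor := orb_iff_ulim hN hu huD k φ
  by_cases ha : (sh k x.1, φ) ∈ A.orb x
  · have ha' := ha
    obtain ⟨γ, hγ, hγx⟩ := ha'
    obtain ⟨ρ1, h1, -⟩ := A.G_le_PW hγ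
    have hsγ := A.G.mul_mem hsG hγ
    obtain ⟨ρ2, h2, -⟩ := A.G_le_PW hsγ
    have h3 : ∀ᶠ i in (U : Filter κ), γ (u i) = (sh k (u i).1, φ) := by
      filter_upwards [hu ρ1] with i hi
      exact (eq_sh_iff_of_agree h1 hi.symm).1 hγx.symm
    have h4 : ∀ᶠ i in (U : Filter κ),
        pos (u i) (s (sh k (u i).1, φ)) = pos x (s (sh k x.1, φ)) := by
      filter_upwards [hu ρ2, h3] with i hi hi3
      rw [← hi3]
      have h5 : s (sh k x.1, φ) = (s * γ) x := by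
        rw [Equiv.Perm.mul_apply, ← hγx]
      rw [h5]
      exact disp_eq_of_agree h2 hi
    by_cases hc : c < pos x (s (sh k x.1, φ))
    · rw [if_pos ⟨ha, hc⟩, hγx]
      refine (h γ hγ s hs).congr' ?_
      filter_upwards [hor, h3, h4] with i hi1 hi2 hi3
      rw [if_pos ⟨hi1.2 ha, by rw [hi3]; exact hc⟩, hi2]
    · rw [if_neg (fun hh => hc hh.2)]
      apply tendsto_const_nhds.congr'
      filter_upwards [h4] with i hi3
      rw [if_neg]
      rintro ⟨-, h6⟩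
      rw [hi3] at h6
      exact hc h6
  · rw [if_neg (fun hh => ha hh.1)]
    apply tendsto_const_nhds.congr'
    filter_upwards [hor] with i hi
    rw [if_neg (fun hh => ha (hi.1 hh.1))]

/-- current of a function through a cut of the strand of `x` -/
noncomputable def curx (A : Sys b F) (x : Pt b F) (f : Pt b F → ℝ) (c : ℤ) : ℝ :=
  cur (A.mvx x) (A.posx x) (fun v => f v.1) c

theorem curx_eq {N : ℕ} (hN : A.BCN N) {x : Pt b F} (hx : x ∈ A.D) (f : Pt b F → ℝ) (c : ℤ) :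
    A.curx x f c = cutSum A x c (fun s v => f (s v) - f v) := by
  unfold curx
  rw [cutSum_eq hN hx, (A.isStrand hN hx).cur_cross]
  rfl

/-- change of the base point -/
theorem curx_rebase {x x' : Pt b F} (hx' : x' ∈ A.orb x) (f : Pt b F → ℝ) (c : ℤ) :
    A.curx x' f c = A.curx x f (c + pos x x') := by
  have he : A.orb x' = A.orb x := A.orb_eq hx'
  unfold curx _root_.NIG.Strand.cur _root_.NIG.Strand.E
  congr 1
  rw [← finsum_comp_equiv ((Equiv.setCongr he).prodCongr (Equiv.refl A.S))]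
  apply finsum_congr
  intro p
  have h1 : ∀ v : A.orb x', cut (A.posx x') c v
      = cut (A.posx x) (c + pos x x') (Equiv.setCongr he v) := by
    intro v
    unfold cut
    have h2 : A.posx x (Equiv.setCongr he v) = pos x x' + A.posx x' v :=
      pos_add (A.sameLine_orb hx') (A.sameLine_orb v.2)
    rw [h2]
    by_cases hc : c < A.posx x' v
    · rw [if_pos hc, if_pos (by omega)]
    · rw [if_neg hc, if_neg (by omega)]
  have h2 : ∀ (s : A.S) (v : A.orb x'), Equiv.setCongr he (A.mvx x' s v)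
      = A.mvx x s (Equiv.setCongr he v) := by
    intro s v
    rfl
  simp only [grad, h1, h2, Equiv.prodCongr_apply, Prod.map_fst, Prod.map_snd, Equiv.refl_apply]
  rfl

end Sys

end Pool.Agent.helper98.NIG
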